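import Mathlib

/-!
# Definitions for the `d = 3` half of MP_e4a9a7_pr

See the blueprint `h41_MP_e4a9a7_pr_d3.md` in the team store.
-/

namespace Pool.Agent.Lib.MP_e4a9a7_pr.D3

open scoped ENNReal NNReal BigOperators
open MeasureTheory

/-! ## Poisson weights on finitely supported configurations -/

section PPP

variable {W : Type}

/-- unnormalised Poisson weight of the configuration `c` for the intensity `l` -/
noncomputable def pw (l : W → ℝ≥0∞) (c : W →₀ ℕ) : ℝ≥0∞ :=
  c.prod fun w k => l w ^ k / (k.factorial : ℝ≥0∞)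

/-- normalised Poisson weight -/
noncomputable def npw (l : W → ℝ≥0∞) (c : W →₀ ℕ) : ℝ≥0∞ :=
  pw l c / ∑' c', pw l c'

/-- linear statistic of a configuration -/
noncomputable def lin (g : W → ℝ≥0∞) (c : W →₀ ℕ) : ℝ≥0∞ :=
  c.sum fun w k => (k : ℝ≥0∞) * g w

end PPP

/-! ## Paths -/

section Paths

variable {V : Type}

/-- last vertex of the path `v, w_0, w_1, ...` -/
def en : V → List V → V
  | v, [] => v
  | _, y :: w => en y w

/-- product of the weights along the path `v, w_0, w_1, ...` -/
noncomputable def pr (P : V → V → ℝ≥0) : V → List V → ℝ≥0∞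
  | _, [] => 1
  | v, y :: w => (P v y : ℝ≥0∞) * pr P y w

/-- vertex at time `m` of the path `v, w_0, w_1, ...` -/
def att (v : V) (w : List V) (m : ℕ) : V := (v :: w).getD m v

/-- expectation over the paths with `n` steps from `v` -/
noncomputable def Ex [Fintype V] (P : V → V → ℝ≥0) : V → ℕ → (List V → ℝ≥0∞) → ℝ≥0∞
  | _, 0, F => F []
  | v, n + 1, F => ∑ y, (P v y : ℝ≥0∞) * Ex P y n (fun w => F (y :: w))

end Paths

/-! ## Networks -/

/-- A finite network: symmetric subMarkov weights `P` without loops and a function `H` with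
strictly positive defect `η = H - P H`. -/
structure Net (V : Type) [Fintype V] where
  P : V → V → ℝ≥0
  symm : ∀ x y, P x y = P y x
  diag : ∀ x, P x x = 0
  sub : ∀ x, ∑ y, P x y ≤ 1
  H : V → ℝ≥0
  η : V → ℝ≥0
  η_pos : ∀ x, 0 < η x
  eq : ∀ x, H x = η x + ∑ y, P x y * H y

section Network

variable {V : Type} [Fintype V] (N : Net V)

/-- weight of a path killed at its end -/
noncomputable def bw (v : V) (w : List V) : ℝ≥0∞ := pr N.P v w * (N.η (en v w) : ℝ≥0∞)

/-- intensity of the Poisson cloud of paths -/
noncomputable def iota : List V → ℝ≥0∞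
  | [] => 0
  | v :: w => (N.η v : ℝ≥0∞) * bw N v w / 2

end Network

/-- clouds: finitely supported multisets of paths -/
abbrev Cloud (V : Type) := List V →₀ ℕ

/-- the trace of a cloud -/
def Tr {V : Type} (c : Cloud V) : Set V := {v | ∃ w ∈ c.support, v ∈ w}

/-- the law of the Poisson cloud -/
noncomputable def ppp {V : Type} [Fintype V] (N : Net V) (c : Cloud V) : ℝ≥0∞ := npw (iota N) c

/-! ## Gaussian free field -/

section Gaussian

variable {V : Type} [Fintype V]

/-- the quadratic form `(1/2) <φ, (1 - P) φ>` -/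
noncomputable def Qf (P : V → V → ℝ≥0) (φ : V → ℝ) : ℝ :=
  (∑ v, φ v ^ 2) / 2 - (∑ x, ∑ y, (P x y : ℝ) * φ x * φ y) / 2

/-- partition function -/
noncomputable def Zg (P : V → V → ℝ≥0) : ℝ≥0∞ :=
  ∫⁻ φ : V → ℝ, ENNReal.ofReal (Real.exp (- Qf P φ))

/-- density of the free field -/
noncomputable def gam (P : V → V → ℝ≥0) (φ : V → ℝ) : ℝ≥0∞ :=
  ENNReal.ofReal (Real.exp (- Qf P φ)) / Zg P

/-- local strength of the field at `v` -/
noncomputable def Sv (N : Net V) (Φ : V → ℝ) (v : V) : ℝ≥0∞ :=
  ENNReal.ofReal (|Φ v| * (∑ y, (N.P v y : ℝ) * |Φ y| + (N.η v : ℝ)))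

end Gaussian

/-! ## Chains (abstract hiding) -/

/-- Data of a hiding chain.  `V`: marks, `W`: hosts (points of the Poisson cloud), `Y`: labels of
transitions, `Z`: initial states. `h j v y w` is the density of the host `w` with respect to the
intensity `l`, for the transition with label `y` from the mark `v` at level `j`. -/
structure Chain (V W Y Z : Type) where
  l : W → ℝ≥0∞
  nx : V → Y → V
  e0 : Z → V
  om : Z → ℝ≥0∞
  h : ℕ → V → Y → W → ℝ≥0∞

namespace Chain

variable {V W Y Z : Type} (C : Chain V W Y Z)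

/-- current mark -/
def endp (z : Z) : List Y → V
  | [] => C.e0 z
  | y :: ys => C.nx (endp z ys) y

/-- transition probabilities of the marks -/
noncomputable def tau (j : ℕ) (v : V) (y : Y) : ℝ≥0∞ := ∑' w, C.l w * C.h j v y w

/-- law of the chain of labels (most recent first) -/
noncomputable def law (z : Z) : List Y → ℝ≥0∞
  | [] => C.om z
  | y :: ys => law z ys * C.tau ys.length (C.endp z ys) y

section
open Classical
variable [Fintype V]

/-- law of the mark at level `j` -/
noncomputable def nu : ℕ → V → ℝ≥0∞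
  | 0, v => ∑' z, if C.e0 z = v then C.om z else 0
  | j + 1, v' => ∑ v, ∑' y, if C.nx v y = v' then C.tau j v y * nu j v else 0

/-- density of (host, new mark) in the transition from level `j` -/
noncomputable def gg (j : ℕ) (w : W) (v' : V) : ℝ≥0∞ :=
  ∑ v, ∑' y, if C.nx v y = v' then C.h j v y w * C.nu j v else 0

/-- density of the mark at level `j` given the cloud -/
noncomputable def xi : ℕ → (W →₀ ℕ) → V → ℝ≥0∞
  | 0, _, v => C.nu 0 v
  | j + 1, c, v => lin (fun w => C.gg j w v) c

/-- error at the transition from level `j` -/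
noncomputable def err (j : ℕ) : ℝ≥0∞ :=
  ∑' w, C.l w * ∑' c, npw C.l c *
    ∑ v', ((∑ v, ∑' y, if C.nx v y = v' then C.h j v y w * C.xi j c v else 0) - C.gg j w v')

/-- final error -/
noncomputable def berr (k : ℕ) : ℝ≥0∞ :=
  ∑' c, npw C.l c * ((∑ v, C.xi k c v) - 1)

end

/-- all the labels are hidden in hosts belonging to the cloud `c` -/
def Hid (z : Z) : List Y → (W →₀ ℕ) → Prop
  | [], _ => True
  | y :: ys, c => Hid z ys c ∧ ∃ w ∈ c.support, C.h ys.length (C.endp z ys) y w ≠ 0

end Chain

/-! ## The concrete chain -/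

section Concrete

variable {V : Type} [Fintype V]

open Classical in
/-- density (with respect to `iota`) of the host `w` containing the segment `v :: s`;
`q` is the law of the duration, `B` the set of allowed new marks -/
noncomputable def hst (N : Net V) (q : ℕ → ℝ≥0∞) (B : Set V) (v : V) (s : List V) (w : List V) :
    ℝ≥0∞ :=
  ∑' α : List V, ∑' β : List V,
    if w = α.reverse ++ (v :: s) ++ β ∧ en v s ∈ B then
      2 * q s.length / ((N.H v : ℝ≥0∞) * (N.H (en v s) : ℝ≥0∞)) else 0

open Classical in
/-- law of the two initial segments -/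
noncomputable def om0 (N : Net V) (b : V) (q : ℕ → ℝ≥0∞) (B : Set V) (z : List V × List V) :
    ℝ≥0∞ :=
  if en b z.1 ∈ B ∧ en (en b z.1) z.2 ∈ B then
    q z.1.length * pr N.P b z.1 * (q z.2.length * pr N.P (en b z.1) z.2) else 0

/-- the chain hiding the random walk from `b`; `q j` is the law of the duration at level `j` and
`B j` the set of allowed marks at level `j` (the two initial segments have level `0`) -/
noncomputable def chn (N : Net V) (b : V) (q : ℕ → ℕ → ℝ≥0∞) (B : ℕ → Set V) :
    Chain V (List V) (List V) (List V × List V) where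
  l := iota N
  nx := en
  e0 z := en (en b z.1) z.2
  om := om0 N b (q 0) (B 0)
  h j := hst N (q (j + 1)) (B (j + 1))

end Concrete

end Pool.Agent.Lib.MP_e4a9a7_pr.D3
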