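import Mathlib
import Pool.Agent.Lib.MP_e4a9a7_pr.D3.Defs

/-!
# Task A: Poisson weights
-/

namespace Pool.Agent.Lib.MP_e4a9a7_pr.D3

open scoped ENNReal NNReal BigOperators

variable {W : Type} (l : W → ℝ≥0∞)

theorem pw_zero : pw l 0 = 1 := by
  simp [pw]

theorem fac_step (a : ℝ≥0∞) (k : ℕ) :
    a ^ (k + 1) / ((k + 1).factorial : ℝ≥0∞) * ((k : ℝ≥0∞) + 1)
      = a ^ k / (k.factorial : ℝ≥0∞) * a := by
  have h1 : ((k : ℝ≥0∞) + 1) ≠ 0 := by positivity
  have h2 : ((k : ℝ≥0∞) + 1) ≠ ∞ := by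
    exact ENNReal.add_ne_top.2 ⟨ENNReal.natCast_ne_top k, ENNReal.one_ne_top⟩
  have h3 : ((k.factorial : ℕ) : ℝ≥0∞) ≠ 0 := by
    exact_mod_cast k.factorial_ne_zero
  rw [Nat.factorial_succ, Nat.cast_mul, Nat.cast_add, Nat.cast_one, div_eq_mul_inv,
    ENNReal.mul_inv (Or.inl h1) (Or.inl h2), div_eq_mul_inv, pow_succ]
  calc a ^ k * a * (((k : ℝ≥0∞) + 1)⁻¹ * (k.factorial : ℝ≥0∞)⁻¹) * ((k : ℝ≥0∞) + 1)
      = a ^ k * (k.factorial : ℝ≥0∞)⁻¹ * a * (((k : ℝ≥0∞) + 1)⁻¹ * ((k : ℝ≥0∞) + 1)) := by ring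
    _ = a ^ k * (k.factorial : ℝ≥0∞)⁻¹ * a := by
      rw [ENNReal.inv_mul_cancel h1 h2, mul_one]

open Classical in
theorem pw_eq_prod (c : W →₀ ℕ) (s : Finset W) (hs : c.support ⊆ s) :
    pw l c = ∏ x ∈ s, l x ^ (c x) / ((c x).factorial : ℝ≥0∞) := by
  unfold pw
  exact Finsupp.prod_of_support_subset c hs _ (fun i _ => by simp)

open Classical in
theorem pw_add_single (c : W →₀ ℕ) (w : W) :
    pw l (c + Finsupp.single w 1) * ((c w : ℝ≥0∞) + 1) = pw l c * l w := by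
  have hs1 : c.support ⊆ insert w c.support := Finset.subset_insert _ _
  have hs2 : (c + Finsupp.single w 1).support ⊆ insert w c.support := by
    intro x hx
    by_cases h : x = w
    · rw [h]; exact Finset.mem_insert_self _ _
    · refine Finset.mem_insert_of_mem ?_
      rw [Finsupp.mem_support_iff] at hx ⊢
      rw [Finsupp.add_apply, Finsupp.single_eq_of_ne h, add_zero] at hx
      exact hx
  rw [pw_eq_prod l c _ hs1, pw_eq_prod l _ _ hs2,
    ← Finset.mul_prod_erase _ _ (Finset.mem_insert_self w c.support),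
    ← Finset.mul_prod_erase _ (fun x => l x ^ (c x) / ((c x).factorial : ℝ≥0∞))
      (Finset.mem_insert_self w c.support)]
  have h1 : ∏ x ∈ (insert w c.support).erase w,
      l x ^ ((c + Finsupp.single w 1 : W →₀ ℕ) x) /
        (((c + Finsupp.single w 1 : W →₀ ℕ) x).factorial : ℝ≥0∞)
      = ∏ x ∈ (insert w c.support).erase w, l x ^ (c x) / ((c x).factorial : ℝ≥0∞) := by
    refine Finset.prod_congr rfl fun x hx => ?_
    have : x ≠ w := Finset.ne_of_mem_erase hx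
    rw [Finsupp.add_apply, Finsupp.single_eq_of_ne this, add_zero]
  rw [h1, Finsupp.add_apply, Finsupp.single_eq_same]
  have h2 := fac_step (l w) (c w)
  calc _ = (l w ^ (c w + 1) / ((c w + 1).factorial : ℝ≥0∞) * ((c w : ℝ≥0∞) + 1)) *
        ∏ x ∈ (insert w c.support).erase w, l x ^ (c x) / ((c x).factorial : ℝ≥0∞) := by ring
    _ = _ := by rw [h2]; ring

theorem add_single_inj (w : W) :
    Function.Injective (fun c : W →₀ ℕ => c + Finsupp.single w 1) :=
  fun _ _ h => add_right_cancel h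

theorem sub_single_add (c : W →₀ ℕ) (w : W) (hw : 1 ≤ c w) :
    c - Finsupp.single w 1 + Finsupp.single w 1 = c := by
  refine tsub_add_cancel_of_le ?_
  rw [Finsupp.single_le_iff]
  exact hw

theorem mecke (w : W) (F : (W →₀ ℕ) → ℝ≥0∞) :
    ∑' c, pw l c * (c w : ℝ≥0∞) * F c = l w * ∑' c, pw l c * F (c + Finsupp.single w 1) := by
  rw [← ENNReal.tsum_mul_left, ← (add_single_inj w).tsum_eq]
  · refine tsum_congr fun c => ?_
    have := pw_add_single l c w
    simp only [Finsupp.add_apply, Finsupp.single_eq_same, Nat.cast_add, Nat.cast_one]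
    rw [this]
    ring
  · intro c hc
    rw [Function.mem_support] at hc
    have hw : 1 ≤ c w := by
      rw [Nat.one_le_iff_ne_zero]
      intro h
      apply hc
      simp [h]
    exact ⟨c - Finsupp.single w 1, sub_single_add c w hw⟩

/-- number of points -/
noncomputable def dg (c : W →₀ ℕ) : ℕ := c.sum fun _ k => k

theorem dg_add_single (c : W →₀ ℕ) (w : W) : dg (c + Finsupp.single w 1) = dg c + 1 := by
  unfold dg
  rw [Finsupp.sum_add_index' (fun _ => rfl) (fun _ _ _ => rfl), Finsupp.sum_single_index rfl]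

theorem dg_eq_zero (c : W →₀ ℕ) : dg c = 0 ↔ c = 0 := by
  constructor
  · intro h
    ext w
    by_contra hw
    have h1 : w ∈ c.support := Finsupp.mem_support_iff.2 hw
    have h2 : c w ≤ dg c := by
      unfold dg Finsupp.sum
      exact Finset.single_le_sum (f := fun x => c x) (fun _ _ => Nat.zero_le _) h1
    rw [h] at h2
    exact hw (Nat.le_zero.1 h2)
  · rintro rfl
    simp [dg]

theorem tsum_mul_eq_lin (g : W → ℝ≥0∞) (c : W →₀ ℕ) :
    ∑' w, (c w : ℝ≥0∞) * g w = lin g c := by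
  rw [tsum_eq_sum (s := c.support)]
  · rfl
  · intro w hw
    rw [Finsupp.notMem_support_iff.1 hw]
    simp

theorem tsum_eq_dg (c : W →₀ ℕ) : ∑' w, (c w : ℝ≥0∞) = (dg c : ℝ≥0∞) := by
  rw [tsum_eq_sum (s := c.support)]
  · unfold dg Finsupp.sum
    rw [Nat.cast_sum]
  · intro w hw
    rw [Finsupp.notMem_support_iff.1 hw]
    simp

open Classical in
/-- partition function with `q` points -/
noncomputable def Zq (q : ℕ) : ℝ≥0∞ := ∑' c : W →₀ ℕ, if dg c = q then pw l c else 0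

theorem Zq_zero : Zq l 0 = 1 := by
  unfold Zq
  rw [tsum_eq_single 0]
  · rw [if_pos ((dg_eq_zero 0).2 rfl), pw_zero]
  · intro c hc
    rw [if_neg]
    rwa [dg_eq_zero]

theorem Zq_succ (q : ℕ) : ((q : ℝ≥0∞) + 1) * Zq l (q + 1) = (∑' w, l w) * Zq l q := by
  classical
  have h1 : ((q : ℝ≥0∞) + 1) * Zq l (q + 1)
      = ∑' c : W →₀ ℕ, ∑' w, pw l c * (c w : ℝ≥0∞) * (if dg c = q + 1 then 1 else 0) := by
    unfold Zq
    rw [← ENNReal.tsum_mul_left]
    refine tsum_congr fun c => ?_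
    rw [ENNReal.tsum_mul_right, ENNReal.tsum_mul_left, tsum_eq_dg]
    by_cases h : dg c = q + 1
    · rw [if_pos h, if_pos h, h]
      push_cast
      ring
    · rw [if_neg h, if_neg h]
      ring
  rw [h1, ENNReal.tsum_comm, ← ENNReal.tsum_mul_right]
  refine tsum_congr fun w => ?_
  rw [mecke l w (fun c => if dg c = q + 1 then 1 else 0)]
  congr 1
  unfold Zq
  refine tsum_congr fun c => ?_
  rw [dg_add_single]
  by_cases h : dg c = q
  · rw [if_pos h, if_pos (by rw [h]), mul_one]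
  · rw [if_neg h, if_neg (fun h' => h (Nat.succ_injective h')), mul_zero]

theorem Zq_eq (q : ℕ) : Zq l q = (∑' w, l w) ^ q / (q.factorial : ℝ≥0∞) := by
  induction q with
  | zero => simp [Zq_zero]
  | succ q ih =>
    have h1 : ((q : ℝ≥0∞) + 1) ≠ 0 := by positivity
    have h2 : ((q : ℝ≥0∞) + 1) ≠ ∞ :=
      ENNReal.add_ne_top.2 ⟨ENNReal.natCast_ne_top q, ENNReal.one_ne_top⟩
    have h3 := Zq_succ l q
    rw [ih] at h3
    have h4 := fac_step (∑' w, l w) q
    rw [mul_comm (∑' w, l w), ← h4, mul_comm] at h3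
    exact (ENNReal.mul_left_inj h1 h2).1 h3

theorem tsum_pw_eq : ∑' c, pw l c = ∑' q, Zq l q := by
  classical
  unfold Zq
  rw [ENNReal.tsum_comm]
  refine tsum_congr fun c => ?_
  rw [tsum_eq_single (dg c)]
  · simp
  · intro q hq
    rw [if_neg (Ne.symm hq)]

theorem tsum_pw (hl : ∑' w, l w ≠ ∞) :
    ∑' c, pw l c = ENNReal.ofReal (Real.exp (∑' w, l w).toReal) := by
  rw [tsum_pw_eq]
  set x : ℝ := (∑' w, l w).toReal with hx
  have hx0 : 0 ≤ x := ENNReal.toReal_nonneg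
  have h1 : (∑' w, l w) = ENNReal.ofReal x := (ENNReal.ofReal_toReal hl).symm
  have h2 : Real.exp x = ∑' q : ℕ, x ^ q / (q.factorial : ℝ) := by
    rw [Real.exp_eq_exp_ℝ, NormedSpace.exp_eq_tsum_div]
  rw [h2, ENNReal.ofReal_tsum_of_nonneg (fun q => by positivity)
    (Real.summable_pow_div_factorial x)]
  refine tsum_congr fun q => ?_
  rw [Zq_eq, h1, ENNReal.ofReal_div_of_pos (by positivity), ENNReal.ofReal_pow hx0,
    ENNReal.ofReal_natCast]

theorem tsum_pw_ne_zero : ∑' c, pw l c ≠ 0 := by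
  intro h
  have h1 := ENNReal.le_tsum (f := fun c => pw l c) 0
  rw [h, pw_zero] at h1
  exact absurd h1 (by simp)

theorem tsum_pw_ne_top (hl : ∑' w, l w ≠ ∞) : ∑' c, pw l c ≠ ∞ := by
  rw [tsum_pw l hl]
  exact ENNReal.ofReal_ne_top

theorem tsum_npw (hl : ∑' w, l w ≠ ∞) : ∑' c, npw l c = 1 := by
  unfold npw
  simp only [div_eq_mul_inv]
  rw [ENNReal.tsum_mul_right, ENNReal.mul_inv_cancel (tsum_pw_ne_zero l) (tsum_pw_ne_top l hl)]

theorem mecke' (w : W) (F : (W →₀ ℕ) → ℝ≥0∞) :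
    ∑' c, npw l c * (c w : ℝ≥0∞) * F c = l w * ∑' c, npw l c * F (c + Finsupp.single w 1) := by
  unfold npw
  have h := mecke l w F
  set Z := ∑' c', pw l c'
  have h1 : ∀ c : W →₀ ℕ, pw l c / Z * (c w : ℝ≥0∞) * F c = Z⁻¹ * (pw l c * (c w : ℝ≥0∞) * F c) :=
    fun c => by rw [div_eq_mul_inv]; ring
  have h2 : ∀ c : W →₀ ℕ, pw l c / Z * F (c + Finsupp.single w 1)
      = Z⁻¹ * (pw l c * F (c + Finsupp.single w 1)) :=
    fun c => by rw [div_eq_mul_inv]; ring
  simp only [h1, h2]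
  rw [ENNReal.tsum_mul_left, ENNReal.tsum_mul_left, h]
  ring

/-- removing one point -/
theorem npw_sub_single (c : W →₀ ℕ) (w : W) (hw : 1 ≤ c w) :
    l w * npw l (c - Finsupp.single w 1) = npw l c * (c w : ℝ≥0∞) := by
  have h := pw_add_single l (c - Finsupp.single w 1) w
  rw [sub_single_add c w hw] at h
  have h1 : (((c - Finsupp.single w 1 : W →₀ ℕ) w : ℕ) : ℝ≥0∞) + 1 = (c w : ℝ≥0∞) := by
    rw [Finsupp.tsub_apply, Finsupp.single_eq_same]
    have h2 : (c w - 1) + 1 = c w := Nat.sub_add_cancel hw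
    exact_mod_cast h2
  rw [h1] at h
  unfold npw
  rw [div_eq_mul_inv, div_eq_mul_inv]
  calc l w * (pw l (c - Finsupp.single w 1) * (∑' c', pw l c')⁻¹)
      = pw l (c - Finsupp.single w 1) * l w * (∑' c', pw l c')⁻¹ := by ring
    _ = _ := by rw [← h]; ring

theorem lin_add_single (g : W → ℝ≥0∞) (c : W →₀ ℕ) (w : W) :
    lin g (c + Finsupp.single w 1) = lin g c + g w := by
  unfold lin
  rw [Finsupp.sum_add_index' (fun _ => by simp) (fun _ _ _ => by push_cast; ring),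
    Finsupp.sum_single_index (by simp)]
  simp

theorem tsum_lin (hl : ∑' w, l w ≠ ∞) (g : W → ℝ≥0∞) :
    ∑' c, npw l c * lin g c = ∑' w, l w * g w := by
  have h1 : ∀ c : W →₀ ℕ, npw l c * lin g c = ∑' w, npw l c * (c w : ℝ≥0∞) * g w := by
    intro c
    rw [← tsum_mul_eq_lin, ← ENNReal.tsum_mul_left]
    exact tsum_congr fun w => by ring
  simp only [h1]
  rw [ENNReal.tsum_comm]
  refine tsum_congr fun w => ?_
  rw [mecke' l w (fun _ => g w), ENNReal.tsum_mul_right, tsum_npw l hl, one_mul]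

theorem tsum_lin_sq (hl : ∑' w, l w ≠ ∞) (g : W → ℝ≥0∞) :
    ∑' c, npw l c * lin g c ^ 2 = ∑' w, l w * g w ^ 2 + (∑' w, l w * g w) ^ 2 := by
  have h1 : ∀ c : W →₀ ℕ, npw l c * lin g c ^ 2
      = ∑' w, npw l c * (c w : ℝ≥0∞) * (g w * lin g c) := by
    intro c
    have h2 : npw l c * lin g c ^ 2 = (∑' w, (c w : ℝ≥0∞) * g w) * (npw l c * lin g c) := by
      rw [tsum_mul_eq_lin]; ring
    rw [h2, ← ENNReal.tsum_mul_right]
    exact tsum_congr fun w => by ring
  simp only [h1]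
  rw [ENNReal.tsum_comm]
  have h3 : ∀ w, ∑' c : W →₀ ℕ, npw l c * (c w : ℝ≥0∞) * (g w * lin g c)
      = l w * g w ^ 2 + l w * g w * ∑' w', l w' * g w' := by
    intro w
    rw [mecke' l w (fun c => g w * lin g c)]
    have h4 : ∀ c : W →₀ ℕ, npw l c * (g w * lin g (c + Finsupp.single w 1))
        = g w * (npw l c * lin g c) + npw l c * g w ^ 2 := by
      intro c
      rw [lin_add_single]; ring
    simp only [h4]
    rw [ENNReal.tsum_add, ENNReal.tsum_mul_left, tsum_lin l hl, ENNReal.tsum_mul_right,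
      tsum_npw l hl]
    ring
  simp only [h3]
  rw [ENNReal.tsum_add, ENNReal.tsum_mul_right, sq (∑' w, l w * g w)]

theorem pospart_aux (lam Z m : ℝ≥0∞) (h1 : lam ≠ ∞) (hm : m ≠ ∞) :
    2 * lam * (Z - m) + 2 * Z * m ≤ lam ^ 2 + Z ^ 2 + m ^ 2 := by
  rcases eq_or_ne Z ∞ with rfl | hZ
  · simp
  lift lam to ℝ≥0 using h1
  lift m to ℝ≥0 using hm
  lift Z to ℝ≥0 using hZ
  norm_cast
  rw [← NNReal.coe_le_coe]
  rcases le_total Z m with h | h
  · rw [tsub_eq_zero_of_le h]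
    push_cast
    nlinarith [sq_nonneg ((Z : ℝ) - m), sq_nonneg (lam : ℝ)]
  · push_cast [NNReal.coe_sub h]
    nlinarith [sq_nonneg ((Z : ℝ) - m - lam)]

/-- one-sided `L^1` bound by the variance.  Hint: for finite `Z`, `m` one has
`2 λ (Z - m) + 2 Z m ≤ λ ^ 2 + Z ^ 2 + m ^ 2` (truncated subtraction). -/
theorem pospart (hl : ∑' w, l w ≠ ∞) (g : W → ℝ≥0∞) (hg : ∑' w, l w * g w ≠ ∞)
    (lam : ℝ≥0∞) (h0 : lam ≠ 0) (h1 : lam ≠ ∞) :
    ∑' c, npw l c * (lin g c - ∑' w, l w * g w)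
      ≤ (lam + (∑' w, l w * g w ^ 2) / lam) / 2 := by
  set m := ∑' w, l w * g w with hm
  set v := ∑' w, l w * g w ^ 2 with hv
  set E := ∑' c, npw l c * (lin g c - m) with hE
  have h2 : 2 * lam * E + 2 * m ^ 2 ≤ lam ^ 2 + v + 2 * m ^ 2 := by
    have h3 : ∑' c, npw l c * (2 * lam * (lin g c - m) + 2 * lin g c * m)
        ≤ ∑' c, npw l c * (lam ^ 2 + lin g c ^ 2 + m ^ 2) :=
      ENNReal.tsum_le_tsum fun c => mul_le_mul_right (pospart_aux lam (lin g c) m h1 hg) _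
    have h4 : ∑' c, npw l c * (2 * lam * (lin g c - m) + 2 * lin g c * m)
        = 2 * lam * E + 2 * m ^ 2 := by
      have h5 : ∀ c : W →₀ ℕ, npw l c * (2 * lam * (lin g c - m) + 2 * lin g c * m)
          = 2 * lam * (npw l c * (lin g c - m)) + 2 * m * (npw l c * lin g c) :=
        fun c => by ring
      simp only [h5]
      rw [ENNReal.tsum_add, ENNReal.tsum_mul_left, ENNReal.tsum_mul_left, tsum_lin l hl, ← hm,
        ← hE]
      ring
    have h6 : ∑' c, npw l c * (lam ^ 2 + lin g c ^ 2 + m ^ 2)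
        = lam ^ 2 + v + 2 * m ^ 2 := by
      have h5 : ∀ c : W →₀ ℕ, npw l c * (lam ^ 2 + lin g c ^ 2 + m ^ 2)
          = npw l c * (lam ^ 2 + m ^ 2) + npw l c * lin g c ^ 2 :=
        fun c => by ring
      simp only [h5]
      rw [ENNReal.tsum_add, ENNReal.tsum_mul_right, tsum_npw l hl, tsum_lin_sq l hl, ← hm, ← hv]
      ring
    rwa [h4, h6] at h3
  have hm2 : 2 * m ^ 2 ≠ ∞ := ENNReal.mul_ne_top (by simp) (ENNReal.pow_ne_top hg)
  have h7 : 2 * lam * E ≤ lam ^ 2 + v := (ENNReal.add_le_add_iff_right hm2).1 h2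
  have h8 : E * (2 * lam) ≤ lam ^ 2 + v := by rwa [mul_comm]
  have h9 : (2 * lam) ≠ 0 := mul_ne_zero (by simp) h0
  have h10 : (2 * lam) ≠ ∞ := ENNReal.mul_ne_top (by simp) h1
  rw [← ENNReal.le_div_iff_mul_le (Or.inl h9) (Or.inl h10)] at h8
  refine h8.trans_eq ?_
  rw [ENNReal.add_div, ENNReal.add_div]
  congr 1
  · rw [ENNReal.div_eq_inv_mul, ENNReal.div_eq_inv_mul,
      ENNReal.mul_inv (Or.inl (by simp)) (Or.inl (by simp)), sq]
    calc 2⁻¹ * lam⁻¹ * (lam * lam) = 2⁻¹ * (lam⁻¹ * lam) * lam := by ring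
      _ = 2⁻¹ * lam := by rw [ENNReal.inv_mul_cancel h0 h1, mul_one]
  · rw [ENNReal.div_eq_inv_mul, ENNReal.div_eq_inv_mul, ENNReal.div_eq_inv_mul,
      ENNReal.mul_inv (Or.inl (by simp)) (Or.inl (by simp))]
    ring

end Pool.Agent.Lib.MP_e4a9a7_pr.D3
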