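import Mathlib
import Pool.Agent.Lib.MP_e4a9a7_pr.D3.PPP

/-!
# Task B: the abstract hiding theorem
-/

namespace Pool.Agent.Lib.MP_e4a9a7_pr.D3

open scoped ENNReal NNReal BigOperators

variable {V W Y Z : Type} [Fintype V]

/-! ### Elementary sums -/

theorem AbsHide.tsum_list_cons (F : List Y → ℝ≥0∞) (h : F [] = 0) :
    ∑' L : List Y, F L = ∑' ys : List Y, ∑' y : Y, F (y :: ys) := by
  have hinj : Function.Injective (fun p : List Y × Y => p.2 :: p.1) := by
    rintro ⟨a, b⟩ ⟨c, d⟩ h
    simp only [List.cons.injEq] at h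
    exact Prod.ext h.2 h.1
  have hs : Function.support F ⊆ Set.range (fun p : List Y × Y => p.2 :: p.1) := by
    intro L hL
    cases L with
    | nil => exact absurd h hL
    | cons y ys => exact ⟨(ys, y), rfl⟩
  rw [← hinj.tsum_eq hs, ENNReal.tsum_prod']

theorem AbsHide.tsum_shift (w : W) (F : (W →₀ ℕ) → ℝ≥0∞) :
    ∑' c : W →₀ ℕ, (if 1 ≤ c w then F (c - Finsupp.single w 1) else 0) = ∑' c, F c := by
  have hinj : Function.Injective (fun c : W →₀ ℕ => c + Finsupp.single w 1) :=
    fun a b h => add_right_cancel h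
  have hs : Function.support
      (fun c : W →₀ ℕ => (if 1 ≤ c w then F (c - Finsupp.single w 1) else 0)) ⊆
      Set.range (fun c : W →₀ ℕ => c + Finsupp.single w 1) := by
    intro c hc
    have h1 : 1 ≤ c w := by
      by_contra h1
      exact hc (by simp only [if_neg h1])
    refine ⟨c - Finsupp.single w 1, ?_⟩
    refine tsub_add_cancel_of_le ?_
    classical
    rw [Finsupp.single_le_iff]
    exact h1
  rw [← hinj.tsum_eq hs]
  refine tsum_congr fun c => ?_
  have h1 : 1 ≤ (c + Finsupp.single w 1 : W →₀ ℕ) w := by simp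
  simp only [if_pos h1, add_tsub_cancel_right]

theorem AbsHide.lin_eq_tsum (g : W → ℝ≥0∞) (c : W →₀ ℕ) :
    lin g c = ∑' w, (c w : ℝ≥0∞) * g w := by
  unfold lin Finsupp.sum
  rw [tsum_eq_sum]
  intro w hw
  rw [Finsupp.notMem_support_iff.1 hw]
  simp

theorem AbsHide.tsum_sum {α : Type} (F : α → V → ℝ≥0∞) :
    ∑' a, ∑ v, F a v = ∑ v, ∑' a, F a v := by
  calc ∑' a, ∑ v, F a v = ∑' a, ∑' v, F a v :=
        tsum_congr fun a => (tsum_fintype (L := SummationFilter.unconditional _) (F a)).symm
    _ = ∑' v, ∑' a, F a v := ENNReal.tsum_comm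
    _ = ∑ v, ∑' a, F a v := tsum_fintype (L := SummationFilter.unconditional _) _

/-! ### The law of the chain -/

omit [Fintype V] in
theorem AbsHide.lawSum_succ (C : Chain V W Y Z) (k : ℕ) :
    ∑' z, ∑' ys : List Y, (if ys.length = k + 1 then C.law z ys else 0)
      = ∑' z, ∑' ys : List Y, (if ys.length = k then C.law z ys else 0) *
          ∑' y, C.tau k (C.endp z ys) y := by
  refine tsum_congr fun z => ?_
  rw [AbsHide.tsum_list_cons _ (by simp)]
  refine tsum_congr fun ys => ?_
  rw [← ENNReal.tsum_mul_left]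
  refine tsum_congr fun y => ?_
  by_cases h : ys.length = k
  · simp [h, Chain.law]
  · simp [h]

omit [Fintype V] in
theorem AbsHide.lawSum_le (C : Chain V W Y Z) (hom : ∑' z, C.om z ≤ 1)
    (htau : ∀ j v, ∑' y, C.tau j v y ≤ 1) (k : ℕ) :
    ∑' z, ∑' ys : List Y, (if ys.length = k then C.law z ys else 0) ≤ 1 := by
  induction k with
  | zero =>
    refine le_trans (le_of_eq ?_) hom
    refine tsum_congr fun z => ?_
    rw [tsum_eq_single ([] : List Y)]
    · simp [Chain.law]
    · intro L hL
      rw [if_neg]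
      intro h
      exact hL (List.length_eq_zero_iff.1 h)
  | succ k ih =>
    rw [AbsHide.lawSum_succ]
    refine le_trans ?_ ih
    refine ENNReal.tsum_le_tsum fun z => ENNReal.tsum_le_tsum fun ys => ?_
    exact mul_le_of_le_one_right' (htau _ _)

/-! ### One step -/

section Step

variable (C : Chain V W Y Z) (k : ℕ) (t : Z → List Y → (W →₀ ℕ) → ℝ≥0∞)

/-- the unthinned coupling at the next level -/
noncomputable def AbsHide.raw : Z → List Y → (W →₀ ℕ) → ℝ≥0∞
  | _, [], _ => 0
  | z, y :: ys, c => ∑' w, if 1 ≤ c w then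
      C.l w * C.h k (C.endp z ys) y w * t z ys (c - Finsupp.single w 1) else 0

open Classical in
/-- the mass of the current mark -/
noncomputable def AbsHide.mm (t : Z → List Y → (W →₀ ℕ) → ℝ≥0∞) (c : W →₀ ℕ) (v : V) : ℝ≥0∞ :=
  ∑' z, ∑' ys, if C.endp z ys = v then t z ys c else 0

open Classical in
/-- transition kernel summed over labels -/
noncomputable def AbsHide.KK (v : V) (w : W) (v' : V) : ℝ≥0∞ :=
  ∑' y, if C.nx v y = v' then C.h k v y w else 0

omit [Fintype V] in
theorem AbsHide.tsum_raw_cons (z : Z) (y : Y) (ys : List Y) :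
    ∑' c, AbsHide.raw C k t z (y :: ys) c = C.tau k (C.endp z ys) y * ∑' c, t z ys c := by
  simp only [AbsHide.raw]
  rw [ENNReal.tsum_comm, Chain.tau, ← ENNReal.tsum_mul_right]
  refine tsum_congr fun w => ?_
  rw [AbsHide.tsum_shift w (fun c => C.l w * C.h k (C.endp z ys) y w * t z ys c),
    ENNReal.tsum_mul_left]

theorem AbsHide.tsum_mm (c : W →₀ ℕ) :
    ∑ v, AbsHide.mm C t c v = ∑' z, ∑' ys, t z ys c := by
  classical
  unfold AbsHide.mm
  rw [← AbsHide.tsum_sum]
  refine tsum_congr fun z => ?_
  rw [← AbsHide.tsum_sum]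
  refine tsum_congr fun ys => ?_
  simp

theorem AbsHide.mm_raw (c : W →₀ ℕ) (v' : V) :
    AbsHide.mm C (AbsHide.raw C k t) c v' =
      ∑' w, if 1 ≤ c w then
        C.l w * ∑ v, AbsHide.KK C k v w v' * AbsHide.mm C t (c - Finsupp.single w 1) v else 0 := by
  classical
  have h1 : ∀ z (ys : List Y),
      (∑' y, if C.endp z (y :: ys) = v' then AbsHide.raw C k t z (y :: ys) c else 0) =
      ∑' w, if 1 ≤ c w then C.l w * ∑ v, AbsHide.KK C k v w v' *
        (if C.endp z ys = v then t z ys (c - Finsupp.single w 1) else 0) else 0 := by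
    intro z ys
    have h2 : ∀ w, (∑ v, AbsHide.KK C k v w v' *
        (if C.endp z ys = v then t z ys (c - Finsupp.single w 1) else 0))
        = AbsHide.KK C k (C.endp z ys) w v' * t z ys (c - Finsupp.single w 1) := by
      intro w
      rw [Finset.sum_eq_single (C.endp z ys)]
      · simp
      · intro v _ hv
        rw [if_neg (Ne.symm hv), mul_zero]
      · intro h
        exact absurd (Finset.mem_univ _) h
    simp only [h2]
    have h3 : ∀ y, (if C.endp z (y :: ys) = v' then AbsHide.raw C k t z (y :: ys) c else 0) =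
        ∑' w, if 1 ≤ c w then (if C.nx (C.endp z ys) y = v' then
          C.l w * C.h k (C.endp z ys) y w * t z ys (c - Finsupp.single w 1) else 0) else 0 := by
      intro y
      simp only [Chain.endp, AbsHide.raw]
      by_cases h : C.nx (C.endp z ys) y = v'
      · simp [h]
      · simp [h]
    simp only [h3]
    rw [ENNReal.tsum_comm]
    refine tsum_congr fun w => ?_
    by_cases hw : 1 ≤ c w
    · simp only [if_pos hw, AbsHide.KK]
      rw [← ENNReal.tsum_mul_right, ← ENNReal.tsum_mul_left]
      refine tsum_congr fun y => ?_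
      by_cases h : C.nx (C.endp z ys) y = v'
      · simp only [if_pos h]; ring
      · simp only [if_neg h]; simp
    · simp only [if_neg hw]; simp
  unfold AbsHide.mm
  calc ∑' z, ∑' ys, (if C.endp z ys = v' then AbsHide.raw C k t z ys c else 0)
      = ∑' z, ∑' ys : List Y, ∑' y,
          (if C.endp z (y :: ys) = v' then AbsHide.raw C k t z (y :: ys) c else 0) := by
        refine tsum_congr fun z => ?_
        rw [AbsHide.tsum_list_cons]
        simp [AbsHide.raw]
    _ = ∑' z, ∑' ys : List Y, ∑' w, (if 1 ≤ c w then C.l w * ∑ v, AbsHide.KK C k v w v' *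
        (if C.endp z ys = v then t z ys (c - Finsupp.single w 1) else 0) else 0) := by
        simp only [h1]
    _ = ∑' w, ∑' z, ∑' ys : List Y, (if 1 ≤ c w then C.l w * ∑ v, AbsHide.KK C k v w v' *
        (if C.endp z ys = v then t z ys (c - Finsupp.single w 1) else 0) else 0) := by
        symm
        rw [ENNReal.tsum_comm]
        refine tsum_congr fun z => ?_
        rw [ENNReal.tsum_comm]
    _ = _ := by
        refine tsum_congr fun w => ?_
        by_cases hw : 1 ≤ c w
        · simp only [if_pos hw]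
          simp only [ENNReal.tsum_mul_left, AbsHide.tsum_sum]
        · simp [hw]

/-- the error at the transition from level `k`, for one cloud -/
theorem AbsHide.mm_raw_le (hmm : ∀ c v, AbsHide.mm C t c v ≤ npw C.l c * C.xi k c v)
    (c : W →₀ ℕ) (v' : V) :
    AbsHide.mm C (AbsHide.raw C k t) c v' - npw C.l c * C.xi (k + 1) c v' ≤
      ∑' w, npw C.l c * (c w : ℝ≥0∞) *
        ((∑ v, AbsHide.KK C k v w v' * C.xi k (c - Finsupp.single w 1) v) - C.gg k w v') := by
  rw [tsub_le_iff_right, AbsHide.mm_raw, Chain.xi, AbsHide.lin_eq_tsum, ← ENNReal.tsum_mul_left,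
    ← ENNReal.tsum_add]
  refine ENNReal.tsum_le_tsum fun w => ?_
  split_ifs with hw
  · calc C.l w * ∑ v, AbsHide.KK C k v w v' * AbsHide.mm C t (c - Finsupp.single w 1) v
        ≤ C.l w * ∑ v, AbsHide.KK C k v w v' * (npw C.l (c - Finsupp.single w 1) *
          C.xi k (c - Finsupp.single w 1) v) := by
          gcongr with v _
          exact hmm _ _
      _ = (C.l w * npw C.l (c - Finsupp.single w 1)) *
            ∑ v, AbsHide.KK C k v w v' * C.xi k (c - Finsupp.single w 1) v := by
          rw [mul_assoc, Finset.mul_sum, Finset.mul_sum, Finset.mul_sum]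
          refine Finset.sum_congr rfl fun v _ => ?_
          ring
      _ = npw C.l c * (c w : ℝ≥0∞) *
            ∑ v, AbsHide.KK C k v w v' * C.xi k (c - Finsupp.single w 1) v := by
          rw [npw_sub_single C.l c w hw]
      _ ≤ npw C.l c * (c w : ℝ≥0∞) *
            (((∑ v, AbsHide.KK C k v w v' * C.xi k (c - Finsupp.single w 1) v) - C.gg k w v')
              + C.gg k w v') := by
          gcongr
          exact le_tsub_add
      _ = _ := by ring
  · exact bot_le

theorem AbsHide.KK_mul (c : W →₀ ℕ) (w : W) (v' : V) :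
    (∑ v, AbsHide.KK C k v w v' * C.xi k c v) =
      ∑ v, ∑' y, (open Classical in if C.nx v y = v' then C.h k v y w * C.xi k c v else 0) := by
  refine Finset.sum_congr rfl fun v _ => ?_
  rw [AbsHide.KK, ← ENNReal.tsum_mul_right]
  refine tsum_congr fun y => ?_
  split_ifs <;> simp

theorem AbsHide.tsum_loss_le (hmm : ∀ c v, AbsHide.mm C t c v ≤ npw C.l c * C.xi k c v) :
    ∑' c, ∑ v', (AbsHide.mm C (AbsHide.raw C k t) c v' - npw C.l c * C.xi (k + 1) c v')
      ≤ C.err k := by
  calc ∑' c, ∑ v', (AbsHide.mm C (AbsHide.raw C k t) c v' - npw C.l c * C.xi (k + 1) c v')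
      ≤ ∑' c, ∑ v', ∑' w, npw C.l c * (c w : ℝ≥0∞) *
        ((∑ v, AbsHide.KK C k v w v' * C.xi k (c - Finsupp.single w 1) v) - C.gg k w v') := by
        refine ENNReal.tsum_le_tsum fun c => Finset.sum_le_sum fun v' _ => ?_
        exact AbsHide.mm_raw_le C k t hmm c v'
    _ = ∑' w, ∑' c, npw C.l c * (c w : ℝ≥0∞) * ∑ v', 
        ((∑ v, AbsHide.KK C k v w v' * C.xi k (c - Finsupp.single w 1) v) - C.gg k w v') := by
        rw [ENNReal.tsum_comm]
        refine tsum_congr fun c => ?_
        rw [← AbsHide.tsum_sum]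
        refine tsum_congr fun w => ?_
        rw [Finset.mul_sum]
    _ = ∑' w, C.l w * ∑' c, npw C.l c * ∑ v',
        ((∑ v, AbsHide.KK C k v w v' * C.xi k c v) - C.gg k w v') := by
        refine tsum_congr fun w => ?_
        rw [mecke' C.l w]
        simp only [add_tsub_cancel_right]
    _ = C.err k := by
        unfold Chain.err
        simp only [AbsHide.KK_mul]

end Step

/-! ### Induction -/

/-- the invariant of the construction -/
structure AbsHide.Inv (C : Chain V W Y Z) (k : ℕ) (t : Z → List Y → (W →₀ ℕ) → ℝ≥0∞) : Prop where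
  len : ∀ z ys c, t z ys c ≠ 0 → ys.length = k
  cloud : ∀ c v, AbsHide.mm C t c v ≤ npw C.l c * C.xi k c v
  law : ∀ z ys, ∑' c, t z ys c ≤ C.law z ys
  mass : ∑' z, ∑' ys : List Y, (if ys.length = k then C.law z ys else 0)
        ≤ (∑' z, ∑' ys, ∑' c, t z ys c) + ∑ j ∈ Finset.range k, C.err j
  hid : ∀ z ys c, t z ys c ≠ 0 → C.Hid z ys c

theorem AbsHide.Hid_mono (C : Chain V W Y Z) (z : Z) (ys : List Y) {c c' : W →₀ ℕ}
    (h : ∀ w, c w ≠ 0 → c' w ≠ 0) (hc : C.Hid z ys c) : C.Hid z ys c' := by
  induction ys with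
  | nil => trivial
  | cons y ys ih =>
    obtain ⟨h1, w, hw, h2⟩ := hc
    refine ⟨ih h1, w, ?_, h2⟩
    rw [Finsupp.mem_support_iff] at hw ⊢
    exact h w hw

theorem AbsHide.inv_zero (C : Chain V W Y Z) (hl : ∑' w, C.l w ≠ ∞) :
    ∃ t, AbsHide.Inv C 0 t := by
  classical
  refine ⟨fun z ys c => if ys = [] then C.om z * npw C.l c else 0, ?_, ?_, ?_, ?_, ?_⟩
  · intro z ys c h
    by_contra h1
    refine h ?_
    rw [if_neg]
    rintro rfl
    exact h1 rfl
  · intro c v
    unfold AbsHide.mm
    rw [Chain.xi, Chain.nu, ← ENNReal.tsum_mul_left]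
    refine ENNReal.tsum_le_tsum fun z => ?_
    rw [tsum_eq_single ([] : List Y)]
    · simp only [Chain.endp, if_true]
      split_ifs with h
      · rw [mul_comm]
      · simp
    · intro ys hys
      simp [hys]
  · intro z ys
    by_cases h : ys = []
    · subst h
      simp only [if_true]
      rw [ENNReal.tsum_mul_left, tsum_npw C.l hl, mul_one, Chain.law]
    · simp [h]
  · simp only [Finset.range_zero, Finset.sum_empty, add_zero]
    refine ENNReal.tsum_le_tsum fun z => ENNReal.tsum_le_tsum fun ys => ?_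
    by_cases h : ys = []
    · subst h
      simp only [if_true, List.length_nil]
      rw [ENNReal.tsum_mul_left, tsum_npw C.l hl, mul_one, Chain.law]
    · have : ys.length ≠ 0 := by simpa using h
      simp [this]
  · intro z ys c h
    cases ys with
    | nil => trivial
    | cons y ys => exact absurd (by simp) h

theorem AbsHide.inv_succ (C : Chain V W Y Z) (hom : ∑' z, C.om z ≤ 1)
    (htau : ∀ j v, ∑' y, C.tau j v y ≤ 1) (k : ℕ) (t : Z → List Y → (W →₀ ℕ) → ℝ≥0∞)
    (ht : AbsHide.Inv C k t) : ∃ t', AbsHide.Inv C (k + 1) t' := by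
  classical
  set r := AbsHide.raw C k t with hr
  set R := AbsHide.mm C r with hR
  set chi : (W →₀ ℕ) → V → ℝ≥0∞ := fun c v => min 1 (npw C.l c * C.xi (k + 1) c v / R c v)
    with hchi
  -- mass of the states
  have hTlaw : ∀ z ys, ∑' c, t z ys c ≤ (if ys.length = k then C.law z ys else 0) := by
    intro z ys
    by_cases h : ys.length = k
    · rw [if_pos h]; exact ht.law z ys
    · rw [if_neg h]
      have : ∀ c, t z ys c = 0 := fun c => by
        by_contra h1
        exact h (ht.len z ys c h1)
      simp [this]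
  have hT1 : ∑' z, ∑' ys, ∑' c, t z ys c ≤ 1 :=
    le_trans (ENNReal.tsum_le_tsum fun z => ENNReal.tsum_le_tsum fun ys => hTlaw z ys)
      (AbsHide.lawSum_le C hom htau k)
  have hraw_len : ∀ z ys c, r z ys c ≠ 0 → ys.length = k + 1 := by
    intro z ys c h
    cases ys with
    | nil => exact absurd (by simp [hr, AbsHide.raw]) h
    | cons y ys =>
      rw [hr, AbsHide.raw, Ne, ENNReal.tsum_eq_zero, not_forall] at h
      obtain ⟨w, hw⟩ := h
      have h1 : t z ys (c - Finsupp.single w 1) ≠ 0 := by
        intro h1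
        refine hw ?_
        rw [h1]; simp
      rw [List.length_cons, ht.len z ys _ h1]
  have hraw_sum : ∀ z, ∑' ys, ∑' c, r z ys c =
      ∑' ys, (∑' c, t z ys c) * ∑' y, C.tau k (C.endp z ys) y := by
    intro z
    rw [AbsHide.tsum_list_cons]
    · refine tsum_congr fun ys => ?_
      rw [← ENNReal.tsum_mul_left]
      refine tsum_congr fun y => ?_
      rw [hr, AbsHide.tsum_raw_cons, mul_comm]
    · simp [hr, AbsHide.raw]
  have hraw1 : ∑' z, ∑' ys, ∑' c, r z ys c ≤ 1 := by
    refine le_trans ?_ hT1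
    refine ENNReal.tsum_le_tsum fun z => ?_
    rw [hraw_sum]
    refine ENNReal.tsum_le_tsum fun ys => mul_le_of_le_one_right' (htau _ _)
  have hRtot : ∑' c, ∑ v, R c v = ∑' z, ∑' ys, ∑' c, r z ys c := by
    simp only [hR, AbsHide.tsum_mm]
    rw [ENNReal.tsum_comm]
    refine tsum_congr fun z => ?_
    rw [ENNReal.tsum_comm]
  have hRfin : ∀ c v, R c v ≠ ∞ := by
    intro c v
    refine ne_top_of_le_ne_top ENNReal.one_ne_top ?_
    calc R c v ≤ ∑ v, R c v := Finset.single_le_sum (fun _ _ => bot_le) (Finset.mem_univ v)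
      _ ≤ ∑' c, ∑ v, R c v := ENNReal.le_tsum c
      _ ≤ 1 := by rw [hRtot]; exact hraw1
  have hmmt' : ∀ c v, AbsHide.mm C (fun z ys c => chi c (C.endp z ys) * r z ys c) c v
      = chi c v * R c v := by
    intro c v
    rw [hR]
    unfold AbsHide.mm
    rw [← ENNReal.tsum_mul_left]
    refine tsum_congr fun z => ?_
    rw [← ENNReal.tsum_mul_left]
    refine tsum_congr fun ys => ?_
    by_cases h : C.endp z ys = v
    · simp [h]
    · simp [h]
  have hchi_loss : ∀ c v, R c v ≤ chi c v * R c v + (R c v - npw C.l c * C.xi (k + 1) c v) := by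
    intro c v
    by_cases h0 : R c v = 0
    · rw [h0]; exact bot_le
    · simp only [hchi]
      rcases le_total (1 : ℝ≥0∞) (npw C.l c * C.xi (k + 1) c v / R c v) with h | h
      · rw [min_eq_left h, one_mul]
        exact le_self_add
      · rw [min_eq_right h, ENNReal.div_mul_cancel h0 (hRfin c v)]
        exact le_add_tsub
  refine ⟨fun z ys c => chi c (C.endp z ys) * r z ys c, ?_, ?_, ?_, ?_, ?_⟩
  · intro z ys c h
    exact hraw_len z ys c (right_ne_zero_of_mul h)
  · intro c v
    rw [hmmt']
    calc chi c v * R c v ≤ (npw C.l c * C.xi (k + 1) c v / R c v) * R c v := by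
          gcongr
          exact min_le_right _ _
      _ ≤ _ := by rw [mul_comm]; exact ENNReal.mul_div_le
  · intro z ys
    calc ∑' c, chi c (C.endp z ys) * r z ys c ≤ ∑' c, r z ys c := by
          refine ENNReal.tsum_le_tsum fun c => mul_le_of_le_one_left' (min_le_left _ _)
      _ ≤ C.law z ys := by
          cases ys with
          | nil => simp [hr, AbsHide.raw]
          | cons y ys =>
            rw [hr, AbsHide.tsum_raw_cons, mul_comm, Chain.law]
            by_cases hk : ys.length = k
            · rw [hk]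
              gcongr
              exact ht.law z ys
            · have := hTlaw z ys
              rw [if_neg hk] at this
              have h0 : ∑' c, t z ys c = 0 := le_antisymm this bot_le
              rw [h0]; simp
  · -- mass
    have hD : ∑' z, ∑' ys : List Y, ((if ys.length = k then C.law z ys else 0) - ∑' c, t z ys c)
        ≤ ∑ j ∈ Finset.range k, C.err j := by
      have h1 : (∑' z, ∑' ys, ∑' c, t z ys c) +
          ∑' z, ∑' ys : List Y, ((if ys.length = k then C.law z ys else 0) - ∑' c, t z ys c)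
          ≤ (∑' z, ∑' ys, ∑' c, t z ys c) + ∑ j ∈ Finset.range k, C.err j := by
        refine le_trans (le_of_eq ?_) ht.mass
        rw [← ENNReal.tsum_add]
        refine tsum_congr fun z => ?_
        rw [← ENNReal.tsum_add]
        refine tsum_congr fun ys => ?_
        exact add_tsub_cancel_of_le (hTlaw z ys)
      exact (ENNReal.add_le_add_iff_left (ne_top_of_le_ne_top ENNReal.one_ne_top hT1)).1 h1
    have hloss := AbsHide.tsum_loss_le C k t ht.cloud
    calc ∑' z, ∑' ys : List Y, (if ys.length = k + 1 then C.law z ys else 0)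
        = ∑' z, ∑' ys : List Y, (if ys.length = k then C.law z ys else 0) *
          ∑' y, C.tau k (C.endp z ys) y := AbsHide.lawSum_succ C k
      _ ≤ ∑' z, ∑' ys : List Y, ((∑' c, t z ys c) * (∑' y, C.tau k (C.endp z ys) y) +
            ((if ys.length = k then C.law z ys else 0) - ∑' c, t z ys c)) := by
          refine ENNReal.tsum_le_tsum fun z => ENNReal.tsum_le_tsum fun ys => ?_
          calc (if ys.length = k then C.law z ys else 0) * ∑' y, C.tau k (C.endp z ys) y
              = ((∑' c, t z ys c) + ((if ys.length = k then C.law z ys else 0) - ∑' c, t z ys c))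
                * ∑' y, C.tau k (C.endp z ys) y := by
                rw [add_tsub_cancel_of_le (hTlaw z ys)]
            _ ≤ _ := by
                rw [add_mul]
                gcongr
                exact mul_le_of_le_one_right' (htau _ _)
      _ = (∑' z, ∑' ys, ∑' c, r z ys c) +
            ∑' z, ∑' ys : List Y, ((if ys.length = k then C.law z ys else 0) - ∑' c, t z ys c) := by
          rw [← ENNReal.tsum_add]
          refine tsum_congr fun z => ?_
          rw [ENNReal.tsum_add, hraw_sum]
      _ ≤ (∑' c, ∑ v, R c v) + ∑ j ∈ Finset.range k, C.err j := by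
          rw [hRtot]
          gcongr
      _ ≤ (∑' c, ∑ v, (chi c v * R c v + (R c v - npw C.l c * C.xi (k + 1) c v))) +
            ∑ j ∈ Finset.range k, C.err j := by
          gcongr with c v _
          exact hchi_loss c v
      _ = (∑' c, ∑ v, chi c v * R c v) +
            (∑' c, ∑ v, (R c v - npw C.l c * C.xi (k + 1) c v)) +
            ∑ j ∈ Finset.range k, C.err j := by
          simp only [Finset.sum_add_distrib]
          rw [ENNReal.tsum_add]
      _ ≤ (∑' c, ∑ v, chi c v * R c v) + C.err k + ∑ j ∈ Finset.range k, C.err j := by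
          gcongr
      _ = (∑' z, ∑' ys, ∑' c, chi c (C.endp z ys) * r z ys c) +
            ∑ j ∈ Finset.range (k + 1), C.err j := by
          rw [Finset.sum_range_succ, add_assoc, add_comm (C.err k)]
          congr 1
          simp only [← hmmt', AbsHide.tsum_mm]
          rw [ENNReal.tsum_comm]
          refine tsum_congr fun z => ?_
          rw [ENNReal.tsum_comm]
  · intro z ys c h
    have h := right_ne_zero_of_mul h
    cases ys with
    | nil => trivial
    | cons y ys =>
      rw [hr, AbsHide.raw, Ne, ENNReal.tsum_eq_zero, not_forall] at h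
      obtain ⟨w, hw⟩ := h
      have hcw : 1 ≤ c w := by
        by_contra h1
        exact hw (by rw [if_neg h1])
      rw [if_pos hcw] at hw
      have h1 : t z ys (c - Finsupp.single w 1) ≠ 0 := right_ne_zero_of_mul hw
      have h2 : C.h k (C.endp z ys) y w ≠ 0 := right_ne_zero_of_mul (left_ne_zero_of_mul hw)
      refine ⟨AbsHide.Hid_mono C z ys ?_ (ht.hid z ys _ h1), w, ?_, ?_⟩
      · intro u hu hu'
        refine hu ?_
        rw [Finsupp.tsub_apply, hu']
        simp
      · rw [Finsupp.mem_support_iff]; omega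
      · rw [ht.len z ys _ h1]; exact h2

theorem AbsHide.exists_inv (C : Chain V W Y Z) (hl : ∑' w, C.l w ≠ ∞) (hom : ∑' z, C.om z ≤ 1)
    (htau : ∀ j v, ∑' y, C.tau j v y ≤ 1) (k : ℕ) : ∃ t, AbsHide.Inv C k t := by
  induction k with
  | zero => exact AbsHide.inv_zero C hl
  | succ k ih =>
    obtain ⟨t, ht⟩ := ih
    exact AbsHide.inv_succ C hom htau k t ht

/-- Abstract hiding theorem.  `t z ys c` is the sub-probability of: initial state `z`, labels `ys`
(most recent first), final cloud `c`. -/
theorem abs_hiding [Countable W] [Countable Y] [Countable Z] (C : Chain V W Y Z)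
    (hl : ∑' w, C.l w ≠ ∞) (hom : ∑' z, C.om z ≤ 1)
    (htau : ∀ j v, ∑' y, C.tau j v y ≤ 1) (k : ℕ) :
    ∃ t : Z → List Y → (W →₀ ℕ) → ℝ≥0∞,
      (∀ z ys c, t z ys c ≠ 0 → ys.length = k) ∧
      (∀ c, ∑' z, ∑' ys, t z ys c ≤ npw C.l c) ∧
      (∀ z ys, ∑' c, t z ys c ≤ C.law z ys) ∧
      (∑' z, ∑' ys : List Y, (if ys.length = k then C.law z ys else 0)
        ≤ (∑' z, ∑' ys, ∑' c, t z ys c) + ∑ j ∈ Finset.range k, C.err j + C.berr k) ∧
      (∀ z ys c, t z ys c ≠ 0 → C.Hid z ys c) := by
  obtain ⟨t, ht⟩ := AbsHide.exists_inv C hl hom htau k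
  set S : (W →₀ ℕ) → ℝ≥0∞ := fun c => ∑ v, C.xi k c v with hS
  set M : (W →₀ ℕ) → ℝ≥0∞ := fun c => ∑' z, ∑' ys, t z ys c with hM
  have hMS : ∀ c, M c ≤ npw C.l c * S c := by
    intro c
    rw [hM, hS]
    simp only
    rw [← AbsHide.tsum_mm C, Finset.mul_sum]
    exact Finset.sum_le_sum fun v _ => ht.cloud c v
  set ρ : (W →₀ ℕ) → ℝ≥0∞ := fun c => min 1 (1 / S c) with hρ
  have hloss : ∀ c, M c ≤ ρ c * M c + npw C.l c * (S c - 1) := by
    intro c
    simp only [hρ]
    rcases le_total (S c) 1 with h | h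
    · have : (1 : ℝ≥0∞) ≤ 1 / S c := by
        rw [one_div]
        exact ENNReal.one_le_inv.2 h
      rw [min_eq_left this, one_mul]
      exact le_self_add
    · by_cases hinf : S c = ∞
      · refine le_trans (hMS c) (le_add_left ?_)
        rw [hinf]
        simp
      · have h1 : 1 / S c ≤ 1 := by
          rw [one_div]
          exact ENNReal.inv_le_one.2 h
        have h0 : S c ≠ 0 := fun h0 => by rw [h0] at h; simp at h
        rw [min_eq_right h1]
        have h2 : (1 : ℝ≥0∞) = 1 / S c + (1 / S c) * (S c - 1) := by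
          calc (1 : ℝ≥0∞) = 1 / S c * S c := by rw [one_div, ENNReal.inv_mul_cancel h0 hinf]
            _ = 1 / S c * (1 + (S c - 1)) := by rw [add_tsub_cancel_of_le h]
            _ = _ := by ring
        calc M c = (1 / S c + (1 / S c) * (S c - 1)) * M c := by rw [← h2, one_mul]
          _ = 1 / S c * M c + (1 / S c) * (S c - 1) * M c := by ring
          _ ≤ 1 / S c * M c + (1 / S c) * (S c - 1) * (npw C.l c * S c) := by
              gcongr
              exact hMS c
          _ = 1 / S c * M c + (1 / S c * S c) * (npw C.l c * (S c - 1)) := by ring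
          _ = _ := by rw [one_div, ENNReal.inv_mul_cancel h0 hinf, one_mul]
  refine ⟨fun z ys c => ρ c * t z ys c, ?_, ?_, ?_, ?_, ?_⟩
  · intro z ys c h
    exact ht.len z ys c (right_ne_zero_of_mul h)
  · intro c
    simp only [ENNReal.tsum_mul_left]
    calc ρ c * M c ≤ ρ c * (npw C.l c * S c) := by gcongr; exact hMS c
      _ ≤ (1 / S c) * (npw C.l c * S c) := by gcongr; exact min_le_right _ _
      _ = npw C.l c * (1 / S c * S c) := by ring
      _ ≤ npw C.l c * 1 := by gcongr; rw [mul_comm]; exact ENNReal.mul_div_le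
      _ = _ := mul_one _
  · intro z ys
    refine le_trans ?_ (ht.law z ys)
    exact ENNReal.tsum_le_tsum fun c => mul_le_of_le_one_left' (min_le_left _ _)
  · have h1 : ∑' z, ∑' ys, ∑' c, t z ys c = ∑' c, M c := by
      rw [hM]
      symm
      rw [ENNReal.tsum_comm]
      refine tsum_congr fun z => ?_
      rw [ENNReal.tsum_comm]
    have h2 : ∑' z, ∑' ys, ∑' c, ρ c * t z ys c = ∑' c, ρ c * M c := by
      rw [hM]
      simp only [← ENNReal.tsum_mul_left]
      symm
      rw [ENNReal.tsum_comm]
      refine tsum_congr fun z => ?_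
      rw [ENNReal.tsum_comm]
    have h3 : ∑' c, M c ≤ ∑' c, ρ c * M c + C.berr k := by
      rw [Chain.berr, ← ENNReal.tsum_add]
      exact ENNReal.tsum_le_tsum hloss
    calc _ ≤ _ := ht.mass
      _ ≤ (∑' c, ρ c * M c + C.berr k) + ∑ j ∈ Finset.range k, C.err j := by
          rw [h1]; gcongr
      _ = _ := by rw [h2]; ring
  · intro z ys c h
    exact ht.hid z ys c (right_ne_zero_of_mul h)

end Pool.Agent.Lib.MP_e4a9a7_pr.D3
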