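import Mathlib
import Pool.Agent.Lib.MP_e4a9a7_pr.D3.Defs

/-!
# Currents: definitions for the proof of Lemma C
-/

namespace Pool.Agent.Lib.MP_e4a9a7_pr.D3

open scoped ENNReal NNReal BigOperators
open MeasureTheory

variable {V : Type}

/-- edges of the network, `Sum.inr v` is the ghost edge at `v` -/
abbrev Edg (V : Type) := Sym2 V ⊕ V

open Classical in
/-- incidence -/
noncomputable def inc (e : Edg V) (v : V) : ℕ :=
  match e with
  | Sum.inl s => if v ∈ s then 1 else 0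
  | Sum.inr u => if v = u then 1 else 0

section
variable [Fintype V]

/-- weights of the edges -/
noncomputable def we (N : Net V) : Edg V → ℝ≥0∞
  | Sum.inl s => ((Sym2.lift ⟨N.P, N.symm⟩ s : ℝ≥0) : ℝ≥0∞)
  | Sum.inr v => (N.η v : ℝ≥0∞)

/-- weights without ghost edges -/
noncomputable def we0 (N : Net V) : Edg V → ℝ≥0∞
  | Sum.inl s => ((Sym2.lift ⟨N.P, N.symm⟩ s : ℝ≥0) : ℝ≥0∞)
  | Sum.inr _ => 0

end

/-- degree of a current -/
noncomputable def deg (n : Edg V →₀ ℕ) (v : V) : ℕ := n.sum fun e k => k * inc e v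

/-- `cc d = (1/2) ∫ ρ^d e^{-ρ²/2} dρ` for even `d` -/
noncomputable def cc (d : ℕ) : ℝ≥0∞ :=
  ENNReal.ofReal (Real.sqrt (Real.pi / 2)) * (Nat.doubleFactorial (d - 1) : ℝ≥0∞)

open Classical in
/-- weight of a current -/
noncomputable def Wt [Fintype V] (w : Edg V → ℝ≥0∞) (n : Edg V →₀ ℕ) : ℝ≥0∞ :=
  if ∀ v, Even (deg n v) then pw w n * ∏ v, cc (deg n v) else 0

/-- edge traversals of the path `v, w_0, w_1, ...`, including the final ghost edge -/
noncomputable def tlc : V → List V → Edg V →₀ ℕ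
  | v, [] => Finsupp.single (Sum.inr v) 1
  | v, y :: w => Finsupp.single (Sum.inl s(v, y)) 1 + tlc y w

/-- edge traversals of a path, including the two ghost edges -/
noncomputable def nn : List V → Edg V →₀ ℕ
  | [] => 0
  | v :: w => Finsupp.single (Sum.inr v) 1 + tlc v w

/-- edge traversals of a cloud -/
noncomputable def ncl (c : Cloud V) : Edg V →₀ ℕ := c.sum fun w k => k • nn w

/-! signs -/

/-- value of the character `e` at `σ` -/
noncomputable def chi [Fintype V] (e : Edg V) (σ : V → ℤˣ) : ℤˣ := ∏ v, σ v ^ inc e v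

def Compat [Fintype V] (m : Edg V →₀ ℕ) (σ : V → ℤˣ) : Prop := ∀ e, m e ≠ 0 → chi e σ = 1

open Classical in
/-- number of compatible sign configurations -/
noncomputable def ncomp [Fintype V] (m : Edg V →₀ ℕ) : ℕ :=
  (Finset.univ.filter (fun σ : V → ℤˣ => Compat m σ)).card

open Classical in
/-- signs of the field -/
noncomputable def sgn (Φ : V → ℝ) (v : V) : ℤˣ := if 0 ≤ Φ v then 1 else -1

/-- edge strengths -/
noncomputable def JJ [Fintype V] (N : Net V) (Φ : V → ℝ) (e : Edg V) : ℝ≥0∞ :=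
  we N e * ENNReal.ofReal (∏ v, |Φ v| ^ inc e v)

open Classical in
/-- `P (σ = sgn Φ | n, |Φ|)` -/
noncomputable def Sg [Fintype V] (N : Net V) (n : Edg V →₀ ℕ) (Φ : V → ℝ) : ℝ≥0∞ :=
  ∑' k : Edg V →₀ ℕ, npw (JJ N Φ) k *
    (if Compat (n + k) (sgn Φ) then ((ncomp (n + k) : ℝ≥0∞))⁻¹ else 0)

/-- conditional density of the field given the current `n` -/
noncomputable def Dd [Fintype V] (N : Net V) (n : Edg V →₀ ℕ) (Φ : V → ℝ) : ℝ≥0∞ :=
  (∏ v, ENNReal.ofReal (|Φ v| ^ deg n v * Real.exp (-(Φ v) ^ 2 / 2)) / cc (deg n v)) * Sg N n Φ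

open Classical in
/-- strengths of the compatible edges, doubled -/
noncomputable def JJ2 [Fintype V] (N : Net V) (Φ : V → ℝ) (e : Edg V) : ℝ≥0∞ :=
  if chi e (sgn Φ) = 1 then 2 * JJ N Φ e else 0

end Pool.Agent.Lib.MP_e4a9a7_pr.D3
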