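import Mathlib
import Pool.Agent.Lib.MP_e4a9a7_pr.D3.Currents
import Pool.Agent.Lib.MP_e4a9a7_pr.D3.PPP

/-!
# Task C2: even sub-multigraphs and the resummation of the current weights
-/

namespace Pool.Agent.Lib.MP_e4a9a7_pr.D3

open scoped ENNReal NNReal BigOperators
open Classical

variable {V : Type} [Fintype V]

/-! ### Finite products and sums -/

private theorem es_deg (n : Edg V →₀ ℕ) (v : V) : deg n v = ∑ e, n e * inc e v := by
  unfold deg
  rw [Finsupp.sum_fintype]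
  intro i
  simp

private theorem es_deg_add (n m : Edg V →₀ ℕ) (v : V) : deg (n + m) v = deg n v + deg m v := by
  rw [es_deg, es_deg, es_deg, ← Finset.sum_add_distrib]
  refine Finset.sum_congr rfl fun e _ => ?_
  rw [Finsupp.add_apply, add_mul]

private theorem es_pw (l : Edg V → ℝ≥0∞) (c : Edg V →₀ ℕ) :
    pw l c = ∏ e, l e ^ c e / ((c e).factorial : ℝ≥0∞) := by
  unfold pw
  rw [Finsupp.prod_fintype]
  intro i
  simp

/-- sums over the sub-multigraphs as iterated sums -/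
private theorem es_sum_Iic (m : Edg V →₀ ℕ) (f : Edg V → ℕ → ℤ) :
    ∑ M ∈ Finset.Iic m, ∏ e, f e (M e) = ∏ e, ∑ j ∈ Finset.range (m e + 1), f e j := by
  rw [Finset.prod_univ_sum]
  refine Finset.sum_bij' (fun M _ => (M : Edg V → ℕ)) (fun x _ => Finsupp.equivFunOnFinite.symm x)
    ?_ ?_ ?_ ?_ ?_
  · intro M hM
    rw [Fintype.mem_piFinset]
    intro e
    rw [Finset.mem_range, Nat.lt_succ_iff]
    exact (Finset.mem_Iic.1 hM) e
  · intro x hx
    rw [Fintype.mem_piFinset] at hx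
    rw [Finset.mem_Iic]
    intro e
    have := hx e
    rw [Finset.mem_range, Nat.lt_succ_iff] at this
    simpa using this
  · intro M _
    ext e
    simp
  · intro x _
    funext e
    simp
  · intro M _
    rfl

private theorem es_sign_sum (d : ℕ) : ∑ u : ℤˣ, ((u : ℤˣ) : ℤ) ^ d = if Even d then 2 else 0 := by
  have h : (Finset.univ : Finset ℤˣ) = {1, -1} := by decide
  rw [h, Finset.sum_pair (by decide)]
  by_cases hd : Even d
  · simp [hd, hd.neg_one_pow]
  · rw [Nat.not_even_iff_odd] at hd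
    simp [Nat.not_even_iff_odd.2 hd, hd.neg_one_pow]

private theorem es_char (M : Edg V →₀ ℕ) :
    ∑ σ : V → ℤˣ, ∏ e, ((chi e σ : ℤˣ) : ℤ) ^ M e =
      if ∀ v, Even (deg M v) then 2 ^ Fintype.card V else 0 := by
  have h1 : ∀ σ : V → ℤˣ, ∏ e, ((chi e σ : ℤˣ) : ℤ) ^ M e = ∏ v, ((σ v : ℤˣ) : ℤ) ^ deg M v := by
    intro σ
    have h2 : ∀ e, ((chi e σ : ℤˣ) : ℤ) ^ M e = ∏ v, ((σ v : ℤˣ) : ℤ) ^ (M e * inc e v) := by
      intro e
      unfold chi
      rw [Units.coe_prod, ← Finset.prod_pow]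
      refine Finset.prod_congr rfl fun v _ => ?_
      rw [Units.val_pow_eq_pow_val, ← pow_mul, mul_comm]
    rw [Finset.prod_congr rfl fun e _ => h2 e, Finset.prod_comm]
    refine Finset.prod_congr rfl fun v _ => ?_
    rw [es_deg, Finset.prod_pow_eq_pow_sum]
  rw [Finset.sum_congr rfl fun σ _ => h1 σ]
  have h3 := Finset.prod_univ_sum (fun _ : V => (Finset.univ : Finset ℤˣ))
    (fun v u => ((u : ℤˣ) : ℤ) ^ deg M v)
  rw [Fintype.piFinset_univ] at h3
  rw [← h3]
  simp only [es_sign_sum]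
  by_cases h : ∀ v, Even (deg M v)
  · rw [if_pos h, Finset.prod_congr rfl fun v _ => if_pos (h v)]
    simp
  · rw [if_neg h]
    push Not at h
    obtain ⟨v, hv⟩ := h
    exact Finset.prod_eq_zero (Finset.mem_univ v) (if_neg hv)

private theorem es_one_add (u : ℤˣ) (k : ℕ) : ((u : ℤ) + 1) ^ k = if k ≠ 0 → u = 1 then 2 ^ k
    else 0 := by
  rcases Nat.eq_zero_or_pos k with rfl | hk
  · simp
  · rcases Int.units_eq_one_or u with rfl | rfl
    · simp only [Units.val_one, implies_true, if_true]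
      norm_num
    · have h1 : ¬ (k ≠ 0 → (-1 : ℤˣ) = 1) := by
        intro h
        exact absurd (h hk.ne') (by decide)
      rw [if_neg h1]
      simp [hk.ne']

/-- number of even sub-multigraphs of `m`: character sum -/
theorem even_count (m : Edg V →₀ ℕ) :
    2 ^ Fintype.card V * ∑ M ∈ Finset.Iic m,
      (if ∀ v, Even (deg M v) then ∏ e, (m e).choose (M e) else 0)
      = 2 ^ (∑ e, m e) * ncomp m := by
  have key : ((2 ^ Fintype.card V * ∑ M ∈ Finset.Iic m,
      (if ∀ v, Even (deg M v) then ∏ e, (m e).choose (M e) else 0) : ℕ) : ℤ)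
      = ((2 ^ (∑ e, m e) * ncomp m : ℕ) : ℤ) := by
    have h1 : ((2 ^ Fintype.card V * ∑ M ∈ Finset.Iic m,
        (if ∀ v, Even (deg M v) then ∏ e, (m e).choose (M e) else 0) : ℕ) : ℤ) =
        ∑ M ∈ Finset.Iic m, ∑ σ : V → ℤˣ,
          ∏ e, (((m e).choose (M e) : ℤ) * ((chi e σ : ℤˣ) : ℤ) ^ M e) := by
      push_cast
      rw [Finset.mul_sum]
      refine Finset.sum_congr rfl fun M _ => ?_
      simp only [Finset.prod_mul_distrib]
      rw [← Finset.mul_sum, es_char]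
      split_ifs with h
      · ring
      · simp
    rw [h1, Finset.sum_comm]
    have h2 : ∀ σ : V → ℤˣ, ∑ M ∈ Finset.Iic m,
        ∏ e, (((m e).choose (M e) : ℤ) * ((chi e σ : ℤˣ) : ℤ) ^ M e) =
        if Compat m σ then 2 ^ (∑ e, m e) else 0 := by
      intro σ
      rw [es_sum_Iic m (fun e j => (((m e).choose j : ℤ) * ((chi e σ : ℤˣ) : ℤ) ^ j))]
      have h3 : ∀ e, ∑ j ∈ Finset.range (m e + 1),
          (((m e).choose j : ℤ) * ((chi e σ : ℤˣ) : ℤ) ^ j) =
          if m e ≠ 0 → chi e σ = 1 then 2 ^ m e else 0 := by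
        intro e
        rw [← es_one_add, add_pow]
        refine Finset.sum_congr rfl fun j _ => ?_
        rw [one_pow]
        ring
      rw [Finset.prod_congr rfl fun e _ => h3 e]
      by_cases h : Compat m σ
      · rw [if_pos h, Finset.prod_congr rfl fun e _ => if_pos (h e), Finset.prod_pow_eq_pow_sum]
      · rw [if_neg h]
        unfold Compat at h
        push Not at h
        obtain ⟨e, he, hc⟩ := h
        refine Finset.prod_eq_zero (Finset.mem_univ e) (if_neg ?_)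
        intro h'
        exact hc (h' he)
    rw [Finset.sum_congr rfl fun σ _ => h2 σ, ← Finset.sum_filter, Finset.sum_const]
    unfold ncomp
    push_cast
    rw [nsmul_eq_mul, mul_comm]
  exact_mod_cast key

/-! ### Weights -/

private theorem es_cc_ne_zero (d : ℕ) : cc d ≠ 0 := by
  unfold cc
  refine mul_ne_zero ?_ ?_
  · rw [Ne, ENNReal.ofReal_eq_zero, not_le]
    exact Real.sqrt_pos.2 (div_pos Real.pi_pos two_pos)
  · exact_mod_cast (Nat.doubleFactorial_pos _).ne'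

private theorem es_cc_ne_top (d : ℕ) : cc d ≠ ∞ :=
  ENNReal.mul_ne_top ENNReal.ofReal_ne_top (ENNReal.natCast_ne_top _)

private theorem es_pw_JJ (N : Net V) (Φ : V → ℝ) (M : Edg V →₀ ℕ) :
    pw (JJ N Φ) M = pw (we N) M * ∏ v, ENNReal.ofReal (|Φ v| ^ deg M v) := by
  rw [es_pw, es_pw]
  have h1 : ∏ v, ENNReal.ofReal (|Φ v| ^ deg M v) =
      ∏ e, ENNReal.ofReal (∏ v, |Φ v| ^ inc e v) ^ M e := by
    have h2 : ∀ e, ENNReal.ofReal (∏ v, |Φ v| ^ inc e v) ^ M e =
        ∏ v, ENNReal.ofReal |Φ v| ^ (M e * inc e v) := by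
      intro e
      rw [ENNReal.ofReal_prod_of_nonneg (fun v _ => by positivity), ← Finset.prod_pow]
      refine Finset.prod_congr rfl fun v _ => ?_
      rw [ENNReal.ofReal_pow (abs_nonneg _), ← pow_mul, mul_comm]
    rw [Finset.prod_congr rfl fun e _ => h2 e, Finset.prod_comm]
    refine Finset.prod_congr rfl fun v _ => ?_
    rw [ENNReal.ofReal_pow (abs_nonneg _), es_deg, Finset.prod_pow_eq_pow_sum]
  rw [h1, ← Finset.prod_mul_distrib]
  refine Finset.prod_congr rfl fun e _ => ?_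
  unfold JJ
  rw [mul_pow, div_eq_mul_inv, div_eq_mul_inv]
  ring

private theorem es_Wt_Dd (N : Net V) (Φ : V → ℝ) (M : Edg V →₀ ℕ) :
    Wt (we N) M * Dd N M Φ = if ∀ v, Even (deg M v) then
      pw (JJ N Φ) M * ENNReal.ofReal (Real.exp (-(∑ v, Φ v ^ 2) / 2)) * Sg N M Φ else 0 := by
  unfold Wt Dd
  split_ifs with h
  · have h1 : ∏ v, ENNReal.ofReal (|Φ v| ^ deg M v * Real.exp (-(Φ v) ^ 2 / 2)) =
        (∏ v, ENNReal.ofReal (|Φ v| ^ deg M v)) *
          ENNReal.ofReal (Real.exp (-(∑ v, Φ v ^ 2) / 2)) := by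
      have h2 : ENNReal.ofReal (Real.exp (-(∑ v, Φ v ^ 2) / 2)) =
          ∏ v, ENNReal.ofReal (Real.exp (-(Φ v) ^ 2 / 2)) := by
        rw [← ENNReal.ofReal_prod_of_nonneg (fun v _ => (Real.exp_pos _).le), ← Real.exp_sum]
        congr 2
        rw [← Finset.sum_neg_distrib, Finset.sum_div]
      rw [h2, ← Finset.prod_mul_distrib]
      refine Finset.prod_congr rfl fun v _ => ?_
      rw [ENNReal.ofReal_mul (by positivity)]
    have h3 : (∏ v, cc (deg M v)) *
        ∏ v, (ENNReal.ofReal (|Φ v| ^ deg M v * Real.exp (-(Φ v) ^ 2 / 2)) / cc (deg M v)) =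
        ∏ v, ENNReal.ofReal (|Φ v| ^ deg M v * Real.exp (-(Φ v) ^ 2 / 2)) := by
      rw [← Finset.prod_mul_distrib]
      refine Finset.prod_congr rfl fun v _ => ?_
      exact ENNReal.mul_div_cancel (es_cc_ne_zero _) (es_cc_ne_top _)
    rw [← mul_assoc, mul_assoc (pw (we N) M), h3, h1, ← mul_assoc (pw (we N) M), ← es_pw_JJ]
  · rw [zero_mul]

private theorem es_fact (x : ℝ≥0∞) (a b : ℕ) :
    x ^ a / (a.factorial : ℝ≥0∞) * (x ^ b / (b.factorial : ℝ≥0∞)) =
      x ^ (a + b) / ((a + b).factorial : ℝ≥0∞) * ((a + b).choose a : ℝ≥0∞) := by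
  have h1 : (((a + b).choose a : ℝ≥0∞)) * (a.factorial : ℝ≥0∞) * (b.factorial : ℝ≥0∞) =
      ((a + b).factorial : ℝ≥0∞) := by
    have h := Nat.add_choose_mul_factorial_mul_factorial a b
    rw [← Nat.choose_symm_add] at h
    exact_mod_cast h
  have ha : (a.factorial : ℝ≥0∞) ≠ 0 := by exact_mod_cast a.factorial_ne_zero
  have hb : (b.factorial : ℝ≥0∞) ≠ 0 := by exact_mod_cast b.factorial_ne_zero
  have hab : ((a + b).factorial : ℝ≥0∞) ≠ 0 := by exact_mod_cast (a + b).factorial_ne_zero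
  have ha' : (a.factorial : ℝ≥0∞) ≠ ∞ := ENNReal.natCast_ne_top _
  have hb' : (b.factorial : ℝ≥0∞) ≠ ∞ := ENNReal.natCast_ne_top _
  have hab' : ((a + b).factorial : ℝ≥0∞) ≠ ∞ := ENNReal.natCast_ne_top _
  have h2 : ((a.factorial : ℝ≥0∞))⁻¹ * ((b.factorial : ℝ≥0∞))⁻¹ =
      (((a + b).factorial : ℝ≥0∞))⁻¹ * ((a + b).choose a : ℝ≥0∞) := by
    rw [← ENNReal.mul_inv (Or.inl ha) (Or.inl ha')]
    symm
    apply ENNReal.eq_inv_of_mul_eq_one_left
    rw [mul_assoc, ← mul_assoc (((a + b).choose a : ℝ≥0∞)), h1]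
    exact ENNReal.inv_mul_cancel hab hab'
  rw [div_eq_mul_inv, div_eq_mul_inv, div_eq_mul_inv, pow_add]
  calc x ^ a * ((a.factorial : ℝ≥0∞))⁻¹ * (x ^ b * ((b.factorial : ℝ≥0∞))⁻¹)
      = x ^ a * x ^ b * (((a.factorial : ℝ≥0∞))⁻¹ * ((b.factorial : ℝ≥0∞))⁻¹) := by ring
    _ = _ := by rw [h2]; ring

private theorem es_pw_mul (l : Edg V → ℝ≥0∞) (M k : Edg V →₀ ℕ) :
    pw l M * pw l k = pw l (M + k) * ((∏ e, ((M + k) e).choose (M e) : ℕ) : ℝ≥0∞) := by
  rw [es_pw, es_pw, es_pw, ← Finset.prod_mul_distrib]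
  push_cast
  rw [← Finset.prod_mul_distrib]
  refine Finset.prod_congr rfl fun e _ => ?_
  rw [Pi.add_apply, es_fact]

omit [Fintype V] in
private theorem es_sum_antidiagonal (m : Edg V →₀ ℕ)
    (f : (Edg V →₀ ℕ) → (Edg V →₀ ℕ) → ℝ≥0∞) :
    ∑ p ∈ Finset.HasAntidiagonal.antidiagonal m, f p.1 p.2 = ∑ M ∈ Finset.Iic m, f M (m - M) := by
  refine Finset.sum_bij' (fun p _ => p.1) (fun M _ => (M, m - M)) ?_ ?_ ?_ ?_ ?_
  · rintro ⟨M, k⟩ h
    rw [Finset.HasAntidiagonal.mem_antidiagonal] at h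
    rw [Finset.mem_Iic, ← h]
    exact le_self_add
  · intro M h
    rw [Finset.mem_Iic] at h
    rw [Finset.HasAntidiagonal.mem_antidiagonal]
    exact add_tsub_cancel_of_le h
  · rintro ⟨M, k⟩ h
    rw [Finset.HasAntidiagonal.mem_antidiagonal] at h
    simp only at h ⊢
    rw [← h, add_tsub_cancel_left]
  · intro M _
    rfl
  · rintro ⟨M, k⟩ h
    rw [Finset.HasAntidiagonal.mem_antidiagonal] at h
    simp only at h ⊢
    rw [← h, add_tsub_cancel_left]

omit [Fintype V] in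
private theorem es_tsum_split (f : (Edg V →₀ ℕ) → (Edg V →₀ ℕ) → ℝ≥0∞) :
    ∑' M, ∑' k, f M k = ∑' m, ∑ M ∈ Finset.Iic m, f M (m - M) := by
  rw [← ENNReal.tsum_prod]
  rw [← Finset.HasAntidiagonal.sigmaAntidiagonalEquivProd.tsum_eq
    (fun p : (Edg V →₀ ℕ) × (Edg V →₀ ℕ) => f p.1 p.2)]
  rw [ENNReal.tsum_sigma']
  refine tsum_congr fun m => ?_
  rw [← es_sum_antidiagonal, tsum_fintype]
  simp only [Finset.HasAntidiagonal.sigmaAntidiagonalEquivProd_apply]
  exact Finset.sum_coe_sort (Finset.HasAntidiagonal.antidiagonal m)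
    (fun p : (Edg V →₀ ℕ) × (Edg V →₀ ℕ) => f p.1 p.2)

private theorem es_ncomp_ne_zero (Φ : V → ℝ) (m : Edg V →₀ ℕ)
    (h : Compat m (sgn Φ)) : (ncomp m : ℝ≥0∞) ≠ 0 := by
  have h1 : 0 < ncomp m := by
    unfold ncomp
    exact Finset.card_pos.2 ⟨sgn Φ, Finset.mem_filter.2 ⟨Finset.mem_univ _, h⟩⟩
  exact_mod_cast h1.ne'

/-- the even weight with a factor `R` inside -/
private noncomputable def es_A (R : (Edg V →₀ ℕ) → ℝ≥0∞) (m : Edg V →₀ ℕ) : ℝ≥0∞ :=
  ∑ M ∈ Finset.Iic m, ((if ∀ v, Even (deg M v) then ∏ e, (m e).choose (M e) else 0 : ℕ) : ℝ≥0∞) *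
    R M

private theorem es_resum (N : Net V) (Φ : V → ℝ) (R : (Edg V →₀ ℕ) → ℝ≥0∞) :
    ∑' M, Wt (we N) M * Dd N M Φ * R M =
      ENNReal.ofReal (Real.exp (-(∑ v, Φ v ^ 2) / 2)) / (∑' k, pw (JJ N Φ) k) *
      ∑' m, pw (JJ N Φ) m * (if Compat m (sgn Φ) then ((ncomp m : ℝ≥0∞))⁻¹ else 0) *
        es_A R m := by
  set E0 := ENNReal.ofReal (Real.exp (-(∑ v, Φ v ^ 2) / 2)) with hE0
  set Z := ∑' k, pw (JJ N Φ) k with hZ
  have h1 : ∀ M, Wt (we N) M * Dd N M Φ * R M = ∑' k, (if ∀ v, Even (deg M v) then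
      E0 / Z * (pw (JJ N Φ) M * pw (JJ N Φ) k *
        (if Compat (M + k) (sgn Φ) then ((ncomp (M + k) : ℝ≥0∞))⁻¹ else 0)) * R M else 0) := by
    intro M
    rw [es_Wt_Dd]
    split_ifs with h
    · unfold Sg
      rw [← ENNReal.tsum_mul_left, ← ENNReal.tsum_mul_right]
      refine tsum_congr fun k => ?_
      unfold npw
      rw [← hZ, ← hE0, div_eq_mul_inv, div_eq_mul_inv]
      ring
    · simp
  rw [tsum_congr h1, es_tsum_split, ← ENNReal.tsum_mul_left]
  refine tsum_congr fun m => ?_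
  unfold es_A
  rw [Finset.mul_sum, Finset.mul_sum]
  refine Finset.sum_congr rfl fun M hM => ?_
  rw [Finset.mem_Iic] at hM
  rw [add_tsub_cancel_of_le hM, es_pw_mul, add_tsub_cancel_of_le hM]
  split_ifs with h1 h2
  · ring
  · simp
  · simp
  · simp

private theorem es_A_one (m : Edg V →₀ ℕ) :
    es_A (fun _ => 1) m = 2 ^ (∑ e, m e) * (ncomp m : ℝ≥0∞) / 2 ^ Fintype.card V := by
  have h := even_count m
  have h2 : (2 : ℝ≥0∞) ^ Fintype.card V * es_A (fun _ => 1) m =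
      2 ^ (∑ e, m e) * (ncomp m : ℝ≥0∞) := by
    unfold es_A
    simp only [mul_one]
    exact_mod_cast h
  rw [← h2, mul_comm, ENNReal.mul_div_cancel_right]
  · exact pow_ne_zero _ two_ne_zero
  · exact ENNReal.pow_ne_top ENNReal.ofNat_ne_top

private theorem es_pw_JJ2 (N : Net V) (Φ : V → ℝ) (m : Edg V →₀ ℕ) :
    pw (JJ2 N Φ) m = if Compat m (sgn Φ) then 2 ^ (∑ e, m e) * pw (JJ N Φ) m else 0 := by
  rw [es_pw, es_pw]
  split_ifs with h
  · rw [← Finset.prod_pow_eq_pow_sum, ← Finset.prod_mul_distrib]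
    refine Finset.prod_congr rfl fun e _ => ?_
    unfold JJ2
    by_cases he : m e = 0
    · simp [he]
    · rw [if_pos (h e he), mul_pow, mul_div_assoc]
  · unfold Compat at h
    push Not at h
    obtain ⟨e, he, hc⟩ := h
    refine Finset.prod_eq_zero (Finset.mem_univ e) ?_
    unfold JJ2
    rw [if_neg hc, zero_pow he, ENNReal.zero_div]

private theorem es_term (N : Net V) (Φ : V → ℝ) (m : Edg V →₀ ℕ) :
    pw (JJ N Φ) m * (if Compat m (sgn Φ) then ((ncomp m : ℝ≥0∞))⁻¹ else 0) *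
        (2 ^ (∑ e, m e) * (ncomp m : ℝ≥0∞) / 2 ^ Fintype.card V) =
      pw (JJ2 N Φ) m / 2 ^ Fintype.card V := by
  rw [es_pw_JJ2]
  split_ifs with h
  · have h1 := es_ncomp_ne_zero Φ m h
    have h2 : ((ncomp m : ℝ≥0∞))⁻¹ * (ncomp m : ℝ≥0∞) = 1 :=
      ENNReal.inv_mul_cancel h1 (ENNReal.natCast_ne_top _)
    rw [div_eq_mul_inv, div_eq_mul_inv]
    calc pw (JJ N Φ) m * ((ncomp m : ℝ≥0∞))⁻¹ *
          (2 ^ (∑ e, m e) * (ncomp m : ℝ≥0∞) * (2 ^ Fintype.card V)⁻¹)
        = (((ncomp m : ℝ≥0∞))⁻¹ * (ncomp m : ℝ≥0∞)) *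
          (2 ^ (∑ e, m e) * pw (JJ N Φ) m * (2 ^ Fintype.card V)⁻¹) := by ring
      _ = _ := by rw [h2, one_mul]
  · simp

/-- resummation.  `R = 1` gives the Gaussian density, `R = 1{deg_v ≥ 2}` the bound for `P(v ∈ T)` -/
theorem resum (N : Net V) (Φ : V → ℝ) (R : (Edg V →₀ ℕ) → ℝ≥0∞)
    (hR : ∀ M k, R M ≤ R (M + k)) :
    ∑' M, Wt (we N) M * Dd N M Φ * R M
      ≤ ENNReal.ofReal (Real.exp (-(∑ v, Φ v ^ 2) / 2)) / 2 ^ Fintype.card V
          / (∑' k, pw (JJ N Φ) k) * ∑' m, pw (JJ2 N Φ) m * R m := by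
  rw [es_resum]
  have h1 : ∀ m, es_A R m ≤ 2 ^ (∑ e, m e) * (ncomp m : ℝ≥0∞) / 2 ^ Fintype.card V * R m := by
    intro m
    rw [← es_A_one]
    unfold es_A
    rw [Finset.sum_mul]
    refine Finset.sum_le_sum fun M hM => ?_
    rw [Finset.mem_Iic] at hM
    rw [mul_one]
    gcongr
    have := hR M (m - M)
    rwa [add_tsub_cancel_of_le hM] at this
  calc ENNReal.ofReal (Real.exp (-(∑ v, Φ v ^ 2) / 2)) / (∑' k, pw (JJ N Φ) k) *
      ∑' m, pw (JJ N Φ) m * (if Compat m (sgn Φ) then ((ncomp m : ℝ≥0∞))⁻¹ else 0) *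
        es_A R m
      ≤ ENNReal.ofReal (Real.exp (-(∑ v, Φ v ^ 2) / 2)) / (∑' k, pw (JJ N Φ) k) *
        ∑' m, pw (JJ2 N Φ) m / 2 ^ Fintype.card V * R m := by
        refine mul_le_mul' le_rfl (ENNReal.tsum_le_tsum fun m => ?_)
        rw [← es_term, mul_assoc (pw (JJ N Φ) m * _)]
        exact mul_le_mul' le_rfl (h1 m)
    _ = _ := by
        simp only [div_eq_mul_inv]
        rw [← ENNReal.tsum_mul_left, ← ENNReal.tsum_mul_left]
        refine tsum_congr fun m => ?_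
        ring

/-! ### Sums over the edges -/

private theorem es_prod_inl (Ψ : V → ℝ) {x y : V} (h : x ≠ y) :
    ∏ v, Ψ v ^ inc (Sum.inl s(x, y) : Edg V) v = Ψ x * Ψ y := by
  rw [Finset.prod_eq_mul x y h]
  · have hx : inc (Sum.inl s(x, y) : Edg V) x = 1 := by
      unfold inc; simp
    have hy : inc (Sum.inl s(x, y) : Edg V) y = 1 := by
      unfold inc; simp
    rw [hx, hy, pow_one, pow_one]
  · intro c _ hc
    have h0 : inc (Sum.inl s(x, y) : Edg V) c = 0 := by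
      unfold inc
      simp only [Sym2.mem_iff, ite_eq_right_iff, one_ne_zero, imp_false, not_or]
      exact hc
    rw [h0, pow_zero]
  · intro hx; exact absurd (Finset.mem_univ x) hx
  · intro hy; exact absurd (Finset.mem_univ y) hy

private theorem es_prod_inr (Ψ : V → ℝ) (u : V) :
    ∏ v, Ψ v ^ inc (Sum.inr u : Edg V) v = Ψ u := by
  rw [Finset.prod_eq_single u]
  · have hx : inc (Sum.inr u : Edg V) u = 1 := by
      unfold inc; simp
    rw [hx, pow_one]
  · intro c _ hc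
    have h0 : inc (Sum.inr u : Edg V) c = 0 := by
      unfold inc
      simp [hc]
    rw [h0, pow_zero]
  · intro hx; exact absurd (Finset.mem_univ u) hx

private noncomputable def es_G (N : Net V) (Ψ : V → ℝ) (e : Edg V) : ℝ :=
  (we N e).toReal * ∏ v, Ψ v ^ inc e v

private theorem es_G_inl (N : Net V) (Ψ : V → ℝ) (x y : V) :
    es_G N Ψ (Sum.inl s(x, y)) = (N.P x y : ℝ) * Ψ x * Ψ y := by
  unfold es_G
  have h1 : (we N (Sum.inl s(x, y))).toReal = (N.P x y : ℝ) := by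
    simp [we]
  rw [h1]
  by_cases h : x = y
  · subst h
    rw [N.diag]
    simp
  · rw [es_prod_inl Ψ h]
    ring

private theorem es_G_inr (N : Net V) (Ψ : V → ℝ) (u : V) :
    es_G N Ψ (Sum.inr u) = (N.η u : ℝ) * Ψ u := by
  unfold es_G
  rw [es_prod_inr]
  simp [we]

private theorem es_star (g : Sym2 V → ℝ) (v : V) :
    ∑ s : Sym2 V, g s * (inc (Sum.inl s : Edg V) v : ℝ) = ∑ y, g s(v, y) := by
  have h1 : ∀ s : Sym2 V, g s * (inc (Sum.inl s : Edg V) v : ℝ) = if v ∈ s then g s else 0 := by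
    intro s
    unfold inc
    by_cases h : v ∈ s <;> simp [h]
  rw [Finset.sum_congr rfl fun s _ => h1 s, ← Finset.sum_filter]
  have h2 : (Finset.univ.filter fun s : Sym2 V => v ∈ s) =
      Finset.univ.image (fun y => s(v, y)) := by
    ext s
    simp only [Finset.mem_filter, Finset.mem_univ, true_and, Finset.mem_image]
    constructor
    · intro h
      obtain ⟨y, hy⟩ := Sym2.mem_iff_exists.1 h
      exact ⟨y, hy.symm⟩
    · rintro ⟨y, rfl⟩
      exact Sym2.mem_mk_left v y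
  rw [h2, Finset.sum_image]
  intro y _ y' _ h
  exact Sym2.congr_right.1 h

private theorem es_star_sum (N : Net V) (Ψ : V → ℝ) (v : V) :
    ∑ e, es_G N Ψ e * (inc e v : ℝ) = Ψ v * (∑ y, (N.P v y : ℝ) * Ψ y + (N.η v : ℝ)) := by
  rw [Fintype.sum_sum_type, es_star (fun s => es_G N Ψ (Sum.inl s)) v]
  have h1 : ∑ y, es_G N Ψ (Sum.inl s(v, y)) = Ψ v * ∑ y, (N.P v y : ℝ) * Ψ y := by
    rw [Finset.mul_sum]
    refine Finset.sum_congr rfl fun y _ => ?_
    rw [es_G_inl]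
    ring
  have h2 : ∑ u, es_G N Ψ (Sum.inr u) * (inc (Sum.inr u : Edg V) v : ℝ) =
      Ψ v * (N.η v : ℝ) := by
    rw [Finset.sum_eq_single v]
    · rw [es_G_inr]
      have : inc (Sum.inr v : Edg V) v = 1 := by unfold inc; simp
      rw [this]
      push_cast
      ring
    · intro u _ hu
      have : inc (Sum.inr u : Edg V) v = 0 := by
        unfold inc
        simp [hu.symm]
      rw [this]
      simp
    · intro h; exact absurd (Finset.mem_univ v) h
  rw [h1, h2]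
  ring

private theorem es_edge_sum (N : Net V) (Ψ : V → ℝ) :
    ∑ e, es_G N Ψ e = (∑ x, ∑ y, (N.P x y : ℝ) * Ψ x * Ψ y) / 2 + ∑ v, (N.η v : ℝ) * Ψ v := by
  rw [Fintype.sum_sum_type]
  have h1 : ∑ x, ∑ y, (N.P x y : ℝ) * Ψ x * Ψ y = 2 * ∑ s : Sym2 V, es_G N Ψ (Sum.inl s) := by
    have h2 : ∀ x, ∑ y, (N.P x y : ℝ) * Ψ x * Ψ y =
        ∑ s : Sym2 V, es_G N Ψ (Sum.inl s) * (inc (Sum.inl s : Edg V) x : ℝ) := by
      intro x
      rw [es_star (fun s => es_G N Ψ (Sum.inl s)) x]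
      exact Finset.sum_congr rfl fun y _ => (es_G_inl N Ψ x y).symm
    rw [Finset.sum_congr rfl fun x _ => h2 x, Finset.sum_comm, Finset.mul_sum]
    refine Finset.sum_congr rfl fun s _ => ?_
    rw [← Finset.mul_sum]
    induction s using Sym2.ind with
    | _ x y =>
      by_cases h : x = y
      · subst h
        rw [es_G_inl, N.diag]
        simp
      · have h3 : ∑ v, (inc (Sum.inl s(x, y) : Edg V) v : ℝ) = 2 := by
          rw [Finset.sum_eq_add x y h]
          · have hx : inc (Sum.inl s(x, y) : Edg V) x = 1 := by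
              unfold inc; simp
            have hy : inc (Sum.inl s(x, y) : Edg V) y = 1 := by
              unfold inc; simp
            rw [hx, hy]
            norm_num
          · intro c _ hc
            have h0 : inc (Sum.inl s(x, y) : Edg V) c = 0 := by
              unfold inc
              simp only [Sym2.mem_iff, ite_eq_right_iff, one_ne_zero, imp_false, not_or]
              exact hc
            rw [h0]
            simp
          · intro hx; exact absurd (Finset.mem_univ x) hx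
          · intro hy; exact absurd (Finset.mem_univ y) hy
        rw [h3, mul_comm]
  rw [h1, Finset.sum_congr rfl fun u _ => es_G_inr N Ψ u]
  ring

/-! ### The strengths -/

private theorem es_we_ne_top (N : Net V) (e : Edg V) : we N e ≠ ∞ := by
  rcases e with s | v
  · exact ENNReal.coe_ne_top
  · exact ENNReal.coe_ne_top

private theorem es_JJ_ne_top (N : Net V) (Φ : V → ℝ) (e : Edg V) : JJ N Φ e ≠ ∞ :=
  ENNReal.mul_ne_top (es_we_ne_top N e) ENNReal.ofReal_ne_top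

private theorem es_JJ_toReal (N : Net V) (Φ : V → ℝ) (e : Edg V) :
    (JJ N Φ e).toReal = es_G N (fun v => |Φ v|) e := by
  unfold JJ es_G
  rw [ENNReal.toReal_mul, ENNReal.toReal_ofReal (Finset.prod_nonneg fun v _ => by positivity)]

private theorem es_JJ2_ne_top (N : Net V) (Φ : V → ℝ) (e : Edg V) : JJ2 N Φ e ≠ ∞ := by
  unfold JJ2
  split_ifs
  · exact ENNReal.mul_ne_top ENNReal.ofNat_ne_top (es_JJ_ne_top N Φ e)
  · exact ENNReal.zero_ne_top

omit [Fintype V] in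
private theorem es_sgn_mul (Φ : V → ℝ) (v : V) : (((sgn Φ v : ℤˣ) : ℤ) : ℝ) * |Φ v| = Φ v := by
  unfold sgn
  split_ifs with h
  · rw [abs_of_nonneg h]; simp
  · rw [abs_of_neg (not_le.1 h)]; simp

private theorem es_chi_mul (N : Net V) (Φ : V → ℝ) (e : Edg V) :
    (((chi e (sgn Φ) : ℤˣ) : ℤ) : ℝ) * es_G N (fun v => |Φ v|) e = es_G N Φ e := by
  unfold chi es_G
  rw [Units.coe_prod]
  push_cast
  have h1 : ∏ v, Φ v ^ inc e v =
      (∏ v, (((sgn Φ v : ℤˣ) : ℤ) : ℝ) ^ inc e v) * ∏ v, |Φ v| ^ inc e v := by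
    rw [← Finset.prod_mul_distrib]
    refine Finset.prod_congr rfl fun v _ => ?_
    rw [← mul_pow, es_sgn_mul]
  rw [h1]
  ring

private theorem es_JJ2_sub (N : Net V) (Φ : V → ℝ) (e : Edg V) :
    (JJ2 N Φ e).toReal = (JJ N Φ e).toReal + es_G N Φ e := by
  have h1 := es_chi_mul N Φ e
  rw [← es_JJ_toReal] at h1
  unfold JJ2
  rcases Int.units_eq_one_or (chi e (sgn Φ)) with h | h
  · rw [if_pos h]
    rw [h] at h1
    rw [← h1, ENNReal.toReal_mul]
    simp
    ring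
  · rw [h] at h1
    rw [if_neg (by rw [h]; decide), ← h1]
    simp

private theorem es_Z_eq (N : Net V) (Φ : V → ℝ) :
    ∑' k, pw (JJ N Φ) k = ENNReal.ofReal (Real.exp (∑ e, (JJ N Φ e).toReal)) := by
  have h0 : ∑' e, JJ N Φ e ≠ ∞ := by
    rw [tsum_fintype]
    exact ENNReal.sum_ne_top.2 fun e _ => es_JJ_ne_top N Φ e
  rw [tsum_pw _ h0, tsum_fintype, ENNReal.toReal_sum fun e _ => es_JJ_ne_top N Φ e]

private theorem es_JJ2_fin (N : Net V) (Φ : V → ℝ) : ∑' e, JJ2 N Φ e ≠ ∞ := by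
  rw [tsum_fintype]
  exact ENNReal.sum_ne_top.2 fun e _ => es_JJ2_ne_top N Φ e

private theorem es_Z2_eq (N : Net V) (Φ : V → ℝ) :
    ∑' k, pw (JJ2 N Φ) k = ENNReal.ofReal (Real.exp (∑ e, (JJ2 N Φ e).toReal)) := by
  rw [tsum_pw _ (es_JJ2_fin N Φ), tsum_fintype,
    ENNReal.toReal_sum fun e _ => es_JJ2_ne_top N Φ e]

private theorem es_total (N : Net V) (Φ : V → ℝ) :
    ∑' M, Wt (we N) M * Dd N M Φ =
      ENNReal.ofReal (Real.exp (-(∑ v, Φ v ^ 2) / 2)) / 2 ^ Fintype.card V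
          / (∑' k, pw (JJ N Φ) k) * ∑' m, pw (JJ2 N Φ) m := by
  have h := es_resum N Φ (fun _ => 1)
  simp only [mul_one] at h
  rw [h]
  have h2 : ∀ m, pw (JJ N Φ) m * (if Compat m (sgn Φ) then ((ncomp m : ℝ≥0∞))⁻¹ else 0) *
      es_A (fun _ => 1) m = pw (JJ2 N Φ) m / 2 ^ Fintype.card V := by
    intro m
    rw [es_A_one, es_term]
  rw [tsum_congr h2]
  simp only [div_eq_mul_inv]
  rw [ENNReal.tsum_mul_right]
  ring

/-- `R = 1`: here we need the EQUALITY (it fixes the normalisation in Lemma C) -/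
theorem resum_one (N : Net V) (Φ : V → ℝ) :
    ∑' M, Wt (we N) M * Dd N M Φ
      = ENNReal.ofReal (Real.exp (- Qf N.P Φ + ∑ v, (N.η v : ℝ) * Φ v)) / 2 ^ Fintype.card V := by
  rw [es_total, es_Z_eq, es_Z2_eq]
  have h1 : ∑ e, (JJ2 N Φ e).toReal = ∑ e, (JJ N Φ e).toReal +
      ((∑ x, ∑ y, (N.P x y : ℝ) * Φ x * Φ y) / 2 + ∑ v, (N.η v : ℝ) * Φ v) := by
    rw [← es_edge_sum, ← Finset.sum_add_distrib]
    exact Finset.sum_congr rfl fun e _ => es_JJ2_sub N Φ e
  rw [h1]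
  set S := ∑ e, (JJ N Φ e).toReal
  set T := (∑ x, ∑ y, (N.P x y : ℝ) * Φ x * Φ y) / 2 + ∑ v, (N.η v : ℝ) * Φ v with hT
  have hS0 : ENNReal.ofReal (Real.exp S) ≠ 0 := by
    rw [Ne, ENNReal.ofReal_eq_zero, not_le]; exact Real.exp_pos _
  have h2 : - Qf N.P Φ + ∑ v, (N.η v : ℝ) * Φ v = -(∑ v, Φ v ^ 2) / 2 + T := by
    rw [hT]; unfold Qf; ring
  clear_value T
  rw [h2, Real.exp_add, Real.exp_add, ENNReal.ofReal_mul (Real.exp_pos _).le,
    ENNReal.ofReal_mul (Real.exp_pos _).le]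
  simp only [div_eq_mul_inv]
  have h3 : (ENNReal.ofReal (Real.exp S))⁻¹ * ENNReal.ofReal (Real.exp S) = 1 :=
    ENNReal.inv_mul_cancel hS0 ENNReal.ofReal_ne_top
  set a := ENNReal.ofReal (Real.exp (-(∑ v, Φ v ^ 2) * 2⁻¹))
  set b := ENNReal.ofReal (Real.exp T)
  set c := ENNReal.ofReal (Real.exp S)
  calc a * (2 ^ Fintype.card V)⁻¹ * c⁻¹ * (c * b)
      = a * b * (2 ^ Fintype.card V)⁻¹ * (c⁻¹ * c) := by ring
    _ = _ := by rw [h3, mul_one]

private theorem es_Sv (N : Net V) (Φ : V → ℝ) (v : V) :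
    ∑ e, JJ N Φ e * (inc e v : ℝ≥0∞) = Sv N Φ v := by
  unfold Sv
  rw [← es_star_sum N (fun u => |Φ u|) v]
  rw [ENNReal.ofReal_sum_of_nonneg]
  · refine Finset.sum_congr rfl fun e _ => ?_
    rw [← es_JJ_toReal, ENNReal.ofReal_mul ENNReal.toReal_nonneg,
      ENNReal.ofReal_toReal (es_JJ_ne_top N Φ e), ENNReal.ofReal_natCast]
  · intro e _
    rw [← es_JJ_toReal]
    positivity

private theorem es_lin (v : V) (m : Edg V →₀ ℕ) :
    lin (fun e => (inc e v : ℝ≥0∞)) m = (deg m v : ℝ≥0∞) := by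
  unfold lin
  rw [Finsupp.sum_fintype _ _ (by intro i; simp), es_deg]
  push_cast
  rfl

private theorem es_prob (N : Net V) (Φ : V → ℝ) (v : V) :
    ∑' m, npw (JJ2 N Φ) m * (if 2 ≤ deg m v then 1 else 0) ≤ 2 * Sv N Φ v ^ 2 := by
  set g : Edg V → ℝ≥0∞ := fun e => (inc e v : ℝ≥0∞) with hg
  set a := ∑' e, JJ2 N Φ e * g e with ha
  have hfin := es_JJ2_fin N Φ
  have hgg : ∀ e, g e ^ 2 = g e := by
    intro e
    have h1 : inc e v = 0 ∨ inc e v = 1 := by
      rcases e with s | u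
      · unfold inc; simp only; split_ifs <;> simp
      · unfold inc; simp only; split_ifs <;> simp
    simp only [hg]
    rcases h1 with h1 | h1 <;> rw [h1] <;> simp
  have h1 := tsum_lin_sq (JJ2 N Φ) hfin g
  simp only [hgg] at h1
  rw [← ha] at h1
  have h2 := tsum_lin (JJ2 N Φ) hfin g
  rw [← ha] at h2
  have ha2 : a ≤ 2 * Sv N Φ v := by
    rw [ha, tsum_fintype, ← es_Sv, Finset.mul_sum]
    refine Finset.sum_le_sum fun e _ => ?_
    rw [← mul_assoc]
    refine mul_le_mul' ?_ le_rfl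
    unfold JJ2
    split_ifs
    · exact le_rfl
    · exact bot_le
  have hafin : a ≠ ∞ := by
    refine ne_top_of_le_ne_top ?_ ha2
    exact ENNReal.mul_ne_top ENNReal.ofNat_ne_top (by unfold Sv; exact ENNReal.ofReal_ne_top)
  have h3 : 2 * (∑' m, npw (JJ2 N Φ) m * (if 2 ≤ deg m v then 1 else 0)) + a ≤ a ^ 2 + a := by
    rw [add_comm (a ^ 2) a, ← h1]
    nth_rewrite 1 [← h2]
    rw [← ENNReal.tsum_mul_left, ← ENNReal.tsum_add]
    refine ENNReal.tsum_le_tsum fun m => ?_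
    rw [hg, es_lin]
    have h4 : 2 * (npw (JJ2 N Φ) m * (if 2 ≤ deg m v then 1 else 0)) +
        npw (JJ2 N Φ) m * (deg m v : ℝ≥0∞) =
        npw (JJ2 N Φ) m * (2 * (if 2 ≤ deg m v then 1 else 0) + (deg m v : ℝ≥0∞)) := by ring
    rw [h4]
    refine mul_le_mul' le_rfl ?_
    have h5 : 2 * (if 2 ≤ deg m v then 1 else 0) + deg m v ≤ deg m v ^ 2 := by
      split_ifs with h
      · nlinarith
      · have : deg m v = 0 ∨ deg m v = 1 := by omega
        rcases this with h6 | h6 <;> rw [h6] <;> norm_num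
    have h6 : ((2 * (if 2 ≤ deg m v then 1 else 0) + deg m v : ℕ) : ℝ≥0∞) ≤
        ((deg m v ^ 2 : ℕ) : ℝ≥0∞) := by exact_mod_cast h5
    push_cast at h6
    exact h6
  have h7 : 2 * (∑' m, npw (JJ2 N Φ) m * (if 2 ≤ deg m v then 1 else 0)) ≤ a ^ 2 :=
    (ENNReal.add_le_add_iff_right hafin).1 h3
  have h8 : 2 * (∑' m, npw (JJ2 N Φ) m * (if 2 ≤ deg m v then 1 else 0)) ≤
      2 * (2 * Sv N Φ v ^ 2) := by
    refine h7.trans ?_
    calc a ^ 2 ≤ (2 * Sv N Φ v) ^ 2 := pow_le_pow_left' ha2 2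
      _ = 2 * (2 * Sv N Φ v ^ 2) := by ring
  exact (ENNReal.mul_le_mul_iff_right two_ne_zero ENNReal.ofNat_ne_top).1 h8

/-- `R = 1{deg_v ≥ 2}` -/
theorem resum_deg (N : Net V) (Φ : V → ℝ) (v : V) :
    ∑' M, (if 2 ≤ deg M v then Wt (we N) M * Dd N M Φ else 0)
      ≤ 2 * Sv N Φ v ^ 2 *
        (ENNReal.ofReal (Real.exp (- Qf N.P Φ + ∑ v, (N.η v : ℝ) * Φ v)) / 2 ^ Fintype.card V) := by
  have h0 : ∀ M, (if 2 ≤ deg M v then Wt (we N) M * Dd N M Φ else 0) =
      Wt (we N) M * Dd N M Φ * (if 2 ≤ deg M v then 1 else 0) := by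
    intro M; split_ifs <;> simp
  rw [tsum_congr h0, ← resum_one, es_total]
  refine (resum N Φ (fun M => if 2 ≤ deg M v then 1 else 0) ?_).trans ?_
  · intro M k
    split_ifs with h1 h2
    · exact le_rfl
    · exfalso
      apply h2
      rw [es_deg_add]
      omega
    · exact bot_le
    · exact le_rfl
  · set E := ENNReal.ofReal (Real.exp (-(∑ v, Φ v ^ 2) / 2)) / 2 ^ Fintype.card V /
      (∑' k, pw (JJ N Φ) k)
    set Z2 := ∑' m, pw (JJ2 N Φ) m with hZ2
    have hZ0 : Z2 ≠ 0 := by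
      rw [hZ2, es_Z2_eq, Ne, ENNReal.ofReal_eq_zero, not_le]; exact Real.exp_pos _
    have hZt : Z2 ≠ ∞ := by
      rw [hZ2, es_Z2_eq]; exact ENNReal.ofReal_ne_top
    have h1 : ∑' m, pw (JJ2 N Φ) m * (if 2 ≤ deg m v then 1 else 0) =
        Z2 * ∑' m, npw (JJ2 N Φ) m * (if 2 ≤ deg m v then 1 else 0) := by
      rw [← ENNReal.tsum_mul_left]
      refine tsum_congr fun m => ?_
      unfold npw
      rw [← hZ2, ← mul_assoc, ENNReal.mul_div_cancel hZ0 hZt]
    rw [h1]
    calc E * (Z2 * ∑' m, npw (JJ2 N Φ) m * (if 2 ≤ deg m v then 1 else 0))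
        ≤ E * (Z2 * (2 * Sv N Φ v ^ 2)) := by
          refine mul_le_mul' le_rfl (mul_le_mul' le_rfl (es_prob N Φ v))
      _ = 2 * Sv N Φ v ^ 2 * (E * Z2) := by ring

/-! ### Positivity -/

private theorem es_tlc_path (σ : V → ℤˣ) (v : V) : ∀ (w : List V) (x : V), v ∈ w → σ x = 1 →
    (∀ e : Edg V, tlc x w e ≠ 0 → chi e σ = 1) →
    σ v = 1 ∧ ∃ e : Edg V, tlc x w e ≠ 0 ∧ inc e v = 1
  | [], x, hv, _, _ => by simp at hv
  | y :: w, x, hv, hx, h => by
    have hy : σ y = 1 := by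
      have h1 := h (Sum.inl s(x, y)) (by simp [tlc])
      unfold chi at h1
      by_cases hxy : x = y
      · rw [← hxy]; exact hx
      · rw [Finset.prod_eq_mul x y hxy] at h1
        · have e1 : inc (Sum.inl s(x, y) : Edg V) x = 1 := by
            unfold inc; simp
          have e2 : inc (Sum.inl s(x, y) : Edg V) y = 1 := by
            unfold inc; simp
          rw [e1, e2, pow_one, pow_one, hx, one_mul] at h1
          exact h1
        · intro c _ hc
          have h0 : inc (Sum.inl s(x, y) : Edg V) c = 0 := by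
            unfold inc
            simp only [Sym2.mem_iff, ite_eq_right_iff, one_ne_zero, imp_false, not_or]
            exact hc
          rw [h0, pow_zero]
        · intro hx; exact absurd (Finset.mem_univ x) hx
        · intro hy; exact absurd (Finset.mem_univ y) hy
    rcases List.mem_cons.1 hv with rfl | hv'
    · refine ⟨hy, Sum.inl s(x, v), by simp [tlc], ?_⟩
      unfold inc; simp
    · obtain ⟨h2, e, he, hi⟩ := es_tlc_path σ v w y hv' hy (by
        intro e he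
        apply h e
        simp only [tlc, Finsupp.add_apply]
        omega)
      refine ⟨h2, e, ?_, hi⟩
      simp only [tlc, Finsupp.add_apply]
      omega

/-- positivity on vertices connected to the ghost -/
theorem Dd_pos_of_ncl (N : Net V) (n : Edg V →₀ ℕ) (c : Cloud V) (Φ : V → ℝ)
    (h : Dd N (n + ncl c) Φ ≠ 0) (v : V) (hv : v ∈ Tr c) : 0 < Φ v := by
  obtain ⟨w, hw, hvw⟩ := hv
  have hle : ∀ e : Edg V, nn w e ≠ 0 → ncl c e ≠ 0 := by
    intro e he
    unfold ncl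
    rw [Finsupp.sum, Finset.sum_apply']
    intro h0
    rw [Finset.sum_eq_zero_iff] at h0
    have h1 := h0 w hw
    rw [Finsupp.smul_apply, smul_eq_mul, mul_eq_zero] at h1
    rcases h1 with h1 | h1
    · exact (Finsupp.mem_support_iff.1 hw) h1
    · exact he h1
  unfold Dd at h
  have hS : Sg N (n + ncl c) Φ ≠ 0 := right_ne_zero_of_mul h
  have hP := left_ne_zero_of_mul h
  obtain ⟨k, hk⟩ : ∃ k, Compat (n + ncl c + k) (sgn Φ) := by
    by_contra hcon
    push Not at hcon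
    apply hS
    unfold Sg
    rw [ENNReal.tsum_eq_zero]
    intro k
    rw [if_neg (hcon k), mul_zero]
  have hcomp : ∀ e : Edg V, nn w e ≠ 0 → chi e (sgn Φ) = 1 := by
    intro e he
    apply hk e
    have := hle e he
    simp only [Finsupp.add_apply]
    omega
  -- the sign and an incident edge
  have key : sgn Φ v = 1 ∧ ∃ e : Edg V, nn w e ≠ 0 ∧ inc e v = 1 := by
    rcases w with _ | ⟨x, w⟩
    · simp at hvw
    · have hx : sgn Φ x = 1 := by
        have h1 := hcomp (Sum.inr x) (by simp [nn])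
        unfold chi at h1
        rw [Finset.prod_eq_single x] at h1
        · have : inc (Sum.inr x : Edg V) x = 1 := by unfold inc; simp
          rwa [this, pow_one] at h1
        · intro u _ hu
          have : inc (Sum.inr x : Edg V) u = 0 := by unfold inc; simp [hu]
          rw [this, pow_zero]
        · intro hx; exact absurd (Finset.mem_univ x) hx
      rcases List.mem_cons.1 hvw with rfl | hv'
      · refine ⟨hx, Sum.inr v, by simp [nn], ?_⟩
        unfold inc; simp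
      · obtain ⟨h2, e, he, hi⟩ := es_tlc_path (sgn Φ) v w x hv' hx (by
          intro e he
          apply hcomp e
          simp only [nn, Finsupp.add_apply]
          omega)
        refine ⟨h2, e, ?_, hi⟩
        simp only [nn, Finsupp.add_apply]
        omega
  obtain ⟨hsg, e, he, hi⟩ := key
  have hnn : 0 ≤ Φ v := by
    unfold sgn at hsg
    by_contra hneg
    rw [if_neg hneg] at hsg
    exact absurd hsg (by decide)
  refine lt_of_le_of_ne hnn ?_
  intro h0
  apply hP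
  refine Finset.prod_eq_zero (Finset.mem_univ v) ?_
  have hdeg : deg (n + ncl c) v ≠ 0 := by
    rw [es_deg]
    intro h1
    rw [Finset.sum_eq_zero_iff] at h1
    have h2 := h1 e (Finset.mem_univ e)
    rw [hi, mul_one, Finsupp.add_apply] at h2
    have := hle e he
    omega
  rw [← h0, abs_zero, zero_pow hdeg, zero_mul, ENNReal.ofReal_zero, ENNReal.zero_div]

end Pool.Agent.Lib.MP_e4a9a7_pr.D3
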