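import Mathlib
import Pool.Agent.Lib.MP_e4a9a7_pr.D3.Currents
import Pool.Agent.Lib.MP_e4a9a7_pr.D3.PPP

/-!
# Task C3: Gaussian integrals of the conditional density
-/

namespace Pool.Agent.Lib.MP_e4a9a7_pr.D3

open scoped ENNReal NNReal BigOperators
open MeasureTheory
open Classical

/-! ### Products of one-dimensional integrals -/

set_option backward.isDefEq.respectTransparency false in
theorem lintegral_fin_prod {n : ℕ} (f : Fin n → ℝ → ℝ≥0∞) (hf : ∀ i, Measurable (f i)) :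
    ∫⁻ x : Fin n → ℝ, ∏ i, f i (x i) ∂(Measure.pi fun _ => volume) = ∏ i, ∫⁻ x, f i x := by
  induction n with
  | zero => simp
  | succ n ih =>
    calc
      _ = ∫⁻ x : ℝ × (Fin n → ℝ), f 0 x.1 * ∏ i : Fin n, f (Fin.succ i) (x.2 i)
            ∂(volume.prod (Measure.pi (fun _ => volume))) := by
          rw [← ((measurePreserving_piFinSuccAbove (fun _ : Fin (n + 1) => (volume : Measure ℝ))
            0).symm).lintegral_comp_emb (MeasurableEquiv.measurableEmbedding _)]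
          simp_rw [MeasurableEquiv.piFinSuccAbove_symm_apply, Fin.insertNthEquiv,
            Fin.prod_univ_succ, Fin.insertNth_zero, Equiv.coe_fn_mk, Fin.cons_succ]
          rfl
      _ = (∫⁻ x, f 0 x) * ∏ i : Fin n, ∫⁻ x, f (Fin.succ i) x := by
          rw [← ih _ (fun i => hf _), ← lintegral_prod_mul (hf 0).aemeasurable]
          exact (Finset.measurable_prod _ fun i _ =>
            (hf _).comp (measurable_pi_apply i)).aemeasurable
      _ = _ := by rw [Fin.prod_univ_succ]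

theorem lintegral_fintype_prod {V : Type} [Fintype V] (f : V → ℝ → ℝ≥0∞)
    (hf : ∀ i, Measurable (f i)) :
    ∫⁻ x : V → ℝ, ∏ i, f i (x i) = ∏ i, ∫⁻ x, f i x := by
  let e := (Fintype.equivFin V).symm
  have h := (measurePreserving_piCongrLeft (fun _ : V => (volume : Measure ℝ)) e)
  rw [volume_pi, ← h.lintegral_comp_emb (MeasurableEquiv.measurableEmbedding _)]
  simp_rw [← e.prod_comp, MeasurableEquiv.coe_piCongrLeft, Equiv.piCongrLeft_apply_apply]
  exact lintegral_fin_prod (fun i => f (e i)) (fun i => hf _)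

/-! ### Gaussian moments -/

theorem integral_Ioi_even (k : ℕ) :
    ∫ x in Set.Ioi (0 : ℝ), x ^ (2 * k) * Real.exp (-x ^ 2 / 2)
      = Real.sqrt (Real.pi / 2) * (Nat.doubleFactorial (2 * k - 1) : ℝ) := by
  have h := integral_rpow_mul_exp_neg_mul_rpow (p := 2) (q := ((2 * k : ℕ) : ℝ)) (b := 1 / 2)
    (by norm_num) (lt_of_lt_of_le (by norm_num : (-1 : ℝ) < 0) (by positivity)) (by norm_num)
  have h1 : ∫ x in Set.Ioi (0 : ℝ), x ^ (2 * k) * Real.exp (-x ^ 2 / 2)
      = ∫ x in Set.Ioi (0 : ℝ), x ^ (((2 * k : ℕ) : ℝ)) * Real.exp (-(1 / 2) * x ^ (2 : ℝ)) := by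
    refine setIntegral_congr_fun measurableSet_Ioi fun x _ => ?_
    simp only [Real.rpow_natCast]
    rw [Real.rpow_two]
    ring_nf
  rw [h1, h]
  have h2 : ((((2 * k : ℕ) : ℝ)) + 1) / 2 = (k : ℝ) + 1 / 2 := by push_cast; ring
  have h3 : -((((2 * k : ℕ) : ℝ)) + 1) / 2 = -((k : ℝ) + 1 / 2) := by push_cast; ring
  rw [h2, h3, Real.Gamma_nat_add_half, Real.rpow_neg (by norm_num), Real.rpow_add (by norm_num),
    Real.rpow_natCast, ← Real.sqrt_eq_rpow, Real.sqrt_div' _ (by norm_num : (0 : ℝ) ≤ 2),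
    Real.sqrt_div' _ (by norm_num : (0 : ℝ) ≤ 2), Real.sqrt_one]
  have h4 : Real.sqrt 2 ≠ 0 := by positivity
  have h5 : Real.sqrt 2 * Real.sqrt 2 = 2 := Real.mul_self_sqrt (by norm_num)
  have h6 : (2 : ℝ) ^ k ≠ 0 := by positivity
  field_simp
  rw [pow_two, h5, mul_assoc, ← mul_pow]
  norm_num

theorem integrableOn_Ioi_even (k : ℕ) :
    IntegrableOn (fun x : ℝ => x ^ (2 * k) * Real.exp (-x ^ 2 / 2)) (Set.Ioi (0 : ℝ)) := by
  have h := (integrable_rpow_mul_exp_neg_mul_sq (b := 1 / 2) (by norm_num)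
    (s := ((2 * k : ℕ) : ℝ)) (lt_of_lt_of_le (by norm_num : (-1 : ℝ) < 0) (by positivity)))
  refine (h.integrableOn (s := Set.Ioi (0 : ℝ))).congr_fun (fun x _ => ?_) measurableSet_Ioi
  simp only [Real.rpow_natCast]
  ring_nf

theorem lintegral_abs_even (g : ℝ → ℝ≥0∞) (hg : Measurable g) :
    ∫⁻ x : ℝ, g |x| = 2 * ∫⁻ x in Set.Ioi (0 : ℝ), g x := by
  have h1 : ∫⁻ x in Set.Ioi (0 : ℝ), g |x| = ∫⁻ x in Set.Ioi (0 : ℝ), g x :=
    setLIntegral_congr_fun measurableSet_Ioi fun x hx => by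
      simp only [abs_of_pos (Set.mem_Ioi.mp hx)]
  have h2 : ∫⁻ x in Set.Iic (0 : ℝ), g |x| = ∫⁻ x in Set.Ioi (0 : ℝ), g x := by
    rw [← h1]
    have h := (Measure.measurePreserving_neg (volume : Measure ℝ)).setLIntegral_comp_preimage
      (s := Set.Iio (0 : ℝ)) measurableSet_Iio (f := fun x => g |x|)
      (hg.comp measurable_norm)
    rw [setLIntegral_congr (Iio_ae_eq_Iic (a := (0 : ℝ)) (μ := volume)).symm, ← h]
    simp
  rw [← lintegral_add_compl (fun x => g |x|) (measurableSet_Iic (a := (0 : ℝ))), h2,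
    Set.compl_Iic, h1, two_mul]

theorem cc_eq (d : ℕ) (hd : Even d) :
    ∫⁻ ρ : ℝ, ENNReal.ofReal (|ρ| ^ d * Real.exp (-ρ ^ 2 / 2)) = 2 * cc d := by
  obtain ⟨k, rfl⟩ := hd
  have h := lintegral_abs_even (fun x => ENNReal.ofReal (x ^ (2 * k) * Real.exp (-x ^ 2 / 2)))
    (by fun_prop)
  simp only [sq_abs] at h
  rw [← two_mul, h]
  congr 1
  rw [← ofReal_integral_eq_lintegral_ofReal (integrableOn_Ioi_even k), integral_Ioi_even, cc,
    ENNReal.ofReal_mul (Real.sqrt_nonneg _), ENNReal.ofReal_natCast]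
  exact (ae_restrict_iff' measurableSet_Ioi).mpr (Filter.Eventually.of_forall fun x _ => by
    have : 0 ≤ x ^ (2 * k) := by rw [pow_mul]; positivity
    positivity)

theorem one_le_cc (d : ℕ) : 1 ≤ cc d := by
  have h1 : (1 : ℝ) ≤ Real.sqrt (Real.pi / 2) := by
    rw [Real.one_le_sqrt]
    have := Real.pi_gt_three
    linarith
  have h2 : (1 : ℝ≥0∞) ≤ ENNReal.ofReal (Real.sqrt (Real.pi / 2)) := by
    rw [← ENNReal.ofReal_one]
    exact ENNReal.ofReal_le_ofReal h1
  have h3 : (1 : ℝ≥0∞) ≤ (Nat.doubleFactorial (d - 1) : ℝ≥0∞) := by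
    exact_mod_cast Nat.one_le_iff_ne_zero.mpr (Nat.doubleFactorial_pos _).ne'
  calc (1 : ℝ≥0∞) = 1 * 1 := (one_mul 1).symm
    _ ≤ _ := mul_le_mul' h2 h3

theorem cc_ne_zero (d : ℕ) : cc d ≠ 0 := (lt_of_lt_of_le zero_lt_one (one_le_cc d)).ne'

theorem cc_ne_top (d : ℕ) : cc d ≠ ∞ :=
  ENNReal.mul_ne_top ENNReal.ofReal_ne_top (ENNReal.natCast_ne_top _)

theorem lintegral_md1 (d : ℕ) (hd : Even d) :
    ∫⁻ x : ℝ, ENNReal.ofReal (|x| ^ d * Real.exp (-x ^ 2 / 2)) / cc d = 2 := by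
  have h : ∀ x : ℝ, ENNReal.ofReal (|x| ^ d * Real.exp (-x ^ 2 / 2)) / cc d
      = ENNReal.ofReal (|x| ^ d * Real.exp (-x ^ 2 / 2)) * (cc d)⁻¹ := fun x =>
    div_eq_mul_inv _ _
  simp only [h]
  rw [lintegral_mul_const _ (by fun_prop), cc_eq _ hd, mul_assoc,
    ENNReal.mul_inv_cancel (cc_ne_zero _) (cc_ne_top _), mul_one]

theorem lintegral_md1_small (d : ℕ) (hd : Even d) (hd2 : 2 ≤ d) (s : ℝ) (hs : 0 < s) :
    ∫⁻ x : ℝ, ENNReal.ofReal (|x| ^ d * Real.exp (-x ^ 2 / 2)) / cc d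
      * (if |x| < s then 1 else 0) ≤ 2 * ENNReal.ofReal (s ^ 3) := by
  rcases le_or_gt 1 s with h1 | h1
  · calc _ ≤ ∫⁻ x : ℝ, ENNReal.ofReal (|x| ^ d * Real.exp (-x ^ 2 / 2)) / cc d := by
          refine lintegral_mono fun x => ?_
          split_ifs
          · rw [mul_one]
          · rw [mul_zero]
            exact zero_le
      _ = 2 * 1 := by rw [lintegral_md1 d hd, mul_one]
      _ ≤ _ := by
          refine mul_le_mul' le_rfl ?_
          rw [← ENNReal.ofReal_one]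
          exact ENNReal.ofReal_le_ofReal (one_le_pow₀ h1)
  · calc _ ≤ ∫⁻ x : ℝ, (Set.Ioo (-s) s).indicator (fun _ => ENNReal.ofReal (s ^ 2)) x := by
          refine lintegral_mono fun x => ?_
          by_cases hx : |x| < s
          · rw [if_pos hx, mul_one, Set.indicator_of_mem (by exact abs_lt.mp hx)]
            calc _ ≤ ENNReal.ofReal (|x| ^ d * Real.exp (-x ^ 2 / 2)) / 1 :=
                  ENNReal.div_le_div_left (one_le_cc d) _
              _ ≤ _ := by
                  rw [div_one]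
                  refine ENNReal.ofReal_le_ofReal ?_
                  have e1 : Real.exp (-x ^ 2 / 2) ≤ 1 := by
                    rw [Real.exp_le_one_iff]
                    nlinarith [sq_nonneg x]
                  have e2 : |x| ^ d ≤ |x| ^ 2 :=
                    pow_le_pow_of_le_one (abs_nonneg x) (hx.le.trans h1.le) hd2
                  have e3 : |x| ^ 2 ≤ s ^ 2 := pow_le_pow_left₀ (abs_nonneg x) hx.le 2
                  calc |x| ^ d * Real.exp (-x ^ 2 / 2) ≤ |x| ^ d * 1 :=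
                        mul_le_mul_of_nonneg_left e1 (by positivity)
                    _ ≤ s ^ 2 := by rw [mul_one]; exact e2.trans e3
          · rw [if_neg hx, mul_zero]
            exact zero_le
      _ = ENNReal.ofReal (s ^ 2) * ENNReal.ofReal (s - -s) := by
          rw [lintegral_indicator measurableSet_Ioo, setLIntegral_const, Real.volume_Ioo]
      _ = _ := by
          rw [← ENNReal.ofReal_mul (by positivity), ← ENNReal.ofReal_ofNat 2,
            ← ENNReal.ofReal_mul (by norm_num)]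
          congr 1
          ring

variable {V : Type} [Fintype V]

/-! ### Measurability -/

theorem measurable_JJ (N : Net V) (e : Edg V) : Measurable fun Φ : V → ℝ => JJ N Φ e := by
  unfold JJ
  fun_prop

theorem measurable_npw (N : Net V) (k : Edg V →₀ ℕ) :
    Measurable fun Φ : V → ℝ => npw (JJ N Φ) k := by
  have h : ∀ k : Edg V →₀ ℕ, Measurable fun Φ : V → ℝ => pw (JJ N Φ) k := by
    intro k
    unfold pw Finsupp.prod
    refine Finset.measurable_prod _ fun e _ => ?_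
    exact ((measurable_JJ N e).pow_const _).div_const _
  exact (h k).div (Measurable.tsum h)

theorem measurableSet_sgn (σ : V → ℤˣ) : MeasurableSet {Φ : V → ℝ | sgn Φ = σ} := by
  have h : {Φ : V → ℝ | sgn Φ = σ} = ⋂ v, {Φ : V → ℝ | sgn Φ v = σ v} := by
    ext Φ
    simp [funext_iff]
  rw [h]
  refine MeasurableSet.iInter fun v => ?_
  have h0 : MeasurableSet {Φ : V → ℝ | 0 ≤ Φ v} :=
    measurableSet_le measurable_const (measurable_pi_apply v)
  rcases Int.units_eq_one_or (σ v) with hv | hv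
  · convert h0 using 1
    ext Φ
    simp only [Set.mem_ofPred_eq, sgn, hv]
    split_ifs with h <;> simp [h]
  · convert h0.compl using 1
    ext Φ
    simp only [Set.mem_ofPred_eq, Set.mem_compl_iff, sgn, hv]
    split_ifs with h <;> simp [h]

theorem measurableSet_compat (m : Edg V →₀ ℕ) : MeasurableSet {Φ : V → ℝ | Compat m (sgn Φ)} := by
  have h : {Φ : V → ℝ | Compat m (sgn Φ)}
      = ⋃ σ ∈ {σ : V → ℤˣ | Compat m σ}, {Φ : V → ℝ | sgn Φ = σ} := by
    ext Φ
    simp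
  rw [h]
  exact MeasurableSet.biUnion (Set.to_countable _) fun σ _ => measurableSet_sgn σ

theorem measurable_Sg (N : Net V) (n : Edg V →₀ ℕ) : Measurable (Sg N n) := by
  unfold Sg
  refine Measurable.tsum fun k => (measurable_npw N k).mul ?_
  exact Measurable.ite (measurableSet_compat _) measurable_const measurable_const

theorem measurable_Dd (N : Net V) (n : Edg V →₀ ℕ) : Measurable (Dd N n) := by
  unfold Dd
  refine Measurable.mul (Finset.measurable_prod _ fun v _ => ?_) (measurable_Sg N n)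
  refine Measurable.div_const ?_ _
  fun_prop

/-! ### Sign flips -/

/-- sign flip -/
noncomputable def flp (τ : V → ℤˣ) (Φ : V → ℝ) : V → ℝ := fun v => ((τ v : ℤ) : ℝ) * Φ v

theorem measurePreserving_flp (τ : V → ℤˣ) : MeasurePreserving (flp τ) := by
  refine measurePreserving_pi (fun _ : V => (volume : Measure ℝ)) (fun _ => volume)
    (f := fun v x => ((τ v : ℤ) : ℝ) * x) fun v => ?_
  rcases Int.units_eq_one_or (τ v) with hv | hv
  · have h : (fun x : ℝ => ((τ v : ℤ) : ℝ) * x) = id := by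
      funext x
      simp [hv]
    rw [h]
    exact MeasurePreserving.id _
  · simpa [hv] using Measure.measurePreserving_neg (volume : Measure ℝ)

omit [Fintype V] in
theorem abs_flp (τ : V → ℤˣ) (Φ : V → ℝ) (v : V) : |flp τ Φ v| = |Φ v| := by
  unfold flp
  rcases Int.units_eq_one_or (τ v) with hv | hv <;> simp [hv]

theorem JJ_flp (N : Net V) (τ : V → ℤˣ) (Φ : V → ℝ) : JJ N (flp τ Φ) = JJ N Φ := by
  funext e
  simp only [JJ, abs_flp]

omit [Fintype V] in
theorem sgn_flp (τ : V → ℤˣ) (Φ : V → ℝ) (hΦ : ∀ v, Φ v ≠ 0) :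
    sgn (flp τ Φ) = τ * sgn Φ := by
  funext v
  simp only [sgn, flp, Pi.mul_apply]
  rcases Int.units_eq_one_or (τ v) with hv | hv
  · simp [hv]
  · rcases lt_or_gt_of_ne (hΦ v) with h | h
    · simp [hv, h.le, not_le.mpr h]
    · simp [hv, h.le, not_le.mpr h]

theorem ncomp_pos (m : Edg V →₀ ℕ) : 0 < ncomp m := by
  unfold ncomp
  refine Finset.card_pos.mpr ⟨1, ?_⟩
  simp [Compat, chi]

theorem JJ_ne_top (N : Net V) (Φ : V → ℝ) (e : Edg V) : JJ N Φ e ≠ ∞ := by
  unfold JJ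
  refine ENNReal.mul_ne_top ?_ ENNReal.ofReal_ne_top
  rcases e with s | v
  · exact ENNReal.coe_ne_top
  · exact ENNReal.coe_ne_top

theorem tsum_JJ_ne_top (N : Net V) (Φ : V → ℝ) : ∑' e, JJ N Φ e ≠ ∞ := by
  rw [tsum_fintype]
  exact ENNReal.sum_ne_top.mpr fun e _ => JJ_ne_top N Φ e

theorem sum_Sg_flp (N : Net V) (n : Edg V →₀ ℕ) (Φ : V → ℝ) (hΦ : ∀ v, Φ v ≠ 0) :
    ∑ τ : V → ℤˣ, Sg N n (flp τ Φ) = 1 := by
  have h1 : ∀ τ : V → ℤˣ, Sg N n (flp τ Φ) = ∑' k : Edg V →₀ ℕ, npw (JJ N Φ) k *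
      (if Compat (n + k) (τ * sgn Φ) then ((ncomp (n + k) : ℝ≥0∞))⁻¹ else 0) := by
    intro τ
    simp only [Sg, JJ_flp, sgn_flp τ Φ hΦ]
  simp only [h1]
  rw [← Summable.tsum_finsetSum (fun _ _ => ENNReal.summable),
    ← tsum_npw (JJ N Φ) (tsum_JJ_ne_top N Φ)]
  refine tsum_congr fun k => ?_
  rw [← Finset.mul_sum]
  have h2 : ∑ τ : V → ℤˣ, (if Compat (n + k) (τ * sgn Φ) then ((ncomp (n + k) : ℝ≥0∞))⁻¹ else 0)
      = 1 := by
    have h3 : ∑ τ : V → ℤˣ, (if Compat (n + k) (τ * sgn Φ) then ((ncomp (n + k) : ℝ≥0∞))⁻¹ else 0)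
        = ∑ σ : V → ℤˣ, (if Compat (n + k) σ then ((ncomp (n + k) : ℝ≥0∞))⁻¹ else 0) :=
      Fintype.sum_equiv (Equiv.mulRight (sgn Φ)) _ _ fun τ => rfl
    rw [h3, ← Finset.sum_filter, Finset.sum_const, nsmul_eq_mul]
    exact ENNReal.mul_inv_cancel (by exact_mod_cast (ncomp_pos (n + k)).ne')
      (ENNReal.natCast_ne_top _)
  rw [h2, mul_one]

theorem ae_ne_zero : ∀ᵐ Φ : V → ℝ, ∀ v, Φ v ≠ 0 := by
  rw [ae_all_iff]
  intro v
  exact compl_mem_ae_iff.mpr (Measure.pi_hyperplane (fun _ : V => (volume : Measure ℝ)) v 0)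

/-- the modulus part of the density -/
noncomputable def Md (n : Edg V →₀ ℕ) (Φ : V → ℝ) : ℝ≥0∞ :=
  ∏ v, ENNReal.ofReal (|Φ v| ^ deg n v * Real.exp (-(Φ v) ^ 2 / 2)) / cc (deg n v)

theorem Md_flp (n : Edg V →₀ ℕ) (τ : V → ℤˣ) (Φ : V → ℝ) : Md n (flp τ Φ) = Md n Φ := by
  unfold Md
  refine Finset.prod_congr rfl fun v _ => ?_
  rw [← sq_abs, abs_flp, sq_abs]

theorem measurable_Md (n : Edg V →₀ ℕ) : Measurable (Md n) := by
  unfold Md
  refine Finset.measurable_prod _ fun v _ => ?_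
  refine Measurable.div_const ?_ _
  fun_prop

theorem sym_Dd (N : Net V) (n : Edg V →₀ ℕ) (G : (V → ℝ) → ℝ≥0∞) (hG : Measurable G)
    (hsym : ∀ τ Φ, G (flp τ Φ) = G Φ) :
    (2 : ℝ≥0∞) ^ Fintype.card V * ∫⁻ Φ, Dd N n Φ * G Φ = ∫⁻ Φ, Md n Φ * G Φ := by
  have h1 : ∀ τ : V → ℤˣ, ∫⁻ Φ, Dd N n Φ * G Φ = ∫⁻ Φ, Dd N n (flp τ Φ) * G (flp τ Φ) := fun τ =>
    ((measurePreserving_flp τ).lintegral_comp ((measurable_Dd N n).mul hG)).symm
  have h2 : (2 : ℝ≥0∞) ^ Fintype.card V * ∫⁻ Φ, Dd N n Φ * G Φ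
      = ∑ τ : V → ℤˣ, ∫⁻ Φ, Dd N n (flp τ Φ) * G (flp τ Φ) := by
    rw [← Finset.sum_congr rfl fun τ _ => h1 τ, Finset.sum_const, nsmul_eq_mul]
    congr 1
    rw [Finset.card_univ, Fintype.card_fun, Fintype.card_units_int]
    push_cast
    rfl
  rw [h2, ← lintegral_finsetSum]
  · refine lintegral_congr_ae ?_
    filter_upwards [ae_ne_zero] with Φ hΦ
    have h3 : ∀ τ : V → ℤˣ, Dd N n (flp τ Φ) * G (flp τ Φ)
        = Md n Φ * G Φ * Sg N n (flp τ Φ) := by
      intro τ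
      have : Dd N n (flp τ Φ) = Md n (flp τ Φ) * Sg N n (flp τ Φ) := rfl
      rw [this, Md_flp, hsym]
      ring
    simp only [h3]
    rw [← Finset.mul_sum, sum_Sg_flp N n Φ hΦ, mul_one]
  · intro τ _
    exact ((measurable_Dd N n).mul hG).comp (measurePreserving_flp τ).measurable

theorem lintegral_Dd (N : Net V) (n : Edg V →₀ ℕ) (hn : ∀ v, Even (deg n v)) :
    ∫⁻ Φ : V → ℝ, Dd N n Φ = 1 := by
  have h := sym_Dd N n (fun _ => 1) measurable_const (fun _ _ => rfl)
  simp only [mul_one] at h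
  have h2 : ∫⁻ Φ, Md n Φ = 2 ^ Fintype.card V := by
    unfold Md
    rw [lintegral_fintype_prod (fun v x =>
      ENNReal.ofReal (|x| ^ deg n v * Real.exp (-x ^ 2 / 2)) / cc (deg n v))
      (fun v => Measurable.div_const (by fun_prop) _)]
    have h3 : ∀ v, ∫⁻ x : ℝ, ENNReal.ofReal (|x| ^ deg n v * Real.exp (-x ^ 2 / 2))
        / cc (deg n v) = 2 := by
      intro v
      exact lintegral_md1 _ (hn v)
    simp only [h3, Finset.prod_const, Finset.card_univ]
  rw [h2] at h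
  have h4 : (2 : ℝ≥0∞) ^ Fintype.card V ≠ 0 := by simp
  have h5 : (2 : ℝ≥0∞) ^ Fintype.card V ≠ ∞ := by simp
  exact (ENNReal.mul_right_inj h4 h5).mp (by rw [h, mul_one])

theorem lintegral_Dd_small (N : Net V) (n : Edg V →₀ ℕ) (hn : ∀ v, Even (deg n v)) (v : V)
    (hv : 2 ≤ deg n v) (s : ℝ) (hs : 0 < s) :
    ∫⁻ Φ in {Φ : V → ℝ | |Φ v| < s}, Dd N n Φ ≤ ENNReal.ofReal (s ^ 3) := by
  have hA : MeasurableSet {Φ : V → ℝ | |Φ v| < s} :=
    measurableSet_lt (by fun_prop) measurable_const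
  have hG : Measurable fun Φ : V → ℝ => (if |Φ v| < s then (1 : ℝ≥0∞) else 0) :=
    Measurable.ite hA measurable_const measurable_const
  have h := sym_Dd N n (fun Φ => if |Φ v| < s then (1 : ℝ≥0∞) else 0) hG
    (fun τ Φ => by simp only [abs_flp])
  have h1 : ∫⁻ Φ in {Φ : V → ℝ | |Φ v| < s}, Dd N n Φ
      = ∫⁻ Φ, Dd N n Φ * (if |Φ v| < s then (1 : ℝ≥0∞) else 0) := by
    rw [← lintegral_indicator hA]
    refine lintegral_congr fun Φ => ?_
    by_cases hΦ : |Φ v| < s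
    · rw [if_pos hΦ, mul_one, Set.indicator_of_mem (by exact hΦ)]
    · rw [if_neg hΦ, mul_zero, Set.indicator_of_notMem (by exact hΦ)]
  have h2 : ∫⁻ Φ, Md n Φ * (if |Φ v| < s then (1 : ℝ≥0∞) else 0)
      ≤ 2 ^ Fintype.card V * ENNReal.ofReal (s ^ 3) := by
    have h3 : ∀ Φ : V → ℝ, Md n Φ * (if |Φ v| < s then (1 : ℝ≥0∞) else 0)
        = ∏ u, (ENNReal.ofReal (|Φ u| ^ deg n u * Real.exp (-(Φ u) ^ 2 / 2)) / cc (deg n u)
          * (if u = v then (if |Φ u| < s then 1 else 0) else 1)) := by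
      intro Φ
      rw [Finset.prod_mul_distrib, Finset.prod_ite_eq' Finset.univ v
        (fun u => if |Φ u| < s then (1 : ℝ≥0∞) else 0), if_pos (Finset.mem_univ v)]
      rfl
    simp only [h3]
    rw [lintegral_fintype_prod (fun u x =>
      ENNReal.ofReal (|x| ^ deg n u * Real.exp (-x ^ 2 / 2)) / cc (deg n u)
        * (if u = v then (if |x| < s then 1 else 0) else 1))]
    · calc _ ≤ ∏ u : V, 2 * (if u = v then ENNReal.ofReal (s ^ 3) else 1) := by
            refine Finset.prod_le_prod' fun u _ => ?_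
            by_cases hu : u = v
            · subst hu
              simp only [if_true]
              exact lintegral_md1_small _ (hn u) hv s hs
            · simp only [if_neg hu, mul_one]
              exact (lintegral_md1 _ (hn u)).le
        _ = _ := by
            rw [Finset.prod_mul_distrib, Finset.prod_const, Finset.card_univ,
              Finset.prod_ite_eq' Finset.univ v (fun _ => ENNReal.ofReal (s ^ 3)),
              if_pos (Finset.mem_univ v)]
    · intro u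
      refine Measurable.mul (Measurable.div_const (by fun_prop) _) ?_
      split_ifs
      · exact Measurable.ite (measurableSet_lt (by fun_prop) measurable_const)
          measurable_const measurable_const
      · exact measurable_const
  have h4 : (2 : ℝ≥0∞) ^ Fintype.card V ≠ 0 := by simp
  have h5 : (2 : ℝ≥0∞) ^ Fintype.card V ≠ ∞ := by simp
  rw [h1]
  exact (ENNReal.mul_le_mul_iff_right h4 h5).mp (h.le.trans h2)

end Pool.Agent.Lib.MP_e4a9a7_pr.D3
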