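import Mathlib
import Pool.Agent.Lib.MP_e4a9a7_pr.D3.Defs

/-!
# Task F: sums over paths
-/

namespace Pool.Agent.Lib.MP_e4a9a7_pr.D3

open scoped ENNReal NNReal BigOperators

variable {V : Type}

theorem en_append (v : V) (s t : List V) : en v (s ++ t) = en (en v s) t := by
  induction s generalizing v with
  | nil => rfl
  | cons y s ih => exact ih y

theorem pr_append (P : V → V → ℝ≥0) (v : V) (s t : List V) :
    pr P v (s ++ t) = pr P v s * pr P (en v s) t := by
  induction s generalizing v with
  | nil => simp [pr, en]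
  | cons y s ih =>
    change (P v y : ℝ≥0∞) * pr P y (s ++ t) = (P v y : ℝ≥0∞) * pr P y s * pr P (en y s) t
    rw [ih y, mul_assoc]

theorem att_append_left (v : V) (s t : List V) (m : ℕ) (hm : m ≤ s.length) :
    att v (s ++ t) m = att v s m := by
  unfold att
  rw [← List.cons_append, List.getD_append]
  rw [List.length_cons]
  omega

theorem att_append_right (v : V) (s t : List V) (m : ℕ) (hm : m ≤ t.length) :
    att v (s ++ t) (s.length + m) = att (en v s) t m := by
  induction s generalizing v with
  | nil => simp [en, att]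
  | cons y s ih =>
    have h1 : att v (y :: s ++ t) ((y :: s).length + m) = att y (s ++ t) (s.length + m) := by
      unfold att
      have h2 : (y :: s).length + m = (s.length + m) + 1 := by
        rw [List.length_cons]; omega
      rw [h2, List.cons_append, List.getD_cons_succ]
      have h3 : s.length + m < (y :: (s ++ t)).length := by
        rw [List.length_cons, List.length_append]; omega
      rw [List.getD_eq_getElem _ _ h3, List.getD_eq_getElem _ _ h3]
    rw [h1, ih y]
    rfl

theorem att_length (v : V) (s : List V) : att v s s.length = en v s := by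
  have h := att_append_right v s [] 0 (Nat.zero_le _)
  simpa [att] using h

section
variable [Fintype V]

theorem tsum_list (F : List V → ℝ≥0∞) : ∑' w, F w = F [] + ∑ y, ∑' w, F (y :: w) := by
  classical
  rw [ENNReal.tsum_eq_add_tsum_ite []]
  congr 1
  have hinj : Function.Injective (fun p : V × List V => p.1 :: p.2) := by
    rintro ⟨a, b⟩ ⟨c, d⟩ h
    simp only [List.cons.injEq] at h
    exact Prod.ext h.1 h.2
  have h1 := hinj.tsum_eq (f := fun w : List V => if w = [] then 0 else F w) (by
    intro w hw
    cases w with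
    | nil => simp at hw
    | cons y w => exact ⟨(y, w), rfl⟩)
  refine (tsum_congr (fun w => ?_)).trans (h1.symm.trans ?_)
  · congr
  · simp only [reduceCtorEq, if_false]
    rw [ENNReal.tsum_prod (f := fun y w => F (y :: w)), tsum_fintype]

theorem tsum_len (P : V → V → ℝ≥0) (v : V) (n : ℕ) (F : List V → ℝ≥0∞) :
    ∑' w : List V, (if w.length = n then pr P v w * F w else 0) = Ex P v n F := by
  induction n generalizing v F with
  | zero =>
    rw [tsum_list]
    simp [pr, Ex]
  | succ n ih =>
    rw [tsum_list]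
    simp only [List.length_nil, List.length_cons, Nat.add_right_cancel_iff, Ex]
    rw [if_neg (by omega), zero_add]
    apply Finset.sum_congr rfl
    intro y _
    rw [← ih y, ← ENNReal.tsum_mul_left]
    apply tsum_congr
    intro w
    split_ifs
    · simp only [pr]
      rw [mul_assoc]
    · simp

theorem Ex_mono (P : V → V → ℝ≥0) (v : V) (n : ℕ) {F G : List V → ℝ≥0∞} (h : ∀ w, F w ≤ G w) :
    Ex P v n F ≤ Ex P v n G := by
  induction n generalizing v F G with
  | zero => exact h []
  | succ n ih =>
    simp only [Ex]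
    apply Finset.sum_le_sum
    intro y _
    gcongr
    exact ih y (fun w => h _)

theorem Ex_congr_len (P : V → V → ℝ≥0) (v : V) (n : ℕ) {F G : List V → ℝ≥0∞}
    (h : ∀ w, w.length = n → F w = G w) : Ex P v n F = Ex P v n G := by
  induction n generalizing v F G with
  | zero => exact h [] rfl
  | succ n ih =>
    simp only [Ex]
    apply Finset.sum_congr rfl
    intro y _
    rw [ih y (F := fun w => F (y :: w)) (G := fun w => G (y :: w))]
    intro w hw
    exact h _ (by rw [List.length_cons, hw])

theorem Ex_le_one (P : V → V → ℝ≥0) (hP : ∀ x, ∑ y, P x y ≤ 1) (v : V) (n : ℕ) :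
    Ex P v n (fun _ => 1) ≤ 1 := by
  induction n generalizing v with
  | zero => simp [Ex]
  | succ n ih =>
    simp only [Ex]
    calc ∑ y, (P v y : ℝ≥0∞) * Ex P y n (fun _ => 1) ≤ ∑ y, (P v y : ℝ≥0∞) * 1 := by
          apply Finset.sum_le_sum
          intro y _
          gcongr
          exact ih y
      _ = ((∑ y, P v y : ℝ≥0) : ℝ≥0∞) := by
          push_cast
          simp
      _ ≤ 1 := by exact_mod_cast hP v

theorem Ex_mul_left (P : V → V → ℝ≥0) (v : V) (n : ℕ) (a : ℝ≥0∞) (F : List V → ℝ≥0∞) :
    Ex P v n (fun w => a * F w) = a * Ex P v n F := by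
  induction n generalizing v F with
  | zero => simp [Ex]
  | succ n ih =>
    simp only [Ex]
    rw [Finset.mul_sum]
    apply Finset.sum_congr rfl
    intro y _
    rw [ih y (fun w => F (y :: w))]
    ring

theorem Ex_add (P : V → V → ℝ≥0) (v : V) (n : ℕ) (F G : List V → ℝ≥0∞) :
    Ex P v n (fun w => F w + G w) = Ex P v n F + Ex P v n G := by
  induction n generalizing v F G with
  | zero => simp [Ex]
  | succ n ih =>
    simp only [Ex]
    rw [← Finset.sum_add_distrib]
    apply Finset.sum_congr rfl
    intro y _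
    rw [ih y (fun w => F (y :: w)) (fun w => G (y :: w)), mul_add]

theorem Ex_zero' (P : V → V → ℝ≥0) (v : V) (n : ℕ) : Ex P v n (fun _ => 0) = 0 := by
  have h := Ex_mul_left P v n 0 (fun _ => 0)
  simpa using h

theorem Ex_sum {ι : Type} (P : V → V → ℝ≥0) (v : V) (n : ℕ) (s : Finset ι)
    (F : ι → List V → ℝ≥0∞) :
    Ex P v n (fun w => ∑ i ∈ s, F i w) = ∑ i ∈ s, Ex P v n (F i) := by
  classical
  induction s using Finset.induction_on with
  | empty => simp [Ex_zero']
  | insert a s ha ih =>
    simp only [Finset.sum_insert ha]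
    rw [Ex_add, ih]

/-- Markov property -/
theorem Ex_split (P : V → V → ℝ≥0) (v : V) (m n : ℕ) (F : List V → ℝ≥0∞) :
    Ex P v (m + n) F = Ex P v m (fun w => Ex P (en v w) n (fun w' => F (w ++ w'))) := by
  induction m generalizing v F with
  | zero => simp [Ex, en]
  | succ m ih =>
    rw [Nat.succ_add]
    simp only [Ex]
    apply Finset.sum_congr rfl
    intro y _
    rw [ih y (fun w => F (y :: w))]
    rfl

end

section
variable [Fintype V] (N : Net V)

theorem H_pos (v : V) : 0 < N.H v := by
  have := N.eq v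
  have h2 := N.η_pos v
  rw [this]
  positivity

theorem bw_nil (v : V) : bw N v [] = (N.η v : ℝ≥0∞) := by
  simp [bw, pr, en]

theorem bw_cons (v y : V) (w : List V) : bw N v (y :: w) = (N.P v y : ℝ≥0∞) * bw N y w := by
  simp only [bw, pr, en]
  rw [mul_assoc]

theorem tsum_bw_rec (v : V) :
    ∑' w, bw N v w = (N.η v : ℝ≥0∞) + ∑ y, (N.P v y : ℝ≥0∞) * ∑' w, bw N y w := by
  rw [tsum_list, bw_nil]
  congr 1
  apply Finset.sum_congr rfl
  intro y _
  rw [← ENNReal.tsum_mul_left]
  apply tsum_congr
  intro w
  exact bw_cons N v y w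

theorem tsum_bw_lt (n : ℕ) (v : V) :
    ∑' w : List V, (if w.length < n then bw N v w else 0) ≤ (N.H v : ℝ≥0∞) := by
  induction n generalizing v with
  | zero => simp
  | succ n ih =>
    rw [tsum_list]
    have h1 : (N.H v : ℝ≥0∞) = (N.η v : ℝ≥0∞) + ∑ y, (N.P v y : ℝ≥0∞) * (N.H y : ℝ≥0∞) := by
      rw [N.eq v]
      push_cast
      rfl
    rw [h1]
    apply add_le_add
    · rw [if_pos (by simp), bw_nil]
    · apply Finset.sum_le_sum
      intro y _
      calc ∑' w : List V, (if (y :: w).length < n + 1 then bw N v (y :: w) else 0)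
          = (N.P v y : ℝ≥0∞) * ∑' w : List V, (if w.length < n then bw N y w else 0) := by
            rw [← ENNReal.tsum_mul_left]
            apply tsum_congr
            intro w
            rw [List.length_cons, bw_cons]
            by_cases h : w.length < n
            · rw [if_pos (by omega), if_pos h]
            · rw [if_neg (by omega), if_neg h, mul_zero]
        _ ≤ _ := by
            gcongr
            exact ih y

theorem tsum_bw_le (v : V) : ∑' w, bw N v w ≤ (N.H v : ℝ≥0∞) := by
  rw [ENNReal.tsum_eq_iSup_sum]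
  apply iSup_le
  intro s
  obtain ⟨n, hn⟩ : ∃ n, ∀ w ∈ s, w.length < n :=
    ⟨s.sup List.length + 1, fun w hw => Nat.lt_succ_of_le (Finset.le_sup hw)⟩
  calc ∑ w ∈ s, bw N v w = ∑ w ∈ s, (if w.length < n then bw N v w else 0) := by
        apply Finset.sum_congr rfl
        intro w hw
        rw [if_pos (hn w hw)]
    _ ≤ ∑' w : List V, (if w.length < n then bw N v w else 0) := ENNReal.sum_le_tsum s
    _ ≤ _ := tsum_bw_lt N n v

/-- `∑ bw = H` (uses that `P^n H → 0`, which follows from `P H ≤ (1 - c) H`) -/
theorem tsum_bw (v : V) : ∑' w, bw N v w = (N.H v : ℝ≥0∞) := by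
  classical
  -- T as nonnegative reals
  let T : V → ℝ≥0 := fun v => (∑' w, bw N v w).toNNReal
  have hT : ∀ v, (T v : ℝ≥0∞) = ∑' w, bw N v w := by
    intro v
    apply ENNReal.coe_toNNReal
    exact ne_top_of_le_ne_top ENNReal.coe_ne_top (tsum_bw_le N v)
  have hTle : ∀ v, T v ≤ N.H v := by
    intro v
    have := tsum_bw_le N v
    rw [← hT v] at this
    exact_mod_cast this
  have hTrec : ∀ v, T v = N.η v + ∑ y, N.P v y * T y := by
    intro v
    have h1 := tsum_bw_rec N v
    simp only [← hT] at h1
    exact_mod_cast h1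
  -- the difference
  let D : V → ℝ := fun v => (N.H v : ℝ) - T v
  have hD0 : ∀ v, 0 ≤ D v := fun v => sub_nonneg.mpr (by exact_mod_cast hTle v)
  have hDrec : ∀ v, D v = ∑ y, (N.P v y : ℝ) * D y := by
    intro v
    have h1 : (N.H v : ℝ) = N.η v + ∑ y, (N.P v y : ℝ) * N.H y := by
      have := N.eq v
      exact_mod_cast congrArg (fun z : ℝ≥0 => (z : ℝ)) this
    have h2 : (T v : ℝ) = N.η v + ∑ y, (N.P v y : ℝ) * T y := by
      have := hTrec v
      exact_mod_cast congrArg (fun z : ℝ≥0 => (z : ℝ)) this
    simp only [D]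
    rw [h1, h2]
    simp only [mul_sub, Finset.sum_sub_distrib]
    ring
  have hne : (Finset.univ : Finset V).Nonempty := ⟨v, Finset.mem_univ v⟩
  obtain ⟨m, _, hm⟩ := Finset.exists_max_image Finset.univ (fun v => D v / N.H v) hne
  have hHp : ∀ v, (0 : ℝ) < N.H v := fun v => by exact_mod_cast H_pos N v
  have hmax : ∀ y, D y ≤ D m / N.H m * N.H y := by
    intro y
    have := hm y (Finset.mem_univ y)
    rwa [div_le_iff₀ (hHp y)] at this
  have hDm : D m = 0 := by
    by_contra hcon
    have hpos : 0 < D m := lt_of_le_of_ne (hD0 m) (Ne.symm hcon)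
    have h1 : D m ≤ ∑ y, (N.P m y : ℝ) * (D m / N.H m * N.H y) := by
      rw [hDrec m]
      apply Finset.sum_le_sum
      intro y _
      rw [← hDrec m]
      exact mul_le_mul_of_nonneg_left (hmax y) (NNReal.coe_nonneg _)
    have h2 : ∑ y, (N.P m y : ℝ) * (D m / N.H m * N.H y)
        = D m / N.H m * ∑ y, (N.P m y : ℝ) * N.H y := by
      rw [Finset.mul_sum]
      apply Finset.sum_congr rfl
      intro y _
      ring
    have h3 : ∑ y, (N.P m y : ℝ) * N.H y = N.H m - N.η m := by
      have := N.eq m
      have h4 := congrArg (fun z : ℝ≥0 => (z : ℝ)) this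
      push_cast at h4
      linarith
    rw [h2, h3] at h1
    have h4 : D m / N.H m * (N.H m - N.η m) = D m - D m / N.H m * N.η m := by
      have := (hHp m).ne'
      field_simp
    rw [h4] at h1
    have h5 : 0 < D m / N.H m * N.η m := by
      have : (0 : ℝ) < N.η m := by exact_mod_cast N.η_pos m
      have := hHp m
      positivity
    linarith
  have hDv : D v = 0 := by
    apply le_antisymm _ (hD0 v)
    have := hmax v
    rw [hDm] at this
    simpa using this
  rw [← hT v]
  have : (N.H v : ℝ) = T v := by
    simp only [D] at hDv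
    linarith
  have h2 : N.H v = T v := by exact_mod_cast this
  rw [h2]

theorem tsum_iota (F : List V → ℝ≥0∞) :
    ∑' w, iota N w * F w = (∑ v, ∑' w, (N.η v : ℝ≥0∞) * bw N v w * F (v :: w)) / 2 := by
  rw [tsum_list]
  simp only [iota, zero_mul, zero_add]
  rw [ENNReal.div_eq_inv_mul, Finset.mul_sum]
  apply Finset.sum_congr rfl
  intro v _
  rw [← ENNReal.tsum_mul_left]
  apply tsum_congr
  intro w
  rw [ENNReal.div_eq_inv_mul]
  ring

theorem tsum_iota_ne_top : ∑' w, iota N w ≠ ∞ := by
  have h1 := tsum_iota N (fun _ => 1)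
  simp only [mul_one] at h1
  rw [h1]
  apply ENNReal.div_ne_top _ (by norm_num)
  rw [ENNReal.sum_ne_top]
  intro v _
  rw [ENNReal.tsum_mul_left, tsum_bw]
  exact ENNReal.mul_ne_top ENNReal.coe_ne_top ENNReal.coe_ne_top

theorem pr_reverse (v : V) (α : List V) (s : List V) :
    ∀ (x : V) (t : List V), α.reverse ++ v :: s = x :: t →
      (pr N.P x t = pr N.P v α * pr N.P v s ∧ x = en v α) := by
  induction α generalizing v s with
  | nil =>
    intro x t h
    simp only [List.reverse_nil, List.nil_append, List.cons.injEq] at h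
    obtain ⟨rfl, rfl⟩ := h
    simp [pr, en]
  | cons y α ih =>
    intro x t h
    rw [List.reverse_cons, List.append_assoc, List.singleton_append] at h
    obtain ⟨h1, h2⟩ := ih y (v :: s) x t h
    refine ⟨?_, h2⟩
    rw [h1]
    simp only [pr]
    rw [N.symm y v]
    ring

omit [Fintype V] in
theorem en_eq_getLast (v : V) (w : List V) :
    en v w = (v :: w).getLast (List.cons_ne_nil _ _) := by
  induction w generalizing v with
  | nil => rfl
  | cons y w ih =>
    rw [List.getLast_cons_cons]
    exact ih y

omit [Fintype V] in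
theorem en_reverse (v : V) (α s : List V) (x : V) (t : List V)
    (h : α.reverse ++ v :: s = x :: t) : en x t = en v s := by
  rw [en_eq_getLast, en_eq_getLast]
  have h1 : (x :: t).getLast (List.cons_ne_nil _ _)
      = (α.reverse ++ v :: s).getLast (by simp) := by
    congr 1
    exact h.symm
  rw [h1, List.getLast_append_of_ne_nil]

/-- the intensity of a path decomposed at two marks -/
theorem iota_split (v : V) (α s β : List V) :
    iota N (α.reverse ++ (v :: s) ++ β)
      = bw N v α * pr N.P v s * bw N (en v s) β / 2 := by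
  obtain ⟨x, t, hxt⟩ : ∃ x t, α.reverse ++ v :: (s ++ β) = x :: t := by
    cases h : α.reverse ++ v :: (s ++ β) with
    | nil => simp at h
    | cons x t => exact ⟨x, t, rfl⟩
  have h0 : α.reverse ++ (v :: s) ++ β = x :: t := by
    rw [← hxt]
    simp
  obtain ⟨h1, h2⟩ := pr_reverse N v α (s ++ β) x t hxt
  have h3 := en_reverse v α (s ++ β) x t hxt
  rw [h0]
  simp only [iota, bw]
  rw [h3, h1, h2, pr_append, en_append]
  congr 1
  ring

/-- reversal of paths -/
theorem tsum_reverse (F : List V → ℝ≥0∞) :
    ∑ v, ∑' w, (N.η v : ℝ≥0∞) * pr N.P v w * F (v :: w)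
      = ∑ u, ∑' w, bw N u w * F ((u :: w).reverse) := by
  let g : List V → ℝ≥0∞ := fun l => match l with
    | [] => 0
    | v :: w => (N.η v : ℝ≥0∞) * pr N.P v w * F (v :: w)
  let g' : List V → ℝ≥0∞ := fun l => match l with
    | [] => 0
    | v :: w => bw N v w * F ((v :: w).reverse)
  have h1 : ∑' l, g l = ∑ v, ∑' w, (N.η v : ℝ≥0∞) * pr N.P v w * F (v :: w) := by
    rw [tsum_list]
    simp only [g, zero_add]
  have h2 : ∑' l, g' l = ∑ u, ∑' w, bw N u w * F ((u :: w).reverse) := by
    rw [tsum_list]
    simp only [g', zero_add]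
  rw [← h1, ← h2]
  let e : List V ≃ List V := ⟨List.reverse, List.reverse, List.reverse_reverse,
    List.reverse_reverse⟩
  rw [← e.tsum_eq g]
  apply tsum_congr
  intro l
  change g l.reverse = g' l
  cases l with
  | nil => rfl
  | cons u w =>
    obtain ⟨x, t, hxt⟩ : ∃ x t, w.reverse ++ [u] = x :: t := by
      cases h : w.reverse ++ [u] with
      | nil => simp at h
      | cons x t => exact ⟨x, t, rfl⟩
    obtain ⟨h3, h4⟩ := pr_reverse N u w [] x t hxt
    have h5 : (u :: w).reverse = x :: t := by rw [List.reverse_cons]; exact hxt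
    simp only [g', h5]
    change (N.η x : ℝ≥0∞) * pr N.P x t * F (x :: t) = _
    rw [h3, h4]
    simp only [bw, pr, mul_one]
    ring

end

end Pool.Agent.Lib.MP_e4a9a7_pr.D3
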