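import Mathlib
import Pool.Agent.Lib.MP_e4a9a7_pr.D3.PathSum

/-!
# Task G: moments of occupation functionals of the paths
-/

namespace Pool.Agent.Lib.MP_e4a9a7_pr.D3

open scoped ENNReal NNReal BigOperators

variable {V : Type}

/-- `g` dominates the Green function of `P` -/
structure Grn [Fintype V] (P : V → V → ℝ≥0) (g : V → V → ℝ≥0∞) : Prop where
  symm : ∀ x y, g x y = g y x
  one_le : ∀ x, 1 ≤ g x x
  sup1 : ∀ x y, ∑ z, (P x z : ℝ≥0∞) * g z y ≤ g x y
  sup2 : ∀ x, 1 + ∑ z, (P x z : ℝ≥0∞) * g z x ≤ g x x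

/-- occupation functional -/
noncomputable def occ (f : V → ℝ≥0∞) (w : List V) : ℝ≥0∞ := (w.map f).sum

/-! ### general tools -/

theorem occ_nil (f : V → ℝ≥0∞) : occ f [] = 0 := by simp [occ]

theorem occ_cons (f : V → ℝ≥0∞) (x : V) (u : List V) : occ f (x :: u) = f x + occ f u := by
  simp [occ]

theorem tsum_le_of_trunc (F : List V → ℝ≥0∞) (C : ℝ≥0∞)
    (h : ∀ n : ℕ, ∑' w : List V, (if w.length ≤ n then F w else 0) ≤ C) : ∑' w, F w ≤ C := by
  classical
  rw [ENNReal.tsum_eq_iSup_sum]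
  refine iSup_le fun s => ?_
  refine le_trans ?_ (h (s.sup List.length))
  refine le_trans ?_ (ENNReal.sum_le_tsum s)
  refine Finset.sum_le_sum fun w hw => ?_
  have : w.length ≤ s.sup List.length := Finset.le_sup (f := List.length) hw
  rw [if_pos this]

/-- induction principle for sums over paths -/
theorem path_ind [Fintype V] (P : V → V → ℝ≥0) (F R : V → List V → ℝ≥0∞)
    (hF0 : ∀ v, F v [] ≤ R v [])
    (hF : ∀ v y w, F v (y :: w) ≤ R v (y :: w) + (P v y : ℝ≥0∞) * F y w)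
    (A C : V → ℝ≥0∞) (hA : ∀ v, ∑' w, R v w ≤ A v)
    (hC : ∀ v, A v + ∑ y, (P v y : ℝ≥0∞) * C y ≤ C v) (v : V) : ∑' w, F v w ≤ C v := by
  refine tsum_le_of_trunc _ _ fun n => ?_
  induction n generalizing v with
  | zero =>
    refine le_trans ?_ (le_trans le_self_add (hC v))
    refine le_trans ?_ (hA v)
    refine ENNReal.tsum_le_tsum fun w => ?_
    split_ifs with h
    · have : w = [] := by
        have : w.length = 0 := by omega
        exact List.length_eq_zero_iff.mp this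
      subst this
      exact hF0 v
    · exact zero_le
  | succ n ih =>
    refine le_trans ?_ (hC v)
    have h1 : ∀ w : List V, (if w.length ≤ n + 1 then F v w else 0) ≤ R v w +
        (match w with
          | [] => 0
          | y :: w' => (P v y : ℝ≥0∞) * (if w'.length ≤ n then F y w' else 0)) := by
      intro w
      rcases w with _ | ⟨y, w'⟩
      · simp only [List.length_nil, Nat.zero_le, if_true, add_zero]
        exact hF0 v
      · simp only [List.length_cons, Nat.add_le_add_iff_right]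
        split_ifs with h
        · exact hF v y w'
        · exact zero_le
    refine le_trans (ENNReal.tsum_le_tsum h1) ?_
    rw [ENNReal.tsum_add]
    refine add_le_add (hA v) ?_
    rw [tsum_list]
    simp only [zero_add]
    refine Finset.sum_le_sum fun y _ => ?_
    rw [ENNReal.tsum_mul_left]
    gcongr
    exact ih y

/-- sum over the nonempty suffixes -/
noncomputable def suf (Ψ : List V → ℝ≥0∞) : List V → ℝ≥0∞
  | [] => 0
  | x :: u => Ψ (x :: u) + suf Ψ u

variable [Fintype V] (N : Net V) (g : V → V → ℝ≥0∞)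

open Classical in
/-- first step decomposition, general majorant -/
theorem markov (G : V → V → ℝ≥0∞)
    (hG : ∀ v x, (if v = x then 1 else 0) + ∑ y, (N.P v y : ℝ≥0∞) * G y x ≤ G v x)
    (Ψ : List V → ℝ≥0∞) (v : V) :
    ∑' w, bw N v w * suf Ψ (v :: w) ≤ ∑ x, G v x * ∑' w, bw N x w * Ψ (x :: w) := by
  refine path_ind N.P (fun v w => bw N v w * suf Ψ (v :: w)) (fun v w => bw N v w * Ψ (v :: w))
    ?_ ?_ (fun v => ∑' w, bw N v w * Ψ (v :: w))
    (fun v => ∑ x, G v x * ∑' w, bw N x w * Ψ (x :: w)) (fun v => le_rfl) ?_ v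
  · intro v
    simp [suf]
  · intro v y w
    simp only [bw_cons]
    rw [suf, mul_add]
    refine add_le_add le_rfl ?_
    rw [mul_assoc]
  · intro v
    calc (∑' w, bw N v w * Ψ (v :: w)) + ∑ y, (N.P v y : ℝ≥0∞) *
          ∑ x, G y x * ∑' w, bw N x w * Ψ (x :: w)
        = ∑ x, ((if v = x then 1 else 0) + ∑ y, (N.P v y : ℝ≥0∞) * G y x) *
            ∑' w, bw N x w * Ψ (x :: w) := by
          simp only [add_mul, Finset.sum_add_distrib, ite_mul, one_mul, zero_mul,
            Finset.sum_ite_eq, Finset.mem_univ, if_true]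
          congr 1
          simp only [Finset.mul_sum, Finset.sum_mul]
          rw [Finset.sum_comm]
          simp only [mul_assoc]
      _ ≤ _ := Finset.sum_le_sum fun x _ => by gcongr; exact hG v x

open Classical in
theorem Grn.sup {P : V → V → ℝ≥0} {g : V → V → ℝ≥0∞} (hg : Grn P g) (v x : V) :
    (if v = x then 1 else 0) + ∑ y, (P v y : ℝ≥0∞) * g y x ≤ g v x := by
  split_ifs with h
  · subst h
    exact hg.sup2 v
  · rw [zero_add]
    exact hg.sup1 v x

open Classical in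
/-- the Green function -/
noncomputable def Gr (v x : V) : ℝ≥0∞ := ∑' w : List V, (if en v w = x then pr N.P v w else 0)

open Classical in
theorem Gr_eq (v x : V) :
    (if v = x then 1 else 0) + ∑ y, (N.P v y : ℝ≥0∞) * Gr N y x = Gr N v x := by
  conv_rhs => rw [Gr, tsum_list]
  simp only [en, pr]
  congr 1
  refine Finset.sum_congr rfl fun y _ => ?_
  rw [Gr, ← ENNReal.tsum_mul_left]
  refine tsum_congr fun w => ?_
  simp only [mul_ite, mul_zero]

open Classical in
/-- expected number of visits (including time zero) -/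
theorem visits (hg : Grn N.P g) (v y : V) :
    ∑' w : List V, (if en v w = y then pr N.P v w else 0) ≤ g v y := by
  refine path_ind N.P (fun v w => if en v w = y then pr N.P v w else 0)
    (fun v w => if w = [] then (if v = y then 1 else 0) else 0) ?_ ?_
    (fun v => if v = y then 1 else 0) (fun v => g v y) ?_ ?_ v
  · intro v
    simp [en, pr]
  · intro v z w
    simp [en, pr]
  · intro v
    rw [tsum_eq_single []]
    · simp
    · intro w hw
      simp [hw]
  · intro v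
    exact hg.sup v y

omit [Fintype V] in
theorem getLast?_en (v : V) (w : List V) : (v :: w).getLast? = some (en v w) := by
  induction w generalizing v with
  | nil => simp [en]
  | cons y w ih =>
    rw [List.getLast?_cons_cons, ih, en]

open Classical in
theorem eta_Gr (x : V) : ∑ v, (N.η v : ℝ≥0∞) * Gr N v x = (N.H x : ℝ≥0∞) := by
  have h := tsum_reverse N (fun l => if l.getLast? = some x then 1 else 0)
  have hl : ∑ v, (N.η v : ℝ≥0∞) * Gr N v x = ∑ v, ∑' w, (N.η v : ℝ≥0∞) * pr N.P v w *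
      (if (v :: w).getLast? = some x then 1 else 0) := by
    refine Finset.sum_congr rfl fun v _ => ?_
    rw [Gr, ← ENNReal.tsum_mul_left]
    refine tsum_congr fun w => ?_
    rw [getLast?_en]
    by_cases h : en v w = x
    · simp [h]
    · simp [h]
  rw [hl, h, ← tsum_bw N x]
  simp only [List.getLast?_reverse, List.head?_cons, Option.some.injEq]
  rw [Finset.sum_eq_single x]
  · simp
  · intro b _ hb
    simp [hb]
  · simp

/-! ### products of occupation functionals -/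

theorem prod_add_le {ι : Type*} [DecidableEq ι] (s : Finset ι) (a b : ι → ℝ≥0∞) :
    ∏ i ∈ s, (a i + b i) ≤ ∑ p ∈ s, a p * ∏ i ∈ s.erase p, (a i + b i) + ∏ i ∈ s, b i := by
  induction s using Finset.induction_on with
  | empty => simp
  | insert q t hq ih =>
    rw [Finset.prod_insert hq, Finset.prod_insert hq, Finset.sum_insert hq,
      Finset.erase_insert hq]
    have h1 : ∑ p ∈ t, a p * ∏ i ∈ (insert q t).erase p, (a i + b i)
        = ∑ p ∈ t, a p * ((a q + b q) * ∏ i ∈ t.erase p, (a i + b i)) := by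
      refine Finset.sum_congr rfl fun p hp => ?_
      have hne : q ≠ p := fun h => hq (h ▸ hp)
      rw [Finset.erase_insert_of_ne hne, Finset.prod_insert]
      intro h
      exact hq (Finset.mem_of_mem_erase h)
    rw [h1, add_mul]
    calc a q * ∏ i ∈ t, (a i + b i) + b q * ∏ i ∈ t, (a i + b i)
        ≤ a q * ∏ i ∈ t, (a i + b i) + b q * (∑ p ∈ t, a p * ∏ i ∈ t.erase p, (a i + b i)
            + ∏ i ∈ t, b i) := by gcongr
      _ = a q * ∏ i ∈ t, (a i + b i) + (∑ p ∈ t, a p * (b q * ∏ i ∈ t.erase p, (a i + b i)))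
            + b q * ∏ i ∈ t, b i := by
          rw [mul_add, Finset.mul_sum, ← add_assoc]
          congr 2
          refine Finset.sum_congr rfl fun p _ => ?_
          ring
      _ ≤ _ := by
          gcongr
          exact le_add_self

theorem prod_erase_swap {n : ℕ} (p : Fin (n + 1)) (F : Fin (n + 1) → ℝ≥0∞) :
    ∏ i ∈ Finset.univ.erase p, F i = ∏ i : Fin n, F (Equiv.swap 0 p i.succ) := by
  have hinj : Function.Injective (fun i : Fin n => Equiv.swap 0 p i.succ) :=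
    (Equiv.injective _).comp (Fin.succ_injective n)
  have h : Finset.univ.erase p = Finset.univ.image (fun i : Fin n => Equiv.swap 0 p i.succ) := by
    ext j
    simp only [Finset.mem_erase, Finset.mem_univ, and_true, Finset.mem_image, true_and]
    constructor
    · intro hj
      have : Equiv.swap 0 p j ≠ 0 := by
        intro h0
        apply hj
        have := congrArg (Equiv.swap 0 p) h0
        simpa using this
      obtain ⟨i, hi⟩ := Fin.exists_succ_eq.mpr this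
      exact ⟨i, by rw [hi]; simp⟩
    · rintro ⟨i, rfl⟩ h0
      have := congrArg (Equiv.swap 0 p) h0
      simp only [Equiv.swap_apply_self, Equiv.swap_apply_right] at this
      exact Fin.succ_ne_zero i this
  rw [h, Finset.prod_image (fun a _ b _ hab => hinj hab)]

/-- first mark -/
noncomputable def Psi {n : ℕ} (f : Fin (n + 1) → V → ℝ≥0∞) : List V → ℝ≥0∞
  | [] => 0
  | x :: u => ∑ p, f p x * ∏ i : Fin n, occ (f (Equiv.swap 0 p i.succ)) (x :: u)

omit [Fintype V] in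
theorem prod_occ_le {n : ℕ} (f : Fin (n + 1) → V → ℝ≥0∞) (w : List V) :
    ∏ i, occ (f i) w ≤ suf (Psi f) w := by
  induction w with
  | nil => simp [occ_nil]
  | cons x u ih =>
    rw [suf, Psi]
    simp only [occ_cons]
    refine le_trans (prod_add_le Finset.univ (fun i => f i x) (fun i => occ (f i) u)) ?_
    refine add_le_add (le_of_eq ?_) ih
    refine Finset.sum_congr rfl fun p _ => ?_
    rw [prod_erase_swap p (fun i => f i x + occ (f i) u)]

/-- iterated kernels -/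
noncomputable def TT : (n : ℕ) → (Fin n → V → ℝ≥0∞) → V → ℝ≥0∞
  | 0, _, x => N.H x
  | n + 1, f, x => ∑ y, g x y * ∑ p, f p y * TT n (fun i => f (Equiv.swap 0 p i.succ)) y

theorem tsum_Psi_le {n : ℕ} (f : Fin (n + 1) → V → ℝ≥0∞) (x : V)
    (h : ∀ (f : Fin n → V → ℝ≥0∞) (x : V),
      ∑' w, bw N x w * ∏ i, occ (f i) (x :: w) ≤ TT N g n f x) :
    ∑' w, bw N x w * Psi f (x :: w)
      ≤ ∑ p, f p x * TT N g n (fun i => f (Equiv.swap 0 p i.succ)) x := by
  have : ∀ w, bw N x w * Psi f (x :: w) = ∑ p, f p x *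
      (bw N x w * ∏ i : Fin n, occ (f (Equiv.swap 0 p i.succ)) (x :: w)) := by
    intro w
    rw [Psi, Finset.mul_sum]
    refine Finset.sum_congr rfl fun p _ => ?_
    ring
  simp only [this]
  rw [Summable.tsum_finsetSum (fun _ _ => ENNReal.summable)]
  refine Finset.sum_le_sum fun p _ => ?_
  rw [ENNReal.tsum_mul_left]
  gcongr
  exact h _ x

theorem mom_TT (hg : Grn N.P g) (n : ℕ) (f : Fin n → V → ℝ≥0∞) (x : V) :
    ∑' w, bw N x w * ∏ i, occ (f i) (x :: w) ≤ TT N g n f x := by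
  induction n generalizing x with
  | zero => simp [TT, tsum_bw]
  | succ n ih =>
    rw [TT]
    refine le_trans (ENNReal.tsum_le_tsum fun w => mul_le_mul_right (prod_occ_le f (x :: w)) _) ?_
    refine le_trans (markov N g (fun v x => hg.sup v x) (Psi f) x) ?_
    refine Finset.sum_le_sum fun y _ => ?_
    gcongr
    exact tsum_Psi_le N g f y ih

theorem mom_iota (hg : Grn N.P g) (n : ℕ) (f : Fin (n + 1) → V → ℝ≥0∞) :
    ∑' w, iota N w * ∏ i, occ (f i) w ≤
      (∑ x, (N.H x : ℝ≥0∞) * ∑ p, f p x * TT N g n (fun i => f (Equiv.swap 0 p i.succ)) x) / 2 := by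
  rw [tsum_iota]
  refine ENNReal.div_le_div_right ?_ 2
  calc ∑ v, ∑' w, (N.η v : ℝ≥0∞) * bw N v w * ∏ i, occ (f i) (v :: w)
      ≤ ∑ v, (N.η v : ℝ≥0∞) * ∑ x, Gr N v x * ∑' w, bw N x w * Psi f (x :: w) := by
        refine Finset.sum_le_sum fun v _ => ?_
        simp only [mul_assoc]
        rw [ENNReal.tsum_mul_left]
        gcongr
        refine le_trans (ENNReal.tsum_le_tsum fun w =>
          mul_le_mul_right (prod_occ_le f (v :: w)) _) ?_
        exact markov N (Gr N) (fun v x => (Gr_eq N v x).le) (Psi f) v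
    _ = ∑ x, (N.H x : ℝ≥0∞) * ∑' w, bw N x w * Psi f (x :: w) := by
        simp only [Finset.mul_sum]
        rw [Finset.sum_comm]
        refine Finset.sum_congr rfl fun x _ => ?_
        rw [← eta_Gr N x, Finset.sum_mul]
        simp only [mul_assoc]
    _ ≤ _ := by
        refine Finset.sum_le_sum fun x _ => ?_
        gcongr
        exact tsum_Psi_le N g f x (mom_TT N g hg n)

theorem TT_one (f : Fin 1 → V → ℝ≥0∞) (x : V) :
    TT N g 1 f x = ∑ y, g x y * (f 0 y * (N.H y : ℝ≥0∞)) := by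
  have : TT N g 1 f x = ∑ y, g x y * ∑ p, f p y *
    TT N g 0 (fun i => f (Equiv.swap 0 p i.succ)) y := rfl
  rw [this]
  refine Finset.sum_congr rfl fun y _ => ?_
  rw [Fin.sum_univ_one]
  rfl

theorem TT_two (f : Fin 2 → V → ℝ≥0∞) (x : V) :
    TT N g 2 f x = ∑ y, g x y * (f 0 y * (∑ z, g y z * (f 1 z * (N.H z : ℝ≥0∞)))
      + f 1 y * (∑ z, g y z * (f 0 z * (N.H z : ℝ≥0∞)))) := by
  have : TT N g 2 f x = ∑ y, g x y * ∑ p, f p y *
    TT N g 1 (fun i => f (Equiv.swap 0 p i.succ)) y := rfl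
  rw [this]
  refine Finset.sum_congr rfl fun y _ => ?_
  rw [Fin.sum_univ_two, TT_one, TT_one]
  rfl

theorem mom2 (hg : Grn N.P g) (f f' : V → ℝ≥0∞) (u : V) :
    ∑' w, bw N u w * (occ f (u :: w) * occ f' (u :: w))
      ≤ ∑ z, ∑ z', (f z * f' z' + f' z * f z') * (g u z * g z z' * (N.H z' : ℝ≥0∞)) := by
  have h := mom_TT N g hg 2 ![f, f'] u
  simp only [Fin.prod_univ_two, Matrix.cons_val_zero, Matrix.cons_val_one, TT_two] at h
  refine le_trans h (le_of_eq ?_)
  refine Finset.sum_congr rfl fun z _ => ?_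
  rw [Finset.mul_sum, Finset.mul_sum, ← Finset.sum_add_distrib, Finset.mul_sum]
  refine Finset.sum_congr rfl fun z' _ => ?_
  ring

theorem sum_fun_cons {n : ℕ} (K : (Fin (n + 1) → V) → ℝ≥0∞) :
    ∑ z, K z = ∑ x, ∑ z' : Fin n → V, K (Fin.cons x z') := by
  rw [← Fintype.sum_prod_type' (f := fun x (z' : Fin n → V) => K (Fin.cons x z'))]
  exact (Fintype.sum_equiv (Fin.consEquiv (fun _ : Fin (n + 1) => V)) _ _ (fun _ => rfl)).symm

theorem sum_perm_cons {n : ℕ} (K : (Fin (n + 1) → V) → ℝ≥0∞) (f : Fin (n + 1) → V → ℝ≥0∞) :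
    ∑ σ : Equiv.Perm (Fin (n + 1)), ∑ z : Fin (n + 1) → V, K z * ∏ i, f (σ i) (z i)
      = ∑ x, ∑ p, f p x * ∑ e : Equiv.Perm (Fin n), ∑ z' : Fin n → V,
          K (Fin.cons x z') * ∏ i, f (Equiv.swap 0 p (e i).succ) (z' i) := by
  rw [← Fintype.sum_equiv (Equiv.Perm.decomposeFin (n := n)).symm
    (fun q => ∑ z : Fin (n + 1) → V, K z * ∏ i, f (Equiv.Perm.decomposeFin.symm q i) (z i)) _
    (fun _ => rfl), Fintype.sum_prod_type]
  simp only [sum_fun_cons, Fin.prod_univ_succ, Equiv.Perm.decomposeFin_symm_apply_zero,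
    Equiv.Perm.decomposeFin_symm_apply_succ, Fin.cons_zero, Fin.cons_succ]
  simp only [Finset.mul_sum]
  rw [Finset.sum_comm (s := (Finset.univ : Finset V))]
  refine Finset.sum_congr rfl fun p _ => ?_
  rw [Finset.sum_comm (s := (Finset.univ : Finset V))]
  refine Finset.sum_congr rfl fun e _ => ?_
  refine Finset.sum_congr rfl fun x _ => ?_
  refine Finset.sum_congr rfl fun z _ => ?_
  ring

/-- weight of a chain of marks -/
noncomputable def cw : (n : ℕ) → V → (Fin n → V) → ℝ≥0∞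
  | 0, x, _ => N.H x
  | n + 1, x, z => g x (z 0) * cw n (z 0) (Fin.tail z)

theorem TT_eq (n : ℕ) (f : Fin n → V → ℝ≥0∞) (x : V) :
    TT N g n f x = ∑ σ : Equiv.Perm (Fin n), ∑ z : Fin n → V, cw N g n x z * ∏ i, f (σ i) (z i) := by
  induction n generalizing x with
  | zero => simp [TT, cw]
  | succ n ih =>
    rw [sum_perm_cons, TT]
    refine Finset.sum_congr rfl fun y _ => ?_
    rw [Finset.mul_sum]
    refine Finset.sum_congr rfl fun p _ => ?_
    rw [ih]
    simp only [cw, Fin.cons_zero, Fin.tail_cons, Finset.mul_sum]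
    refine Finset.sum_congr rfl fun e _ => ?_
    refine Finset.sum_congr rfl fun z _ => ?_
    ring

theorem mom4 (hg : Grn N.P g) (f : Fin 4 → V → ℝ≥0∞) :
    ∑' w, iota N w * ∏ i, occ (f i) w
      ≤ (∑ σ : Equiv.Perm (Fin 4), ∑ z : Fin 4 → V,
          (N.H (z 0) : ℝ≥0∞) * g (z 0) (z 1) * g (z 1) (z 2) * g (z 2) (z 3) * (N.H (z 3) : ℝ≥0∞)
            * ∏ i, f (σ i) (z i)) / 2 := by
  refine le_trans (mom_iota N g hg 3 f) (le_of_eq ?_)
  rw [sum_perm_cons (fun z : Fin 4 → V =>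
    (N.H (z 0) : ℝ≥0∞) * g (z 0) (z 1) * g (z 1) (z 2) * g (z 2) (z 3) * (N.H (z 3) : ℝ≥0∞)) f]
  congr 1
  refine Finset.sum_congr rfl fun x _ => ?_
  rw [Finset.mul_sum]
  refine Finset.sum_congr rfl fun p _ => ?_
  rw [TT_eq]
  simp only [Finset.mul_sum]
  refine Finset.sum_congr rfl fun e _ => ?_
  refine Finset.sum_congr rfl fun z _ => ?_
  change (N.H x : ℝ≥0∞) * (f p x * ((g x (z 0) * (g (z 0) (z 1) * (g (z 1) (z 2) *
    (N.H (z 2) : ℝ≥0∞)))) * _)) = f p x * (((N.H x : ℝ≥0∞) * g x (z 0) * g (z 0) (z 1) *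
      g (z 1) (z 2) * (N.H (z 2) : ℝ≥0∞)) * _)
  ring

theorem mom4_cF (hg : Grn N.P g) (f F : Fin 4 → V → ℝ≥0∞) (c : Fin 4 → ℝ≥0∞) (B : Finset V)
    (hh : ℝ≥0∞) (hH : ∀ v ∈ B, hh ≤ (N.H v : ℝ≥0∞))
    (hfB : ∀ k v, v ∉ B → f k v = 0)
    (hfF : ∀ k v, f k v * (N.H v : ℝ≥0∞) ≤ c k * F k v) :
    ∑' w, iota N w * ∏ i, occ (f i) w ≤ (∏ i, c i) / hh ^ 2 *
      (∑ σ : Equiv.Perm (Fin 4), ∑ z : Fin 4 → V,
        g (z 0) (z 1) * g (z 1) (z 2) * g (z 2) (z 3) * ∏ i, F (σ i) (z i)) / 2 := by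
  have hf2 : ∀ k v, f k v ≤ c k * F k v * hh⁻¹ := by
    intro k v
    by_cases hv : v ∈ B
    · have hpos : (N.H v : ℝ≥0∞) ≠ 0 := by
        have := H_pos N v
        simpa using this.ne'
      have htop : (N.H v : ℝ≥0∞) ≠ ∞ := ENNReal.coe_ne_top
      calc f k v = f k v * (N.H v : ℝ≥0∞) * (N.H v : ℝ≥0∞)⁻¹ := by
            rw [mul_assoc, ENNReal.mul_inv_cancel hpos htop, mul_one]
        _ ≤ c k * F k v * hh⁻¹ := by
            refine mul_le_mul' (hfF k v) ?_
            exact ENNReal.inv_le_inv.mpr (hH v hv)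
    · rw [hfB k v hv]
      exact zero_le
  refine le_trans (mom4 N g hg f) (ENNReal.div_le_div_right ?_ 2)
  rw [Finset.mul_sum]
  refine Finset.sum_le_sum fun σ _ => ?_
  rw [Finset.mul_sum]
  refine Finset.sum_le_sum fun z _ => ?_
  have hc : ∏ i, c i = c (σ 0) * c (σ 1) * c (σ 2) * c (σ 3) := by
    rw [← Equiv.prod_comp σ c, Fin.prod_univ_four]
  rw [hc, Fin.prod_univ_four, Fin.prod_univ_four]
  calc (N.H (z 0) : ℝ≥0∞) * g (z 0) (z 1) * g (z 1) (z 2) * g (z 2) (z 3) * (N.H (z 3) : ℝ≥0∞)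
        * (f (σ 0) (z 0) * f (σ 1) (z 1) * f (σ 2) (z 2) * f (σ 3) (z 3))
      = g (z 0) (z 1) * g (z 1) (z 2) * g (z 2) (z 3) * ((f (σ 0) (z 0) * (N.H (z 0) : ℝ≥0∞)) *
          f (σ 1) (z 1) * f (σ 2) (z 2) * (f (σ 3) (z 3) * (N.H (z 3) : ℝ≥0∞))) := by ring
    _ ≤ g (z 0) (z 1) * g (z 1) (z 2) * g (z 2) (z 3) * ((c (σ 0) * F (σ 0) (z 0)) *
          (c (σ 1) * F (σ 1) (z 1) * hh⁻¹) * (c (σ 2) * F (σ 2) (z 2) * hh⁻¹)
          * (c (σ 3) * F (σ 3) (z 3))) := by
        exact mul_le_mul' le_rfl (mul_le_mul' (mul_le_mul' (mul_le_mul' (hfF _ _) (hf2 _ _))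
          (hf2 _ _)) (hfF _ _))
    _ = _ := by
        rw [div_eq_mul_inv, ENNReal.inv_pow]
        ring

/-! ### chains with two to four marks -/

/-- two marks -/
noncomputable def E2 (p0 p1 : V → ℝ≥0∞) : ℝ≥0∞ := ∑ z0, ∑ z1, p0 z0 * g z0 z1 * p1 z1

/-- three marks -/
noncomputable def E3 (p0 p1 p2 : V → ℝ≥0∞) : ℝ≥0∞ :=
  ∑ z0, ∑ z1, ∑ z2, p0 z0 * g z0 z1 * p1 z1 * g z1 z2 * p2 z2

/-- four marks -/
noncomputable def E4 (p0 p1 p2 p3 : V → ℝ≥0∞) : ℝ≥0∞ :=
  ∑ z0, ∑ z1, ∑ z2, ∑ z3, p0 z0 * g z0 z1 * p1 z1 * g z1 z2 * p2 z2 * g z2 z3 * p3 z3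

theorem sum_E4 (p : Fin 4 → V → ℝ≥0∞) :
    ∑ z : Fin 4 → V, g (z 0) (z 1) * g (z 1) (z 2) * g (z 2) (z 3) * ∏ i, p i (z i)
      = E4 g (p 0) (p 1) (p 2) (p 3) := by
  rw [sum_fun_cons, E4]
  refine Finset.sum_congr rfl fun z0 _ => ?_
  rw [sum_fun_cons]
  refine Finset.sum_congr rfl fun z1 _ => ?_
  rw [sum_fun_cons]
  refine Finset.sum_congr rfl fun z2 _ => ?_
  rw [sum_fun_cons]
  refine Finset.sum_congr rfl fun z3 _ => ?_
  rw [Fintype.sum_unique, Fin.prod_univ_four]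
  change g z0 z1 * g z1 z2 * g z2 z3 * (p 0 z0 * p 1 z1 * p 2 z2 * p 3 z3) = _
  ring

theorem peelR4 (B : Finset V) (S1 : ℝ≥0∞) (one : V → ℝ≥0∞)
    (hS : ∀ x ∈ B, ∑ y, g x y * one y ≤ S1)
    (p0 p1 p2 : V → ℝ≥0∞) (h2 : ∀ x, x ∉ B → p2 x = 0) :
    E4 g p0 p1 p2 one ≤ S1 * E3 g p0 p1 p2 := by
  simp only [E4, E3, Finset.mul_sum]
  refine Finset.sum_le_sum fun z0 _ => ?_
  refine Finset.sum_le_sum fun z1 _ => ?_
  refine Finset.sum_le_sum fun z2 _ => ?_
  by_cases hz : z2 ∈ B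
  · calc ∑ z3, p0 z0 * g z0 z1 * p1 z1 * g z1 z2 * p2 z2 * g z2 z3 * one z3
        = (p0 z0 * g z0 z1 * p1 z1 * g z1 z2 * p2 z2) * ∑ z3, g z2 z3 * one z3 := by
          rw [Finset.mul_sum]
          refine Finset.sum_congr rfl fun z3 _ => ?_
          ring
      _ ≤ (p0 z0 * g z0 z1 * p1 z1 * g z1 z2 * p2 z2) * S1 := by
          gcongr
          exact hS z2 hz
      _ = _ := mul_comm _ _
  · simp [h2 z2 hz]

theorem peelR3 (B : Finset V) (S1 : ℝ≥0∞) (one : V → ℝ≥0∞)
    (hS : ∀ x ∈ B, ∑ y, g x y * one y ≤ S1)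
    (p0 p1 : V → ℝ≥0∞) (h2 : ∀ x, x ∉ B → p1 x = 0) :
    E3 g p0 p1 one ≤ S1 * E2 g p0 p1 := by
  simp only [E2, E3, Finset.mul_sum]
  refine Finset.sum_le_sum fun z0 _ => ?_
  refine Finset.sum_le_sum fun z1 _ => ?_
  by_cases hz : z1 ∈ B
  · calc ∑ z2, p0 z0 * g z0 z1 * p1 z1 * g z1 z2 * one z2
        = (p0 z0 * g z0 z1 * p1 z1) * ∑ z3, g z1 z3 * one z3 := by
          rw [Finset.mul_sum]
          refine Finset.sum_congr rfl fun z3 _ => ?_
          ring
      _ ≤ (p0 z0 * g z0 z1 * p1 z1) * S1 := by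
          gcongr
          exact hS z1 hz
      _ = _ := mul_comm _ _
  · simp [h2 z1 hz]

theorem E2_rev (hs : ∀ x y, g x y = g y x) (p0 p1 : V → ℝ≥0∞) :
    E2 g p0 p1 = E2 g p1 p0 := by
  rw [E2, E2, Finset.sum_comm]
  refine Finset.sum_congr rfl fun z0 _ => ?_
  refine Finset.sum_congr rfl fun z1 _ => ?_
  rw [hs z1 z0]
  ring

theorem E3_mid (hs : ∀ x y, g x y = g y x) (p0 p1 p2 : V → ℝ≥0∞) :
    E3 g p0 p1 p2 =
      ∑ z1, p1 z1 * (∑ z0, g z1 z0 * p0 z0) * (∑ z2, g z1 z2 * p2 z2) := by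
  rw [E3, Finset.sum_comm]
  refine Finset.sum_congr rfl fun z1 _ => ?_
  rw [mul_assoc, Finset.sum_mul_sum, Finset.mul_sum]
  refine Finset.sum_congr rfl fun z0 _ => ?_
  rw [Finset.mul_sum]
  refine Finset.sum_congr rfl fun z2 _ => ?_
  rw [hs z0 z1]
  ring

theorem E3_rev (hs : ∀ x y, g x y = g y x) (p0 p1 p2 : V → ℝ≥0∞) :
    E3 g p0 p1 p2 = E3 g p2 p1 p0 := by
  rw [E3_mid g hs, E3_mid g hs]
  refine Finset.sum_congr rfl fun z1 _ => ?_
  ring

theorem E4_mid (hs : ∀ x y, g x y = g y x) (p0 p1 p2 p3 : V → ℝ≥0∞) :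
    E4 g p0 p1 p2 p3 =
      ∑ z1, ∑ z2, p1 z1 * p2 z2 * g z1 z2 * (∑ z0, g z1 z0 * p0 z0) *
        (∑ z3, g z2 z3 * p3 z3) := by
  rw [E4, Finset.sum_comm]
  refine Finset.sum_congr rfl fun z1 _ => ?_
  rw [Finset.sum_comm]
  refine Finset.sum_congr rfl fun z2 _ => ?_
  rw [mul_assoc, Finset.sum_mul_sum, Finset.mul_sum]
  refine Finset.sum_congr rfl fun z0 _ => ?_
  rw [Finset.mul_sum]
  refine Finset.sum_congr rfl fun z3 _ => ?_
  rw [hs z0 z1]
  ring

theorem E4_rev (hs : ∀ x y, g x y = g y x) (p0 p1 p2 p3 : V → ℝ≥0∞) :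
    E4 g p0 p1 p2 p3 = E4 g p3 p2 p1 p0 := by
  rw [E4_mid g hs, E4_mid g hs, Finset.sum_comm]
  refine Finset.sum_congr rfl fun z1 _ => ?_
  refine Finset.sum_congr rfl fun z2 _ => ?_
  rw [hs z2 z1]
  ring

theorem peelL4 (hs : ∀ x y, g x y = g y x) (B : Finset V) (S1 : ℝ≥0∞) (one : V → ℝ≥0∞)
    (hS : ∀ x ∈ B, ∑ y, g x y * one y ≤ S1)
    (p1 p2 p3 : V → ℝ≥0∞) (h2 : ∀ x, x ∉ B → p1 x = 0) :
    E4 g one p1 p2 p3 ≤ S1 * E3 g p1 p2 p3 := by
  rw [E4_rev g hs, E3_rev g hs]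
  exact peelR4 g B S1 one hS p3 p2 p1 h2

theorem peelL3 (hs : ∀ x y, g x y = g y x) (B : Finset V) (S1 : ℝ≥0∞) (one : V → ℝ≥0∞)
    (hS : ∀ x ∈ B, ∑ y, g x y * one y ≤ S1)
    (p1 p2 : V → ℝ≥0∞) (h2 : ∀ x, x ∉ B → p1 x = 0) :
    E3 g one p1 p2 ≤ S1 * E2 g p1 p2 := by
  rw [E3_rev g hs, E2_rev g hs]
  exact peelR3 g B S1 one hS p2 p1 h2

open Classical in
theorem sum_one (hs : ∀ x y, g x y = g y x) (B : Finset V) (S1 : ℝ≥0∞)
    (hS1 : ∀ z ∈ B, ∑ u ∈ B, g u z ≤ S1) (x : V) (hx : x ∈ B) :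
    ∑ y, g x y * (if y ∈ B then 1 else 0) ≤ S1 := by
  refine le_trans (le_of_eq ?_) (hS1 x hx)
  simp only [mul_ite, mul_one, mul_zero]
  rw [Finset.sum_ite_mem, Finset.univ_inter]
  exact Finset.sum_congr rfl fun y _ => hs x y

open Classical in
theorem E2_pt (v v' : V) :
    E2 g (fun x => if x = v then 1 else 0) (fun x => if x = v' then 1 else 0) = g v v' := by
  simp [E2]

theorem amgm (a b : ℝ≥0∞) : a * b ≤ (a ^ 2 + b ^ 2) / 2 := by
  rw [ENNReal.le_div_iff_mul_le (Or.inl (by norm_num)) (Or.inl (by norm_num))]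
  by_cases ha : a = ∞
  · subst ha
    simp
  by_cases hb : b = ∞
  · subst hb
    simp
  lift a to ℝ≥0 using ha
  lift b to ℝ≥0 using hb
  norm_cast
  rw [← NNReal.coe_le_coe]
  push_cast
  nlinarith [sq_nonneg ((a : ℝ) - b)]

open Classical in
theorem E3_pt (hs : ∀ x y, g x y = g y x) (B : Finset V) (S2 : ℝ≥0∞)
    (hS2 : ∀ z ∈ B, ∑ u ∈ B, g u z ^ 2 ≤ S2) (v v' : V) (hv : v ∈ B) (hv' : v' ∈ B) :
    E3 g (fun x => if x = v then 1 else 0) (fun x => if x ∈ B then 1 else 0)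
      (fun x => if x = v' then 1 else 0) ≤ S2 := by
  have h1 : E3 g (fun x => if x = v then 1 else 0) (fun x => if x ∈ B then 1 else 0)
      (fun x => if x = v' then 1 else 0) = ∑ a ∈ B, g a v * g a v' := by
    rw [E3_mid g hs]
    simp only [mul_ite, mul_one, mul_zero, Finset.sum_ite_eq', Finset.mem_univ, if_true,
      ite_mul, one_mul, zero_mul]
    rw [Finset.sum_ite_mem, Finset.univ_inter]
  rw [h1]
  calc ∑ a ∈ B, g a v * g a v' ≤ ∑ a ∈ B, (g a v ^ 2 + g a v' ^ 2) / 2 :=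
        Finset.sum_le_sum fun a _ => amgm _ _
    _ = (∑ a ∈ B, g a v ^ 2 + ∑ a ∈ B, g a v' ^ 2) / 2 := by
        simp only [div_eq_mul_inv]
        rw [← Finset.sum_mul, Finset.sum_add_distrib]
    _ ≤ (S2 + S2) / 2 := by
        refine ENNReal.div_le_div_right (add_le_add (hS2 v hv) (hS2 v' hv')) 2
    _ = S2 := by
        rw [ENNReal.add_div, ENNReal.add_halves]

open Classical in
theorem E4_pt (hs : ∀ x y, g x y = g y x) (B : Finset V) (S1 S2 : ℝ≥0∞)
    (hS1 : ∀ z ∈ B, ∑ u ∈ B, g u z ≤ S1)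
    (hS2 : ∀ z ∈ B, ∑ u ∈ B, g u z ^ 2 ≤ S2) (v v' : V) (hv : v ∈ B) (hv' : v' ∈ B) :
    E4 g (fun x => if x = v then 1 else 0) (fun x => if x ∈ B then 1 else 0)
      (fun x => if x ∈ B then 1 else 0) (fun x => if x = v' then 1 else 0) ≤ S1 * S2 := by
  have h1 : E4 g (fun x => if x = v then 1 else 0) (fun x => if x ∈ B then 1 else 0)
      (fun x => if x ∈ B then 1 else 0) (fun x => if x = v' then 1 else 0)
      = ∑ a ∈ B, ∑ b ∈ B, g a b * (g a v * g b v') := by
    rw [E4_mid g hs]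
    simp only [mul_ite, mul_one, mul_zero, Finset.sum_ite_eq', Finset.mem_univ, if_true,
      ite_mul, one_mul, zero_mul]
    simp only [← ite_and, mul_assoc]
    rw [← Finset.sum_subset (Finset.subset_univ B)]
    · refine Finset.sum_congr rfl fun a ha => ?_
      rw [← Finset.sum_subset (Finset.subset_univ B)]
      · refine Finset.sum_congr rfl fun b hb => ?_
        simp [ha, hb]
      · intro b _ hb
        simp [hb]
    · intro a _ ha
      simp [ha]
  rw [h1]
  calc ∑ a ∈ B, ∑ b ∈ B, g a b * (g a v * g b v')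
      ≤ ∑ a ∈ B, ∑ b ∈ B, g a b * ((g a v ^ 2 + g b v' ^ 2) / 2) :=
        Finset.sum_le_sum fun a _ => Finset.sum_le_sum fun b _ => by
          gcongr
          exact amgm _ _
    _ = (∑ a ∈ B, g a v ^ 2 * ∑ b ∈ B, g b a + ∑ b ∈ B, g b v' ^ 2 * ∑ a ∈ B, g a b) / 2 := by
        have e2 : ∑ b ∈ B, g b v' ^ 2 * ∑ a ∈ B, g a b = ∑ a ∈ B, ∑ b ∈ B, g b v' ^ 2 * g a b := by
          rw [Finset.sum_comm]
          simp only [Finset.mul_sum]
        have e1 : ∑ a ∈ B, g a v ^ 2 * ∑ b ∈ B, g b a = ∑ a ∈ B, ∑ b ∈ B, g a v ^ 2 * g a b := by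
          refine Finset.sum_congr rfl fun a _ => ?_
          rw [Finset.mul_sum]
          refine Finset.sum_congr rfl fun b _ => ?_
          rw [hs b a]
        rw [e1, e2, ← Finset.sum_add_distrib, div_eq_mul_inv, Finset.sum_mul]
        refine Finset.sum_congr rfl fun a _ => ?_
        rw [← Finset.sum_add_distrib, Finset.sum_mul]
        refine Finset.sum_congr rfl fun b _ => ?_
        rw [div_eq_mul_inv]
        ring
    _ ≤ (S1 * S2 + S1 * S2) / 2 := by
        refine ENNReal.div_le_div_right (add_le_add ?_ ?_) 2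
        · calc ∑ a ∈ B, g a v ^ 2 * ∑ b ∈ B, g b a ≤ ∑ a ∈ B, g a v ^ 2 * S1 :=
                Finset.sum_le_sum fun a ha => by
                  gcongr
                  exact hS1 a ha
            _ = S1 * ∑ a ∈ B, g a v ^ 2 := by rw [← Finset.sum_mul, mul_comm]
            _ ≤ S1 * S2 := by
                gcongr
                exact hS2 v hv
        · calc ∑ a ∈ B, g a v' ^ 2 * ∑ b ∈ B, g b a ≤ ∑ a ∈ B, g a v' ^ 2 * S1 :=
                Finset.sum_le_sum fun a ha => by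
                  gcongr
                  exact hS1 a ha
            _ = S1 * ∑ a ∈ B, g a v' ^ 2 := by rw [← Finset.sum_mul, mul_comm]
            _ ≤ S1 * S2 := by
                gcongr
                exact hS2 v' hv'
    _ = S1 * S2 := by
        rw [ENNReal.add_div, ENNReal.add_halves]

open Classical in
theorem E2_one (hs : ∀ x y, g x y = g y x) (B : Finset V) (S0 S1 : ℝ≥0∞)
    (hS0 : (B.card : ℝ≥0∞) ≤ S0)
    (hS1 : ∀ z ∈ B, ∑ u ∈ B, g u z ≤ S1) :
    E2 g (fun x => if x ∈ B then 1 else 0) (fun x => if x ∈ B then 1 else 0) ≤ S0 * S1 := by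
  calc E2 g (fun x => if x ∈ B then 1 else 0) (fun x => if x ∈ B then 1 else 0)
      = ∑ a ∈ B, ∑ y, g a y * (if y ∈ B then 1 else 0) := by
        rw [E2, ← Finset.sum_subset (Finset.subset_univ B)]
        · refine Finset.sum_congr rfl fun a ha => ?_
          simp [ha]
        · intro a _ ha
          simp [ha]
    _ ≤ ∑ _a ∈ B, S1 := Finset.sum_le_sum fun a ha => sum_one g hs B S1 hS1 a ha
    _ = (B.card : ℝ≥0∞) * S1 := by rw [Finset.sum_const, nsmul_eq_mul]
    _ ≤ S0 * S1 := by gcongr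

open Classical in
/-- four marks in `B` -/
theorem mom4_ball (hg : Grn N.P g) (B : Finset V) (a : V → ℝ≥0∞) (Nn S0 S1 hh : ℝ≥0∞)
    (ha0 : ∀ v, v ∉ B → a v = 0) (ha : ∀ v, a v * (N.H v : ℝ≥0∞) ≤ Nn)
    (hS0 : (B.card : ℝ≥0∞) ≤ S0)
    (hS1 : ∀ z ∈ B, ∑ u ∈ B, g u z ≤ S1)
    (hh0 : hh ≠ 0) (hh1 : hh ≠ ∞) (hH : ∀ v ∈ B, hh ≤ (N.H v : ℝ≥0∞)) :
    ∑' w, iota N w * (occ a w ^ 2 * occ (fun x => if x ∈ B then (N.H x : ℝ≥0∞)⁻¹ else 0) w ^ 2)
      ≤ 12 * Nn ^ 2 / hh ^ 2 * (S0 * S1 ^ 3) := by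
  set b : V → ℝ≥0∞ := fun x => if x ∈ B then (N.H x : ℝ≥0∞)⁻¹ else 0 with hb
  set one : V → ℝ≥0∞ := fun x => if x ∈ B then 1 else 0 with hone
  have h := mom4_cF N g hg ![a, a, b, b] (fun _ => one) ![Nn, Nn, 1, 1] B hh hH ?_ ?_
  · have hl : ∀ w, ∏ i, occ ((![a, a, b, b] : Fin 4 → V → ℝ≥0∞) i) w = occ a w ^ 2 * occ b w ^ 2 := by
      intro w
      rw [Fin.prod_univ_four]
      change occ a w * occ a w * occ b w * occ b w = _
      ring
    have hc : ∏ i, (![Nn, Nn, 1, 1] : Fin 4 → ℝ≥0∞) i = Nn ^ 2 := by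
      rw [Fin.prod_univ_four]
      change Nn * Nn * 1 * 1 = _
      ring
    simp only [hl, hc] at h
    refine le_trans h ?_
    have hone0 : ∀ x, x ∉ B → one x = 0 := fun x hx => by simp [hone, hx]
    have hE : E4 g one one one one ≤ S0 * S1 ^ 3 := by
      calc E4 g one one one one ≤ S1 * E3 g one one one :=
            peelR4 g B S1 one (sum_one g hg.symm B S1 hS1) _ _ _ hone0
        _ ≤ S1 * (S1 * E2 g one one) := by
            gcongr
            exact peelR3 g B S1 one (sum_one g hg.symm B S1 hS1) _ _ hone0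
        _ ≤ S1 * (S1 * (S0 * S1)) := by
            gcongr
            exact E2_one g hg.symm B S0 S1 hS0 hS1
        _ = _ := by ring
    have hsum : (∑ σ : Equiv.Perm (Fin 4), ∑ z : Fin 4 → V,
        g (z 0) (z 1) * g (z 1) (z 2) * g (z 2) (z 3) * ∏ i, one (z i)) ≤ 24 * (S0 * S1 ^ 3) := by
      have : ∀ σ : Equiv.Perm (Fin 4), ∑ z : Fin 4 → V,
        g (z 0) (z 1) * g (z 1) (z 2) * g (z 2) (z 3) * ∏ i, one (z i) ≤ S0 * S1 ^ 3 := by
        intro σ
        exact (sum_E4 g (fun _ => one)).le.trans hE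
      refine le_trans (Finset.sum_le_sum fun σ _ => this σ) (le_of_eq ?_)
      rw [Finset.sum_const, Finset.card_univ, Fintype.card_perm, Fintype.card_fin, nsmul_eq_mul]
      norm_num [Nat.factorial]
    calc Nn ^ 2 / hh ^ 2 * (∑ σ : Equiv.Perm (Fin 4), ∑ z : Fin 4 → V,
        g (z 0) (z 1) * g (z 1) (z 2) * g (z 2) (z 3) * ∏ i, one (z i)) / 2
        ≤ Nn ^ 2 / hh ^ 2 * (24 * (S0 * S1 ^ 3)) / 2 := by gcongr
      _ = 12 * Nn ^ 2 / hh ^ 2 * (S0 * S1 ^ 3) := by
          have h24 : (24 : ℝ≥0∞) = 12 * 2 := by norm_num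
          rw [h24]
          simp only [div_eq_mul_inv]
          calc Nn ^ 2 * (hh ^ 2)⁻¹ * (12 * 2 * (S0 * S1 ^ 3)) * 2⁻¹
              = 12 * Nn ^ 2 * (hh ^ 2)⁻¹ * (S0 * S1 ^ 3) * (2 * 2⁻¹) := by ring
            _ = _ := by
                rw [ENNReal.mul_inv_cancel (by norm_num) (by norm_num), mul_one]
  · intro k x hx
    fin_cases k
    · exact ha0 x hx
    · exact ha0 x hx
    · change b x = 0
      simp [hb, hx]
    · change b x = 0
      simp [hb, hx]
  · have hA : ∀ x, a x * (N.H x : ℝ≥0∞) ≤ Nn * one x := by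
      intro x
      by_cases hx : x ∈ B
      · simpa [hone, hx] using ha x
      · simp [ha0 x hx]
    have hB : ∀ x, b x * (N.H x : ℝ≥0∞) ≤ 1 * one x := by
      intro x
      by_cases hx : x ∈ B
      · have hpos : (N.H x : ℝ≥0∞) ≠ 0 := by simpa using (H_pos N x).ne'
        simp only [hb, hone, hx, if_true, mul_one]
        rw [ENNReal.inv_mul_cancel hpos ENNReal.coe_ne_top]
      · simp [hb, hx]
    intro k x
    fin_cases k
    · exact hA x
    · exact hA x
    · exact hB x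
    · exact hB x

/-- adjacency of the positions of the two marks -/
def adj (σ : Equiv.Perm (Fin 4)) : Prop :=
  (σ.symm 2).val + 1 = (σ.symm 3).val ∨ (σ.symm 3).val + 1 = (σ.symm 2).val

instance (σ : Equiv.Perm (Fin 4)) : Decidable (adj σ) := by unfold adj; infer_instance

theorem card_adj : (Finset.univ.filter (fun σ : Equiv.Perm (Fin 4) => adj σ)).card = 12 := by
  decide +kernel

theorem card_not_adj :
    (Finset.univ.filter (fun σ : Equiv.Perm (Fin 4) => ¬ adj σ)).card = 12 := by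
  decide +kernel

theorem sum_adj (A C : ℝ≥0∞) :
    ∑ σ : Equiv.Perm (Fin 4), (if adj σ then A else C) = 12 * A + 12 * C := by
  rw [Finset.sum_ite, Finset.sum_const, Finset.sum_const, card_adj, card_not_adj]
  simp

open Classical in
theorem E4_two (hs : ∀ x y, g x y = g y x) (B : Finset V) (S1 S2 : ℝ≥0∞)
    (hS1 : ∀ z ∈ B, ∑ u ∈ B, g u z ≤ S1)
    (hS2 : ∀ z ∈ B, ∑ u ∈ B, g u z ^ 2 ≤ S2) (v v' : V) (hv : v ∈ B) (hv' : v' ∈ B)
    (p : Fin 4 → V → ℝ≥0∞) (i j : Fin 4) (hij : i ≠ j)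
    (hi : p i = fun x => if x = v then 1 else 0) (hj : p j = fun x => if x = v' then 1 else 0)
    (ho : ∀ k, k ≠ i → k ≠ j → p k = fun x => if x ∈ B then 1 else 0) :
    E4 g (p 0) (p 1) (p 2) (p 3) ≤
      if i.val + 1 = j.val ∨ j.val + 1 = i.val then S1 ^ 2 * g v v' else S1 * S2 := by
  have hS : ∀ x ∈ B, ∑ y, g x y * (fun x => if x ∈ B then 1 else 0 : V → ℝ≥0∞) y ≤ S1 :=
    sum_one g hs B S1 hS1
  have z1 : ∀ x, x ∉ B → (fun x => if x ∈ B then 1 else 0 : V → ℝ≥0∞) x = 0 := by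
    intro x hx
    simp [hx]
  have zv : ∀ x, x ∉ B → (fun x => if x = v then 1 else 0 : V → ℝ≥0∞) x = 0 := by
    intro x hx
    have : x ≠ v := fun h => hx (h ▸ hv)
    simp [this]
  have zv' : ∀ x, x ∉ B → (fun x => if x = v' then 1 else 0 : V → ℝ≥0∞) x = 0 := by
    intro x hx
    have : x ≠ v' := fun h => hx (h ▸ hv')
    simp [this]
  have e1 := E2_pt g v v'
  have e2 : E2 g (fun x => if x = v' then 1 else 0) (fun x => if x = v then 1 else 0) = g v v' := by
    rw [E2_pt, hs]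
  have t1 := E3_pt g hs B S2 hS2 v v' hv hv'
  have t2 := E3_pt g hs B S2 hS2 v' v hv' hv
  have q1 := E4_pt g hs B S1 S2 hS1 hS2 v v' hv hv'
  have q2 := E4_pt g hs B S1 S2 hS1 hS2 v' v hv' hv
  generalize hone : (fun x => if x ∈ B then 1 else 0 : V → ℝ≥0∞) = one at *
  generalize hdv : (fun x => if x = v then 1 else 0 : V → ℝ≥0∞) = dv at *
  generalize hdv' : (fun x => if x = v' then 1 else 0 : V → ℝ≥0∞) = dv' at *
  have sq : ∀ x : ℝ≥0∞, S1 * (S1 * x) = S1 ^ 2 * x := fun x => by ring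
  fin_cases i <;> fin_cases j
  · exact absurd rfl hij
  · change p 0 = dv at hi
    change p 1 = dv' at hj
    have ho2 := ho 2 (by decide) (by decide)
    have ho3 := ho 3 (by decide) (by decide)
    rw [hi, hj, ho2, ho3]
    rw [if_pos (by decide)]
    refine le_trans (peelR4 g B S1 one hS dv dv' one z1) ?_
    refine le_trans (mul_le_mul' le_rfl (peelR3 g B S1 one hS dv dv' zv')) ?_
    rw [e1, sq]
  · change p 0 = dv at hi
    change p 2 = dv' at hj
    have ho1 := ho 1 (by decide) (by decide)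
    have ho3 := ho 3 (by decide) (by decide)
    rw [hi, hj, ho1, ho3]
    rw [if_neg (by decide)]
    refine le_trans (peelR4 g B S1 one hS dv one dv' zv') ?_
    exact mul_le_mul' le_rfl t1
  · change p 0 = dv at hi
    change p 3 = dv' at hj
    have ho1 := ho 1 (by decide) (by decide)
    have ho2 := ho 2 (by decide) (by decide)
    rw [hi, hj, ho1, ho2]
    rw [if_neg (by decide)]
    exact q1
  · change p 1 = dv at hi
    change p 0 = dv' at hj
    have ho2 := ho 2 (by decide) (by decide)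
    have ho3 := ho 3 (by decide) (by decide)
    rw [hi, hj, ho2, ho3]
    rw [if_pos (by decide)]
    refine le_trans (peelR4 g B S1 one hS dv' dv one z1) ?_
    refine le_trans (mul_le_mul' le_rfl (peelR3 g B S1 one hS dv' dv zv)) ?_
    rw [e2, sq]
  · exact absurd rfl hij
  · change p 1 = dv at hi
    change p 2 = dv' at hj
    have ho0 := ho 0 (by decide) (by decide)
    have ho3 := ho 3 (by decide) (by decide)
    rw [hi, hj, ho0, ho3]
    rw [if_pos (by decide)]
    refine le_trans (peelR4 g B S1 one hS one dv dv' zv') ?_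
    refine le_trans (mul_le_mul' le_rfl (peelL3 g hs B S1 one hS dv dv' zv)) ?_
    rw [e1, sq]
  · change p 1 = dv at hi
    change p 3 = dv' at hj
    have ho0 := ho 0 (by decide) (by decide)
    have ho2 := ho 2 (by decide) (by decide)
    rw [hi, hj, ho0, ho2]
    rw [if_neg (by decide)]
    refine le_trans (peelL4 g hs B S1 one hS dv one dv' zv) ?_
    exact mul_le_mul' le_rfl t1
  · change p 2 = dv at hi
    change p 0 = dv' at hj
    have ho1 := ho 1 (by decide) (by decide)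
    have ho3 := ho 3 (by decide) (by decide)
    rw [hi, hj, ho1, ho3]
    rw [if_neg (by decide)]
    refine le_trans (peelR4 g B S1 one hS dv' one dv zv) ?_
    exact mul_le_mul' le_rfl t2
  · change p 2 = dv at hi
    change p 1 = dv' at hj
    have ho0 := ho 0 (by decide) (by decide)
    have ho3 := ho 3 (by decide) (by decide)
    rw [hi, hj, ho0, ho3]
    rw [if_pos (by decide)]
    refine le_trans (peelR4 g B S1 one hS one dv' dv zv) ?_
    refine le_trans (mul_le_mul' le_rfl (peelL3 g hs B S1 one hS dv' dv zv')) ?_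
    rw [e2, sq]
  · exact absurd rfl hij
  · change p 2 = dv at hi
    change p 3 = dv' at hj
    have ho0 := ho 0 (by decide) (by decide)
    have ho1 := ho 1 (by decide) (by decide)
    rw [hi, hj, ho0, ho1]
    rw [if_pos (by decide)]
    refine le_trans (peelL4 g hs B S1 one hS one dv dv' z1) ?_
    refine le_trans (mul_le_mul' le_rfl (peelL3 g hs B S1 one hS dv dv' zv)) ?_
    rw [e1, sq]
  · change p 3 = dv at hi
    change p 0 = dv' at hj
    have ho1 := ho 1 (by decide) (by decide)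
    have ho2 := ho 2 (by decide) (by decide)
    rw [hi, hj, ho1, ho2]
    rw [if_neg (by decide)]
    exact q2
  · change p 3 = dv at hi
    change p 1 = dv' at hj
    have ho0 := ho 0 (by decide) (by decide)
    have ho2 := ho 2 (by decide) (by decide)
    rw [hi, hj, ho0, ho2]
    rw [if_neg (by decide)]
    refine le_trans (peelL4 g hs B S1 one hS dv' one dv zv') ?_
    exact mul_le_mul' le_rfl t2
  · change p 3 = dv at hi
    change p 2 = dv' at hj
    have ho0 := ho 0 (by decide) (by decide)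
    have ho1 := ho 1 (by decide) (by decide)
    rw [hi, hj, ho0, ho1]
    rw [if_pos (by decide)]
    refine le_trans (peelL4 g hs B S1 one hS one dv' dv z1) ?_
    refine le_trans (mul_le_mul' le_rfl (peelL3 g hs B S1 one hS dv' dv zv')) ?_
    rw [e2, sq]
  · exact absurd rfl hij

open Classical in
/-- two points and two marks in `B` -/
theorem mom4_two (hg : Grn N.P g) (B : Finset V) (a : V → ℝ≥0∞) (Nn S1 S2 hh : ℝ≥0∞)
    (ha0 : ∀ v, v ∉ B → a v = 0) (ha : ∀ v, a v * (N.H v : ℝ≥0∞) ≤ Nn)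
    (hS1 : ∀ z ∈ B, ∑ u ∈ B, g u z ≤ S1) (hS2 : ∀ z ∈ B, ∑ u ∈ B, g u z ^ 2 ≤ S2)
    (hh0 : hh ≠ 0) (hh1 : hh ≠ ∞) (hH : ∀ v ∈ B, hh ≤ (N.H v : ℝ≥0∞))
    (v v' : V) (hv : v ∈ B) (hv' : v' ∈ B) :
    ∑' w, iota N w * (occ a w ^ 2 * (occ (fun x => if x = v then (N.H v : ℝ≥0∞)⁻¹ else 0) w
        * occ (fun x => if x = v' then (N.H v' : ℝ≥0∞)⁻¹ else 0) w))
      ≤ 6 * Nn ^ 2 / hh ^ 2 * (S1 ^ 2 * g v v' + S1 * S2) := by
  set b : V → ℝ≥0∞ := fun x => if x = v then (N.H v : ℝ≥0∞)⁻¹ else 0 with hb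
  set b' : V → ℝ≥0∞ := fun x => if x = v' then (N.H v' : ℝ≥0∞)⁻¹ else 0 with hb'
  set one : V → ℝ≥0∞ := fun x => if x ∈ B then 1 else 0 with hone
  set dv : V → ℝ≥0∞ := fun x => if x = v then 1 else 0 with hdv
  set dv' : V → ℝ≥0∞ := fun x => if x = v' then 1 else 0 with hdv'
  have h := mom4_cF N g hg ![a, a, b, b'] ![one, one, dv, dv'] ![Nn, Nn, 1, 1] B hh hH ?_ ?_
  · have hl : ∀ w, ∏ i, occ ((![a, a, b, b'] : Fin 4 → V → ℝ≥0∞) i) w
        = occ a w ^ 2 * (occ b w * occ b' w) := by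
      intro w
      rw [Fin.prod_univ_four]
      change occ a w * occ a w * occ b w * occ b' w = _
      ring
    have hc : ∏ i, (![Nn, Nn, 1, 1] : Fin 4 → ℝ≥0∞) i = Nn ^ 2 := by
      rw [Fin.prod_univ_four]
      change Nn * Nn * 1 * 1 = _
      ring
    simp only [hl, hc] at h
    refine le_trans h ?_
    have hsum : (∑ σ : Equiv.Perm (Fin 4), ∑ z : Fin 4 → V,
        g (z 0) (z 1) * g (z 1) (z 2) * g (z 2) (z 3) *
          ∏ i, (![one, one, dv, dv'] : Fin 4 → V → ℝ≥0∞) (σ i) (z i))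
          ≤ 12 * (S1 ^ 2 * g v v') + 12 * (S1 * S2) := by
      rw [← sum_adj]
      refine Finset.sum_le_sum fun σ _ => ?_
      refine (sum_E4 g (fun i => (![one, one, dv, dv'] : Fin 4 → V → ℝ≥0∞) (σ i))).le.trans ?_
      refine le_trans (E4_two g hg.symm B S1 S2 hS1 hS2 v v' hv hv'
        (fun i => (![one, one, dv, dv'] : Fin 4 → V → ℝ≥0∞) (σ i)) (σ.symm 2) (σ.symm 3) ?_ ?_ ?_ ?_)
        (le_of_eq ?_)
      · intro h
        have := σ.symm.injective h
        exact absurd this (by decide)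
      · simp only [Equiv.apply_symm_apply]
        rfl
      · simp only [Equiv.apply_symm_apply]
        rfl
      · intro k hk2 hk3
        have h2 : σ k ≠ 2 := fun h => hk2 (by rw [← h, Equiv.symm_apply_apply])
        have h3 : σ k ≠ 3 := fun h => hk3 (by rw [← h, Equiv.symm_apply_apply])
        change (![one, one, dv, dv'] : Fin 4 → V → ℝ≥0∞) (σ k) = one
        generalize σ k = m at h2 h3
        fin_cases m
        · rfl
        · rfl
        · exact absurd rfl h2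
        · exact absurd rfl h3
      · unfold adj
        congr 1
    calc Nn ^ 2 / hh ^ 2 * (∑ σ : Equiv.Perm (Fin 4), ∑ z : Fin 4 → V,
        g (z 0) (z 1) * g (z 1) (z 2) * g (z 2) (z 3) *
          ∏ i, (![one, one, dv, dv'] : Fin 4 → V → ℝ≥0∞) (σ i) (z i)) / 2
        ≤ Nn ^ 2 / hh ^ 2 * (12 * (S1 ^ 2 * g v v') + 12 * (S1 * S2)) / 2 := by gcongr
      _ = 6 * Nn ^ 2 / hh ^ 2 * (S1 ^ 2 * g v v' + S1 * S2) := by
          have h24 : (12 : ℝ≥0∞) = 6 * 2 := by norm_num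
          rw [h24]
          simp only [div_eq_mul_inv]
          calc Nn ^ 2 * (hh ^ 2)⁻¹ * (6 * 2 * (S1 ^ 2 * g v v') + 6 * 2 * (S1 * S2)) * 2⁻¹
              = 6 * Nn ^ 2 * (hh ^ 2)⁻¹ * (S1 ^ 2 * g v v' + S1 * S2) * (2 * 2⁻¹) := by ring
            _ = _ := by
                rw [ENNReal.mul_inv_cancel (by norm_num) (by norm_num), mul_one]
  · intro k x hx
    have hxv : x ≠ v := fun h => hx (h ▸ hv)
    have hxv' : x ≠ v' := fun h => hx (h ▸ hv')
    fin_cases k
    · exact ha0 x hx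
    · exact ha0 x hx
    · change b x = 0
      simp [hb, hxv]
    · change b' x = 0
      simp [hb', hxv']
  · have hA : ∀ x, a x * (N.H x : ℝ≥0∞) ≤ Nn * one x := by
      intro x
      by_cases hx : x ∈ B
      · simpa [hone, hx] using ha x
      · simp [ha0 x hx]
    have hB : ∀ x, b x * (N.H x : ℝ≥0∞) ≤ 1 * dv x := by
      intro x
      by_cases hx : x = v
      · subst hx
        have hpos : (N.H x : ℝ≥0∞) ≠ 0 := by simpa using (H_pos N x).ne'
        simp only [hb, hdv, if_true, mul_one]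
        rw [ENNReal.inv_mul_cancel hpos ENNReal.coe_ne_top]
      · simp [hb, hx]
    have hB' : ∀ x, b' x * (N.H x : ℝ≥0∞) ≤ 1 * dv' x := by
      intro x
      by_cases hx : x = v'
      · subst hx
        have hpos : (N.H x : ℝ≥0∞) ≠ 0 := by simpa using (H_pos N x).ne'
        simp only [hb', hdv', if_true, mul_one]
        rw [ENNReal.inv_mul_cancel hpos ENNReal.coe_ne_top]
      · simp [hb', hx]
    intro k x
    fin_cases k
    · exact hA x
    · exact hA x
    · exact hB x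
    · exact hB' x

end Pool.Agent.Lib.MP_e4a9a7_pr.D3
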