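import Mathlib
import Pool.Agent.Lib.MP_e4a9a7_pr.D3.Moments

/-!
# Task D: Gaussian free field
-/

namespace Pool.Agent.Lib.MP_e4a9a7_pr.D3

open scoped ENNReal NNReal BigOperators
open MeasureTheory
open Classical

variable {V : Type} [Fintype V]

theorem measurable_Qf (P : V → V → ℝ≥0) : Measurable (Qf P) := by
  unfold Qf
  fun_prop

theorem measurable_expQf (P : V → V → ℝ≥0) :
    Measurable (fun φ : V → ℝ => ENNReal.ofReal (Real.exp (- Qf P φ))) :=
  ENNReal.measurable_ofReal.comp (Real.measurable_exp.comp (measurable_Qf P).neg)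

theorem Zg_ne_zero (P : V → V → ℝ≥0) : Zg P ≠ 0 := by
  unfold Zg
  have h : 0 < ∫⁻ φ : V → ℝ, ENNReal.ofReal (Real.exp (- Qf P φ)) := by
    rw [lintegral_pos_iff_support (measurable_expQf P)]
    have : (Function.support fun φ : V → ℝ => ENNReal.ofReal (Real.exp (- Qf P φ))) = Set.univ := by
      ext φ
      simp [Real.exp_pos]
    rw [this]
    exact isOpen_univ.measure_pos volume Set.univ_nonempty
  exact h.ne'

/-- Schur test with `H` -/
theorem Qf_coercive (N : Net V) (φ : V → ℝ) :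
    ∑ x, ((N.η x : ℝ) / (2 * (N.H x : ℝ))) * φ x ^ 2 ≤ Qf N.P φ := by
  have hH : ∀ x, (0 : ℝ) < N.H x := fun x => by
    have h1 := N.eq x
    have h2 := N.η_pos x
    have h3 : (0 : ℝ≥0) < N.H x := by
      rw [h1]
      positivity
    exact_mod_cast h3
  have hsym : ∀ x y, (N.P x y : ℝ) = N.P y x := fun x y => by rw [N.symm]
  have key : ∀ x y, (N.P x y : ℝ) * φ x * φ y ≤
      (N.P x y : ℝ) * (φ x ^ 2 * (N.H y / N.H x)) / 2
        + (N.P y x : ℝ) * (φ y ^ 2 * (N.H x / N.H y)) / 2 := by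
    intro x y
    rw [hsym y x]
    have hx := hH x
    have hy := hH y
    have h1 : φ x * φ y ≤ (φ x ^ 2 * (N.H y / N.H x)) / 2 + (φ y ^ 2 * (N.H x / N.H y)) / 2 := by
      have h2 : 0 ≤ (φ x * N.H y - φ y * N.H x) ^ 2 / (2 * (N.H x * N.H y)) := by positivity
      have h3 : (φ x * N.H y - φ y * N.H x) ^ 2 / (2 * (N.H x * N.H y))
          = (φ x ^ 2 * (N.H y / N.H x)) / 2 + (φ y ^ 2 * (N.H x / N.H y)) / 2 - φ x * φ y := by
        field_simp
        ring
      linarith
    have hp : (0 : ℝ) ≤ N.P x y := NNReal.coe_nonneg _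
    nlinarith [mul_le_mul_of_nonneg_left h1 hp]
  have hsum : ∑ x, ∑ y, (N.P x y : ℝ) * φ x * φ y
      ≤ ∑ x, ∑ y, (N.P x y : ℝ) * (φ x ^ 2 * (N.H y / N.H x)) := by
    calc ∑ x, ∑ y, (N.P x y : ℝ) * φ x * φ y
        ≤ ∑ x, ∑ y, ((N.P x y : ℝ) * (φ x ^ 2 * (N.H y / N.H x)) / 2
          + (N.P y x : ℝ) * (φ y ^ 2 * (N.H x / N.H y)) / 2) :=
          Finset.sum_le_sum fun x _ => Finset.sum_le_sum fun y _ => key x y
      _ = ∑ x, ∑ y, (N.P x y : ℝ) * (φ x ^ 2 * (N.H y / N.H x)) / 2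
          + ∑ x, ∑ y, (N.P y x : ℝ) * (φ y ^ 2 * (N.H x / N.H y)) / 2 := by
          simp only [Finset.sum_add_distrib]
      _ = ∑ x, ∑ y, (N.P x y : ℝ) * (φ x ^ 2 * (N.H y / N.H x)) / 2
          + ∑ x, ∑ y, (N.P x y : ℝ) * (φ x ^ 2 * (N.H y / N.H x)) / 2 := by
          congr 1
          rw [Finset.sum_comm]
      _ = ∑ x, ∑ y, (N.P x y : ℝ) * (φ x ^ 2 * (N.H y / N.H x)) := by
          simp only [← Finset.sum_add_distrib, add_halves]
  have hin : ∀ x, ∑ y, (N.P x y : ℝ) * (φ x ^ 2 * (N.H y / N.H x))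
      = φ x ^ 2 - (N.η x / N.H x) * φ x ^ 2 := by
    intro x
    have h1 : (N.H x : ℝ) = N.η x + ∑ y, (N.P x y : ℝ) * N.H y := by
      have := N.eq x
      exact_mod_cast congrArg (fun z : ℝ≥0 => (z : ℝ)) this
    have h2 : ∑ y, (N.P x y : ℝ) * (φ x ^ 2 * (N.H y / N.H x))
        = φ x ^ 2 / N.H x * ∑ y, (N.P x y : ℝ) * N.H y := by
      rw [Finset.mul_sum]
      refine Finset.sum_congr rfl fun y _ => ?_
      ring
    have h3 : ∑ y, (N.P x y : ℝ) * N.H y = N.H x - N.η x := by linarith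
    rw [h2, h3]
    have hx := (hH x).ne'
    field_simp
  have hfin : ∑ x, ∑ y, (N.P x y : ℝ) * φ x * φ y
      ≤ ∑ x, φ x ^ 2 - ∑ x, (N.η x / N.H x) * φ x ^ 2 := by
    refine hsum.trans (le_of_eq ?_)
    rw [← Finset.sum_sub_distrib]
    exact Finset.sum_congr rfl fun x _ => hin x
  have hhalf : ∑ x, ((N.η x : ℝ) / (2 * (N.H x : ℝ))) * φ x ^ 2
      = (∑ x, ((N.η x : ℝ) / N.H x) * φ x ^ 2) / 2 := by
    rw [Finset.sum_div]
    refine Finset.sum_congr rfl fun x _ => ?_
    have hx := (hH x).ne'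
    field_simp
  unfold Qf
  rw [hhalf]
  linarith

theorem Zg_ne_top (N : Net V) : Zg N.P ≠ ∞ := by
  have hH : ∀ x, (0 : ℝ) < N.H x := fun x => by
    have h1 := N.eq x
    have h2 := N.η_pos x
    have h3 : (0 : ℝ≥0) < N.H x := by
      rw [h1]
      positivity
    exact_mod_cast h3
  have ha : ∀ x, (0 : ℝ) < (N.η x : ℝ) / (2 * (N.H x : ℝ)) := fun x => by
    have h1 := hH x
    have h2 : (0 : ℝ) < N.η x := by exact_mod_cast N.η_pos x
    positivity
  have hint : Integrable (fun φ : V → ℝ =>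
      ∏ x, Real.exp (-((N.η x : ℝ) / (2 * (N.H x : ℝ))) * φ x ^ 2)) :=
    Integrable.fintype_prod (f := fun x (t : ℝ) =>
      Real.exp (-((N.η x : ℝ) / (2 * (N.H x : ℝ))) * t ^ 2))
      fun x => integrable_exp_neg_mul_sq (ha x)
  have hle : Zg N.P ≤ ∫⁻ φ : V → ℝ, ENNReal.ofReal
      (∏ x, Real.exp (-((N.η x : ℝ) / (2 * (N.H x : ℝ))) * φ x ^ 2)) := by
    unfold Zg
    refine lintegral_mono fun φ => ?_
    refine ENNReal.ofReal_le_ofReal ?_
    rw [← Real.exp_sum]
    refine Real.exp_le_exp.2 ?_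
    have := Qf_coercive N φ
    simp only [neg_mul, Finset.sum_neg_distrib]
    linarith
  exact (hle.trans_lt hint.lintegral_lt_top).ne

theorem measurable_gam (P : V → V → ℝ≥0) : Measurable (gam P) := by
  unfold gam
  exact (measurable_expQf P).div_const _

theorem lintegral_gam (N : Net V) : ∫⁻ φ : V → ℝ, gam N.P φ = 1 := by
  unfold gam
  simp only [div_eq_mul_inv]
  rw [lintegral_mul_const _ (measurable_expQf N.P)]
  exact ENNReal.mul_inv_cancel (Zg_ne_zero N.P) (Zg_ne_top N)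

theorem Qf_neg (P : V → V → ℝ≥0) (φ : V → ℝ) : Qf P (fun v => - φ v) = Qf P φ := by
  unfold Qf
  congr 2
  · refine Finset.sum_congr rfl fun x _ => ?_
    ring
  · refine Finset.sum_congr rfl fun x _ => Finset.sum_congr rfl fun y _ => ?_
    ring

theorem gam_neg (P : V → V → ℝ≥0) (φ : V → ℝ) : gam P (fun v => - φ v) = gam P φ := by
  unfold gam
  rw [Qf_neg]

/-- the bilinear expansion of the quadratic form -/
theorem Qf_sub (P : V → V → ℝ≥0) (hP : ∀ x y, P x y = P y x) (Φ G e : V → ℝ)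
    (hG : ∀ x, G x = e x + ∑ y, (P x y : ℝ) * G y) :
    Qf P (fun v => Φ v - G v) = Qf P Φ - ∑ v, e v * Φ v + (∑ v, e v * G v) / 2 := by
  have h1 : ∑ v, (Φ v - G v) ^ 2 = ∑ v, Φ v ^ 2 - 2 * ∑ v, Φ v * G v + ∑ v, G v * G v := by
    rw [Finset.mul_sum, ← Finset.sum_sub_distrib, ← Finset.sum_add_distrib]
    refine Finset.sum_congr rfl fun x _ => ?_
    ring
  have h2 : ∑ x, ∑ y, (P x y : ℝ) * (Φ x - G x) * (Φ y - G y)
      = ∑ x, ∑ y, (P x y : ℝ) * Φ x * Φ y - 2 * ∑ x, ∑ y, (P x y : ℝ) * Φ x * G y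
        + ∑ x, ∑ y, (P x y : ℝ) * G x * G y := by
    have h3 : ∑ x, ∑ y, (P x y : ℝ) * G x * Φ y = ∑ x, ∑ y, (P x y : ℝ) * Φ x * G y := by
      rw [Finset.sum_comm]
      refine Finset.sum_congr rfl fun x _ => Finset.sum_congr rfl fun y _ => ?_
      rw [hP y x]
      ring
    have h4 : ∑ x, ∑ y, (P x y : ℝ) * (Φ x - G x) * (Φ y - G y)
        = ∑ x, ∑ y, ((P x y : ℝ) * Φ x * Φ y - (P x y : ℝ) * Φ x * G y
          - (P x y : ℝ) * G x * Φ y + (P x y : ℝ) * G x * G y) := by
      refine Finset.sum_congr rfl fun x _ => Finset.sum_congr rfl fun y _ => ?_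
      ring
    rw [h4]
    simp only [Finset.sum_add_distrib, Finset.sum_sub_distrib]
    rw [h3]
    ring
  have h5 : ∀ u : V → ℝ, ∑ x, ∑ y, (P x y : ℝ) * u x * G y = ∑ x, u x * G x - ∑ x, e x * u x := by
    intro u
    rw [← Finset.sum_sub_distrib]
    refine Finset.sum_congr rfl fun x _ => ?_
    have h6 : ∑ y, (P x y : ℝ) * G y = G x - e x := by
      have := hG x
      linarith
    calc ∑ y, (P x y : ℝ) * u x * G y = u x * ∑ y, (P x y : ℝ) * G y := by
          rw [Finset.mul_sum]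
          refine Finset.sum_congr rfl fun y _ => ?_
          ring
      _ = u x * G x - e x * u x := by
          rw [h6]
          ring
  unfold Qf
  rw [h1, h2, h5 Φ, h5 G]
  ring

/-- completing the square -/
theorem Qf_sub_H (N : Net V) (Φ : V → ℝ) :
    - Qf N.P (fun v => Φ v - (N.H v : ℝ))
      = - Qf N.P Φ + ∑ v, (N.η v : ℝ) * Φ v - (∑ v, (N.η v : ℝ) * (N.H v : ℝ)) / 2 := by
  rw [Qf_sub N.P N.symm Φ (fun v => (N.H v : ℝ)) (fun v => (N.η v : ℝ))]
  · ring
  · intro x
    have := N.eq x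
    exact_mod_cast congrArg (fun z : ℝ≥0 => (z : ℝ)) this

/-- truncated Green function -/
noncomputable def grn (P : V → V → ℝ≥0) (v : V) : ℕ → V → ℝ≥0
  | 0, _ => 0
  | n + 1, x => (if x = v then 1 else 0) + ∑ z, P x z * grn P v n z

theorem grn_mono (P : V → V → ℝ≥0) (v : V) (n : ℕ) : ∀ x, grn P v n x ≤ grn P v (n + 1) x := by
  induction n with
  | zero =>
    intro x
    exact zero_le
  | succ n ih =>
    intro x
    simp only [grn]
    refine add_le_add le_rfl (Finset.sum_le_sum fun z _ => ?_)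
    exact mul_le_mul_of_nonneg_left (ih z) (zero_le)

theorem grn_le_H (N : Net V) (v : V) (n : ℕ) : ∀ x, grn N.P v n x ≤ N.H x / N.η v := by
  induction n with
  | zero =>
    intro x
    exact zero_le
  | succ n ih =>
    intro x
    simp only [grn]
    have h1 : N.H x / N.η v = N.η x / N.η v + ∑ y, N.P x y * (N.H y / N.η v) := by
      conv_lhs => rw [N.eq x]
      rw [add_div, Finset.sum_div]
      congr 1
      refine Finset.sum_congr rfl fun y _ => ?_
      rw [mul_div_assoc]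
    rw [h1]
    refine add_le_add ?_ (Finset.sum_le_sum fun z _ => ?_)
    · split_ifs with h
      · rw [h, div_self (N.η_pos v).ne']
      · exact zero_le
    · exact mul_le_mul_of_nonneg_left (ih z) (zero_le)

theorem grn_le_g {P : V → V → ℝ≥0} {g : V → V → ℝ≥0∞} (hg : Grn P g) (v : V) (n : ℕ) :
    ∀ x, (grn P v n x : ℝ≥0∞) ≤ g x v := by
  induction n with
  | zero =>
    intro x
    simp [grn]
  | succ n ih =>
    intro x
    simp only [grn]
    push_cast
    have h1 : ∑ z, (P x z : ℝ≥0∞) * (grn P v n z : ℝ≥0∞) ≤ ∑ z, (P x z : ℝ≥0∞) * g z v :=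
      Finset.sum_le_sum fun z _ => by gcongr; exact ih z
    split_ifs with h
    · subst h
      push_cast
      exact (add_le_add le_rfl h1).trans (hg.sup2 x)
    · push_cast
      rw [zero_add]
      exact h1.trans (hg.sup1 x v)

theorem exists_green (N : Net V) (g : V → V → ℝ≥0∞) (hg : Grn N.P g) (v : V) (hgv : g v v ≠ ∞) :
    ∃ G : V → ℝ, (∀ x, G x = (if x = v then 1 else 0) + ∑ y, (N.P x y : ℝ) * G y) ∧
      G v ≤ (g v v).toReal := by
  have hmono : ∀ x, Monotone (fun n => grn N.P v n x) := fun x =>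
    monotone_nat_of_le_succ fun n => grn_mono N.P v n x
  have hbdd : ∀ x, BddAbove (Set.range fun n => grn N.P v n x) := fun x =>
    ⟨N.H x / N.η v, by rintro _ ⟨n, rfl⟩; exact grn_le_H N v n x⟩
  have hlim : ∀ x, Filter.Tendsto (fun n => grn N.P v n x) Filter.atTop
      (nhds (⨆ n, grn N.P v n x)) := fun x => tendsto_atTop_ciSup (hmono x) (hbdd x)
  set G : V → ℝ≥0 := fun x => ⨆ n, grn N.P v n x with hG
  have heq : ∀ x, G x = (if x = v then 1 else 0) + ∑ y, N.P x y * G y := by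
    intro x
    have h1 : Filter.Tendsto (fun n => grn N.P v (n + 1) x) Filter.atTop (nhds (G x)) :=
      (hlim x).comp (Filter.tendsto_add_atTop_nat 1)
    have h2 : Filter.Tendsto (fun n => grn N.P v (n + 1) x) Filter.atTop
        (nhds ((if x = v then 1 else 0) + ∑ y, N.P x y * G y)) := by
      simp only [grn]
      refine Filter.Tendsto.const_add _ ?_
      refine tendsto_finsetSum _ fun y _ => ?_
      exact (hlim y).const_mul _
    exact tendsto_nhds_unique h1 h2
  refine ⟨fun x => (G x : ℝ), fun x => ?_, ?_⟩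
  · have h0 : ((G x : ℝ≥0) : ℝ) = (((if x = v then 1 else 0) + ∑ y, N.P x y * G y : ℝ≥0) : ℝ) :=
      congrArg (fun z : ℝ≥0 => (z : ℝ)) (heq x)
    refine h0.trans ?_
    push_cast
    congr 1
    split_ifs <;> simp
  · have h1 : ∀ n, grn N.P v n v ≤ (g v v).toNNReal := by
      intro n
      have := grn_le_g hg v n v
      rw [← ENNReal.coe_toNNReal hgv] at this
      exact_mod_cast this
    have h2 : G v ≤ (g v v).toNNReal := ciSup_le h1
    exact_mod_cast h2

/-- exponential moment -/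
theorem lintegral_exp_gam (N : Net V) (G : V → ℝ) (v : V)
    (hG : ∀ x, G x = (if x = v then 1 else 0) + ∑ y, (N.P x y : ℝ) * G y) :
    ∫⁻ φ : V → ℝ, ENNReal.ofReal (Real.exp (φ v)) * gam N.P φ
      = ENNReal.ofReal (Real.exp (G v / 2)) := by
  have h1 : ∀ φ : V → ℝ, ENNReal.ofReal (Real.exp (φ v)) * gam N.P φ
      = ENNReal.ofReal (Real.exp (G v / 2)) * gam N.P (φ - G) := by
    intro φ
    unfold gam
    rw [← mul_div_assoc, ← mul_div_assoc, ← ENNReal.ofReal_mul (Real.exp_pos _).le,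
      ← ENNReal.ofReal_mul (Real.exp_pos _).le, ← Real.exp_add, ← Real.exp_add]
    congr 3
    have h2 := Qf_sub N.P N.symm φ G (fun x => if x = v then 1 else 0) hG
    have h3 : (φ - G) = fun x => φ x - G x := rfl
    rw [h3, h2]
    simp only [ite_mul, one_mul, zero_mul, Finset.sum_ite_eq', Finset.mem_univ, if_true]
    ring
  simp_rw [h1]
  have hm : Measurable (fun φ : V → ℝ => gam N.P (φ - G)) :=
    (measurable_gam N.P).comp (measurable_id.sub_const G)
  rw [lintegral_const_mul _ hm,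
    lintegral_sub_right_eq_self (fun φ => gam N.P φ) G, lintegral_gam, mul_one]

/-- Gaussian tail -/
theorem gam_tail (N : Net V) (g : V → V → ℝ≥0∞) (hg : Grn N.P g) (v : V) (T : ℝ)
    (hgv : g v v ≠ ∞) :
    ∫⁻ φ in {φ : V → ℝ | T < |φ v|}, gam N.P φ
      ≤ ENNReal.ofReal (2 * Real.exp (- T + (g v v).toReal / 2)) := by
  obtain ⟨G, hG, hGv⟩ := exists_green N g hg v hgv
  have e1 := lintegral_exp_gam N G v hG
  have e2 : ∫⁻ φ : V → ℝ, ENNReal.ofReal (Real.exp (- φ v)) * gam N.P φ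
      = ENNReal.ofReal (Real.exp (G v / 2)) := by
    rw [← e1, ← lintegral_neg_eq_self (fun φ : V → ℝ => ENNReal.ofReal (Real.exp (φ v)) * gam N.P φ)]
    refine lintegral_congr fun φ => ?_
    have h3 : (-φ : V → ℝ) = fun x => - φ x := rfl
    rw [h3, gam_neg]
  have hms : MeasurableSet {φ : V → ℝ | T < |φ v|} :=
    measurableSet_lt measurable_const (measurable_pi_apply v).abs
  have hm1 : Measurable (fun φ : V → ℝ => ENNReal.ofReal (Real.exp (φ v)) * gam N.P φ) :=
    ((ENNReal.measurable_ofReal.comp (Real.measurable_exp.comp (measurable_pi_apply v)))).mul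
      (measurable_gam N.P)
  calc ∫⁻ φ in {φ : V → ℝ | T < |φ v|}, gam N.P φ
      ≤ ∫⁻ φ in {φ : V → ℝ | T < |φ v|}, ENNReal.ofReal (Real.exp (-T)) *
          (ENNReal.ofReal (Real.exp (φ v)) * gam N.P φ
            + ENNReal.ofReal (Real.exp (- φ v)) * gam N.P φ) := by
        refine setLIntegral_mono' hms fun φ hφ => ?_
        have hφ' : T < |φ v| := hφ
        rw [← add_mul, ← mul_assoc, ← ENNReal.ofReal_add (Real.exp_pos _).le (Real.exp_pos _).le,
          ← ENNReal.ofReal_mul (Real.exp_pos _).le]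
        have h1 : (1 : ℝ) ≤ Real.exp (-T) * (Real.exp (φ v) + Real.exp (- φ v)) := by
          have h2 : Real.exp |φ v| ≤ Real.exp (φ v) + Real.exp (- φ v) := by
            rcases abs_cases (φ v) with ⟨h, _⟩ | ⟨h, _⟩
            · rw [h]
              linarith [Real.exp_pos (- φ v)]
            · rw [h]
              linarith [Real.exp_pos (φ v)]
          calc (1 : ℝ) ≤ Real.exp (-T + |φ v|) := Real.one_le_exp (by linarith)
            _ = Real.exp (-T) * Real.exp |φ v| := Real.exp_add _ _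
            _ ≤ _ := mul_le_mul_of_nonneg_left h2 (Real.exp_pos _).le
        calc gam N.P φ = 1 * gam N.P φ := (one_mul _).symm
          _ ≤ _ := by
            gcongr
            rw [← ENNReal.ofReal_one]
            exact ENNReal.ofReal_le_ofReal h1
    _ ≤ ∫⁻ φ : V → ℝ, ENNReal.ofReal (Real.exp (-T)) *
          (ENNReal.ofReal (Real.exp (φ v)) * gam N.P φ
            + ENNReal.ofReal (Real.exp (- φ v)) * gam N.P φ) := setLIntegral_le_lintegral _ _
    _ = ENNReal.ofReal (Real.exp (-T)) * (ENNReal.ofReal (Real.exp (G v / 2))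
          + ENNReal.ofReal (Real.exp (G v / 2))) := by
        have hm2 : Measurable (fun φ : V → ℝ => ENNReal.ofReal (Real.exp (- φ v)) * gam N.P φ) :=
          ((ENNReal.measurable_ofReal.comp (Real.measurable_exp.comp
            (measurable_pi_apply v).neg))).mul (measurable_gam N.P)
        have hm3 : Measurable (fun φ : V → ℝ => ENNReal.ofReal (Real.exp (φ v)) * gam N.P φ
            + ENNReal.ofReal (Real.exp (- φ v)) * gam N.P φ) := hm1.add hm2
        rw [lintegral_const_mul _ hm3, lintegral_add_left hm1, e1, e2]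
    _ = ENNReal.ofReal (2 * Real.exp (- T + G v / 2)) := by
        rw [← ENNReal.ofReal_add (Real.exp_pos _).le (Real.exp_pos _).le,
          ← ENNReal.ofReal_mul (Real.exp_pos _).le, Real.exp_add]
        congr 1
        ring
    _ ≤ ENNReal.ofReal (2 * Real.exp (- T + (g v v).toReal / 2)) := by
        refine ENNReal.ofReal_le_ofReal ?_
        have : Real.exp (- T + G v / 2) ≤ Real.exp (- T + (g v v).toReal / 2) :=
          Real.exp_le_exp.2 (by linarith)
        linarith

end Pool.Agent.Lib.MP_e4a9a7_pr.D3
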