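import Mathlib
import Pool.Agent.Lib.MP_e4a9a7_pr.D3.Currents
import Pool.Agent.Lib.MP_e4a9a7_pr.D3.PPP
import Pool.Agent.Lib.MP_e4a9a7_pr.D3.PathSum

/-!
# Task C1: the path expansion of the current weights
-/

namespace Pool.Agent.Lib.MP_e4a9a7_pr.D3

open scoped ENNReal NNReal BigOperators
open Classical

variable {V : Type}

theorem deg_add (n m : Edg V →₀ ℕ) (v : V) : deg (n + m) v = deg n v + deg m v := by
  unfold deg
  exact Finsupp.sum_add_index' (fun _ => by simp) (fun _ _ _ => by ring)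

theorem deg_zero (v : V) : deg (0 : Edg V →₀ ℕ) v = 0 := by
  simp [deg]

theorem deg_single (e : Edg V) (v : V) : deg (Finsupp.single e 1) v = inc e v := by
  unfold deg
  rw [Finsupp.sum_single_index (by simp), one_mul]

theorem deg_nsmul (k : ℕ) (n : Edg V →₀ ℕ) (v : V) : deg (k • n) v = k * deg n v := by
  induction k with
  | zero => simp [deg_zero]
  | succ k ih => rw [succ_nsmul, deg_add, ih]; ring

theorem pr_cons_ne_zero {P : V → V → ℝ≥0} {v y : V} {w : List V} (h : pr P v (y :: w) ≠ 0) :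
    P v y ≠ 0 ∧ pr P y w ≠ 0 := by
  have h1 : (P v y : ℝ≥0∞) * pr P y w ≠ 0 := h
  refine ⟨fun h2 => h1 (by rw [h2]; simp), fun h2 => h1 (by rw [h2]; simp)⟩

theorem deg_tlc [Fintype V] (N : Net V) (x : V) : ∀ (u : List V) (a : V), pr N.P a u ≠ 0 →
    deg (tlc a u) x = (if x = a then 1 else 0) + 2 * u.count x := by
  intro u
  induction u with
  | nil =>
    intro a _
    have : tlc a [] = Finsupp.single (Sum.inr a) 1 := rfl
    rw [this, deg_single]
    simp [inc]
  | cons y u ih =>
    intro a h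
    have h1 := pr_cons_ne_zero h
    have hay : a ≠ y := fun h2 => h1.1 (by rw [h2]; exact N.diag y)
    have h2 : tlc a (y :: u) = Finsupp.single (Sum.inl s(a, y)) 1 + tlc y u := rfl
    rw [h2, deg_add, deg_single, ih y h1.2, List.count_cons]
    simp only [inc, Sym2.mem_iff]
    by_cases hxa : x = a
    · subst hxa
      simp [hay, Ne.symm hay]
    · by_cases hxy : x = y
      · subst hxy
        simp [hxa]
        ring
      · simp [hxa, hxy, Ne.symm hxy]

theorem deg_nn [Fintype V] (N : Net V) (w : List V) (hw : iota N w ≠ 0) (v : V) :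
    deg (nn w) v = 2 * w.count v := by
  cases w with
  | nil => exact absurd rfl hw
  | cons a u =>
    have h1 : pr N.P a u ≠ 0 := by
      intro h
      apply hw
      simp [iota, bw, h]
    have h2 : nn (a :: u) = Finsupp.single (Sum.inr a) 1 + tlc a u := rfl
    rw [h2, deg_add, deg_single, deg_tlc N v u a h1, List.count_cons]
    by_cases hva : v = a
    · subst hva
      simp [inc]
      ring
    · simp [inc, hva, Ne.symm hva]

theorem ncl_add (c c' : Cloud V) : ncl (c + c') = ncl c + ncl c' := by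
  unfold ncl
  exact Finsupp.sum_add_index' (fun _ => by simp) (fun _ _ _ => add_nsmul _ _ _)

theorem ncl_single (w : List V) : ncl (Finsupp.single w 1 : Cloud V) = nn w := by
  unfold ncl
  rw [Finsupp.sum_single_index (by simp), one_nsmul]

theorem ncl_zero : ncl (0 : Cloud V) = 0 := by
  simp [ncl]

theorem deg_finsum {ι : Type} (s : Finset ι) (f : ι → Edg V →₀ ℕ) (v : V) :
    deg (∑ i ∈ s, f i) v = ∑ i ∈ s, deg (f i) v := by
  induction s using Finset.induction_on with
  | empty => simp [deg_zero]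
  | insert a s ha ih => rw [Finset.sum_insert ha, Finset.sum_insert ha, deg_add, ih]

theorem deg_ncl (c : Cloud V) (v : V) : deg (ncl c) v = c.sum fun w k => k * deg (nn w) v := by
  unfold ncl Finsupp.sum
  rw [deg_finsum]
  exact Finset.sum_congr rfl fun w _ => deg_nsmul _ _ _

theorem pw_ne_zero_imp {W : Type} (l : W → ℝ≥0∞) (c : W →₀ ℕ) (h : pw l c ≠ 0) (w : W)
    (hw : w ∈ c.support) : l w ≠ 0 := by
  intro h0
  apply h
  unfold pw Finsupp.prod
  refine Finset.prod_eq_zero hw ?_
  change l w ^ (c w) / ((c w).factorial : ℝ≥0∞) = 0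
  rw [h0, zero_pow (Finsupp.mem_support_iff.1 hw), ENNReal.zero_div]

theorem ppp_ne_zero_imp [Fintype V] (N : Net V) (c : Cloud V) (hc : ppp N c ≠ 0) :
    pw (iota N) c ≠ 0 := by
  intro h
  apply hc
  unfold ppp npw
  rw [h, ENNReal.zero_div]

theorem deg_ncl_even [Fintype V] (N : Net V) (c : Cloud V) (hc : ppp N c ≠ 0) (v : V) :
    Even (deg (ncl c) v) := by
  rw [deg_ncl]
  unfold Finsupp.sum
  refine Finset.even_sum _ fun w hw => ?_
  change Even (c w * deg (nn w) v)
  rw [deg_nn N w (pw_ne_zero_imp _ c (ppp_ne_zero_imp N c hc) w hw)]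
  exact ⟨c w * w.count v, by ring⟩

theorem deg_ncl_ge [Fintype V] (N : Net V) (c : Cloud V) (hc : ppp N c ≠ 0) (v : V)
    (hv : v ∈ Tr c) : 2 ≤ deg (ncl c) v := by
  obtain ⟨w, hw, hvw⟩ := hv
  rw [deg_ncl]
  unfold Finsupp.sum
  have h1 : (c w * deg (nn w) v) ≤ ∑ w ∈ c.support, c w * deg (nn w) v :=
    Finset.single_le_sum (f := fun w => c w * deg (nn w) v) (fun _ _ => Nat.zero_le _) hw
  refine le_trans ?_ h1
  rw [deg_nn N w (pw_ne_zero_imp _ c (ppp_ne_zero_imp N c hc) w hw)]
  have h2 : 1 ≤ c w := Nat.one_le_iff_ne_zero.2 (Finsupp.mem_support_iff.1 hw)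
  have h3 : 1 ≤ w.count v := List.count_pos_iff.2 hvw
  nlinarith

theorem cc_add_two (d : ℕ) : cc (d + 2) = (d + 1 : ℝ≥0∞) * cc d := by
  unfold cc
  have h : Nat.doubleFactorial (d + 2 - 1) = (d + 1) * Nat.doubleFactorial (d - 1) := by
    cases d with
    | zero => rfl
    | succ d =>
      have : d + 1 + 2 - 1 = d + 2 := by omega
      rw [this, Nat.doubleFactorial_add_two]
      rfl
  rw [h]
  push_cast
  ring

/-! ## degrees as sums over edges -/

theorem deg_eq_sum [Fintype V] (M : Edg V →₀ ℕ) (y : V) :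
    deg M y = M (Sum.inr y) + ∑ z, M (Sum.inl s(y, z)) := by
  unfold deg
  rw [Finsupp.sum_fintype _ _ (fun _ => by simp), Fintype.sum_sum_type, add_comm]
  congr 1
  · rw [Finset.sum_eq_single y]
    · simp [inc]
    · intro u _ hu
      simp [inc, Ne.symm hu]
    · simp
  · have h1 : ∀ s : Sym2 V, M (Sum.inl s) * inc (Sum.inl s) y
        = if y ∈ s then M (Sum.inl s) else 0 := by
      intro s
      by_cases h : y ∈ s <;> simp [inc, h]
    simp only [h1]
    rw [← Finset.sum_filter]
    symm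
    refine Finset.sum_bij (fun z _ => s(y, z)) ?_ ?_ ?_ ?_
    · intro z _
      simp
    · intro a _ b _ h
      exact Sym2.congr_right.1 h
    · intro s hs
      rw [Finset.mem_filter] at hs
      obtain ⟨z, hz⟩ := Sym2.mem_iff_exists.1 hs.2
      exact ⟨z, Finset.mem_univ _, hz.symm⟩
    · intro z _
      rfl

/-- weight with one odd vertex -/
noncomputable def Aw [Fintype V] (N : Net V) (y : V) (M : Edg V →₀ ℕ) : ℝ≥0∞ :=
  if ∀ v, Even (deg M v + if v = y then 1 else 0) then
    pw (we N) M * ∏ v, cc (deg M v + if v = y then 1 else 0) else 0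

/-- auxiliary weight with one odd vertex -/
noncomputable def Bw [Fintype V] (N : Net V) (y : V) (M : Edg V →₀ ℕ) : ℝ≥0∞ :=
  if ∀ v, Even (deg M v + if v = y then 1 else 0) then
    pw (we N) M * ∏ v, cc (if v = y then deg M v - 1 else deg M v) else 0

theorem Aw_eq [Fintype V] (N : Net V) (y : V) (M : Edg V →₀ ℕ) :
    Aw N y M = (deg M y : ℝ≥0∞) * Bw N y M := by
  unfold Aw Bw
  by_cases h : ∀ v, Even (deg M v + if v = y then 1 else 0)
  · rw [if_pos h, if_pos h]
    have hy := h y
    rw [if_pos rfl] at hy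
    obtain ⟨d, hd⟩ : ∃ d, deg M y = d + 1 := by
      rcases Nat.eq_zero_or_pos (deg M y) with h0 | h0
      · rw [h0] at hy
        exact absurd hy (by decide)
      · exact ⟨deg M y - 1, by omega⟩
    rw [← Finset.mul_prod_erase _ _ (Finset.mem_univ y),
      ← Finset.mul_prod_erase _ (fun v => cc (if v = y then deg M v - 1 else deg M v))
        (Finset.mem_univ y)]
    have h1 : ∏ v ∈ Finset.univ.erase y, cc (deg M v + if v = y then 1 else 0)
        = ∏ v ∈ Finset.univ.erase y, cc (if v = y then deg M v - 1 else deg M v) := by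
      refine Finset.prod_congr rfl fun v hv => ?_
      have : v ≠ y := Finset.ne_of_mem_erase hv
      rw [if_neg this, if_neg this, add_zero]
    rw [h1]
    simp only [if_true, hd]
    have h2 : cc (d + 1 + 1) = ((d + 1 : ℕ) : ℝ≥0∞) * cc (d + 1 - 1) := by
      rw [Nat.add_sub_cancel, show d + 1 + 1 = d + 2 from rfl, cc_add_two]
      push_cast
      rfl
    rw [h2]
    ring
  · rw [if_neg h, if_neg h, mul_zero]

theorem pw_mul_apply {W : Type} (l : W → ℝ≥0∞) (M' : W →₀ ℕ) (e : W) :
    (((M' + Finsupp.single e 1 : W →₀ ℕ) e : ℕ) : ℝ≥0∞) * pw l (M' + Finsupp.single e 1)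
      = l e * pw l M' := by
  have := pw_add_single l M' e
  rw [Finsupp.add_apply, Finsupp.single_eq_same]
  push_cast
  rw [mul_comm, this, mul_comm]

theorem ghost_Wt [Fintype V] (N : Net V) (v : V) (M' : Edg V →₀ ℕ) :
    (((M' + Finsupp.single (Sum.inr v) 1 : Edg V →₀ ℕ) (Sum.inr v) : ℕ) : ℝ≥0∞)
      * Wt (we N) (M' + Finsupp.single (Sum.inr v) 1) = (N.η v : ℝ≥0∞) * Aw N v M' := by
  have hd : ∀ x, deg (M' + Finsupp.single (Sum.inr v) 1) x
      = deg M' x + if x = v then 1 else 0 := by
    intro x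
    rw [deg_add, deg_single]
    rfl
  unfold Wt Aw
  simp only [hd]
  by_cases h : ∀ x, Even (deg M' x + if x = v then 1 else 0)
  · rw [if_pos h, if_pos h, ← mul_assoc, pw_mul_apply]
    simp only [we]
    ring
  · rw [if_neg h, if_neg h]
    simp

theorem ghost_Bw [Fintype V] (N : Net V) (y : V) (M' : Edg V →₀ ℕ) :
    (((M' + Finsupp.single (Sum.inr y) 1 : Edg V →₀ ℕ) (Sum.inr y) : ℕ) : ℝ≥0∞)
      * Bw N y (M' + Finsupp.single (Sum.inr y) 1) = (N.η y : ℝ≥0∞) * Wt (we N) M' := by
  have hd : ∀ x, deg (M' + Finsupp.single (Sum.inr y) 1) x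
      = deg M' x + if x = y then 1 else 0 := by
    intro x
    rw [deg_add, deg_single]
    rfl
  have hcond : (∀ x, Even (deg (M' + Finsupp.single (Sum.inr y) 1) x + if x = y then 1 else 0))
      ↔ ∀ x, Even (deg M' x) := by
    refine forall_congr' fun x => ?_
    rw [hd]
    by_cases hx : x = y
    · rw [if_pos hx]
      constructor
      · intro h
        have : deg M' x + 1 + 1 = deg M' x + 2 := rfl
        rw [this, Nat.even_add] at h
        exact h.2 (by decide)
      · intro h
        have : deg M' x + 1 + 1 = deg M' x + 2 := rfl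
        rw [this, Nat.even_add]
        exact ⟨fun _ => by decide, fun _ => h⟩
    · rw [if_neg hx]; rfl
  have hprod : ∀ x, (if x = y then deg (M' + Finsupp.single (Sum.inr y) 1) x - 1
      else deg (M' + Finsupp.single (Sum.inr y) 1) x) = deg M' x := by
    intro x
    rw [hd]
    by_cases hx : x = y <;> simp [hx]
  unfold Bw Wt
  simp only [hcond, hprod]
  by_cases h : ∀ x, Even (deg M' x)
  · rw [if_pos h, if_pos h, ← mul_assoc, pw_mul_apply]
    simp only [we]
    ring
  · rw [if_neg h, if_neg h]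
    simp

theorem edge_Bw [Fintype V] (N : Net V) (y z : V) (M' : Edg V →₀ ℕ) :
    (((M' + Finsupp.single (Sum.inl s(y, z)) 1 : Edg V →₀ ℕ) (Sum.inl s(y, z)) : ℕ) : ℝ≥0∞)
      * Bw N y (M' + Finsupp.single (Sum.inl s(y, z)) 1) = (N.P y z : ℝ≥0∞) * Aw N z M' := by
  have hwe : we N (Sum.inl s(y, z)) = (N.P y z : ℝ≥0∞) := by
    simp [we]
  by_cases hyz : y = z
  · have h0 : we N (Sum.inl s(y, z)) = 0 := by
      rw [hwe, hyz, N.diag z]
      simp
    have h1 : N.P y z = 0 := by rw [hyz]; exact N.diag z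
    rw [h1]
    unfold Bw
    by_cases h : ∀ v, Even (deg (M' + Finsupp.single (Sum.inl s(y, z)) 1) v +
        if v = y then 1 else 0)
    · rw [if_pos h, ← mul_assoc, pw_mul_apply, h0]
      simp
    · rw [if_neg h]
      simp
  · have hd : ∀ x, deg (M' + Finsupp.single (Sum.inl s(y, z)) 1) x
        = deg M' x + ((if x = y then 1 else 0) + if x = z then 1 else 0) := by
      intro x
      rw [deg_add, deg_single]
      congr 1
      simp only [inc, Sym2.mem_iff]
      by_cases hx : x = y
      · subst hx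
        simp [hyz]
      · by_cases hx' : x = z
        · subst hx'
          simp [hx]
        · simp [hx, hx']
    have hcond : (∀ x, Even (deg (M' + Finsupp.single (Sum.inl s(y, z)) 1) x +
        if x = y then 1 else 0)) ↔ ∀ x, Even (deg M' x + if x = z then 1 else 0) := by
      refine forall_congr' fun x => ?_
      rw [hd]
      by_cases hx : x = y
      · subst hx
        simp only [if_true, if_neg hyz]
        have : deg M' x + (1 + 0) + 1 = deg M' x + 0 + 2 := rfl
        rw [this, Nat.even_add (m := deg M' x + 0)]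
        exact ⟨fun h => h.2 (by decide), fun h => ⟨fun _ => by decide, fun _ => h⟩⟩
      · rw [if_neg hx, zero_add, add_zero]
    have hprod : ∀ x, (if x = y then deg (M' + Finsupp.single (Sum.inl s(y, z)) 1) x - 1
        else deg (M' + Finsupp.single (Sum.inl s(y, z)) 1) x)
          = deg M' x + if x = z then 1 else 0 := by
      intro x
      rw [hd]
      by_cases hx : x = y
      · subst hx
        simp [hyz]
      · simp [hx]
    unfold Bw Aw
    simp only [hcond, hprod]
    by_cases h : ∀ x, Even (deg M' x + if x = z then 1 else 0)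
    · rw [if_pos h, if_pos h, ← mul_assoc, pw_mul_apply, hwe]
      ring
    · rw [if_neg h, if_neg h]
      simp

/-- peeling one edge: a function of `M` that is `0` unless `e` occurs in `M` -/
theorem peel {W : Type} (e : W) (M : W →₀ ℕ) (F G : (W →₀ ℕ) → ℝ≥0∞)
    (h : ∀ M', (((M' + Finsupp.single e 1 : W →₀ ℕ) e : ℕ) : ℝ≥0∞) *
      F (M' + Finsupp.single e 1) = G M') :
    (M e : ℝ≥0∞) * F M = if Finsupp.single e 1 ≤ M then G (M - Finsupp.single e 1) else 0 := by
  by_cases hM : Finsupp.single e 1 ≤ M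
  · rw [if_pos hM, ← h, tsub_add_cancel_of_le hM]
  · rw [if_neg hM]
    rw [Finsupp.single_le_iff] at hM
    have : M e = 0 := by omega
    rw [this]
    simp

theorem Aw_rec [Fintype V] (N : Net V) (y : V) (M : Edg V →₀ ℕ) :
    Aw N y M = (if Finsupp.single (Sum.inr y) 1 ≤ M then
        (N.η y : ℝ≥0∞) * Wt (we N) (M - Finsupp.single (Sum.inr y) 1) else 0)
      + ∑ z, if Finsupp.single (Sum.inl s(y, z)) 1 ≤ M then
        (N.P y z : ℝ≥0∞) * Aw N z (M - Finsupp.single (Sum.inl s(y, z)) 1) else 0 := by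
  rw [Aw_eq, deg_eq_sum]
  push_cast
  rw [add_mul, Finset.sum_mul]
  congr 1
  · exact peel _ M _ (fun M' => (N.η y : ℝ≥0∞) * Wt (we N) M') (ghost_Bw N y)
  · refine Finset.sum_congr rfl fun z _ => ?_
    exact peel _ M _ (fun M' => (N.P y z : ℝ≥0∞) * Aw N z M') (edge_Bw N y z)

theorem dg_sub_single {W : Type} (e : W) (M : W →₀ ℕ) (h : Finsupp.single e 1 ≤ M) :
    dg M = dg (M - Finsupp.single e 1) + 1 := by
  conv_lhs => rw [← tsub_add_cancel_of_le h]
  rw [dg_add_single]

theorem Aw_unroll [Fintype V] (N : Net V) : ∀ (k : ℕ) (M : Edg V →₀ ℕ), dg M = k → ∀ y,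
    Aw N y M = ∑' u : List V, if tlc y u ≤ M then
      bw N y u * Wt (we N) (M - tlc y u) else 0 := by
  intro k
  induction k with
  | zero =>
    intro M hM y
    rw [dg_eq_zero] at hM
    subst hM
    have h1 : ∀ e : Edg V, ¬ (Finsupp.single e 1 ≤ (0 : Edg V →₀ ℕ)) := by
      intro e h
      rw [Finsupp.single_le_iff] at h
      simp at h
    rw [Aw_rec]
    simp only [h1, if_false, Finset.sum_const_zero, add_zero]
    symm
    rw [ENNReal.tsum_eq_zero]
    intro u
    rw [if_neg]
    intro h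
    cases u with
    | nil => exact h1 _ h
    | cons z u =>
      have h2 : tlc y (z :: u) = Finsupp.single (Sum.inl s(y, z)) 1 + tlc z u := rfl
      rw [h2] at h
      exact h1 _ (le_trans le_self_add h)
  | succ k ih =>
    intro M hM y
    rw [Aw_rec, tsum_list]
    congr 1
    · have h2 : tlc y [] = Finsupp.single (Sum.inr y) 1 := rfl
      rw [h2]
      have h3 : bw N y [] = (N.η y : ℝ≥0∞) := by simp [bw, pr, en]
      rw [h3]
    · refine Finset.sum_congr rfl fun z _ => ?_
      by_cases h : Finsupp.single (Sum.inl s(y, z)) 1 ≤ M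
      · rw [if_pos h]
        have h4 : dg (M - Finsupp.single (Sum.inl s(y, z)) 1) = k := by
          have := dg_sub_single _ M h
          omega
        rw [ih _ h4 z, ← ENNReal.tsum_mul_left]
        refine tsum_congr fun u => ?_
        have h2 : tlc y (z :: u) = Finsupp.single (Sum.inl s(y, z)) 1 + tlc z u := rfl
        have h3 : bw N y (z :: u) = (N.P y z : ℝ≥0∞) * bw N z u := by
          simp only [bw, pr, en]
          ring
        rw [h2, h3, tsub_add_eq_tsub_tsub]
        by_cases h5 : tlc z u ≤ M - Finsupp.single (Sum.inl s(y, z)) 1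
        · rw [if_pos h5, if_pos ((le_tsub_iff_left h).1 h5)]
          ring
        · rw [if_neg h5, if_neg (fun h6 => h5 ((le_tsub_iff_left h).2 h6)), mul_zero]
      · rw [if_neg h]
        symm
        rw [ENNReal.tsum_eq_zero]
        intro u
        rw [if_neg]
        intro h5
        have h2 : tlc y (z :: u) = Finsupp.single (Sum.inl s(y, z)) 1 + tlc z u := rfl
        rw [h2] at h5
        exact h (le_trans le_self_add h5)

/-- number of ghost traversals -/
noncomputable def gh [Fintype V] (M : Edg V →₀ ℕ) : ℕ := ∑ v, M (Sum.inr v)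

theorem gh_add [Fintype V] (M M' : Edg V →₀ ℕ) : gh (M + M') = gh M + gh M' := by
  unfold gh
  rw [← Finset.sum_add_distrib]
  rfl

theorem gh_single_inr [Fintype V] (v : V) :
    gh (Finsupp.single (Sum.inr v) 1 : Edg V →₀ ℕ) = 1 := by
  unfold gh
  rw [Finset.sum_eq_single v]
  · simp
  · intro u _ hu
    rw [Finsupp.single_eq_of_ne]
    intro h
    exact hu (Sum.inr_injective h)
  · simp

theorem gh_single_inl [Fintype V] (s : Sym2 V) :
    gh (Finsupp.single (Sum.inl s) 1 : Edg V →₀ ℕ) = 0 := by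
  unfold gh
  refine Finset.sum_eq_zero fun v _ => ?_
  rw [Finsupp.single_eq_of_ne]
  simp

theorem gh_tlc [Fintype V] : ∀ (u : List V) (v : V), gh (tlc v u) = 1 := by
  intro u
  induction u with
  | nil => intro v; exact gh_single_inr v
  | cons y u ih =>
    intro v
    have h2 : tlc v (y :: u) = Finsupp.single (Sum.inl s(v, y)) 1 + tlc y u := rfl
    rw [h2, gh_add, gh_single_inl, ih y]

theorem gh_nn [Fintype V] (w : List V) (hw : w ≠ []) : gh (nn w) = 2 := by
  cases w with
  | nil => exact absurd rfl hw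
  | cons v u =>
    have h2 : nn (v :: u) = Finsupp.single (Sum.inr v) 1 + tlc v u := rfl
    rw [h2, gh_add, gh_single_inr, gh_tlc]

theorem Wt_rec [Fintype V] (N : Net V) (M : Edg V →₀ ℕ) :
    (gh M : ℝ≥0∞) * Wt (we N) M
      = 2 * ∑' w, iota N w * if nn w ≤ M then Wt (we N) (M - nn w) else 0 := by
  rw [tsum_iota]
  have h0 : ∀ x : ℝ≥0∞, 2 * (x / 2) = x := fun x =>
    ENNReal.mul_div_cancel (by simp) (by simp)
  rw [h0]
  unfold gh
  push_cast
  rw [Finset.sum_mul]
  refine Finset.sum_congr rfl fun v _ => ?_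
  rw [peel (Sum.inr v) M _ (fun M' => (N.η v : ℝ≥0∞) * Aw N v M') (ghost_Wt N v)]
  by_cases h : Finsupp.single (Sum.inr v) 1 ≤ M
  · rw [if_pos h, Aw_unroll N _ _ rfl v, ← ENNReal.tsum_mul_left]
    refine tsum_congr fun u => ?_
    have h2 : nn (v :: u) = Finsupp.single (Sum.inr v) 1 + tlc v u := rfl
    rw [h2, tsub_add_eq_tsub_tsub]
    by_cases h5 : tlc v u ≤ M - Finsupp.single (Sum.inr v) 1
    · rw [if_pos h5, if_pos ((le_tsub_iff_left h).1 h5)]
      ring
    · rw [if_neg h5, if_neg (fun h6 => h5 ((le_tsub_iff_left h).2 h6)), mul_zero, mul_zero]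
  · rw [if_neg h]
    symm
    rw [ENNReal.tsum_eq_zero]
    intro u
    rw [if_neg, mul_zero]
    intro h5
    have h2 : nn (v :: u) = Finsupp.single (Sum.inr v) 1 + tlc v u := rfl
    rw [h2] at h5
    exact h (le_trans le_self_add h5)

/-- the right-hand side of the path expansion -/
noncomputable def Rh [Fintype V] (N : Net V) (M : Edg V →₀ ℕ) : ℝ≥0∞ :=
  ∑' c : Cloud V, ∑' n : Edg V →₀ ℕ,
    if n + ncl c = M then pw (iota N) c * Wt (we0 N) n else 0

/-- inner sum -/
noncomputable def Fi [Fintype V] (N : Net V) (M : Edg V →₀ ℕ) (c : Cloud V) : ℝ≥0∞ :=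
  ∑' n : Edg V →₀ ℕ, if n + ncl c = M then Wt (we0 N) n else 0

theorem Rh_eq [Fintype V] (N : Net V) (M : Edg V →₀ ℕ) :
    Rh N M = ∑' c : Cloud V, pw (iota N) c * Fi N M c := by
  unfold Rh Fi
  refine tsum_congr fun c => ?_
  rw [← ENNReal.tsum_mul_left]
  refine tsum_congr fun n => ?_
  by_cases h : n + ncl c = M
  · rw [if_pos h, if_pos h]
  · rw [if_neg h, if_neg h, mul_zero]

theorem gh_ncl [Fintype V] (N : Net V) (c : Cloud V) (hc : pw (iota N) c ≠ 0) :
    gh (ncl c) = 2 * dg c := by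
  have h1 : ∀ (s : Finset (List V)) (f : List V → Edg V →₀ ℕ),
      gh (∑ i ∈ s, f i) = ∑ i ∈ s, gh (f i) := by
    intro s f
    induction s using Finset.induction_on with
    | empty => simp [gh]
    | insert a s ha ih => rw [Finset.sum_insert ha, Finset.sum_insert ha, gh_add, ih]
  have h2 : ∀ (k : ℕ) (n : Edg V →₀ ℕ), gh (k • n) = k * gh n := by
    intro k n
    induction k with
    | zero => simp [gh]
    | succ k ih => rw [succ_nsmul, gh_add, ih]; ring
  unfold ncl dg Finsupp.sum
  rw [h1, Finset.mul_sum]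
  refine Finset.sum_congr rfl fun w hw => ?_
  rw [h2, gh_nn w, mul_comm]
  rintro rfl
  exact pw_ne_zero_imp _ c hc [] hw rfl

theorem gh_eq_zero_of_we0 [Fintype V] (N : Net V) (n : Edg V →₀ ℕ) (hn : Wt (we0 N) n ≠ 0) :
    gh n = 0 := by
  unfold gh
  refine Finset.sum_eq_zero fun v _ => ?_
  by_contra h
  have h1 : pw (we0 N) n ≠ 0 := by
    intro h0
    apply hn
    unfold Wt
    rw [h0]
    simp
  exact pw_ne_zero_imp _ n h1 (Sum.inr v) (Finsupp.mem_support_iff.2 h) rfl

theorem Fi_ne_zero [Fintype V] (N : Net V) (M : Edg V →₀ ℕ) (c : Cloud V)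
    (h : Fi N M c ≠ 0) : gh M = gh (ncl c) := by
  unfold Fi at h
  by_contra hne
  apply h
  rw [ENNReal.tsum_eq_zero]
  intro n
  by_cases h1 : n + ncl c = M
  · rw [if_pos h1]
    by_contra h2
    apply hne
    rw [← h1, gh_add, gh_eq_zero_of_we0 N n h2, zero_add]
  · rw [if_neg h1]

theorem Fi_add_single [Fintype V] (N : Net V) (M : Edg V →₀ ℕ) (c : Cloud V) (w : List V) :
    Fi N M (c + Finsupp.single w 1) = if nn w ≤ M then Fi N (M - nn w) c else 0 := by
  unfold Fi
  rw [ncl_add, ncl_single]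
  by_cases h : nn w ≤ M
  · rw [if_pos h]
    refine tsum_congr fun n => ?_
    have : n + (ncl c + nn w) = M ↔ n + ncl c = M - nn w := by
      rw [← add_assoc]
      exact ⟨fun h1 => by rw [← h1, add_tsub_cancel_right],
        fun h1 => by rw [h1, tsub_add_cancel_of_le h]⟩
    simp only [this]
  · rw [if_neg h, ENNReal.tsum_eq_zero]
    intro n
    rw [if_neg]
    intro h1
    apply h
    rw [← h1, ← add_assoc]
    exact le_add_self

theorem Rh_rec [Fintype V] (N : Net V) (M : Edg V →₀ ℕ) :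
    (gh M : ℝ≥0∞) * Rh N M
      = 2 * ∑' w, iota N w * if nn w ≤ M then Rh N (M - nn w) else 0 := by
  rw [Rh_eq, ← ENNReal.tsum_mul_left]
  have h1 : ∀ c : Cloud V, (gh M : ℝ≥0∞) * (pw (iota N) c * Fi N M c)
      = ∑' w, 2 * (pw (iota N) c * (c w : ℝ≥0∞) * Fi N M c) := by
    intro c
    rw [ENNReal.tsum_mul_left, ENNReal.tsum_mul_right, ENNReal.tsum_mul_left, tsum_eq_dg]
    by_cases hc : pw (iota N) c = 0
    · rw [hc]; simp
    by_cases hF : Fi N M c = 0
    · rw [hF]; simp
    rw [Fi_ne_zero N M c hF, gh_ncl N c hc]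
    push_cast
    ring
  simp only [h1]
  rw [ENNReal.tsum_comm, ← ENNReal.tsum_mul_left]
  refine tsum_congr fun w => ?_
  rw [ENNReal.tsum_mul_left, mecke (iota N) w (Fi N M)]
  congr 2
  simp only [Fi_add_single]
  by_cases h : nn w ≤ M
  · simp only [if_pos h]
    rw [Rh_eq]
  · simp only [if_neg h, mul_zero]
    simp

theorem Wt_eq_of_gh_zero [Fintype V] (N : Net V) (M : Edg V →₀ ℕ) (h : gh M = 0) :
    Wt (we N) M = Wt (we0 N) M := by
  have h1 : pw (we N) M = pw (we0 N) M := by
    unfold pw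
    refine Finsupp.prod_congr fun e he => ?_
    rcases e with s | v
    · rfl
    · exfalso
      have h2 : M (Sum.inr v) = 0 := by
        have := (Finset.sum_eq_zero_iff.1 h) v (Finset.mem_univ v)
        exact this
      exact (Finsupp.mem_support_iff.1 he) h2
  unfold Wt
  rw [h1]

theorem Rh_of_gh_zero [Fintype V] (N : Net V) (M : Edg V →₀ ℕ) (h : gh M = 0) :
    Rh N M = Wt (we0 N) M := by
  rw [Rh_eq, tsum_eq_single 0]
  · rw [pw_zero, one_mul]
    unfold Fi
    rw [ncl_zero, tsum_eq_single M]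
    · rw [add_zero, if_pos rfl]
    · intro n hn
      rw [add_zero, if_neg hn]
  · intro c hc
    by_contra hne
    have h1 : pw (iota N) c ≠ 0 := fun h0 => hne (by rw [h0, zero_mul])
    have h2 : Fi N M c ≠ 0 := fun h0 => hne (by rw [h0, mul_zero])
    have h3 := Fi_ne_zero N M c h2
    rw [h, gh_ncl N c h1] at h3
    exact hc ((dg_eq_zero c).1 (by omega))

theorem Wt_eq_Rh [Fintype V] (N : Net V) : ∀ (k : ℕ) (M : Edg V →₀ ℕ), gh M = k →
    Wt (we N) M = Rh N M := by
  intro k
  induction k using Nat.strong_induction_on with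
  | _ k ih =>
    intro M hM
    rcases Nat.eq_zero_or_pos k with h0 | h0
    · rw [h0] at hM
      rw [Wt_eq_of_gh_zero N M hM, Rh_of_gh_zero N M hM]
    · have h1 : (gh M : ℝ≥0∞) * Wt (we N) M = (gh M : ℝ≥0∞) * Rh N M := by
        rw [Wt_rec, Rh_rec]
        congr 1
        refine tsum_congr fun w => ?_
        by_cases hw : w = []
        · subst hw
          simp [iota]
        by_cases h : nn w ≤ M
        · rw [if_pos h, if_pos h]
          congr 1
          have h2 : gh M = gh (M - nn w) + 2 := by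
            conv_lhs => rw [← tsub_add_cancel_of_le h]
            rw [gh_add, gh_nn w hw]
          exact ih (gh (M - nn w)) (by omega) _ rfl
        · rw [if_neg h, if_neg h]
      have h2 : (gh M : ℝ≥0∞) ≠ 0 := by
        rw [hM]
        exact_mod_cast h0.ne'
      exact (ENNReal.mul_right_inj h2 (ENNReal.natCast_ne_top _)).1 h1

/-- the path expansion -/
theorem ident [Fintype V] (N : Net V) (M : Edg V →₀ ℕ) :
    Wt (we N) M = ∑' c : Cloud V, ∑' n : Edg V →₀ ℕ,
      if n + ncl c = M then pw (iota N) c * Wt (we0 N) n else 0 :=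
  Wt_eq_Rh N _ M rfl

end Pool.Agent.Lib.MP_e4a9a7_pr.D3
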