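import Mathlib
import Pool.Agent.Lib.MP_e4a9a7_pr.D3.Ident
import Pool.Agent.Lib.MP_e4a9a7_pr.D3.EvenSum
import Pool.Agent.Lib.MP_e4a9a7_pr.D3.GaussInt
import Pool.Agent.Lib.MP_e4a9a7_pr.D3.Gff

/-!
# Task C4: Lemma C, the coupling of the Poisson cloud with the free field
-/

namespace Pool.Agent.Lib.MP_e4a9a7_pr.D3

open scoped ENNReal NNReal BigOperators
open MeasureTheory
open Classical

variable {V : Type} [Fintype V]

/-! ### Auxiliary: sums over pairs (cloud, current) -/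

/-- resummation of `ident` against a function of the total current -/
theorem lc_ident_sum (N : Net V) (F : (Edg V →₀ ℕ) → ℝ≥0∞) :
    ∑' M, Wt (we N) M * F M
      = ∑' c : Cloud V, ∑' n : Edg V →₀ ℕ,
          pw (iota N) c * Wt (we0 N) n * F (n + ncl c) := by
  have h1 : ∀ M : Edg V →₀ ℕ, Wt (we N) M * F M = ∑' c : Cloud V, ∑' n : Edg V →₀ ℕ,
      (if n + ncl c = M then pw (iota N) c * Wt (we0 N) n * F (n + ncl c) else 0) := by
    intro M
    rw [ident N M, ← ENNReal.tsum_mul_right]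
    refine tsum_congr fun c => ?_
    rw [← ENNReal.tsum_mul_right]
    refine tsum_congr fun n => ?_
    split_ifs with h
    · rw [h]
    · simp
  simp_rw [h1]
  rw [ENNReal.tsum_comm]
  refine tsum_congr fun c => ?_
  rw [ENNReal.tsum_comm]
  refine tsum_congr fun n => ?_
  rw [tsum_eq_single (n + ncl c)]
  · simp
  · intro M hM
    rw [if_neg]
    exact fun h => hM h.symm

/-- total weight of the currents without ghost edges -/
noncomputable def lcZ (N : Net V) : ℝ≥0∞ := ∑' n, Wt (we0 N) n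

/-- total weight of the clouds -/
noncomputable def lcP (N : Net V) : ℝ≥0∞ := ∑' c, pw (iota N) c

/-- the shifted Gaussian density before normalisation -/
noncomputable def lcG (N : Net V) (Φ : V → ℝ) : ℝ≥0∞ :=
  ENNReal.ofReal (Real.exp (- Qf N.P Φ + ∑ v, (N.η v : ℝ) * Φ v)) / 2 ^ Fintype.card V

/-- the normalising constant -/
noncomputable def lcK (N : Net V) : ℝ≥0∞ :=
  ENNReal.ofReal (Real.exp ((∑ v, (N.η v : ℝ) * (N.H v : ℝ)) / 2)) * Zg N.P
    / 2 ^ Fintype.card V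

theorem lcG_eq (N : Net V) (Φ : V → ℝ) :
    lcG N Φ = lcK N * gam N.P (fun v => Φ v - (N.H v : ℝ)) := by
  have hq := Qf_sub_H N Φ
  have h0 := Zg_ne_zero N.P
  have h1 := Zg_ne_top N
  unfold lcG lcK gam
  have h2 : - Qf N.P Φ + ∑ v, (N.η v : ℝ) * Φ v
      = (∑ v, (N.η v : ℝ) * (N.H v : ℝ)) / 2 + (- Qf N.P (fun v => Φ v - (N.H v : ℝ))) := by
    rw [hq]; ring
  rw [h2, Real.exp_add, ENNReal.ofReal_mul (Real.exp_nonneg _)]
  rw [div_eq_mul_inv, div_eq_mul_inv, div_eq_mul_inv]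
  set a := ENNReal.ofReal (Real.exp ((∑ v, (N.η v : ℝ) * (N.H v : ℝ)) / 2))
  set b := ENNReal.ofReal (Real.exp (- Qf N.P (fun v => Φ v - (N.H v : ℝ))))
  calc a * b * (2 ^ Fintype.card V)⁻¹
      = a * b * (2 ^ Fintype.card V)⁻¹ * (Zg N.P * (Zg N.P)⁻¹) := by
        rw [ENNReal.mul_inv_cancel h0 h1, mul_one]
    _ = a * Zg N.P * (2 ^ Fintype.card V)⁻¹ * (b * (Zg N.P)⁻¹) := by ring

theorem lcK_ne_zero (N : Net V) : lcK N ≠ 0 := by
  unfold lcK
  refine (ENNReal.div_pos ?_ (by simp)).ne'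
  refine mul_ne_zero ?_ (Zg_ne_zero N.P)
  exact (ENNReal.ofReal_pos.mpr (Real.exp_pos _)).ne'

theorem lcK_ne_top (N : Net V) : lcK N ≠ ∞ := by
  unfold lcK
  refine ENNReal.div_ne_top (ENNReal.mul_ne_top ENNReal.ofReal_ne_top (Zg_ne_top N)) ?_
  simp

theorem lc_lintegral_G (N : Net V) : ∫⁻ Φ, lcG N Φ = lcK N := by
  simp_rw [lcG_eq]
  rw [lintegral_const_mul]
  · have h := lintegral_sub_right_eq_self (μ := (volume : Measure (V → ℝ)))
      (fun φ : V → ℝ => gam N.P φ) (fun v => (N.H v : ℝ))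
    have h' : ∫⁻ Φ : V → ℝ, gam N.P (fun v => Φ v - (N.H v : ℝ)) = ∫⁻ φ : V → ℝ, gam N.P φ := h
    rw [h', lintegral_gam, mul_one]
  · exact (measurable_gam N.P).comp (by fun_prop)

theorem lc_Wt_even (w : Edg V → ℝ≥0∞) (n : Edg V →₀ ℕ) (h : Wt w n ≠ 0) :
    ∀ v, Even (deg n v) := by
  by_contra hc
  exact h (by unfold Wt; rw [if_neg hc])

/-- total weight of all currents -/
theorem lc_total (N : Net V) : ∑' M, Wt (we N) M = lcK N := by
  rw [← lc_lintegral_G]
  have h1 : ∀ Φ : V → ℝ, lcG N Φ = ∑' M, Wt (we N) M * Dd N M Φ := by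
    intro Φ
    rw [resum_one]
    rfl
  simp_rw [h1]
  rw [lintegral_tsum]
  · refine tsum_congr fun M => ?_
    rw [lintegral_const_mul _ (measurable_Dd N M)]
    by_cases h : Wt (we N) M = 0
    · simp [h]
    · rw [lintegral_Dd N M (lc_Wt_even _ _ h), mul_one]
  · intro M
    exact ((measurable_Dd N M).const_mul _).aemeasurable

theorem lc_PZ (N : Net V) : lcP N * lcZ N = lcK N := by
  rw [← lc_total]
  have h := lc_ident_sum N (fun _ => 1)
  simp only [mul_one] at h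
  rw [h]
  unfold lcP lcZ
  rw [← ENNReal.tsum_mul_right]
  refine tsum_congr fun c => ?_
  rw [ENNReal.tsum_mul_left]

theorem lcP_ne_zero (N : Net V) : lcP N ≠ 0 := by
  intro h
  have := lc_PZ N
  rw [h, zero_mul] at this
  exact lcK_ne_zero N this.symm

theorem lcZ_ne_zero (N : Net V) : lcZ N ≠ 0 := by
  intro h
  have := lc_PZ N
  rw [h, mul_zero] at this
  exact lcK_ne_zero N this.symm

theorem lcP_ne_top (N : Net V) : lcP N ≠ ∞ := by
  intro h
  have := lc_PZ N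
  rw [h, ENNReal.top_mul (lcZ_ne_zero N)] at this
  exact lcK_ne_top N this.symm

theorem lcZ_ne_top (N : Net V) : lcZ N ≠ ∞ := by
  intro h
  have := lc_PZ N
  rw [h, ENNReal.mul_top (lcP_ne_zero N)] at this
  exact lcK_ne_top N this.symm

/-- the kernel -/
noncomputable def lcKer (N : Net V) (c : Cloud V) (Φ : V → ℝ) : ℝ≥0∞ :=
  (lcZ N)⁻¹ * ∑' n, Wt (we0 N) n * Dd N (n + ncl c) Φ

theorem lcKer_measurable (N : Net V) (c : Cloud V) : Measurable (lcKer N c) := by
  unfold lcKer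
  refine Measurable.const_mul ?_ _
  exact Measurable.ennreal_tsum fun n => (measurable_Dd N _).const_mul _

/-- the product of the law of the cloud and the kernel -/
theorem lc_ppp_mul (N : Net V) (c : Cloud V) (Φ : V → ℝ) :
    ppp N c * lcKer N c Φ
      = (lcK N)⁻¹ * ∑' n, pw (iota N) c * Wt (we0 N) n * Dd N (n + ncl c) Φ := by
  unfold ppp npw lcKer
  have h : (lcK N)⁻¹ = (lcP N)⁻¹ * (lcZ N)⁻¹ := by
    rw [← lc_PZ, ENNReal.mul_inv (Or.inl (lcP_ne_zero N)) (Or.inl (lcP_ne_top N))]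
  rw [h]
  have h2 : (∑' n, pw (iota N) c * Wt (we0 N) n * Dd N (n + ncl c) Φ)
      = pw (iota N) c * ∑' n, Wt (we0 N) n * Dd N (n + ncl c) Φ := by
    rw [← ENNReal.tsum_mul_left]
    refine tsum_congr fun n => by ring
  rw [h2]
  change pw (iota N) c / lcP N * _ = _
  rw [div_eq_mul_inv]
  ring

theorem lc_even (N : Net V) (c : Cloud V) (hc : ppp N c ≠ 0) (n : Edg V →₀ ℕ)
    (hn : Wt (we0 N) n ≠ 0) : ∀ v, Even (deg (n + ncl c) v) := by
  intro v
  rw [deg_add]
  exact (lc_Wt_even _ _ hn v).add (deg_ncl_even N c hc v)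

theorem lc_two_le (N : Net V) (c : Cloud V) (hc : ppp N c ≠ 0) (n : Edg V →₀ ℕ) (v : V)
    (hv : v ∈ Tr c) : 2 ≤ deg (n + ncl c) v := by
  rw [deg_add]
  exact le_add_left (deg_ncl_ge N c hc v hv)

theorem lc_lintegral_one (N : Net V) (c : Cloud V) (hc : ppp N c ≠ 0) :
    ∫⁻ Φ, lcKer N c Φ = 1 := by
  unfold lcKer
  rw [lintegral_const_mul _ (Measurable.ennreal_tsum fun n => (measurable_Dd N _).const_mul _)]
  rw [lintegral_tsum fun n => ((measurable_Dd N _).const_mul _).aemeasurable]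
  have h : ∀ n : Edg V →₀ ℕ, ∫⁻ Φ, Wt (we0 N) n * Dd N (n + ncl c) Φ = Wt (we0 N) n := by
    intro n
    rw [lintegral_const_mul _ (measurable_Dd N _)]
    by_cases hn : Wt (we0 N) n = 0
    · simp [hn]
    · rw [lintegral_Dd N _ (lc_even N c hc n hn), mul_one]
  simp_rw [h]
  exact ENNReal.inv_mul_cancel (lcZ_ne_zero N) (lcZ_ne_top N)

/-- **Lemma C**.  `κ c` is the conditional density of the field `Φ = φ + H` given the cloud. -/
theorem lemmaC (N : Net V) : ∃ κ : Cloud V → (V → ℝ) → ℝ≥0∞,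
    (∀ c, Measurable (κ c)) ∧
    (∀ c, ppp N c ≠ 0 → ∫⁻ Φ, κ c Φ = 1) ∧
    (∀ Φ, ∑' c, ppp N c * κ c Φ ≤ gam N.P (fun v => Φ v - (N.H v : ℝ))) ∧
    (∀ c Φ v, ppp N c ≠ 0 → v ∈ Tr c → κ c Φ ≠ 0 → 0 < Φ v) ∧
    (∀ v Φ, ∑' c, (if v ∈ Tr c then ppp N c * κ c Φ else 0)
      ≤ 2 * Sv N Φ v ^ 2 * gam N.P (fun v => Φ v - (N.H v : ℝ))) ∧
    (∀ c v (s : ℝ), ppp N c ≠ 0 → v ∈ Tr c → 0 < s →
      ∫⁻ Φ in {Φ | Φ v < s}, κ c Φ ≤ ENNReal.ofReal (s ^ 3)) := by
  have hK0 := lcK_ne_zero N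
  have hK1 := lcK_ne_top N
  refine ⟨lcKer N, lcKer_measurable N, lc_lintegral_one N, ?_, ?_, ?_, ?_⟩
  · intro Φ
    apply le_of_eq
    simp_rw [lc_ppp_mul]
    rw [ENNReal.tsum_mul_left, ← lc_ident_sum N (fun M => Dd N M Φ), resum_one]
    change (lcK N)⁻¹ * lcG N Φ = _
    rw [lcG_eq, ← mul_assoc, ENNReal.inv_mul_cancel hK0 hK1, one_mul]
  · intro c Φ v _ hv hk
    unfold lcKer at hk
    have h1 : ∑' n, Wt (we0 N) n * Dd N (n + ncl c) Φ ≠ 0 := right_ne_zero_of_mul hk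
    rw [Ne, ENNReal.tsum_eq_zero, not_forall] at h1
    obtain ⟨n, hn⟩ := h1
    exact Dd_pos_of_ncl N n c Φ (right_ne_zero_of_mul hn) v hv
  · intro v Φ
    have h1 : ∀ c : Cloud V, (if v ∈ Tr c then ppp N c * lcKer N c Φ else 0)
        ≤ (lcK N)⁻¹ * ∑' n, pw (iota N) c * Wt (we0 N) n *
            (if 2 ≤ deg (n + ncl c) v then Dd N (n + ncl c) Φ else 0) := by
      intro c
      split_ifs with hv
      · by_cases hc : ppp N c = 0
        · rw [hc, zero_mul]; exact zero_le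
        · rw [lc_ppp_mul]
          refine le_of_eq ?_
          congr 1
          refine tsum_congr fun n => ?_
          rw [if_pos (lc_two_le N c hc n v hv)]
      · exact zero_le
    refine (ENNReal.tsum_le_tsum h1).trans ?_
    rw [ENNReal.tsum_mul_left,
      ← lc_ident_sum N (fun M => if 2 ≤ deg M v then Dd N M Φ else 0)]
    have h2 : ∑' M, Wt (we N) M * (if 2 ≤ deg M v then Dd N M Φ else 0)
        ≤ 2 * Sv N Φ v ^ 2 * lcG N Φ := by
      refine le_trans (le_of_eq ?_) (resum_deg N Φ v)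
      refine tsum_congr fun M => ?_
      split_ifs <;> simp
    calc (lcK N)⁻¹ * ∑' M, Wt (we N) M * (if 2 ≤ deg M v then Dd N M Φ else 0)
        ≤ (lcK N)⁻¹ * (2 * Sv N Φ v ^ 2 * lcG N Φ) := by gcongr
      _ = 2 * Sv N Φ v ^ 2 * gam N.P (fun v => Φ v - (N.H v : ℝ)) := by
          rw [lcG_eq]
          calc (lcK N)⁻¹ * (2 * Sv N Φ v ^ 2 * (lcK N * gam N.P (fun v => Φ v - (N.H v : ℝ))))
              = ((lcK N)⁻¹ * lcK N) *
                  (2 * Sv N Φ v ^ 2 * gam N.P (fun v => Φ v - (N.H v : ℝ))) := by ring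
            _ = _ := by rw [ENNReal.inv_mul_cancel hK0 hK1, one_mul]
  · intro c v s hc hv hs
    unfold lcKer
    rw [lintegral_const_mul _ (Measurable.ennreal_tsum fun n => (measurable_Dd N _).const_mul _)]
    rw [lintegral_tsum fun n => ((measurable_Dd N _).const_mul _).aemeasurable]
    have h : ∀ n : Edg V →₀ ℕ, ∫⁻ Φ in {Φ : V → ℝ | Φ v < s}, Wt (we0 N) n * Dd N (n + ncl c) Φ
        ≤ Wt (we0 N) n * ENNReal.ofReal (s ^ 3) := by
      intro n
      rw [lintegral_const_mul _ (measurable_Dd N _)]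
      by_cases hn : Wt (we0 N) n = 0
      · simp [hn]
      · gcongr
        refine le_trans ?_ (lintegral_Dd_small N (n + ncl c) (lc_even N c hc n hn) v
          (lc_two_le N c hc n v hv) s hs)
        have hm1 : MeasurableSet {Φ : V → ℝ | Φ v < s} :=
          measurableSet_lt (measurable_pi_apply v) measurable_const
        have hm2 : MeasurableSet {Φ : V → ℝ | |Φ v| < s} :=
          measurableSet_lt (measurable_pi_apply v).abs measurable_const
        rw [← lintegral_indicator hm1, ← lintegral_indicator hm2]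
        refine lintegral_mono fun Φ => ?_
        by_cases hd : Dd N (n + ncl c) Φ = 0
        · simp only [Set.indicator]
          split_ifs <;> simp [hd]
        · have hp := Dd_pos_of_ncl N n c Φ hd v hv
          simp only [Set.indicator, Set.mem_ofPred_eq, abs_of_pos hp]
          exact le_rfl
    calc (lcZ N)⁻¹ * ∑' n, ∫⁻ Φ in {Φ : V → ℝ | Φ v < s}, Wt (we0 N) n * Dd N (n + ncl c) Φ
        ≤ (lcZ N)⁻¹ * ∑' n, Wt (we0 N) n * ENNReal.ofReal (s ^ 3) := by
          gcongr with n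
          exact h n
      _ = ((lcZ N)⁻¹ * lcZ N) * ENNReal.ofReal (s ^ 3) := by
          rw [ENNReal.tsum_mul_right, mul_assoc]; rfl
      _ = ENNReal.ofReal (s ^ 3) := by
          rw [ENNReal.inv_mul_cancel (lcZ_ne_zero N) (lcZ_ne_top N), one_mul]

end Pool.Agent.Lib.MP_e4a9a7_pr.D3
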