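import Mathlib
import Pool.Agent.Lib.MP_e4a9a7_pr.D3.LemmaC

/-!
# Task E: combination of the two worlds
-/

namespace Pool.Agent.Lib.MP_e4a9a7_pr.D3

open scoped ENNReal NNReal BigOperators
open MeasureTheory
open Classical

variable {V : Type} [Fintype V]

namespace Comb

/-- One world: the sub-coupling of the labels with the field. -/
theorem world {A : Type} [Countable A] (N : Net V) (t : A → Cloud V → ℝ≥0∞)
    (ht : ∀ c, ∑' a, t a c ≤ ppp N c) (U : A → Set V) (u : ∀ a c, t a c ≠ 0 → U a ⊆ Tr c) :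
    ∃ m : A → (V → ℝ) → ℝ≥0∞,
      (∀ a, Measurable (m a)) ∧
      (∀ Φ, ∑' a, m a Φ ≤ gam N.P (fun v => Φ v - (N.H v : ℝ))) ∧
      (∀ a, ∫⁻ Φ, m a Φ = ∑' c, t a c) ∧
      (∀ v Φ, ∑' a, (if v ∈ U a then m a Φ else 0)
        ≤ 2 * Sv N Φ v ^ 2 * gam N.P (fun v => Φ v - (N.H v : ℝ))) ∧
      (∀ a Φ v, v ∈ U a → m a Φ ≠ 0 → 0 < Φ v) ∧
      (∀ a v (s : ℝ), 0 < s → v ∈ U a →
        ∫⁻ Φ in {Φ | Φ v < s}, m a Φ ≤ ENNReal.ofReal (s ^ 3) * ∑' c, t a c) := by
  obtain ⟨κ, hm, h1, h2, h3, h4, h5⟩ := lemmaC N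
  have hle : ∀ a c, t a c ≤ ppp N c := fun a c => (ENNReal.le_tsum a).trans (ht c)
  have hp : ∀ a c, t a c ≠ 0 → ppp N c ≠ 0 := fun a c h h0 => h (le_antisymm (h0 ▸ hle a c) bot_le)
  have hcount : Countable (Cloud V) := inferInstanceAs (Countable (List V →₀ ℕ))
  refine ⟨fun a Φ => ∑' c, t a c * κ c Φ, ?_, ?_, ?_, ?_, ?_, ?_⟩
  · intro a
    exact Measurable.tsum fun c => (hm c).const_mul _
  · intro Φ
    calc ∑' a, ∑' c, t a c * κ c Φ = ∑' c, (∑' a, t a c) * κ c Φ := by
          rw [ENNReal.tsum_comm]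
          exact tsum_congr fun c => ENNReal.tsum_mul_right
      _ ≤ ∑' c, ppp N c * κ c Φ := ENNReal.tsum_le_tsum fun c => by
          gcongr; exact ht c
      _ ≤ _ := h2 Φ
  · intro a
    rw [lintegral_tsum fun c => ((hm c).const_mul _).aemeasurable]
    refine tsum_congr fun c => ?_
    rw [lintegral_const_mul _ (hm c)]
    by_cases h : t a c = 0
    · simp [h]
    · rw [h1 c (hp a c h), mul_one]
  · intro v Φ
    calc ∑' a, (if v ∈ U a then ∑' c, t a c * κ c Φ else 0)
        = ∑' c, ∑' a, (if v ∈ U a then t a c * κ c Φ else 0) := by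
          rw [ENNReal.tsum_comm]
          refine tsum_congr fun a => ?_
          by_cases h : v ∈ U a <;> simp [h]
      _ ≤ ∑' c, (if v ∈ Tr c then ppp N c * κ c Φ else 0) := by
          refine ENNReal.tsum_le_tsum fun c => ?_
          by_cases hc : v ∈ Tr c
          · simp only [hc, if_true]
            calc ∑' a, (if v ∈ U a then t a c * κ c Φ else 0) ≤ ∑' a, t a c * κ c Φ :=
                  ENNReal.tsum_le_tsum fun a => by split_ifs <;> simp
              _ = (∑' a, t a c) * κ c Φ := ENNReal.tsum_mul_right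
              _ ≤ _ := by gcongr; exact ht c
          · simp only [hc, if_false]
            refine le_of_eq ?_
            rw [ENNReal.tsum_eq_zero]
            intro a
            by_cases hv : v ∈ U a
            · have : t a c = 0 := by
                by_contra h
                exact hc (u a c h hv)
              simp [this]
            · simp [hv]
      _ ≤ _ := h4 v Φ
  · intro a Φ v hv hne
    have : ∃ c, t a c * κ c Φ ≠ 0 := by
      by_contra hcon
      push Not at hcon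
      exact hne (by rw [ENNReal.tsum_eq_zero]; exact hcon)
    obtain ⟨c, hc⟩ := this
    have hc1 : t a c ≠ 0 := fun h => hc (by simp [h])
    have hc2 : κ c Φ ≠ 0 := fun h => hc (by simp [h])
    exact h3 c Φ v (hp a c hc1) (u a c hc1 hv) hc2
  · intro a v s hs hv
    rw [lintegral_tsum fun c => ((hm c).const_mul _).aemeasurable, ← ENNReal.tsum_mul_left]
    refine ENNReal.tsum_le_tsum fun c => ?_
    rw [lintegral_const_mul _ (hm c)]
    by_cases h : t a c = 0
    · simp [h]
    · rw [mul_comm]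
      gcongr
      exact h5 c v s (hp a c h) (u a c h hv) hs

theorem mass_aux {g x y : ℝ≥0∞} (hg0 : g ≠ 0) (hgt : g ≠ ∞) (hx : x ≤ g) (hy : y ≤ g) :
    x + y ≤ g + x * (y / g) := by
  lift g to ℝ≥0 using hgt
  lift x to ℝ≥0 using (lt_of_le_of_lt hx ENNReal.coe_lt_top).ne
  lift y to ℝ≥0 using (lt_of_le_of_lt hy ENNReal.coe_lt_top).ne
  have hg0' : g ≠ 0 := by exact_mod_cast hg0
  rw [← ENNReal.coe_div hg0']
  norm_cast
  have hx' : x ≤ g := by exact_mod_cast hx
  have hy' : y ≤ g := by exact_mod_cast hy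
  rw [← NNReal.coe_le_coe]
  push_cast
  have hgp : (0:ℝ) < g := lt_of_le_of_ne g.coe_nonneg (fun h => hg0' (by exact_mod_cast h.symm))
  have h1 : (x:ℝ) ≤ g := by exact_mod_cast hx'
  have h2 : (y:ℝ) ≤ g := by exact_mod_cast hy'
  rw [mul_div_assoc', ← sub_nonneg]
  have : (g:ℝ) + x * y / g - (x + y) = (g - x) * (g - y) / g := by
    field_simp
    ring
  rw [this]
  exact div_nonneg (mul_nonneg (sub_nonneg.2 h1) (sub_nonneg.2 h2)) hgp.le

theorem gam_ne_zero (N : Net V) (φ : V → ℝ) : gam N.P φ ≠ 0 := by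
  unfold gam
  rw [Ne, ENNReal.div_eq_zero_iff]
  push Not
  exact ⟨by simp [Real.exp_pos], Zg_ne_top N⟩

theorem gam_ne_top (P : V → V → ℝ≥0) (φ : V → ℝ) : gam P φ ≠ ∞ := by
  unfold gam
  exact ENNReal.div_ne_top ENNReal.ofReal_ne_top (Zg_ne_zero P)

theorem Sv_le (N : Net V) (Φ : V → ℝ) (v : V) (s : ℝ≥0∞) (b : V → ℝ≥0∞)
    (hs : ENNReal.ofReal |Φ v| ≤ s) (hb : ∀ y, ENNReal.ofReal |Φ y| ≤ b y) :
    Sv N Φ v ≤ s * ((∑ y, (N.P v y : ℝ≥0∞) * b y) + N.η v) := by
  unfold Sv
  rw [ENNReal.ofReal_mul (abs_nonneg _), ENNReal.ofReal_add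
    (Finset.sum_nonneg fun y _ => by positivity) (by positivity),
    ENNReal.ofReal_sum_of_nonneg fun y _ => by positivity, ENNReal.ofReal_coe_nnreal]
  gcongr with y
  rw [ENNReal.ofReal_mul (by positivity), ENNReal.ofReal_coe_nnreal]
  gcongr
  exact hb y

end Comb

open Comb in
/-- Combination: `X` is hidden in `{φ > - H_X}`, `Y` in `{φ < H_Y}`, and the two are independent
given `φ`. -/
theorem combine {A A' : Type} [Countable A] [Countable A'] (NX NY : Net V) (hP : NX.P = NY.P)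
    (tX : A → Cloud V → ℝ≥0∞) (tY : A' → Cloud V → ℝ≥0∞)
    (hX : ∀ c, ∑' a, tX a c ≤ ppp NX c) (hY : ∀ c, ∑' a, tY a c ≤ ppp NY c)
    (UX : A → Set V) (UY : A' → Set V)
    (uX : ∀ a c, tX a c ≠ 0 → UX a ⊆ Tr c) (uY : ∀ a c, tY a c ≠ 0 → UY a ⊆ Tr c)
    (T : V → ℝ≥0) :
    ∃ F : A → A' → ℝ≥0∞,
      (∀ a, ∑' a', F a a' ≤ ∑' c, tX a c) ∧
      (∀ a', ∑' a, F a a' ≤ ∑' c, tY a' c) ∧
      ((∑' a, ∑' c, tX a c) + (∑' a', ∑' c, tY a' c)
        ≤ 1 + (∑' a, ∑' a', F a a') + ∫⁻ φ in {φ : V → ℝ | ∃ v, (T v : ℝ) < |φ v|}, gam NX.P φ) ∧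
      (∑' a, ∑' a', (if (UX a ∩ UY a').Nonempty then F a a' else 0)
        ≤ ∑ v, 2 * (((NX.H v : ℝ≥0∞) + NY.H v) *
            ((∑ y, (NX.P v y : ℝ≥0∞) * ((T y : ℝ≥0∞) + NY.H y)) + NY.η v)) ^ 2
            * ((NX.H v : ℝ≥0∞) + NY.H v) ^ 3 * ∑' a, if v ∈ UX a then ∑' c, tX a c else 0) := by
  obtain ⟨mX0, hXm, hX1, hX2, hX3, hX4, hX5⟩ := world NX tX hX UX uX
  obtain ⟨mY0, hYm, hY1, hY2, hY3, hY4, hY5⟩ := world NY tY hY UY uY
  -- shifted densities
  set mX : A → (V → ℝ) → ℝ≥0∞ := fun a φ => mX0 a (fun v => φ v + (NX.H v : ℝ)) with hmX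
  set mY : A' → (V → ℝ) → ℝ≥0∞ := fun a φ => mY0 a (fun v => (NY.H v : ℝ) - φ v) with hmY
  set g : (V → ℝ) → ℝ≥0∞ := fun φ => gam NX.P φ with hg
  have hg0 : ∀ φ, g φ ≠ 0 := fun φ => gam_ne_zero NX φ
  have hgt : ∀ φ, g φ ≠ ∞ := fun φ => gam_ne_top NX.P φ
  have hgm : Measurable g := measurable_gam NX.P
  have hshX : Measurable fun φ : V → ℝ => fun v => φ v + (NX.H v : ℝ) :=
    measurable_pi_lambda _ fun v => (measurable_pi_apply v).add_const _
  have hshY : Measurable fun φ : V → ℝ => fun v => (NY.H v : ℝ) - φ v :=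
    measurable_pi_lambda _ fun v => (measurable_pi_apply v).const_sub _
  have hmXm : ∀ a, Measurable (mX a) := fun a => (hXm a).comp hshX
  have hmYm : ∀ a, Measurable (mY a) := fun a => (hYm a).comp hshY
  have hmX1 : ∀ φ, ∑' a, mX a φ ≤ g φ := by
    intro φ
    have := hX1 (fun v => φ v + (NX.H v : ℝ))
    simpa [hmX, hg] using this
  have hgneg : ∀ φ : V → ℝ, gam NY.P (fun v => (NY.H v : ℝ) - φ v - (NY.H v : ℝ)) = g φ := by
    intro φ
    have : (fun v => (NY.H v : ℝ) - φ v - (NY.H v : ℝ)) = fun v => - φ v := by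
      funext v; ring
    rw [this, gam_neg, ← hP]
  have hmY1 : ∀ φ, ∑' a, mY a φ ≤ g φ := by
    intro φ
    have := hY1 (fun v => (NY.H v : ℝ) - φ v)
    rw [hgneg] at this
    exact this
  have hintX : ∀ f : (V → ℝ) → ℝ≥0∞, ∫⁻ φ : V → ℝ, f (fun v => φ v + (NX.H v : ℝ)) = ∫⁻ φ, f φ := by
    intro f
    exact lintegral_add_right_eq_self f (fun v => (NX.H v : ℝ))
  have hintY : ∀ f : (V → ℝ) → ℝ≥0∞, ∫⁻ φ : V → ℝ, f (fun v => (NY.H v : ℝ) - φ v) = ∫⁻ φ, f φ := by
    intro f
    exact lintegral_sub_left_eq_self f (fun v => (NY.H v : ℝ))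
  have hmX2 : ∀ a, ∫⁻ φ, mX a φ = ∑' c, tX a c := fun a => (hintX (mX0 a)).trans (hX2 a)
  have hmY2 : ∀ a, ∫⁻ φ, mY a φ = ∑' c, tY a c := fun a => (hintY (mY0 a)).trans (hY2 a)
  set Good : Set (V → ℝ) := {φ | ∀ v, |φ v| ≤ (T v : ℝ)} with hGood
  have hGm : MeasurableSet Good := by
    have : Good = ⋂ v, {φ : V → ℝ | |φ v| ≤ (T v : ℝ)} := by
      ext φ; simp [hGood]
    rw [this]
    exact MeasurableSet.iInter fun v =>
      measurableSet_le ((measurable_pi_apply v).norm) measurable_const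
  have hFm : ∀ a a', Measurable fun φ => mX a φ * (mY a' φ / g φ) := fun a a' =>
    (hmXm a).mul ((hmYm a').div hgm)
  refine ⟨fun a a' => ∫⁻ φ in Good, mX a φ * (mY a' φ / g φ), ?_, ?_, ?_, ?_⟩
  · intro a
    rw [← lintegral_tsum fun a' => (hFm a a').aemeasurable, ← hmX2 a]
    refine (lintegral_mono fun φ => ?_).trans (setLIntegral_le_lintegral _ _)
    rw [ENNReal.tsum_mul_left]
    have : ∑' a', mY a' φ / g φ ≤ 1 := by
      simp_rw [div_eq_mul_inv]
      rw [ENNReal.tsum_mul_right, ← div_eq_mul_inv]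
      exact (ENNReal.div_le_div_right (hmY1 φ) _).trans ENNReal.div_self_le_one
    calc mX a φ * _ ≤ mX a φ * 1 := by gcongr
      _ = mX a φ := mul_one _
  · intro a'
    rw [← lintegral_tsum fun a => (hFm a a').aemeasurable, ← hmY2 a']
    refine (lintegral_mono fun φ => ?_).trans (setLIntegral_le_lintegral _ _)
    rw [ENNReal.tsum_mul_right]
    calc (∑' a, mX a φ) * (mY a' φ / g φ) ≤ g φ * (mY a' φ / g φ) := by
          gcongr; exact hmX1 φ
      _ ≤ mY a' φ := ENNReal.mul_div_le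
  · -- mass
    have e1 : ∑' a, ∑' c, tX a c = ∫⁻ φ, ∑' a, mX a φ := by
      rw [lintegral_tsum fun a => (hmXm a).aemeasurable]
      exact tsum_congr fun a => (hmX2 a).symm
    have e2 : ∑' a, ∑' c, tY a c = ∫⁻ φ, ∑' a, mY a φ := by
      rw [lintegral_tsum fun a => (hmYm a).aemeasurable]
      exact tsum_congr fun a => (hmY2 a).symm
    have hSX : Measurable fun φ => ∑' a, mX a φ := Measurable.tsum hmXm
    have hSY : Measurable fun φ => ∑' a, mY a φ := Measurable.tsum hmYm
    have e3 : ∑' a, ∑' a', ∫⁻ φ in Good, mX a φ * (mY a' φ / g φ)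
        = ∫⁻ φ in Good, (∑' a, mX a φ) * ((∑' a', mY a' φ) / g φ) := by
      calc ∑' a, ∑' a', ∫⁻ φ in Good, mX a φ * (mY a' φ / g φ)
          = ∑' a, ∫⁻ φ in Good, ∑' a', mX a φ * (mY a' φ / g φ) :=
            tsum_congr fun a => (lintegral_tsum fun a' => (hFm a a').aemeasurable).symm
        _ = ∫⁻ φ in Good, ∑' a, ∑' a', mX a φ * (mY a' φ / g φ) :=
            (lintegral_tsum fun a =>
              (Measurable.tsum fun a' => hFm a a').aemeasurable).symm
        _ = _ := by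
            refine lintegral_congr fun φ => ?_
            rw [← ENNReal.tsum_mul_right]
            refine tsum_congr fun a => ?_
            rw [ENNReal.tsum_mul_left]
            congr 1
            simp_rw [div_eq_mul_inv]
            rw [ENNReal.tsum_mul_right]
    have hbad : {φ : V → ℝ | ∃ v, (T v : ℝ) < |φ v|} = Goodᶜ := by
      ext φ; simp [hGood]
    rw [e1, e2, e3, hbad, ← lintegral_add_left hSX]
    have hpm : Measurable fun φ => (∑' a, mX a φ) * ((∑' a', mY a' φ) / g φ) :=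
      hSX.mul (hSY.div hgm)
    calc ∫⁻ φ, ((∑' a, mX a φ) + ∑' a, mY a φ)
        ≤ ∫⁻ φ, (g φ + (∑' a, mX a φ) * ((∑' a', mY a' φ) / g φ)) :=
          lintegral_mono fun φ => mass_aux (hg0 φ) (hgt φ) (hmX1 φ) (hmY1 φ)
      _ = 1 + ∫⁻ φ, (∑' a, mX a φ) * ((∑' a', mY a' φ) / g φ) := by
          rw [lintegral_add_left hgm]
          congr 1
          exact lintegral_gam NX
      _ = 1 + ((∫⁻ φ in Good, (∑' a, mX a φ) * ((∑' a', mY a' φ) / g φ))
            + ∫⁻ φ in Goodᶜ, (∑' a, mX a φ) * ((∑' a', mY a' φ) / g φ)) := by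
          rw [lintegral_add_compl _ hGm]
      _ ≤ 1 + ((∫⁻ φ in Good, (∑' a, mX a φ) * ((∑' a', mY a' φ) / g φ))
            + ∫⁻ φ in Goodᶜ, gam NX.P φ) := by
          gcongr with φ
          calc (∑' a, mX a φ) * ((∑' a', mY a' φ) / g φ)
              ≤ g φ * (g φ / g φ) := by
                gcongr
                · exact hmX1 φ
                · exact hmY1 φ
            _ ≤ g φ := ENNReal.mul_div_le
      _ = _ := by rw [add_assoc]
  · -- overlap
    have step1 : ∑' a, ∑' a', (if (UX a ∩ UY a').Nonempty then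
          ∫⁻ φ in Good, mX a φ * (mY a' φ / g φ) else 0)
        ≤ ∑ v, ∑' a, ∑' a', (if v ∈ UX a ∧ v ∈ UY a' then
          ∫⁻ φ in Good, mX a φ * (mY a' φ / g φ) else 0) := by
      rw [← Summable.tsum_finsetSum fun _ _ => ENNReal.summable]
      refine ENNReal.tsum_le_tsum fun a => ?_
      rw [← Summable.tsum_finsetSum fun _ _ => ENNReal.summable]
      refine ENNReal.tsum_le_tsum fun a' => ?_
      split_ifs with h
      · obtain ⟨v, hv1, hv2⟩ := h
        refine le_trans ?_ (Finset.single_le_sum (fun _ _ => bot_le) (Finset.mem_univ v))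
        simp [hv1, hv2]
      · exact bot_le
    refine step1.trans (Finset.sum_le_sum fun v _ => ?_)
    set s : ℝ≥0∞ := (NX.H v : ℝ≥0∞) + NY.H v with hs
    set L : ℝ≥0∞ := (∑ y, (NX.P v y : ℝ≥0∞) * ((T y : ℝ≥0∞) + NY.H y)) + NY.η v with hL
    have hsr : s = ENNReal.ofReal ((NX.H v : ℝ) + NY.H v) := by
      rw [ENNReal.ofReal_add NNReal.zero_le_coe NNReal.zero_le_coe, ENNReal.ofReal_coe_nnreal,
        ENNReal.ofReal_coe_nnreal]
    have hspos : (0:ℝ) < (NX.H v : ℝ) + NY.H v := by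
      have h1 : 0 < NX.H v := by
        rw [NX.eq v]
        exact add_pos_of_pos_of_nonneg (NX.η_pos v) bot_le
      have : (0:ℝ) < NX.H v := by exact_mod_cast h1
      have h2 : (0:ℝ) ≤ NY.H v := NNReal.zero_le_coe
      linarith
    -- rewrite as an integral
    have e : ∑' a, ∑' a', (if v ∈ UX a ∧ v ∈ UY a' then
          ∫⁻ φ in Good, mX a φ * (mY a' φ / g φ) else 0)
        = ∑' a, ∫⁻ φ in Good, (if v ∈ UX a then mX a φ else 0) *
            ((∑' a', if v ∈ UY a' then mY a' φ else 0) / g φ) := by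
      refine tsum_congr fun a => ?_
      by_cases ha : v ∈ UX a
      · simp only [ha, true_and, if_true]
        rw [show (fun φ => mX a φ * ((∑' a', if v ∈ UY a' then mY a' φ else 0) / g φ))
          = fun φ => ∑' a', (if v ∈ UY a' then mX a φ * (mY a' φ / g φ) else 0) from ?_]
        · rw [lintegral_tsum]
          · refine tsum_congr fun a' => ?_
            by_cases ha' : v ∈ UY a' <;> simp [ha']
          · intro a'
            by_cases ha' : v ∈ UY a'
            · simp only [ha', if_true]; exact (hFm a a').aemeasurable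
            · simp only [ha', if_false]; exact aemeasurable_const
        · funext φ
          rw [div_eq_mul_inv, ← ENNReal.tsum_mul_right, ← ENNReal.tsum_mul_left]
          refine tsum_congr fun a' => ?_
          by_cases ha' : v ∈ UY a' <;> simp [ha', div_eq_mul_inv]
      · simp [ha]
    rw [e, ← ENNReal.tsum_mul_left]
    refine ENNReal.tsum_le_tsum fun a => ?_
    by_cases ha : v ∈ UX a
    swap
    · simp [ha]
    simp only [ha, if_true]
    -- pointwise bound
    have hpt : ∀ φ ∈ Good, mX a φ * ((∑' a', if v ∈ UY a' then mY a' φ else 0) / g φ)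
        ≤ 2 * (s * L) ^ 2 * (if φ v + (NX.H v : ℝ) < (NX.H v : ℝ) + NY.H v then mX a φ else 0) := by
      intro φ hφ
      by_cases hz1 : mX a φ = 0
      · simp [hz1]
      by_cases hz2 : (∑' a', if v ∈ UY a' then mY a' φ else 0) = 0
      · simp [hz2]
      have hposX : 0 < φ v + (NX.H v : ℝ) := hX4 a _ v ha hz1
      have hposY : 0 < (NY.H v : ℝ) - φ v := by
        have : ∃ a', (if v ∈ UY a' then mY a' φ else 0) ≠ 0 := by
          by_contra hcon
          push Not at hcon
          exact hz2 (by rw [ENNReal.tsum_eq_zero]; exact hcon)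
        obtain ⟨a', ha'⟩ := this
        by_cases hv : v ∈ UY a'
        · simp only [hv, if_true] at ha'
          exact hY4 a' _ v hv ha'
        · simp [hv] at ha'
      have hlt : φ v + (NX.H v : ℝ) < (NX.H v : ℝ) + NY.H v := by linarith
      rw [if_pos hlt]
      have h3 := hY3 v (fun v => (NY.H v : ℝ) - φ v)
      rw [hgneg] at h3
      have hSv : Sv NY (fun v => (NY.H v : ℝ) - φ v) v ≤ s * L := by
        have := Sv_le NY (fun v => (NY.H v : ℝ) - φ v) v s
          (fun y => (T y : ℝ≥0∞) + NY.H y) ?_ ?_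
        · rw [← hP] at this
          exact this
        · rw [hsr]
          refine ENNReal.ofReal_le_ofReal ?_
          rw [abs_of_pos hposY]
          linarith
        · intro y
          have hy := hφ y
          have : |(NY.H y : ℝ) - φ y| ≤ (T y : ℝ) + NY.H y := by
            refine (abs_sub _ _).trans ?_
            rw [abs_of_nonneg (NNReal.zero_le_coe : (0:ℝ) ≤ (NY.H y : ℝ))]
            linarith
          refine (ENNReal.ofReal_le_ofReal this).trans ?_
          rw [ENNReal.ofReal_add NNReal.zero_le_coe NNReal.zero_le_coe,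
            ENNReal.ofReal_coe_nnreal, ENNReal.ofReal_coe_nnreal]
      have h4 : (∑' a', if v ∈ UY a' then mY a' φ else 0) / g φ ≤ 2 * (s * L) ^ 2 := by
        calc (∑' a', if v ∈ UY a' then mY a' φ else 0) / g φ
            ≤ (2 * Sv NY (fun v => (NY.H v : ℝ) - φ v) v ^ 2 * g φ) / g φ :=
              ENNReal.div_le_div_right h3 _
          _ ≤ 2 * Sv NY (fun v => (NY.H v : ℝ) - φ v) v ^ 2 := by
              rw [ENNReal.mul_div_cancel_right (hg0 φ) (hgt φ)]
          _ ≤ _ := by gcongr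
      calc mX a φ * _ ≤ mX a φ * (2 * (s * L) ^ 2) := by gcongr
        _ = _ := mul_comm _ _
    have hind : Measurable fun φ => (if φ v + (NX.H v : ℝ) < (NX.H v : ℝ) + NY.H v
        then mX a φ else 0) := by
      refine Measurable.ite ?_ (hmXm a) measurable_const
      exact measurableSet_lt ((measurable_pi_apply v).add_const _) measurable_const
    calc ∫⁻ φ in Good, mX a φ * ((∑' a', if v ∈ UY a' then mY a' φ else 0) / g φ)
        ≤ ∫⁻ φ in Good, 2 * (s * L) ^ 2 *
            (if φ v + (NX.H v : ℝ) < (NX.H v : ℝ) + NY.H v then mX a φ else 0) :=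
          setLIntegral_mono' hGm hpt
      _ ≤ ∫⁻ φ, 2 * (s * L) ^ 2 *
            (if φ v + (NX.H v : ℝ) < (NX.H v : ℝ) + NY.H v then mX a φ else 0) :=
          setLIntegral_le_lintegral _ _
      _ = 2 * (s * L) ^ 2 * ∫⁻ φ,
            (if φ v + (NX.H v : ℝ) < (NX.H v : ℝ) + NY.H v then mX a φ else 0) :=
          lintegral_const_mul _ hind
      _ = 2 * (s * L) ^ 2 * ∫⁻ Φ,
            (if Φ v < (NX.H v : ℝ) + NY.H v then mX0 a Φ else 0) := by
          congr 1
          exact hintX (fun Φ => if Φ v < (NX.H v : ℝ) + NY.H v then mX0 a Φ else 0)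
      _ = 2 * (s * L) ^ 2 * ∫⁻ Φ in {Φ | Φ v < (NX.H v : ℝ) + NY.H v}, mX0 a Φ := by
          congr 1
          rw [← lintegral_indicator (measurableSet_lt (measurable_pi_apply v) measurable_const)]
          rfl
      _ ≤ 2 * (s * L) ^ 2 * (s ^ 3 * ∑' c, tX a c) := by
          gcongr
          refine (hX5 a v _ hspos ha).trans (le_of_eq ?_)
          rw [hsr, ENNReal.ofReal_pow hspos.le]
      _ = _ := by rw [mul_assoc, mul_assoc, mul_assoc]

end Pool.Agent.Lib.MP_e4a9a7_pr.D3
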