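import Mathlib

/-!
# Simple random walk on `ℤ^3`: finite averages over step sequences

(the `d = 3` copy of `Base.lean`, `Util.lean`, `Limit.lean`)
-/

namespace Pool.Agent.Lib.MP_e4a9a7_pr.D3

open Finset MeasureTheory ProbabilityTheory Filter Topology

/-- the six steps `± e_i` of simple random walk on `ℤ^3` -/
def stepVec (s : Fin 3 × Bool) : Fin 3 → ℤ :=
  if s.2 then Pi.single s.1 1 else Pi.single s.1 (-1)

/-- a step: coordinate and sign -/
abbrev Stp := Fin 3 × Bool

/-- step sequences -/
abbrev Pth := ℕ → Stp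

def dflt : Pth := fun _ => (0, false)

/-- prepend a step -/
def cns (s : Stp) (u : Pth) : Pth
  | 0 => s
  | (n + 1) => u n

/-- average over the first `n` steps (uniform), the remaining steps being `dflt` -/
noncomputable def av : ℕ → (Pth → ℝ) → ℝ
  | 0, F => F dflt
  | (n + 1), F => (∑ s : Stp, av n (fun u => F (cns s u))) / 6

/-- displacement after `n` steps -/
def S (u : Pth) (n : ℕ) : Fin 3 → ℤ := ∑ i ∈ range n, stepVec (u i)

/-- first `m` steps of `u`, then `v` -/
def app (m : ℕ) (u v : Pth) : Pth := fun i => if i < m then u i else v (i - m)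

/-- drop the first `m` steps -/
def sh (m : ℕ) (u : Pth) : Pth := fun i => u (m + i)

@[simp] theorem cns_zero (s : Stp) (u : Pth) : cns s u 0 = s := rfl
@[simp] theorem cns_succ (s : Stp) (u : Pth) (n : ℕ) : cns s u (n + 1) = u n := rfl

theorem av_zero (F : Pth → ℝ) : av 0 F = F dflt := rfl
theorem av_succ (n : ℕ) (F : Pth → ℝ) :
    av (n + 1) F = (∑ s : Stp, av n (fun u => F (cns s u))) / 6 := rfl

theorem card_stp : (Finset.univ : Finset Stp).card = 6 := by decide

theorem av_const (n : ℕ) (c : ℝ) : av n (fun _ => c) = c := by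
  induction n with
  | zero => rfl
  | succ n ih => rw [av_succ, ih, sum_const, card_stp]; simp

theorem av_add (n : ℕ) (F G : Pth → ℝ) : av n (fun u => F u + G u) = av n F + av n G := by
  induction n generalizing F G with
  | zero => rfl
  | succ n ih =>
    rw [av_succ, av_succ, av_succ]
    simp only [ih]
    rw [sum_add_distrib, add_div]

theorem av_mul_left (n : ℕ) (c : ℝ) (F : Pth → ℝ) : av n (fun u => c * F u) = c * av n F := by
  induction n generalizing F with
  | zero => rfl
  | succ n ih =>
    rw [av_succ, av_succ]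
    simp only [ih]
    rw [← mul_sum, mul_div_assoc]

theorem av_mul_right (n : ℕ) (c : ℝ) (F : Pth → ℝ) : av n (fun u => F u * c) = av n F * c := by
  have := av_mul_left n c F
  rw [mul_comm (av n F) c, ← this]
  congr 1; funext u; ring

theorem av_sub (n : ℕ) (F G : Pth → ℝ) : av n (fun u => F u - G u) = av n F - av n G := by
  have h1 := av_add n F (fun u => (-1) * G u)
  rw [av_mul_left] at h1
  rw [sub_eq_add_neg, ← neg_one_mul, ← h1]
  congr 1; funext u; ring

theorem av_div (n : ℕ) (F : Pth → ℝ) (c : ℝ) : av n (fun u => F u / c) = av n F / c := by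
  rw [div_eq_mul_inv, ← av_mul_right]
  congr 1

theorem av_sum {ι : Type*} (n : ℕ) (s : Finset ι) (F : ι → Pth → ℝ) :
    av n (fun u => ∑ i ∈ s, F i u) = ∑ i ∈ s, av n (F i) := by
  classical
  induction s using Finset.induction_on with
  | empty => simp [av_const]
  | insert a s ha ih =>
    simp only [sum_insert ha]
    rw [av_add, ih]

theorem av_mono (n : ℕ) {F G : Pth → ℝ} (h : ∀ u, F u ≤ G u) : av n F ≤ av n G := by
  induction n generalizing F G with
  | zero => exact h _
  | succ n ih =>
    rw [av_succ, av_succ]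
    gcongr with s
    exact ih fun u => h _

theorem av_nonneg (n : ℕ) {F : Pth → ℝ} (h : ∀ u, 0 ≤ F u) : 0 ≤ av n F := by
  have := av_mono n (F := fun _ => 0) (G := F) h
  rwa [av_const] at this

theorem av_le_const (n : ℕ) {F : Pth → ℝ} {c : ℝ} (h : ∀ u, F u ≤ c) : av n F ≤ c := by
  have := av_mono n (F := F) (G := fun _ => c) h
  rwa [av_const] at this

theorem av_congr (n : ℕ) {F G : Pth → ℝ} (h : ∀ u, F u = G u) : av n F = av n G := by
  rw [funext h]

theorem av_comm (m n : ℕ) (F : Pth → Pth → ℝ) :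
    av m (fun u => av n (fun v => F u v)) = av n (fun v => av m (fun u => F u v)) := by
  induction m generalizing F with
  | zero => rfl
  | succ m ih =>
    rw [av_succ]
    simp only [ih, av_succ m]
    rw [av_div, av_sum]

theorem cns_app (m : ℕ) (s : Stp) (u v : Pth) : cns s (app m u v) = app (m + 1) (cns s u) v := by
  funext i
  rcases i with _ | i
  · simp [app]
  · simp only [cns_succ, app, add_lt_add_iff_right, Nat.add_sub_add_right]

theorem app_zero (u v : Pth) : app 0 u v = v := by
  funext i; simp [app]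

theorem sh_app (m : ℕ) (u v : Pth) : sh m (app m u v) = v := by
  funext i; simp [sh, app]

theorem app_of_lt {m i : ℕ} (h : i < m) (u v : Pth) : app m u v i = u i := by
  simp [app, h]

theorem app_add (m i : ℕ) (u v : Pth) : app m u v (m + i) = v i := by
  simp [app]

/-- splitting the average -/
theorem av_split (m n : ℕ) (F : Pth → ℝ) :
    av (m + n) F = av m (fun u => av n (fun v => F (app m u v))) := by
  induction m generalizing F with
  | zero =>
    rw [Nat.zero_add, av_zero]
    simp only [app_zero]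
  | succ m ih =>
    rw [show m + 1 + n = (m + n) + 1 by ring, av_succ, av_succ]
    simp only [ih, cns_app]

/-- `F` depends only on the first `n` steps -/
def Dep (n : ℕ) (F : Pth → ℝ) : Prop := ∀ u v : Pth, (∀ i < n, u i = v i) → F u = F v

theorem av_dep {n : ℕ} {F : Pth → ℝ} (h : Dep n F) (m : ℕ) : av (n + m) F = av n F := by
  rw [av_split]
  apply av_congr
  intro u
  have : (fun v => F (app n u v)) = fun _ => F u := by
    funext v
    exact h _ _ fun i hi => app_of_lt hi u v
  rw [this, av_const]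

theorem av_dep_le {n : ℕ} {F : Pth → ℝ} (h : Dep n F) {m : ℕ} (hm : n ≤ m) : av m F = av n F := by
  obtain ⟨k, rfl⟩ := Nat.exists_eq_add_of_le hm
  exact av_dep h k

/-- shifting: if `F` is evaluated after dropping `m` steps -/
theorem av_shift (m n : ℕ) (F : Pth → ℝ) : av (m + n) (fun u => F (sh m u)) = av n F := by
  rw [av_split]
  simp only [sh_app]
  rw [av_const]

/-- weighted Cauchy-Schwarz -/
theorem av_cs (n : ℕ) {f : Pth → ℝ} (g : Pth → ℝ) (hf : ∀ u, 0 ≤ f u) :
    (av n (fun u => f u * g u)) ^ 2 ≤ av n f * av n (fun u => f u * g u ^ 2) := by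
  induction n generalizing f g with
  | zero => simp only [av_zero]; apply le_of_eq; ring
  | succ n ih =>
    simp only [av_succ]
    rw [div_pow, div_mul_div_comm]
    have h8 : (6 : ℝ) ^ 2 = 6 * 6 := by norm_num
    rw [h8]
    apply div_le_div_of_nonneg_right _ (by norm_num)
    -- discrete Cauchy-Schwarz
    apply Finset.sum_sq_le_sum_mul_sum_of_sq_le_mul
    · intro s _; exact av_nonneg n fun u => hf _
    · intro s _; exact av_nonneg n fun u => mul_nonneg (hf _) (sq_nonneg _)
    · intro s _; exact ih (fun u => g (cns s u)) (fun u => hf _)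

theorem av_sq_le (n : ℕ) (g : Pth → ℝ) : (av n g) ^ 2 ≤ av n (fun u => g u ^ 2) := by
  have := av_cs n (f := fun _ => 1) g (fun _ => zero_le_one)
  simpa [av_const] using this

/-! ### positions -/

@[simp] theorem S_zero (u : Pth) : S u 0 = 0 := by simp [S]

theorem S_succ (u : Pth) (n : ℕ) : S u (n + 1) = S u n + stepVec (u n) := by
  simp [S, sum_range_succ]

theorem S_cns (s : Stp) (u : Pth) (n : ℕ) : S (cns s u) (n + 1) = stepVec s + S u n := by
  simp only [S, sum_range_succ', cns_succ, cns_zero]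
  rw [add_comm]

theorem S_add (u : Pth) (m n : ℕ) : S u (m + n) = S u m + S (sh m u) n := by
  simp only [S, sh, sum_range_add]

theorem S_congr {u v : Pth} {n : ℕ} (h : ∀ i < n, u i = v i) : S u n = S v n := by
  apply sum_congr rfl
  intro i hi
  rw [h i (mem_range.1 hi)]

theorem S_app_le {m i : ℕ} (h : i ≤ m) (u v : Pth) : S (app m u v) i = S u i :=
  S_congr fun _ hj => app_of_lt (by omega) u v

theorem S_app_add (m i : ℕ) (u v : Pth) : S (app m u v) (m + i) = S u m + S v i := by
  rw [S_add, sh_app, S_app_le le_rfl]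

theorem abs_stepVec_le (s : Stp) (i : Fin 3) : |stepVec s i| ≤ 1 := by
  unfold stepVec
  split_ifs <;> by_cases h : i = s.1 <;> simp [h]

theorem abs_S_le (u : Pth) (n : ℕ) (i : Fin 3) : |S u n i| ≤ n := by
  induction n with
  | zero => simp
  | succ n ih =>
    rw [S_succ]
    have := abs_stepVec_le (u n) i
    have h2 : (S u n + stepVec (u n)) i = S u n i + stepVec (u n) i := rfl
    rw [h2]
    push_cast
    exact (abs_add_le _ _).trans (add_le_add ih this)

/-- indicator of a proposition -/
noncomputable def ind (P : Prop) : ℝ := @ite ℝ P (Classical.propDecidable P) 1 0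

theorem ind_of {P : Prop} (h : P) : ind P = 1 := by unfold ind; rw [if_pos h]
theorem ind_not {P : Prop} (h : ¬ P) : ind P = 0 := by unfold ind; rw [if_neg h]

theorem ind_nonneg (P : Prop) : 0 ≤ ind P := by
  by_cases h : P
  · rw [ind_of h]; norm_num
  · rw [ind_not h]

theorem ind_le_one (P : Prop) : ind P ≤ 1 := by
  by_cases h : P
  · rw [ind_of h]
  · rw [ind_not h]; norm_num

theorem ind_mono {P Q : Prop} (h : P → Q) : ind P ≤ ind Q := by
  by_cases hP : P
  · rw [ind_of hP, ind_of (h hP)]
  · rw [ind_not hP]; exact ind_nonneg _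

theorem ind_congr {P Q : Prop} (h : P ↔ Q) : ind P = ind Q :=
  le_antisymm (ind_mono h.1) (ind_mono h.2)

theorem ind_or_le (P Q : Prop) : ind (P ∨ Q) ≤ ind P + ind Q := by
  by_cases hP : P
  · rw [ind_of hP, ind_of (Or.inl hP)]; linarith [ind_nonneg Q]
  · by_cases hQ : Q
    · rw [ind_of hQ, ind_of (Or.inr hQ)]; linarith [ind_nonneg P]
    · rw [ind_not (fun h => h.elim hP hQ)]; linarith [ind_nonneg P, ind_nonneg Q]

theorem ind_and (P Q : Prop) : ind (P ∧ Q) = ind P * ind Q := by
  by_cases hP : P
  · by_cases hQ : Q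
    · rw [ind_of hP, ind_of hQ, ind_of ⟨hP, hQ⟩]; norm_num
    · rw [ind_not hQ, ind_not (fun h => hQ h.2)]; norm_num
  · rw [ind_not hP, ind_not (fun h => hP h.1)]; norm_num

theorem ind_compl (P : Prop) : ind (¬ P) = 1 - ind P := by
  by_cases hP : P
  · rw [ind_of hP, ind_not (not_not.2 hP)]; norm_num
  · rw [ind_not hP, ind_of hP]; norm_num

theorem ind_exists_le {ι : Type*} (s : Finset ι) (P : ι → Prop) :
    ind (∃ i ∈ s, P i) ≤ ∑ i ∈ s, ind (P i) := by
  by_cases h : ∃ i ∈ s, P i
  · obtain ⟨i, hi, hP⟩ := h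
    rw [ind_of ⟨i, hi, hP⟩, ← ind_of hP]
    exact single_le_sum (f := fun i => ind (P i)) (fun i _ => ind_nonneg _) hi
  · rw [ind_not h]; exact sum_nonneg fun i _ => ind_nonneg _

theorem ind_eq_ite (P : Prop) [Decidable P] : ind P = if P then 1 else 0 := by
  by_cases h : P
  · rw [ind_of h, if_pos h]
  · rw [ind_not h, if_neg h]

/-- Markov inequality -/
theorem av_ind_mono (n : ℕ) {P Q : Pth → Prop} (h : ∀ u, P u → Q u) :
    av n (fun u => ind (P u)) ≤ av n (fun u => ind (Q u)) :=
  av_mono n fun u => ind_mono (h u)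

theorem sum_inv_sq (a N : ℕ) :
    ∑ n ∈ range N, 1 / ((n : ℝ) + a + 1) ^ 2 ≤ 2 / ((a : ℝ) + 1) := by
  have h : ∀ N : ℕ, ∑ n ∈ range N, 1 / ((n : ℝ) + a + 1) ^ 2
      ≤ 2 / ((a : ℝ) + 1) - 2 / ((N : ℝ) + a + 1) := by
    intro N
    induction N with
    | zero => simp
    | succ N ih =>
      rw [sum_range_succ]
      have h1 : 1 / ((N : ℝ) + a + 1) ^ 2 ≤ 2 / ((N : ℝ) + a + 1) - 2 / (((N + 1 : ℕ) : ℝ) + a + 1) := by
        have ha : (0 : ℝ) ≤ a := Nat.cast_nonneg a
        have hN : (0 : ℝ) ≤ N := Nat.cast_nonneg N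
        push_cast
        rw [div_sub_div _ _ (by positivity) (by positivity), div_le_div_iff₀ (by positivity) (by positivity)]
        nlinarith [mul_nonneg hN ha, sq_nonneg ((N : ℝ) + a)]
      linarith
  refine (h N).trans ?_
  have : (0 : ℝ) ≤ 2 / ((N : ℝ) + a + 1) := by positivity
  linarith

/-- completion of a sub-coupling -/
theorem completion (N : ℕ) (σ : Pth → Pth → ℝ)
    (hr : ∀ u, av N (fun v => σ u v) ≤ 1 / 4) (hc : ∀ v, av N (fun u => σ u v) ≤ 1) :
    ∃ κ : Pth → Pth → ℝ, (∀ u v, σ u v ≤ κ u v) ∧ (∀ u, av N (fun v => κ u v) = 1) ∧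
      (∀ v, av N (fun u => κ u v) = 1) := by
  set r : Pth → ℝ := fun u => av N (fun v => σ u v) with hrdef
  set c : Pth → ℝ := fun v => av N (fun u => σ u v) with hcdef
  set m := av N r with hm
  have hm' : av N c = m := by rw [hcdef, hm, hrdef, av_comm]
  have hm1 : m ≤ 1 / 4 := av_le_const N hr
  have hm2 : 0 < 1 - m := by linarith
  refine ⟨fun u v => σ u v + (1 - r u) * (1 - c v) / (1 - m), ?_, ?_, ?_⟩
  · intro u v
    have h1 : 0 ≤ 1 - r u := by have := hr u; simp only [hrdef]; linarith
    have h2 : 0 ≤ 1 - c v := by have := hc v; simp only [hcdef]; linarith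
    have : 0 ≤ (1 - r u) * (1 - c v) / (1 - m) := by positivity
    linarith
  · intro u
    rw [av_add, av_div, av_mul_left, av_sub, av_const, hm', mul_div_assoc, div_self hm2.ne', mul_one]
    change r u + (1 - r u) = 1
    ring
  · intro v
    rw [av_add, av_div, av_mul_right, av_sub, av_const]
    change c v + (1 - m) * (1 - c v) / (1 - m) = 1
    rw [mul_comm, mul_div_assoc, div_self hm2.ne', mul_one]
    ring

theorem av_all (s : Stp) (n : ℕ) : av n (fun u => ind (∀ j < n, u j = s)) = (1 / 6) ^ n := by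
  induction n with
  | zero => rw [av_zero, ind_of (by intro j hj; omega)]; simp
  | succ n ih =>
    rw [av_succ]
    have h1 : ∀ s' : Stp, av n (fun u => ind (∀ j < n + 1, cns s' u j = s))
        = if s' = s then (1 / 6 : ℝ) ^ n else 0 := by
      intro s'
      by_cases h : s' = s
      · rw [if_pos h, ← ih]
        apply av_congr; intro u
        apply ind_congr
        constructor
        · intro hall j hj
          have := hall (j + 1) (by omega)
          simpa using this
        · intro hall j hj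
          rcases j with _ | j
          · simpa using h
          · rw [cns_succ]; exact hall j (by omega)
      · rw [if_neg h]
        have : ∀ u : Pth, ind (∀ j < n + 1, cns s' u j = s) = 0 := by
          intro u
          apply ind_not
          intro hall
          exact h (by simpa using hall 0 (by omega))
        simp only [this, av_const]
    simp only [h1]
    rw [sum_ite_eq' univ s (fun _ => (1 / 6 : ℝ) ^ n)]
    simp [pow_succ]
    ring

theorem av_init (s : Stp) (s0 t : ℕ) (G : Pth → ℝ) :
    av (s0 + t) (fun u => ind (∀ j < s0, u j = s) * G (sh s0 u)) = (1 / 6) ^ s0 * av t G := by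
  rw [av_split, ← av_all s s0, ← av_mul_right]
  apply av_congr; intro u
  have h1 : ∀ v : Pth, ind (∀ j < s0, app s0 u v j = s) = ind (∀ j < s0, u j = s) := by
    intro v
    apply ind_congr
    constructor
    · intro h j hj
      have := h j hj
      rwa [app_of_lt hj] at this
    · intro h j hj
      rw [app_of_lt hj]; exact h j hj
  simp only [h1, sh_app, av_mul_left]

theorem S_init {s : Stp} {s0 : ℕ} {u : Pth} (h : ∀ j < s0, u j = s) {j : ℕ} (hj : j ≤ s0) :
    S u j = j • stepVec s := by
  induction j with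
  | zero => simp
  | succ j ih =>
    rw [S_succ, ih (by omega), h j (by omega), succ_nsmul]

theorem nsm (n : ℕ) (s : Stp) (i : Fin 3) : (n • stepVec s) i = (n : ℤ) * stepVec s i := by
  rw [Pi.smul_apply, nsmul_eq_mul]

/-- `X` is simple random walk on `ℤ^3` started at `x` -/
structure IsSRW {Ω : Type*} [MeasurableSpace Ω] (P : Measure Ω) (x : Fin 3 → ℤ)
    (X : ℕ → Ω → Fin 3 → ℤ) : Prop where
  meas : ∀ n, Measurable (X n)
  start : ∀ ω, X 0 ω = x
  indep : iIndepFun (fun n ω => X (n + 1) ω - X n ω) P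
  unif : ∀ (n : ℕ) (i : Fin 3), P {ω | X (n + 1) ω - X n ω = Pi.single i 1} = 1 / 6 ∧
      P {ω | X (n + 1) ω - X n ω = Pi.single i (-1)} = 1 / 6

/-! ### finite averages as sums -/

/-- extend a finite step sequence by the default step -/
def extd (n : ℕ) (w : Fin n → Stp) : Pth := fun i => if h : i < n then w ⟨i, h⟩ else (0, false)

theorem extd_cons (n : ℕ) (s : Stp) (w : Fin n → Stp) :
    extd (n + 1) (Fin.cons s w) = cns s (extd n w) := by
  funext i
  rcases i with _ | i
  · simp [extd]
  · simp only [extd, cns_succ, add_lt_add_iff_right]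
    by_cases h : i < n
    · rw [dif_pos h, dif_pos h]
      have : (⟨i + 1, by omega⟩ : Fin (n + 1)) = Fin.succ ⟨i, h⟩ := rfl
      rw [this, Fin.cons_succ]
    · rw [dif_neg h, dif_neg h]

theorem av_eq_sum (n : ℕ) (F : Pth → ℝ) : av n F = (∑ w : Fin n → Stp, F (extd n w)) / 6 ^ n := by
  induction n generalizing F with
  | zero =>
    rw [av_zero]
    simp only [pow_zero, div_one, Finset.univ_unique, sum_singleton]
    congr 1
  | succ n ih =>
    rw [av_succ]
    simp only [ih]
    have hR : ∑ w : Fin (n + 1) → Stp, F (extd (n + 1) w)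
        = ∑ s : Stp, ∑ w : Fin n → Stp, F (cns s (extd n w)) := by
      rw [← (Fin.consEquiv (fun _ : Fin (n + 1) => Stp)).sum_comp]
      refine (Fintype.sum_prod_type _).trans ?_
      apply sum_congr rfl
      intro s _
      apply sum_congr rfl
      intro w _
      rw [← extd_cons]
      rfl
    rw [hR, ← sum_div, div_div, pow_succ]

/-! ### the finite-level measure -/

/-- finitely supported measure on pairs of step sequences -/
noncomputable def finM (N : ℕ) (κ : Pth → Pth → ℝ) : Measure (Pth × Pth) :=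
  ∑ w : Fin N → Stp, ∑ w' : Fin N → Stp,
    ENNReal.ofReal (κ (extd N w) (extd N w') / 6 ^ N / 6 ^ N) • Measure.dirac (extd N w, extd N w')

theorem finM_apply (N : ℕ) (κ : Pth → Pth → ℝ) (hκ : ∀ u v, 0 ≤ κ u v) {A : Set (Pth × Pth)}
    (hA : MeasurableSet A) :
    finM N κ A = ENNReal.ofReal (av N (fun u => av N (fun v => κ u v * ind ((u, v) ∈ A)))) := by
  unfold finM
  simp only [Measure.finsetSum_apply, Measure.smul_apply, Measure.dirac_apply' _ hA, smul_eq_mul]
  rw [av_eq_sum]
  simp only [av_eq_sum N (fun v => _)]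
  rw [sum_div]
  simp only [sum_div]
  rw [ENNReal.ofReal_sum_of_nonneg]
  · apply sum_congr rfl
    intro w _
    rw [ENNReal.ofReal_sum_of_nonneg]
    · apply sum_congr rfl
      intro w' _
      by_cases h : (extd N w, extd N w') ∈ A
      · rw [ind_of h, Set.indicator_of_mem h]; simp
      · rw [ind_not h, Set.indicator_of_notMem h]; simp
    · intro w' _
      have := hκ (extd N w) (extd N w')
      have := ind_nonneg ((extd N w, extd N w') ∈ A)
      positivity
  · intro w _
    apply sum_nonneg
    intro w' _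
    have := hκ (extd N w) (extd N w')
    have := ind_nonneg ((extd N w, extd N w') ∈ A)
    positivity

/-! ### clopen sets -/

theorem isClopen_of_dep (m : ℕ) (A : Set (Pth × Pth))
    (h : ∀ a b : Pth × Pth, (∀ i < m, a.1 i = b.1 i ∧ a.2 i = b.2 i) → a ∈ A → b ∈ A) :
    IsClopen A := by
  let r : Pth × Pth → (Fin m → Stp) × (Fin m → Stp) := fun a => (fun i => a.1 i, fun i => a.2 i)
  have hr : Continuous r := by
    apply Continuous.prodMk
    · exact continuous_pi fun i => (continuous_apply _).comp continuous_fst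
    · exact continuous_pi fun i => (continuous_apply _).comp continuous_snd
  have hA : A = r ⁻¹' (r '' A) := by
    apply Set.Subset.antisymm (Set.subset_preimage_image r A)
    rintro b ⟨a, ha, hab⟩
    apply h a b _ ha
    intro i hi
    have h1 := congrArg Prod.fst hab
    have h2 := congrArg Prod.snd hab
    exact ⟨congrFun h1 ⟨i, hi⟩, congrFun h2 ⟨i, hi⟩⟩
  rw [hA]
  exact (isClopen_discrete _).preimage hr

/-! ### product formula -/

theorem av_prod (N : ℕ) (g : ℕ → Stp → ℝ) :
    av N (fun u => ∏ i ∈ range N, g i (u i)) = ∏ i ∈ range N, (∑ s : Stp, g i s) / 6 := by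
  induction N generalizing g with
  | zero => simp [av_zero]
  | succ N ih =>
    rw [av_succ]
    simp only [prod_range_succ', cns_succ, cns_zero]
    simp only [av_mul_right]
    rw [ih (fun i => g (i + 1)), ← mul_sum]
    ring

/-- uniform probability of a set of steps -/
noncomputable def qq (t : Set Stp) : ℝ := (∑ s : Stp, ind (s ∈ t)) / 6

theorem av_cyl (N : ℕ) (Q : Finset ℕ) (hQ : Q ⊆ range N) (sets : ℕ → Set Stp) :
    av N (fun u => ind (∀ i ∈ Q, u i ∈ sets i)) = ∏ i ∈ Q, qq (sets i) := by
  classical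
  have h1 : ∀ u : Pth, ind (∀ i ∈ Q, u i ∈ sets i)
      = ∏ i ∈ range N, (if i ∈ Q then ind (u i ∈ sets i) else 1) := by
    intro u
    by_cases h : ∀ i ∈ Q, u i ∈ sets i
    · rw [ind_of h]
      symm
      apply prod_eq_one
      intro i _
      split_ifs with hi
      · exact ind_of (h i hi)
      · rfl
    · rw [ind_not h]
      push Not at h
      obtain ⟨i, hi, hni⟩ := h
      symm
      apply prod_eq_zero (hQ hi)
      rw [if_pos hi, ind_not hni]
  simp only [h1]
  rw [av_prod N (fun i s => if i ∈ Q then ind (s ∈ sets i) else 1)]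
  have h2 : ∀ i ∈ range N, (∑ s : Stp, (if i ∈ Q then ind (s ∈ sets i) else 1)) / 6
      = if i ∈ Q then qq (sets i) else 1 := by
    intro i _
    split_ifs with hi
    · rfl
    · rw [sum_const, card_stp]; norm_num
  rw [prod_congr rfl h2, prod_ite_mem]
  rw [inter_eq_right.mpr hQ]

theorem stepVec_eq_pos (s : Stp) (i : Fin 3) : stepVec s = Pi.single i 1 ↔ s = (i, true) := by
  revert s i; decide

theorem stepVec_eq_neg (s : Stp) (i : Fin 3) : stepVec s = Pi.single i (-1) ↔ s = (i, false) := by
  revert s i; decide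

theorem qq_singleton (s : Stp) : qq {s} = 1 / 6 := by
  unfold qq
  have : ∀ t : Stp, ind (t ∈ ({s} : Set Stp)) = if t = s then 1 else 0 := by
    intro t
    rw [ind_eq_ite]
    simp
  simp only [this]
  rw [sum_ite_eq' univ s]
  simp

theorem qq_nonneg (t : Set Stp) : 0 ≤ qq t := by
  unfold qq
  apply div_nonneg _ (by norm_num)
  exact sum_nonneg fun s _ => ind_nonneg _

/-! ### a marginal of the limit measure is simple random walk -/

theorem isSRW_of_cyl {Ω : Type} [MeasurableSpace Ω] (P : Measure Ω) [IsProbabilityMeasure P]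
    (x : Fin 3 → ℤ) (W : Ω → Pth) (hW : Measurable W)
    (h : ∀ (Q : Finset ℕ) (sets : ℕ → Set Stp),
      P {ω | ∀ i ∈ Q, W ω i ∈ sets i} = ENNReal.ofReal (∏ i ∈ Q, qq (sets i))) :
    IsSRW P x (fun n ω => x + S (W ω) n) := by
  have hstep : Measurable stepVec := measurable_of_finite _
  have hcoord : ∀ i, Measurable (fun ω => W ω i) := fun i => (measurable_pi_apply i).comp hW
  have hinc : (fun (n : ℕ) (ω : Ω) => (x + S (W ω) (n + 1)) - (x + S (W ω) n))
      = fun n => stepVec ∘ (fun ω => W ω n) := by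
    funext n ω
    simp only [S_succ, Function.comp]
    abel
  have hone : ∀ (n : ℕ) (t : Set Stp), P {ω | W ω n ∈ t} = ENNReal.ofReal (qq t) := by
    intro n t
    have := h {n} (fun _ => t)
    simpa using this
  constructor
  · intro n
    apply Measurable.const_add
    unfold S
    exact Finset.measurable_sum _ fun i _ => hstep.comp (hcoord i)
  · intro ω; simp
  · rw [hinc]
    have hind : iIndepFun (fun (n : ℕ) (ω : Ω) => W ω n) P := by
      rw [iIndepFun_iff_measure_inter_preimage_eq_mul]
      intro Q sets _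
      have e1 : (⋂ i ∈ Q, (fun ω => W ω i) ⁻¹' sets i) = {ω | ∀ i ∈ Q, W ω i ∈ sets i} := by
        ext ω; simp
      rw [e1, h Q sets, ENNReal.ofReal_prod_of_nonneg (fun i _ => qq_nonneg _)]
      apply prod_congr rfl
      intro i _
      exact (hone i (sets i)).symm
    exact hind.comp (fun _ => stepVec) (fun _ => hstep)
  · intro n i
    have e0 : ∀ ω, (x + S (W ω) (n + 1)) - (x + S (W ω) n) = stepVec (W ω n) := by
      intro ω; rw [S_succ]; abel
    constructor
    · have e : {ω | (x + S (W ω) (n + 1)) - (x + S (W ω) n) = Pi.single i 1}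
          = {ω | W ω n ∈ ({(i, true)} : Set Stp)} := by
        ext ω
        simp only [Set.mem_ofPred_eq, e0, stepVec_eq_pos, Set.mem_singleton_iff]
      rw [e, hone, qq_singleton]
      rw [ENNReal.ofReal_div_of_pos (by norm_num)]
      simp
    · have e : {ω | (x + S (W ω) (n + 1)) - (x + S (W ω) n) = Pi.single i (-1)}
          = {ω | W ω n ∈ ({(i, false)} : Set Stp)} := by
        ext ω
        simp only [Set.mem_ofPred_eq, e0, stepVec_eq_neg, Set.mem_singleton_iff]
      rw [e, hone, qq_singleton]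
      rw [ENNReal.ofReal_div_of_pos (by norm_num)]
      simp

theorem compactSpace_probabilityMeasure {E : Type*} [MeasurableSpace E] [TopologicalSpace E]
    [T2Space E] [BorelSpace E] [CompactSpace E] : CompactSpace (ProbabilityMeasure E) :=
  inferInstance

/-- (C) passage to the limit -/
theorem limit_coupling (x y : Fin 3 → ℤ) (c : ℝ) (hc : 0 < c)
    (h : ∀ n : ℕ, ∃ N, n ≤ N ∧ ∃ κ : Pth → Pth → ℝ, (∀ u v, 0 ≤ κ u v) ∧
      (∀ u, av N (fun v => κ u v) = 1) ∧ (∀ v, av N (fun u => κ u v) = 1) ∧
      c ≤ av N (fun u => av N (fun v =>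
        if (∀ i ≤ N, ∀ j ≤ N, x + S u i ≠ y + S v j) then κ u v else 0))) :
    ∃ (Ω : Type) (_ : MeasurableSpace Ω) (P : Measure Ω) (_ : IsProbabilityMeasure P)
      (X Y : ℕ → Ω → (Fin 3 → ℤ)),
      IsSRW P x X ∧ IsSRW P y Y ∧ 0 < P {ω | ∀ n m, X n ω ≠ Y m ω} := by
  choose N hN κ hκ0 hκ1 hκ2 hκ3 using h
  have hcm : ∀ A : Set (Pth × Pth), IsClopen A → MeasurableSet A := fun A hA =>
    hA.isOpen.measurableSet
  have htot : ∀ n, finM (N n) (κ n) Set.univ = 1 := by
    intro n
    rw [finM_apply _ _ (hκ0 n) MeasurableSet.univ]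
    have : av (N n) (fun u => av (N n) (fun v => κ n u v * ind ((u, v) ∈ (Set.univ : Set (Pth × Pth))))) = 1 := by
      have e : ∀ u v : Pth, κ n u v * ind ((u, v) ∈ (Set.univ : Set (Pth × Pth))) = κ n u v := by
        intro u v; rw [ind_of (Set.mem_univ _), mul_one]
      simp only [e, hκ1]
      exact av_const _ _
    rw [this]; simp
  let μs : ℕ → ProbabilityMeasure (Pth × Pth) := fun n => ⟨finM (N n) (κ n), ⟨htot n⟩⟩
  have : CompactSpace (ProbabilityMeasure (Pth × Pth)) := compactSpace_probabilityMeasure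
  obtain ⟨μ, hμ⟩ : ∃ μ : ProbabilityMeasure (Pth × Pth), Tendsto μs (hyperfilter ℕ : Filter ℕ) (𝓝 μ) :=
    ⟨_, (Ultrafilter.map μs (hyperfilter ℕ)).le_nhds_lim⟩
  have hev : ∀ {q : ℕ → Prop} (n0 : ℕ), (∀ n ≥ n0, q n) → ∀ᶠ n in (hyperfilter ℕ : Filter ℕ), q n := by
    intro q n0 hq
    exact Nat.hyperfilter_le_atTop (eventually_atTop.2 ⟨n0, hq⟩)
  -- values of clopen sets
  have hval : ∀ (A : Set (Pth × Pth)), IsClopen A → ∀ (a : ℝ) (n0 : ℕ),
      (∀ n ≥ n0, av (N n) (fun u => av (N n) (fun v => κ n u v * ind ((u, v) ∈ A))) = a) →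
      (μ : Measure (Pth × Pth)) A = ENNReal.ofReal a := by
    intro A hA a n0 hn0
    have h1 := ProbabilityMeasure.tendsto_measure_of_null_frontier_of_tendsto' hμ
      (E := A) (by simp [hA.frontier_eq])
    have h2 : Tendsto (fun i ↦ (μs i : Measure (Pth × Pth)) A) (hyperfilter ℕ : Filter ℕ)
        (𝓝 (ENNReal.ofReal a)) := by
      apply tendsto_const_nhds.congr'
      apply hev n0
      intro n hn
      show ENNReal.ofReal a = finM (N n) (κ n) A
      rw [finM_apply _ _ (hκ0 n) (hcm A hA), hn0 n hn]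
    exact tendsto_nhds_unique h1 h2
  have hge : ∀ (A : Set (Pth × Pth)), IsClopen A → ∀ (a : ℝ) (n0 : ℕ),
      (∀ n ≥ n0, a ≤ av (N n) (fun u => av (N n) (fun v => κ n u v * ind ((u, v) ∈ A)))) →
      ENNReal.ofReal a ≤ (μ : Measure (Pth × Pth)) A := by
    intro A hA a n0 hn0
    have h1 := ProbabilityMeasure.tendsto_measure_of_null_frontier_of_tendsto' hμ
      (E := A) (by simp [hA.frontier_eq])
    apply ge_of_tendsto h1
    apply hev n0
    intro n hn
    show ENNReal.ofReal a ≤ finM (N n) (κ n) A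
    rw [finM_apply _ _ (hκ0 n) (hcm A hA)]
    exact ENNReal.ofReal_le_ofReal (hn0 n hn)
  refine ⟨Pth × Pth, inferInstance, (μ : Measure (Pth × Pth)), inferInstance,
    fun n ω => x + S ω.1 n, fun n ω => y + S ω.2 n, ?_, ?_, ?_⟩
  · apply isSRW_of_cyl _ x Prod.fst measurable_fst
    intro Q sets
    obtain ⟨m, hm⟩ : ∃ m, Q ⊆ range m := ⟨Q.sup id + 1, fun i hi =>
      mem_range.2 (Nat.lt_succ_of_le (Finset.le_sup (f := id) hi))⟩
    apply hval _ _ _ m
    · intro n hn
      have hQ : Q ⊆ range (N n) := hm.trans (range_subset_range.2 (hn.trans (hN n)))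
      rw [← av_cyl (N n) Q hQ sets]
      apply av_congr
      intro u
      have e : ∀ v : Pth, κ n u v * ind ((u, v) ∈ {ω : Pth × Pth | ∀ i ∈ Q, ω.1 i ∈ sets i})
          = κ n u v * ind (∀ i ∈ Q, u i ∈ sets i) := fun v => rfl
      simp only [e]
      rw [av_mul_right, hκ1, one_mul]
    · apply isClopen_of_dep m
      intro a b hab ha i hi
      rw [← (hab i (mem_range.1 (hm hi))).1]
      exact ha i hi
  · apply isSRW_of_cyl _ y Prod.snd measurable_snd
    intro Q sets
    obtain ⟨m, hm⟩ : ∃ m, Q ⊆ range m := ⟨Q.sup id + 1, fun i hi =>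
      mem_range.2 (Nat.lt_succ_of_le (Finset.le_sup (f := id) hi))⟩
    apply hval _ _ _ m
    · intro n hn
      have hQ : Q ⊆ range (N n) := hm.trans (range_subset_range.2 (hn.trans (hN n)))
      rw [← av_cyl (N n) Q hQ sets, av_comm]
      apply av_congr
      intro v
      have e : ∀ u : Pth, κ n u v * ind ((u, v) ∈ {ω : Pth × Pth | ∀ i ∈ Q, ω.2 i ∈ sets i})
          = κ n u v * ind (∀ i ∈ Q, v i ∈ sets i) := fun u => rfl
      simp only [e]
      rw [av_mul_right, hκ2, one_mul]
    · apply isClopen_of_dep m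
      intro a b hab ha i hi
      rw [← (hab i (mem_range.1 (hm hi))).2]
      exact ha i hi
  · let D : ℕ → Set (Pth × Pth) := fun m => {ω | ∀ i ≤ m, ∀ j ≤ m, x + S ω.1 i ≠ y + S ω.2 j}
    have hDc : ∀ m, IsClopen (D m) := by
      intro m
      apply isClopen_of_dep m
      intro a b hab ha i hi j hj
      rw [← S_congr (u := a.1) (n := i) (fun k hk => (hab k (by omega)).1),
        ← S_congr (u := a.2) (n := j) (fun k hk => (hab k (by omega)).2)]
      exact ha i hi j hj
    have hD : ∀ m, ENNReal.ofReal c ≤ (μ : Measure (Pth × Pth)) (D m) := by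
      intro m
      apply hge _ (hDc m) c m
      intro n hn
      refine (hκ3 n).trans ?_
      apply av_mono
      intro u
      apply av_mono
      intro v
      split_ifs with hd
      · rw [ind_of, mul_one]
        intro i hi j hj
        exact hd i (hi.trans (hn.trans (hN n))) j (hj.trans (hn.trans (hN n)))
      · exact mul_nonneg (hκ0 n u v) (ind_nonneg _)
    have hanti : Antitone D := by
      intro a b hab ω hω i hi j hj
      exact hω i (hi.trans hab) j (hj.trans hab)
    have hInter : {ω : Pth × Pth | ∀ n m, x + S ω.1 n ≠ y + S ω.2 m} = ⋂ m, D m := by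
      ext ω
      simp only [Set.mem_iInter]
      constructor
      · intro hω m i _ j _
        exact hω i j
      · intro hω n m
        exact hω (max n m) n (le_max_left _ _) m (le_max_right _ _)
    rw [hInter]
    have ht := tendsto_measure_iInter_atTop (μ := (μ : Measure (Pth × Pth)))
      (fun m => (hcm _ (hDc m)).nullMeasurableSet) hanti ⟨0, measure_ne_top _ _⟩
    exact lt_of_lt_of_le (ENNReal.ofReal_pos.2 hc) (ge_of_tendsto' ht hD)

end Pool.Agent.Lib.MP_e4a9a7_pr.D3
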