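import Mathlib
import Pool.Agent.Lib.MP_e4a9a7_pr.D3.Walk3
import Pool.Agent.Lib.MP_e4a9a7_pr.D3.Moments

/-!
# Task I: the lattice `ℤ^3`
-/

namespace Pool.Agent.Lib.MP_e4a9a7_pr.D3

open scoped ENNReal NNReal BigOperators
open Classical

abbrev Z3 := Fin 3 → ℤ

/-- squared Euclidean norm -/
def sqn (z : Z3) : ℝ := ∑ i, (z i : ℝ) ^ 2

/-- explicit superharmonic function comparable to the Green function -/
noncomputable def ff (z : Z3) : ℝ := (Real.sqrt (sqn z + 3))⁻¹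

/-- `ff ^ (3/7)` -/
noncomputable def HH (z : Z3) : ℝ := ff z ^ ((3 : ℝ) / 7)

theorem sqn_nonneg (z : Z3) : 0 ≤ sqn z := Finset.sum_nonneg fun _ _ => sq_nonneg _

theorem sqn_neg (z : Z3) : sqn (-z) = sqn z := by
  unfold sqn
  refine Finset.sum_congr rfl fun i _ => ?_
  simp

theorem sum_stp (F : Z3 → ℝ) : ∑ s : Stp, F (stepVec s)
    = ∑ i : Fin 3, (F (Pi.single i 1) + F (Pi.single i (-1))) := by
  rw [Fintype.sum_prod_type]
  refine Finset.sum_congr rfl fun i _ => ?_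
  rw [Fintype.sum_bool]
  simp [stepVec]

theorem sqn_single (z : Z3) (i : Fin 3) (e : ℤ) :
    sqn (z + Pi.single i e) = sqn z + 2 * e * z i + (e : ℝ) ^ 2 := by
  unfold sqn
  have h : ∀ j : Fin 3, (((z + (Pi.single i e : Z3)) j : ℤ) : ℝ) ^ 2
      = (z j : ℝ) ^ 2 + (if j = i then 2 * (e : ℝ) * z i + (e : ℝ) ^ 2 else 0) := by
    intro j
    by_cases hj : j = i
    · subst hj
      simp
      ring
    · simp [hj]
  rw [Finset.sum_congr rfl fun j _ => h j, Finset.sum_add_distrib]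
  simp
  ring

theorem sqn_step (z : Z3) : (∑ s : Stp, sqn (z + stepVec s)) / 6 = sqn z + 1 := by
  rw [sum_stp (fun v => sqn (z + v))]
  have h : ∀ i : Fin 3, sqn (z + Pi.single i 1) + sqn (z + Pi.single i (-1)) = 2 * sqn z + 2 := by
    intro i
    rw [sqn_single, sqn_single]
    push_cast
    ring
  rw [Finset.sum_congr rfl fun i _ => h i]
  simp
  ring

/-- triangle inequality -/
theorem sqrt_sqn_sub_le (x y z : Z3) :
    Real.sqrt (sqn (x - z)) ≤ Real.sqrt (sqn (x - y)) + Real.sqrt (sqn (y - z)) := by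
  have key : ∀ v : Z3, Real.sqrt (sqn v) = ‖(WithLp.toLp 2 (fun i => (v i : ℝ)) : EuclideanSpace ℝ (Fin 3))‖ := by
    intro v
    rw [EuclideanSpace.norm_eq]
    congr 1
    unfold sqn
    refine Finset.sum_congr rfl fun i _ => ?_
    simp
  rw [key, key, key]
  have : (WithLp.toLp 2 (fun i => ((x - z) i : ℝ)) : EuclideanSpace ℝ (Fin 3))
      = WithLp.toLp 2 (fun i => ((x - y) i : ℝ)) + WithLp.toLp 2 (fun i => ((y - z) i : ℝ)) := by
    ext i
    simp
  rw [this]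
  exact norm_add_le _ _

theorem base_pos (z : Z3) : 0 < sqn z + 3 := by
  have := sqn_nonneg z
  linarith

theorem ff_pos (z : Z3) : 0 < ff z := inv_pos.2 (Real.sqrt_pos.2 (base_pos z))

theorem ff_le_one (z : Z3) : ff z ≤ 1 := by
  unfold ff
  apply inv_le_one_of_one_le₀
  rw [Real.one_le_sqrt]
  have := sqn_nonneg z
  linarith

theorem ff_neg (z : Z3) : ff (-z) = ff z := by
  unfold ff
  rw [sqn_neg]

theorem ff_sq (z : Z3) : ff z ^ 2 = (sqn z + 3)⁻¹ := by
  unfold ff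
  rw [inv_pow, Real.sq_sqrt (base_pos z).le]

theorem pair_bound (s x : ℝ) (hs : 0 < s) (h1 : 0 < s + 2 * x) (h2 : 0 < s - 2 * x) :
    ((Real.sqrt (s + 2 * x))⁻¹ + (Real.sqrt (s - 2 * x))⁻¹) ^ 2
      ≤ (1 + 3 * (s ^ 2 / (s ^ 2 - 4 * x ^ 2))) / s := by
  set A := (Real.sqrt (s + 2 * x))⁻¹ with hA
  set B := (Real.sqrt (s - 2 * x))⁻¹ with hB
  have hA2 : A ^ 2 = (s + 2 * x)⁻¹ := by rw [hA, inv_pow, Real.sq_sqrt h1.le]
  have hB2 : B ^ 2 = (s - 2 * x)⁻¹ := by rw [hB, inv_pow, Real.sq_sqrt h2.le]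
  have hd : 0 < s ^ 2 - 4 * x ^ 2 := by nlinarith [mul_pos h1 h2]
  have hAB : (A * B) ^ 2 = (s ^ 2 - 4 * x ^ 2)⁻¹ := by
    rw [mul_pow, hA2, hB2, ← mul_inv]
    congr 1
    ring
  have h3 : A ^ 2 + B ^ 2 = 2 * s / (s ^ 2 - 4 * x ^ 2) := by
    rw [hA2, hB2, show s ^ 2 - 4 * x ^ 2 = (s + 2 * x) * (s - 2 * x) by ring]
    field_simp
    ring
  have h4 : 2 * (A * B) ≤ (1 + s ^ 2 / (s ^ 2 - 4 * x ^ 2)) / s := by
    rw [le_div_iff₀ hs]
    have h5 : s ^ 2 / (s ^ 2 - 4 * x ^ 2) = (s * (A * B)) ^ 2 := by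
      rw [mul_pow, hAB, div_eq_mul_inv]
    rw [h5]
    nlinarith [sq_nonneg (1 - s * (A * B))]
  have h6 : (A + B) ^ 2 = (A ^ 2 + B ^ 2) + 2 * (A * B) := by ring
  rw [h6, h3]
  have h7 : (1 + 3 * (s ^ 2 / (s ^ 2 - 4 * x ^ 2))) / s
      = 2 * s / (s ^ 2 - 4 * x ^ 2) + (1 + s ^ 2 / (s ^ 2 - 4 * x ^ 2)) / s := by
    field_simp
    ring
  rw [h7]
  linarith

/-- Hint: with `s = |z|² + 4`, `((s+2x)^(-1/2) + (s-2x)^(-1/2))² ≤ (1 + 3 s²/(s²-4x²))/s` by
AM-GM; then Cauchy-Schwarz over the three coordinates and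
`∑ 1/(1-q_i) ≤ 3 + Q/(1-Q)`, `q_i = 4 x_i²/s²`, `Q = ∑ q_i = 4(s-4)/s²`. -/
theorem ff_super (z : Z3) : (∑ s : Stp, ff (z + stepVec s)) / 6 < ff z := by
  rw [sum_stp (fun v => ff (z + v))]
  obtain ⟨s, hs⟩ : ∃ s, s = sqn z + 4 := ⟨_, rfl⟩
  have hs4 : 4 ≤ s := by have := sqn_nonneg z; linarith
  have hspos : 0 < s := by linarith
  have hx : ∀ i, (z i : ℝ) ^ 2 ≤ s - 4 := by
    intro i
    rw [hs]
    have := Finset.single_le_sum (f := fun i => (z i : ℝ) ^ 2) (fun j _ => sq_nonneg _)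
      (Finset.mem_univ i)
    unfold sqn
    linarith
  have hp : ∀ i, 0 < s + 2 * (z i : ℝ) := fun i => by nlinarith [hx i, sq_nonneg ((z i : ℝ) + 1)]
  have hm : ∀ i, 0 < s - 2 * (z i : ℝ) := fun i => by nlinarith [hx i, sq_nonneg ((z i : ℝ) - 1)]
  have hterm : ∀ i, ff (z + Pi.single i 1) + ff (z + Pi.single i (-1))
      = (Real.sqrt (s + 2 * (z i : ℝ)))⁻¹ + (Real.sqrt (s - 2 * (z i : ℝ)))⁻¹ := by
    intro i
    unfold ff
    rw [sqn_single, sqn_single]
    congr 3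
    · rw [hs]; push_cast; ring
    · rw [hs]; push_cast; ring
  rw [Finset.sum_congr rfl fun i _ => hterm i]
  set a : Fin 3 → ℝ := fun i =>
    (Real.sqrt (s + 2 * (z i : ℝ)))⁻¹ + (Real.sqrt (s - 2 * (z i : ℝ)))⁻¹ with ha
  have ha0 : ∀ i, 0 ≤ a i := fun i => by simp only [ha]; positivity
  -- Cauchy-Schwarz
  have hcs : (∑ i, a i) ^ 2 ≤ 3 * ∑ i, a i ^ 2 := by
    have := sq_sum_le_card_mul_sum_sq (s := (Finset.univ : Finset (Fin 3))) (f := a)
    simpa using this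
  have hQ : ∑ i, (z i : ℝ) ^ 2 = s - 4 := by rw [hs]; unfold sqn; ring
  -- individual bounds
  have hD : 0 < s ^ 2 - 4 * (s - 4) := by nlinarith
  have hind : ∀ i, a i ^ 2 ≤ (4 + 12 * (z i : ℝ) ^ 2 / (s ^ 2 - 4 * (s - 4))) / s := by
    intro i
    refine (pair_bound s (z i : ℝ) hspos (hp i) (hm i)).trans ?_
    have hd : 0 < s ^ 2 - 4 * (z i : ℝ) ^ 2 := by nlinarith [hx i]
    have h1 : s ^ 2 / (s ^ 2 - 4 * (z i : ℝ) ^ 2) = 1 + 4 * (z i : ℝ) ^ 2 / (s ^ 2 - 4 * (z i : ℝ) ^ 2) := by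
      field_simp
      ring
    have h2 : 4 * (z i : ℝ) ^ 2 / (s ^ 2 - 4 * (z i : ℝ) ^ 2)
        ≤ 4 * (z i : ℝ) ^ 2 / (s ^ 2 - 4 * (s - 4)) := by
      apply div_le_div_of_nonneg_left (by positivity) hD
      nlinarith [hx i]
    rw [h1]
    apply div_le_div_of_nonneg_right _ hspos.le
    have h3 : 12 * (z i : ℝ) ^ 2 / (s ^ 2 - 4 * (s - 4))
        = 3 * (4 * (z i : ℝ) ^ 2 / (s ^ 2 - 4 * (s - 4))) := by ring
    rw [h3]
    linarith
  have hsum : ∑ i, a i ^ 2 ≤ (12 + 12 * (s - 4) / (s ^ 2 - 4 * (s - 4))) / s := by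
    refine (Finset.sum_le_sum fun i _ => hind i).trans (le_of_eq ?_)
    rw [← Finset.sum_div, Finset.sum_add_distrib, ← Finset.sum_div, ← Finset.mul_sum, hQ]
    simp
    ring
  have hfin : (∑ i, a i) ^ 2 < (6 * ff z) ^ 2 := by
    rw [mul_pow, ff_sq]
    have hs1 : sqn z + 3 = s - 1 := by rw [hs]; ring
    rw [hs1]
    refine lt_of_le_of_lt (hcs.trans (mul_le_mul_of_nonneg_left hsum (by norm_num))) ?_
    have hs1' : 0 < s - 1 := by linarith
    rw [← div_eq_mul_inv, lt_div_iff₀ hs1']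
    have : 3 * ((12 + 12 * (s - 4) / (s ^ 2 - 4 * (s - 4))) / s) * (s - 1)
        = 36 * ((s ^ 2 - 4 * (s - 4) + (s - 4)) * (s - 1)) / (s * (s ^ 2 - 4 * (s - 4))) := by
      field_simp
      ring
    rw [this, div_lt_iff₀ (by positivity)]
    nlinarith
  have h6 := lt_of_pow_lt_pow_left₀ 2 (by have := ff_pos z; positivity) hfin
  linarith

theorem ff_zero : (∑ s : Stp, ff (stepVec s)) / 6 + 1 / 13 ≤ ff 0 := by
  rw [sum_stp ff]
  have h : ∀ i : Fin 3, ff (Pi.single i 1) + ff (Pi.single i (-1)) = 1 := by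
    intro i
    have h1 : sqn (Pi.single i 1 : Z3) = 1 := by
      have := sqn_single 0 i 1
      rw [zero_add] at this
      rw [this]
      simp [sqn]
    have h2 : sqn (Pi.single i (-1) : Z3) = 1 := by
      have := sqn_single 0 i (-1)
      rw [zero_add] at this
      rw [this]
      simp [sqn]
    unfold ff
    rw [h1, h2]
    have : Real.sqrt (1 + 3) = 2 := by
      rw [show (1 + 3 : ℝ) = 2 ^ 2 by norm_num]
      exact Real.sqrt_sq (by norm_num)
    rw [this]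
    norm_num
  rw [Finset.sum_congr rfl fun i _ => h i]
  have h0 : ff 0 = (Real.sqrt 3)⁻¹ := by
    unfold ff sqn
    simp
  rw [h0]
  have h3 : Real.sqrt 3 ≤ 26 / 15 := by
    rw [Real.sqrt_le_left (by norm_num)]
    norm_num
  have h4 : (26 / 15 : ℝ)⁻¹ ≤ (Real.sqrt 3)⁻¹ :=
    inv_anti₀ (Real.sqrt_pos.2 (by norm_num)) h3
  refine le_trans ?_ h4
  simp
  norm_num

theorem HH_pos (z : Z3) : 0 < HH z := Real.rpow_pos_of_pos (ff_pos z) _

theorem HH_le_one (z : Z3) : HH z ≤ 1 :=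
  Real.rpow_le_one (ff_pos z).le (ff_le_one z) (by norm_num)

/-- concavity of `t ↦ t^(3/7)` -/
theorem HH_super (z : Z3) : (∑ s : Stp, HH (z + stepVec s)) / 6 < HH z := by
  have hc : ConcaveOn ℝ (Set.Ici 0) fun x : ℝ => x ^ ((3 : ℝ) / 7) :=
    Real.concaveOn_rpow (by norm_num) (by norm_num)
  have h1 := hc.le_map_sum (t := (Finset.univ : Finset Stp)) (w := fun _ => (1 / 6 : ℝ))
    (p := fun s => ff (z + stepVec s)) (fun _ _ => by norm_num)
    (by rw [Finset.sum_const, card_stp]; norm_num) (fun s _ => (ff_pos _).le)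
  simp only [smul_eq_mul] at h1
  rw [← Finset.mul_sum, ← Finset.mul_sum] at h1
  have h2 : (1 / 6 * ∑ s : Stp, ff (z + stepVec s)) ^ ((3 : ℝ) / 7) < HH z := by
    unfold HH
    apply Real.rpow_lt_rpow
    · have : 0 ≤ ∑ s : Stp, ff (z + stepVec s) := Finset.sum_nonneg fun s _ => (ff_pos _).le
      positivity
    · have := ff_super z
      linarith
    · norm_num
  have h3 : (∑ s : Stp, HH (z + stepVec s)) / 6 = 1 / 6 * ∑ s : Stp, ff (z + stepVec s) ^ ((3 : ℝ) / 7) := by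
    unfold HH
    ring
  rw [h3]
  exact lt_of_le_of_lt h1 h2

theorem summable_one {b : ℝ} (hb : 1 < b) : Summable (fun k : ℤ => (1 + (k : ℝ) ^ 2) ^ (-(b / 2))) := by
  have h1 : Summable (fun k : ℤ => |(k : ℝ)| ^ (-b)) := Real.summable_abs_int_rpow hb
  have h2 : Summable (fun k : ℤ => if k = 0 then (1 : ℝ) else 0) :=
    (hasSum_ite_eq (0 : ℤ) (1 : ℝ)).summable
  refine Summable.of_nonneg_of_le (fun k => by positivity) (fun k => ?_) (h1.add h2)
  by_cases hk : k = 0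
  · subst hk
    simp
    positivity
  · simp only [hk, if_false, add_zero]
    have hk' : 0 < |(k : ℝ)| := abs_pos.2 (by exact_mod_cast hk)
    have h3 : |(k : ℝ)| ^ (-b) = ((k : ℝ) ^ 2) ^ (-(b / 2)) := by
      rw [← sq_abs, ← Real.rpow_natCast, ← Real.rpow_mul hk'.le]
      congr 1
      push_cast
      ring
    rw [h3]
    apply Real.rpow_le_rpow_of_nonpos
    · positivity
    · linarith
    · linarith

theorem summable_prod3 {f : ℤ → ℝ} (hf : ∀ k, 0 ≤ f k) (hs : Summable f) :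
    Summable (fun z : Z3 => ∏ i, f (z i)) := by
  refine summable_of_sum_le (c := ∏ _i : Fin 3, ∑' k, f k)
    (fun z => Finset.prod_nonneg fun i _ => hf _) (fun u => ?_)
  calc ∑ z ∈ u, ∏ i, f (z i)
      ≤ ∑ z ∈ Fintype.piFinset (fun i => u.image (fun z => z i)), ∏ i, f (z i) := by
        apply Finset.sum_le_sum_of_subset_of_nonneg
        · intro z hz
          rw [Fintype.mem_piFinset]
          intro i
          exact Finset.mem_image_of_mem _ hz
        · intro z _ _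
          exact Finset.prod_nonneg fun i _ => hf _
    _ = ∏ i, ∑ k ∈ u.image (fun z => z i), f k := by
        rw [Finset.prod_univ_sum]
    _ ≤ ∏ _i : Fin 3, ∑' k, f k := by
        apply Finset.prod_le_prod
        · intro i _
          exact Finset.sum_nonneg fun k _ => hf k
        · intro i _
          exact hs.sum_le_tsum _ (fun k _ => hf k)

theorem ff_rpow (z : Z3) (p : ℝ) : ff z ^ p = (sqn z + 3) ^ (-(p / 2)) := by
  unfold ff
  rw [Real.sqrt_eq_rpow, ← Real.rpow_neg (base_pos z).le, ← Real.rpow_mul (base_pos z).le]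
  congr 1
  ring

/-- Hint: `3 + |z|² ≥ 3 (∏ (1 + z_i²))^(1/3)`. -/
theorem summable_ff {p : ℝ} (hp : 3 < p) : Summable (fun z : Z3 => ff z ^ p) := by
  have h1 := summable_prod3 (f := fun k : ℤ => (1 + (k : ℝ) ^ 2) ^ (-((p / 3) / 2)))
    (fun k => by positivity) (summable_one (b := p / 3) (by linarith))
  refine Summable.of_nonneg_of_le (fun z => Real.rpow_nonneg (ff_pos z).le _) (fun z => ?_) h1
  rw [ff_rpow]
  have hpos : ∀ i, 0 < 1 + (z i : ℝ) ^ 2 := fun i => by positivity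
  have h2 : ∏ i : Fin 3, (1 + (z i : ℝ) ^ 2) ^ (-((p / 3) / 2))
      = (∏ i : Fin 3, (1 + (z i : ℝ) ^ 2) ^ (1 / 3 : ℝ)) ^ (-(p / 2)) := by
    rw [← Real.finsetProd_rpow _ _ (fun i _ => Real.rpow_nonneg (hpos i).le _)]
    refine Finset.prod_congr rfl fun i _ => ?_
    rw [← Real.rpow_mul (hpos i).le]
    congr 1
    ring
  rw [h2]
  apply Real.rpow_le_rpow_of_nonpos
  · exact Finset.prod_pos fun i _ => Real.rpow_pos_of_pos (hpos i) _
  · have h3 := Real.geom_mean_le_arith_mean3_weighted (w₁ := 1 / 3) (w₂ := 1 / 3) (w₃ := 1 / 3)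
      (p₁ := 1 + (z 0 : ℝ) ^ 2) (p₂ := 1 + (z 1 : ℝ) ^ 2) (p₃ := 1 + (z 2 : ℝ) ^ 2)
      (by norm_num) (by norm_num) (by norm_num) (hpos 0).le (hpos 1).le (hpos 2).le (by norm_num)
    rw [Fin.prod_univ_three]
    refine h3.trans ?_
    unfold sqn
    rw [Fin.sum_univ_three]
    nlinarith [sq_nonneg (z 0 : ℝ), sq_nonneg (z 1 : ℝ), sq_nonneg (z 2 : ℝ)]
  · linarith

/-- sums over balls; only `summable_ff` is needed: on the ball `1 ≤ 3 R ff (u - z)` -/
theorem sum_ff_le {ε : ℝ} (hε : 0 < ε) : ∃ C : ℝ, 0 < C ∧ ∀ (p : ℝ), 0 ≤ p → p ≤ 3 →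
    ∀ (Λ : Finset Z3) (b : Z3) (R : ℝ), 1 ≤ R → (∀ u ∈ Λ, sqn (u - b) ≤ R ^ 2) →
    ∀ z : Z3, sqn (z - b) ≤ R ^ 2 → ∑ u ∈ Λ, ff (u - z) ^ p ≤ C * R ^ (3 + ε - p) := by
  have hsm := summable_ff (p := 3 + ε) (by linarith)
  have hT : 0 < ∑' z : Z3, ff z ^ (3 + ε) :=
    hsm.tsum_pos (fun z => Real.rpow_nonneg (ff_pos z).le _) 0 (Real.rpow_pos_of_pos (ff_pos 0) _)
  refine ⟨3 ^ (3 + ε) * ∑' z : Z3, ff z ^ (3 + ε), by positivity, ?_⟩
  intro p hp0 hp3 Λ b R hR hΛ z hz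
  have hR0 : 0 < R := by linarith
  have hlow : ∀ u ∈ Λ, 1 ≤ 3 * R * ff (u - z) := by
    intro u hu
    have h1 : Real.sqrt (sqn (u - z)) ≤ R + R := by
      refine (sqrt_sqn_sub_le u b z).trans (add_le_add ?_ ?_)
      · rw [Real.sqrt_le_left hR0.le]
        exact hΛ u hu
      · rw [Real.sqrt_le_left hR0.le]
        have : sqn (b - z) = sqn (z - b) := by
          rw [← sqn_neg (b - z)]
          congr 1
          ring
        rw [this]
        exact hz
    have h2 : sqn (u - z) ≤ (2 * R) ^ 2 := by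
      rw [← Real.sqrt_le_left (by positivity)]
      linarith
    unfold ff
    rw [← div_eq_mul_inv, one_le_div (Real.sqrt_pos.2 (base_pos _)),
      Real.sqrt_le_left (by positivity)]
    nlinarith
  calc ∑ u ∈ Λ, ff (u - z) ^ p
      ≤ ∑ u ∈ Λ, (3 * R) ^ (3 + ε - p) * ff (u - z) ^ (3 + ε) := by
        refine Finset.sum_le_sum fun u hu => ?_
        have h1 : (1 : ℝ) ≤ (3 * R * ff (u - z)) ^ (3 + ε - p) :=
          Real.one_le_rpow (hlow u hu) (by linarith)
        have h2 : (3 * R) ^ (3 + ε - p) * ff (u - z) ^ (3 + ε)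
            = (3 * R * ff (u - z)) ^ (3 + ε - p) * ff (u - z) ^ p := by
          rw [Real.mul_rpow (by positivity) (ff_pos _).le, mul_assoc,
            ← Real.rpow_add (ff_pos _)]
          congr 2
          ring
        rw [h2]
        have h3 : 0 ≤ ff (u - z) ^ p := Real.rpow_nonneg (ff_pos _).le _
        nlinarith
    _ = (3 * R) ^ (3 + ε - p) * ∑ u ∈ Λ, ff (u - z) ^ (3 + ε) := by rw [Finset.mul_sum]
    _ ≤ (3 ^ (3 + ε) * R ^ (3 + ε - p)) * ∑' v : Z3, ff v ^ (3 + ε) := by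
        apply mul_le_mul
        · rw [Real.mul_rpow (by norm_num) hR0.le]
          apply mul_le_mul_of_nonneg_right
          · exact Real.rpow_le_rpow_of_exponent_le (by norm_num) (by linarith)
          · positivity
        · have h1 : ∑ u ∈ Λ, ff (u - z) ^ (3 + ε)
              = ∑ v ∈ Λ.image (fun u => u - z), ff v ^ (3 + ε) := by
            rw [Finset.sum_image]
            intro a _ b _ hab
            exact sub_left_injective hab
          rw [h1]
          exact hsm.sum_le_tsum _ (fun v _ => Real.rpow_nonneg (ff_pos v).le _)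
        · exact Finset.sum_nonneg fun v _ => Real.rpow_nonneg (ff_pos _).le _
        · positivity
    _ = _ := by ring

theorem HH_ge {R : ℝ} (hR : 1 ≤ R) (z : Z3) (hz : sqn z ≤ R ^ 2) :
    (3 * R) ^ (-(3 : ℝ) / 7) ≤ HH z := by
  have h1 : (3 * R)⁻¹ ≤ ff z := by
    unfold ff
    apply inv_anti₀ (Real.sqrt_pos.2 (base_pos _))
    rw [Real.sqrt_le_left (by positivity)]
    nlinarith
  have h2 : (3 * R) ^ (-(3 : ℝ) / 7) = ((3 * R)⁻¹) ^ ((3 : ℝ) / 7) := by
    rw [Real.inv_rpow (by positivity), ← Real.rpow_neg (by positivity)]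
    congr 1
    ring
  rw [h2]
  exact Real.rpow_le_rpow (by positivity) h1 (by norm_num)

/-! ## The network -/

theorem stepVec_injective : Function.Injective stepVec := by
  intro s t h
  rcases s with ⟨i, a⟩
  rcases t with ⟨j, c⟩
  have hij : i = j := by
    by_contra hne
    have h1 := congrFun h i
    cases a <;> cases c <;> simp [stepVec, hne] at h1
  subst hij
  have h1 := congrFun h i
  cases a <;> cases c <;> simp [stepVec] at h1 ⊢

variable (Λ : Finset Z3)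

/-- transition probabilities of simple random walk killed outside `Λ` -/
noncomputable def latP (x y : Λ) : ℝ≥0 := if ∃ s : Stp, (y : Z3) = x + stepVec s then 1 / 6 else 0

/-- upper bound for the Green function -/
noncomputable def glat (x y : Λ) : ℝ≥0∞ := ENNReal.ofReal (13 * ff ((x : Z3) - y))

theorem sum_latP_aux (x : Λ) (F : Z3 → ℝ) :
    ∑ y : Λ, (latP Λ x y : ℝ) * F y
      = ∑ s : Stp, (if (x : Z3) + stepVec s ∈ Λ then F ((x : Z3) + stepVec s) / 6 else 0) := by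
  have h1 : ∀ y : Λ, (latP Λ x y : ℝ) * F y
      = ∑ s : Stp, if (y : Z3) = x + stepVec s then F y / 6 else 0 := by
    intro y
    unfold latP
    by_cases hy : ∃ s : Stp, (y : Z3) = x + stepVec s
    · obtain ⟨s, hs⟩ := hy
      rw [if_pos ⟨s, hs⟩, Finset.sum_eq_single s]
      · rw [if_pos hs]
        push_cast
        ring
      · intro t _ hts
        rw [if_neg]
        intro ht
        exact hts (stepVec_injective (add_left_cancel (ht.symm.trans hs)))
      · intro h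
        exact absurd (Finset.mem_univ s) h
    · rw [if_neg hy]
      push Not at hy
      rw [Finset.sum_eq_zero]
      · simp
      · intro s _
        rw [if_neg (hy s)]
  rw [Finset.sum_congr rfl fun y _ => h1 y, Finset.sum_comm]
  refine Finset.sum_congr rfl fun s _ => ?_
  by_cases hs : (x : Z3) + stepVec s ∈ Λ
  · rw [if_pos hs, Finset.sum_eq_single (⟨(x : Z3) + stepVec s, hs⟩ : Λ)]
    · simp
    · intro y _ hy
      rw [if_neg]
      intro h
      exact hy (Subtype.ext h)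
    · intro h
      exact absurd (Finset.mem_univ _) h
  · rw [if_neg hs]
    apply Finset.sum_eq_zero
    intro y _
    rw [if_neg]
    intro h
    exact hs (h ▸ y.2)

/-- sums over the neighbours in `Λ` -/
theorem sum_latP (x : Λ) (F : Z3 → ℝ) (hF : ∀ z, 0 ≤ F z) :
    ∑ y : Λ, (latP Λ x y : ℝ) * F y ≤ (∑ s : Stp, F ((x : Z3) + stepVec s)) / 6 := by
  rw [sum_latP_aux, Finset.sum_div]
  refine Finset.sum_le_sum fun s _ => ?_
  split_ifs
  · exact le_rfl
  · have := hF ((x : Z3) + stepVec s)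
    positivity

theorem sum_latP_eq (x : Λ) (F : Z3 → ℝ) (hx : ∀ s : Stp, (x : Z3) + stepVec s ∈ Λ) :
    ∑ y : Λ, (latP Λ x y : ℝ) * F y = (∑ s : Stp, F ((x : Z3) + stepVec s)) / 6 := by
  rw [sum_latP_aux, Finset.sum_div]
  refine Finset.sum_congr rfl fun s _ => ?_
  rw [if_pos (hx s)]

theorem stepVec_neg (s : Stp) : stepVec (s.1, !s.2) = -stepVec s := by
  rcases s with ⟨i, a⟩
  cases a <;> simp [stepVec, Pi.single_neg]

theorem latP_symm (x y : Λ) : latP Λ x y = latP Λ y x := by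
  unfold latP
  have : (∃ s : Stp, (y : Z3) = x + stepVec s) ↔ (∃ s : Stp, (x : Z3) = y + stepVec s) := by
    constructor
    · rintro ⟨s, hs⟩
      refine ⟨(s.1, !s.2), ?_⟩
      rw [stepVec_neg, hs]
      simp
    · rintro ⟨s, hs⟩
      refine ⟨(s.1, !s.2), ?_⟩
      rw [stepVec_neg, hs]
      simp
  simp only [this]

theorem latP_diag (x : Λ) : latP Λ x x = 0 := by
  unfold latP
  rw [if_neg]
  rintro ⟨⟨i, a⟩, hs⟩
  have h := congrFun hs i
  cases a <;> simp [stepVec] at h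

theorem latP_sub (x : Λ) : ∑ y, latP Λ x y ≤ 1 := by
  have h := sum_latP Λ x (fun _ => 1) (fun _ => by norm_num)
  have h2 : (∑ s : Stp, (1 : ℝ)) / 6 = 1 := by
    rw [Finset.sum_const, card_stp]; norm_num
  rw [h2] at h
  rw [← NNReal.coe_le_coe]
  push_cast
  simpa using h

theorem latH_lt (b : Z3) (x : Λ) :
    (∑ y : Λ, latP Λ x y * ⟨HH ((y : Z3) - b), (HH_pos _).le⟩ : ℝ≥0)
      < ⟨HH ((x : Z3) - b), (HH_pos _).le⟩ := by
  refine NNReal.coe_lt_coe.1 ?_
  rw [NNReal.coe_sum]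
  change ∑ y : Λ, (latP Λ x y : ℝ) * HH ((y : Z3) - b) < HH ((x : Z3) - b)
  refine lt_of_le_of_lt (sum_latP Λ x (fun z => HH (z - b)) (fun z => (HH_pos _).le)) ?_
  have h := HH_super ((x : Z3) - b)
  refine lt_of_le_of_lt (le_of_eq ?_) h
  congr 1
  refine Finset.sum_congr rfl fun s _ => ?_
  congr 1
  ring

/-- the network with base point `b` -/
noncomputable def latNet (b : Z3) : Net Λ where
  P := latP Λ
  symm := by
    intro x y
    exact latP_symm Λ x y
  diag := by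
    intro x
    exact latP_diag Λ x
  sub := by
    intro x
    exact latP_sub Λ x
  H x := ⟨HH ((x : Z3) - b), (HH_pos _).le⟩
  η x := ⟨HH ((x : Z3) - b), (HH_pos _).le⟩
    - ∑ y : Λ, latP Λ x y * ⟨HH ((y : Z3) - b), (HH_pos _).le⟩
  η_pos := by
    intro x
    exact tsub_pos_of_lt (latH_lt Λ b x)
  eq := by
    intro x
    exact (tsub_add_cancel_of_le (latH_lt Λ b x).le).symm

/-- from real sums to `ℝ≥0∞` sums -/
theorem sum_latP_ofReal (x : Λ) (F : Z3 → ℝ) (hF : ∀ z, 0 ≤ F z) :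
    ∑ y : Λ, (latP Λ x y : ℝ≥0∞) * ENNReal.ofReal (F y)
      = ENNReal.ofReal (∑ y : Λ, (latP Λ x y : ℝ) * F y) := by
  rw [ENNReal.ofReal_sum_of_nonneg (fun y _ => mul_nonneg (NNReal.coe_nonneg _) (hF _))]
  refine Finset.sum_congr rfl fun y _ => ?_
  rw [ENNReal.ofReal_mul (NNReal.coe_nonneg _), ENNReal.ofReal_coe_nnreal]

theorem sum_latP_ff (x : Λ) (y : Z3) :
    ∑ z : Λ, (latP Λ x z : ℝ≥0∞) * ENNReal.ofReal (13 * ff ((z : Z3) - y))
      ≤ ENNReal.ofReal (13 * ((∑ s : Stp, ff ((x : Z3) - y + stepVec s)) / 6)) := by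
  rw [sum_latP_ofReal Λ x (fun z => 13 * ff (z - y)) (fun z => by have := ff_pos (z - y); positivity)]
  apply ENNReal.ofReal_le_ofReal
  refine (sum_latP Λ x (fun z => 13 * ff (z - y)) (fun z => by have := ff_pos (z - y); positivity)).trans
    (le_of_eq ?_)
  rw [← Finset.mul_sum, mul_div_assoc]
  congr 2
  refine Finset.sum_congr rfl fun s _ => ?_
  congr 1
  ring

theorem grn_lat : Grn (latP Λ) (glat Λ) where
  symm x y := by
    unfold glat
    rw [← ff_neg ((x : Z3) - y), neg_sub]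
  one_le x := by
    unfold glat
    rw [sub_self, ← ENNReal.ofReal_one]
    apply ENNReal.ofReal_le_ofReal
    have h := ff_zero
    have h0 : 0 ≤ ∑ s : Stp, ff (stepVec s) := Finset.sum_nonneg fun s _ => (ff_pos _).le
    linarith
  sup1 x y := by
    unfold glat
    refine (sum_latP_ff Λ x (y : Z3)).trans (ENNReal.ofReal_le_ofReal ?_)
    have := ff_super ((x : Z3) - y)
    linarith
  sup2 x := by
    unfold glat
    refine (add_le_add le_rfl (sum_latP_ff Λ x (x : Z3))).trans ?_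
    rw [← ENNReal.ofReal_one, ← ENNReal.ofReal_add (by norm_num)]
    · apply ENNReal.ofReal_le_ofReal
      have h := ff_zero
      simp only [sub_self, zero_add]
      linarith
    · have h0 : 0 ≤ ∑ s : Stp, ff ((x : Z3) - x + stepVec s) :=
        Finset.sum_nonneg fun s _ => (ff_pos _).le
      positivity

/-- squared distance to `b` -/
noncomputable def sqd (b : Z3) (x : Λ) : ℝ≥0∞ := ENNReal.ofReal (sqn ((x : Z3) - b))

theorem sqn_step_sub (b x : Z3) :
    (∑ s : Stp, sqn (x + stepVec s - b)) / 6 = sqn (x - b) + 1 := by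
  rw [← sqn_step (x - b)]
  congr 1
  refine Finset.sum_congr rfl fun s _ => ?_
  congr 1
  ring

theorem sqd_sub (b : Z3) (x : Λ) : ∑ y, (latP Λ x y : ℝ≥0∞) * sqd Λ b y ≤ sqd Λ b x + 1 := by
  unfold sqd
  rw [sum_latP_ofReal Λ x (fun z => sqn (z - b)) (fun z => sqn_nonneg _), ← ENNReal.ofReal_one,
    ← ENNReal.ofReal_add (sqn_nonneg _) (by norm_num)]
  apply ENNReal.ofReal_le_ofReal
  refine (sum_latP Λ x (fun z => sqn (z - b)) (fun z => sqn_nonneg _)).trans (le_of_eq ?_)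
  exact sqn_step_sub b x

theorem sqd_int (b : Z3) (x : Λ) (hx : ∀ s : Stp, (x : Z3) + stepVec s ∈ Λ) :
    ∑ y, latP Λ x y = 1 ∧ ∑ y, (latP Λ x y : ℝ≥0∞) * sqd Λ b y = sqd Λ b x + 1 := by
  constructor
  · have h := sum_latP_eq Λ x (fun _ => 1) hx
    have h2 : (∑ s : Stp, (1 : ℝ)) / 6 = 1 := by
      rw [Finset.sum_const, card_stp]; norm_num
    rw [h2] at h
    rw [← NNReal.coe_inj]
    push_cast
    simpa using h
  · unfold sqd
    rw [sum_latP_ofReal Λ x (fun z => sqn (z - b)) (fun z => sqn_nonneg _), ← ENNReal.ofReal_one,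
      ← ENNReal.ofReal_add (sqn_nonneg _) (by norm_num)]
    congr 1
    rw [sum_latP_eq Λ x (fun z => sqn (z - b)) hx]
    exact sqn_step_sub b x

end Pool.Agent.Lib.MP_e4a9a7_pr.D3
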