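import Mathlib
import Pool.Agent.Lib.MP_e4a9a7_pr.D3.Lattice

/-!
# Conversion between step sequences and lists of vertices
-/

namespace Pool.Agent.Lib.MP_e4a9a7_pr.D3

open scoped ENNReal NNReal BigOperators
open Classical

variable (Λ : Finset Z3)

/-- next vertex (stay if the step leaves `Λ`) -/
noncomputable def nxt (b : Λ) (s : Stp) : Λ :=
  if h : (b : Z3) + stepVec s ∈ Λ then ⟨(b : Z3) + stepVec s, h⟩ else b

/-- list of the first `n` vertices visited -/
noncomputable def lst : Λ → Pth → ℕ → List Λ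
  | _, _, 0 => []
  | b, u, n + 1 => nxt Λ b (u 0) :: lst (nxt Λ b (u 0)) (sh 1 u) n

theorem lst_length (b : Λ) (u : Pth) (n : ℕ) : (lst Λ b u n).length = n := by
  induction n generalizing b u with
  | zero => rfl
  | succ n ih => simp [lst, ih]

/-- all the walks with `n` steps from `b` stay in `Λ` -/
def Big (b : Z3) (n : ℕ) : Prop := ∀ u : Pth, ∀ i ≤ n, b + S u i ∈ Λ

theorem Big.nxt {b : Λ} {n : ℕ} (h : Big Λ b (n + 1)) (s : Stp) :
    ((D3.nxt Λ b s : Λ) : Z3) = (b : Z3) + stepVec s := by
  have h1 := h (cns s dflt) 1 (by omega)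
  have h2 : S (cns s dflt) 1 = stepVec s := by
    rw [show (1 : ℕ) = 0 + 1 by rfl, S_cns]; simp
  rw [h2] at h1
  unfold D3.nxt
  rw [dif_pos h1]

theorem Big.tail {b : Λ} {n : ℕ} (h : Big Λ b (n + 1)) (s : Stp) :
    Big Λ (D3.nxt Λ b s : Λ) n := by
  intro u i hi
  rw [h.nxt]
  have := h (cns s u) (i + 1) (by omega)
  rw [S_cns] at this
  rw [add_assoc]; exact this

theorem Big.mono {b : Z3} {m n : ℕ} (h : Big Λ b n) (hmn : m ≤ n) : Big Λ b m :=
  fun u i hi => h u i (hi.trans hmn)

theorem att_lst (b : Λ) (u : Pth) (n : ℕ) (h : Big Λ b n) (i : ℕ) (hi : i ≤ n) :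
    ((att b (lst Λ b u n) i : Λ) : Z3) = (b : Z3) + S u i := by
  induction n generalizing b u i with
  | zero =>
    have : i = 0 := by omega
    subst this
    simp [att, lst]
  | succ n ih =>
    rcases i with _ | i
    · simp [att, lst]
    · have h1 : att b (lst Λ b u (n + 1)) (i + 1)
          = att (D3.nxt Λ b (u 0)) (lst Λ (D3.nxt Λ b (u 0)) (sh 1 u) n) i := by
        unfold att
        rw [List.getD_cons_succ]
        simp only [lst]
        have hlen : i < (D3.nxt Λ b (u 0) :: lst Λ (D3.nxt Λ b (u 0)) (sh 1 u) n).length := by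
          simp [lst_length]; omega
        rw [List.getD_eq_getElem _ _ hlen, List.getD_eq_getElem _ _ hlen]
      rw [h1, ih _ _ (h.tail Λ (u 0)) i (by omega), h.nxt]
      have h2 : S u (i + 1) = stepVec (u 0) + S (sh 1 u) i := by
        rw [show i + 1 = 1 + i by ring, S_add]
        congr 1
        simp [S]
      rw [h2, add_assoc]

theorem sh_cns (s : Stp) (u : Pth) : sh 1 (cns s u) = u := by
  funext i
  simp [sh, show 1 + i = i + 1 by ring]

theorem stepVec_inj : ∀ s t : Stp, stepVec s = stepVec t → s = t := by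
  decide

/-- sums over the neighbours -/
theorem sum_latP_step (b : Λ) (h : ∀ s : Stp, (b : Z3) + stepVec s ∈ Λ) (F : Λ → ℝ≥0∞) :
    ∑ y, (latP Λ b y : ℝ≥0∞) * F y = (∑ s : Stp, F (D3.nxt Λ b s)) / 6 := by
  have hinj : Function.Injective (fun s : Stp => D3.nxt Λ b s) := by
    intro s t hst
    have h1 : ((D3.nxt Λ b s : Λ) : Z3) = ((D3.nxt Λ b t : Λ) : Z3) := by rw [show D3.nxt Λ b s = D3.nxt Λ b t from hst]
    unfold D3.nxt at h1
    rw [dif_pos (h s), dif_pos (h t)] at h1
    have h2 : stepVec s = stepVec t := by simpa using h1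
    exact stepVec_inj s t h2
  have h1 : ∀ y : Λ, (latP Λ b y : ℝ≥0∞) * F y
      = ∑ s : Stp, if D3.nxt Λ b s = y then F y / 6 else 0 := by
    intro y
    by_cases hy : ∃ s : Stp, (y : Z3) = b + stepVec s
    · obtain ⟨s, hs⟩ := hy
      have hsy : D3.nxt Λ b s = y := by
        apply Subtype.ext
        unfold D3.nxt
        rw [dif_pos (h s), hs]
      rw [Finset.sum_eq_single s]
      · rw [if_pos hsy]
        unfold latP
        rw [if_pos ⟨s, hs⟩]
        rw [ENNReal.div_eq_inv_mul]
        congr 1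
        rw [one_div, ENNReal.coe_inv (by norm_num)]
        norm_num
      · intro t _ hts
        rw [if_neg]
        intro hty
        exact hts (hinj (hty.trans hsy.symm))
      · intro hs'; exact absurd (Finset.mem_univ _) hs'
    · have hz : latP Λ b y = 0 := by
        unfold latP
        rw [if_neg hy]
      rw [hz]
      simp only [ENNReal.coe_zero, zero_mul]
      symm
      apply Finset.sum_eq_zero
      intro s _
      rw [if_neg]
      intro hsy
      apply hy
      refine ⟨s, ?_⟩
      rw [← hsy]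
      unfold D3.nxt
      rw [dif_pos (h s)]
  simp only [h1]
  rw [Finset.sum_comm]
  rw [ENNReal.div_eq_inv_mul, Finset.mul_sum]
  apply Finset.sum_congr rfl
  intro s _
  rw [Finset.sum_ite_eq]
  simp [ENNReal.div_eq_inv_mul]

theorem Big.step {b : Λ} {n : ℕ} (h : Big Λ b (n + 1)) (s : Stp) : (b : Z3) + stepVec s ∈ Λ := by
  have h1 := h (cns s dflt) 1 (by omega)
  have h2 : S (cns s dflt) 1 = stepVec s := by
    rw [show (1 : ℕ) = 0 + 1 by rfl, S_cns]; simp
  rwa [h2] at h1

/-- expectations over lists and over step sequences -/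
theorem Ex_eq_av (b : Λ) (n : ℕ) (h : Big Λ b n) (F : List Λ → ℝ≥0∞) (hF : ∀ w, F w ≠ ∞) :
    Ex (latP Λ) b n F = ENNReal.ofReal (av n (fun u => (F (lst Λ b u n)).toReal)) := by
  induction n generalizing b F with
  | zero =>
    simp only [Ex, av_zero, lst]
    rw [ENNReal.ofReal_toReal (hF _)]
  | succ n ih =>
    simp only [Ex]
    rw [sum_latP_step Λ b (h.step Λ), av_succ]
    have h6 : (6 : ℝ≥0∞) = ENNReal.ofReal 6 := by norm_num
    rw [h6, ENNReal.ofReal_div_of_pos (by norm_num), ENNReal.ofReal_sum_of_nonneg]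
    · congr 1
      apply Finset.sum_congr rfl
      intro s _
      rw [ih (D3.nxt Λ b s) (h.tail Λ s) (fun w => F (D3.nxt Λ b s :: w)) (fun w => hF _)]
      congr 1
      apply av_congr
      intro u
      simp only [lst, cns_zero, sh_cns]
    · intro s _
      exact av_nonneg n fun u => ENNReal.toReal_nonneg

end Pool.Agent.Lib.MP_e4a9a7_pr.D3
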