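import Mathlib
import Pool.Agent.Lib.MP_e4a9a7_pr.D3.PathSum

/-!
# Task K: transition probabilities of the concrete chain, law of the path, hidden vertices
-/

namespace Pool.Agent.Lib.MP_e4a9a7_pr.D3

open scoped ENNReal NNReal BigOperators
open Classical

variable {V : Type} [Fintype V] (N : Net V) (b : V) (q : ℕ → ℕ → ℝ≥0∞) (B : ℕ → Set V)

theorem tau_eq (j : ℕ) (v : V) (s : List V) :
    (chn N b q B).tau j v s = if en v s ∈ B (j + 1) then q (j + 1) s.length * pr N.P v s else 0 := by
  unfold Chain.tau chn hst
  simp only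
  by_cases hB : en v s ∈ B (j + 1)
  · rw [if_pos hB]
    set K : ℝ≥0∞ := 2 * q (j + 1) s.length / ((N.H v : ℝ≥0∞) * (N.H (en v s) : ℝ≥0∞)) with hK
    have h1 : ∀ w, iota N w * (∑' α : List V, ∑' β : List V,
        if w = α.reverse ++ (v :: s) ++ β ∧ en v s ∈ B (j + 1) then K else 0)
        = ∑' α : List V, ∑' β : List V, (if w = α.reverse ++ (v :: s) ++ β then
          iota N (α.reverse ++ (v :: s) ++ β) * K else 0) := by
      intro w
      rw [← ENNReal.tsum_mul_left]
      refine tsum_congr fun α => ?_
      rw [← ENNReal.tsum_mul_left]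
      refine tsum_congr fun β => ?_
      by_cases h : w = α.reverse ++ (v :: s) ++ β
      · subst h; simp [hB]
      · simp only [h, false_and, if_false, mul_zero]
    rw [tsum_congr h1, ENNReal.tsum_comm]
    have h2 : ∀ α : List V, (∑' w, ∑' β : List V, (if w = α.reverse ++ (v :: s) ++ β then
          iota N (α.reverse ++ (v :: s) ++ β) * K else 0))
        = bw N v α * (pr N.P v s * (N.H (en v s) : ℝ≥0∞) / 2 * K) := by
      intro α
      rw [ENNReal.tsum_comm]
      have h3 : ∀ β : List V, (∑' w, (if w = α.reverse ++ (v :: s) ++ β then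
          iota N (α.reverse ++ (v :: s) ++ β) * K else 0))
          = bw N (en v s) β * (bw N v α * pr N.P v s / 2 * K) := by
        intro β
        rw [tsum_ite_eq, iota_split]
        simp only [div_eq_mul_inv]
        ring
      rw [tsum_congr h3, ENNReal.tsum_mul_right, tsum_bw]
      simp only [div_eq_mul_inv]
      ring
    rw [tsum_congr h2, ENNReal.tsum_mul_right, tsum_bw, hK]
    have hv0 : (N.H v : ℝ≥0∞) ≠ 0 := by
      simpa using (H_pos N v).ne'
    have he0 : (N.H (en v s) : ℝ≥0∞) ≠ 0 := by
      simpa using (H_pos N (en v s)).ne'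
    have hm0 : (N.H v : ℝ≥0∞) * (N.H (en v s) : ℝ≥0∞) ≠ 0 := mul_ne_zero hv0 he0
    have hmt : (N.H v : ℝ≥0∞) * (N.H (en v s) : ℝ≥0∞) ≠ ∞ :=
      ENNReal.mul_ne_top ENNReal.coe_ne_top ENNReal.coe_ne_top
    calc (N.H v : ℝ≥0∞) * (pr N.P v s * (N.H (en v s) : ℝ≥0∞) / 2 *
          (2 * q (j + 1) s.length / ((N.H v : ℝ≥0∞) * (N.H (en v s) : ℝ≥0∞))))
        = ((N.H v : ℝ≥0∞) * (N.H (en v s) : ℝ≥0∞)
            * ((N.H v : ℝ≥0∞) * (N.H (en v s) : ℝ≥0∞))⁻¹) * ((2 : ℝ≥0∞) * 2⁻¹)
            * (q (j + 1) s.length * pr N.P v s) := by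
          simp only [div_eq_mul_inv]
          ring
      _ = q (j + 1) s.length * pr N.P v s := by
          rw [ENNReal.mul_inv_cancel hm0 hmt,
            ENNReal.mul_inv_cancel (by norm_num) (by norm_num), one_mul, one_mul]
  · rw [if_neg hB]
    simp [hB]

/-- sums over paths weighted by the duration -/
theorem tsum_dur (P : V → V → ℝ≥0) (p : ℕ → ℝ≥0∞) (v : V) (F : List V → ℝ≥0∞) :
    ∑' s : List V, p s.length * pr P v s * F s = ∑' d, p d * Ex P v d F := by
  have h1 : ∀ s : List V, p s.length * pr P v s * F s
      = ∑' d, (if s.length = d then p d * (pr P v s * F s) else 0) := by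
    intro s
    rw [tsum_eq_single s.length]
    · rw [if_pos rfl, mul_assoc]
    · intro d hd
      rw [if_neg (fun h => hd h.symm)]
  rw [tsum_congr h1, ENNReal.tsum_comm]
  refine tsum_congr fun d => ?_
  rw [← tsum_len P v d F, ← ENNReal.tsum_mul_left]
  refine tsum_congr fun s => ?_
  split_ifs <;> simp

theorem tsum_dur_le_one (p : ℕ → ℝ≥0∞) (hp : ∑' d, p d ≤ 1) (v : V) :
    ∑' s : List V, p s.length * pr N.P v s ≤ 1 := by
  have h1 := tsum_dur N.P p v (fun _ => 1)
  simp only [mul_one] at h1
  rw [h1]
  refine le_trans (ENNReal.tsum_le_tsum fun d => ?_) hp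
  calc p d * Ex N.P v d (fun _ => 1) ≤ p d * 1 := by
        gcongr
        exact Ex_le_one N.P N.sub v d
    _ = p d := mul_one _

theorem tau_le_one (hq : ∀ j, ∑' d, q j d ≤ 1) (j : ℕ) (v : V) :
    ∑' s, (chn N b q B).tau j v s ≤ 1 := by
  refine le_trans (ENNReal.tsum_le_tsum fun s => ?_) (tsum_dur_le_one N (q (j + 1)) (hq _) v)
  rw [tau_eq]
  split_ifs
  · exact le_rfl
  · exact zero_le

theorem om_le_one (hq : ∑' d, q 0 d ≤ 1) : ∑' z, (chn N b q B).om z ≤ 1 := by
  have h1 : ∀ z : List V × List V, (chn N b q B).om z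
      ≤ q 0 z.1.length * pr N.P b z.1 * (q 0 z.2.length * pr N.P (en b z.1) z.2) := by
    intro z
    show om0 N b (q 0) (B 0) z ≤ _
    unfold om0
    split_ifs
    · exact le_rfl
    · exact zero_le
  refine (ENNReal.tsum_le_tsum h1).trans ?_
  rw [ENNReal.tsum_prod']
  refine le_trans (ENNReal.tsum_le_tsum fun z1 => ?_) (tsum_dur_le_one N (q 0) hq b)
  show ∑' z2 : List V, q 0 z1.length * pr N.P b z1 *
    (q 0 z2.length * pr N.P (en b z1) z2) ≤ q 0 z1.length * pr N.P b z1
  rw [ENNReal.tsum_mul_left]
  calc q 0 z1.length * pr N.P b z1 * ∑' z2 : List V, (q 0 z2.length * pr N.P (en b z1) z2)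
      ≤ q 0 z1.length * pr N.P b z1 * 1 := by
        gcongr
        exact tsum_dur_le_one N (q 0) hq (en b z1)
    _ = _ := mul_one _

/-- the full path of the walk described by `z, ys` -/
def fullp (z : List V × List V) (ys : List (List V)) : List V :=
  z.1 ++ z.2 ++ ys.reverse.flatten

theorem fullp_cons (z : List V × List V) (y : List V) (ys : List (List V)) :
    fullp z (y :: ys) = fullp z ys ++ y := by
  simp [fullp, List.flatten_append]

theorem fullp_nil (z : List V × List V) : fullp z [] = z.1 ++ z.2 := by
  simp [fullp]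

theorem endp_eq (z : List V × List V) (ys : List (List V)) :
    (chn N b q B).endp z ys = en b (fullp z ys) := by
  induction ys with
  | nil =>
    rw [fullp_nil, en_append]
    rfl
  | cons y ys ih =>
    rw [fullp_cons, en_append, ← ih]
    rfl

/-- if `law ≠ 0` and the durations at level `j` are at least `m j`, then the path is long -/
theorem length_of_law (m : ℕ → ℕ) (hm : ∀ j d, q j d ≠ 0 → m j ≤ d) (z : List V × List V)
    (ys : List (List V)) (h : (chn N b q B).law z ys ≠ 0) :
    2 * m 0 + ∑ j ∈ Finset.range ys.length, m (j + 1) ≤ (fullp z ys).length := by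
  induction ys with
  | nil =>
    have h' : om0 N b (q 0) (B 0) z ≠ 0 := h
    unfold om0 at h'
    split_ifs at h' with hz
    · rw [fullp_nil, List.length_append]
      have h1 : q 0 z.1.length ≠ 0 := fun h0 => h' (by rw [h0]; simp)
      have h2 : q 0 z.2.length ≠ 0 := fun h0 => h' (by rw [h0]; simp)
      have h3 := hm 0 _ h1
      have h4 := hm 0 _ h2
      simp only [List.length_nil, Finset.range_zero, Finset.sum_empty]
      omega
    · exact absurd rfl h'
  | cons y ys ih =>
    have h' : (chn N b q B).law z ys * (chn N b q B).tau ys.length ((chn N b q B).endp z ys) y ≠ 0 :=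
      h
    have h1 := ih (left_ne_zero_of_mul h')
    have h2 := right_ne_zero_of_mul h'
    rw [tau_eq] at h2
    split_ifs at h2 with h3
    · have h4 := hm _ _ (left_ne_zero_of_mul h2)
      rw [fullp_cons, List.length_append, List.length_cons, Finset.sum_range_succ]
      omega
    · exact absurd rfl h2

theorem att_mem (v : V) (s : List V) (m : ℕ) : att v s m ∈ v :: s := by
  unfold att
  rw [List.getD_eq_getElem?_getD]
  rcases h : (v :: s)[m]? with _ | a
  · simp
  · simp only [Option.getD_some]
    exact List.mem_of_getElem? h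

theorem hst_ne_zero {p : ℕ → ℝ≥0∞} {A : Set V} {v : V} {s w : List V}
    (h : hst N p A v s w ≠ 0) : ∀ x ∈ v :: s, x ∈ w := by
  unfold hst at h
  rw [Ne, ENNReal.tsum_eq_zero, not_forall] at h
  obtain ⟨α, h⟩ := h
  rw [ENNReal.tsum_eq_zero, not_forall] at h
  obtain ⟨β, h⟩ := h
  split_ifs at h with h1
  · intro x hx
    rw [h1.1]
    exact List.mem_append_left _ (List.mem_append_right _ hx)
  · exact absurd rfl h

/-- hidden vertices: all the vertices of the path from the second mark on are in the trace -/
theorem att_mem_of_Hid (z : List V × List V) (ys : List (List V)) (hys : ys ≠ [])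
    (c : Cloud V) (h : (chn N b q B).Hid z ys c) (m : ℕ)
    (hm1 : z.1.length + z.2.length ≤ m) (hm2 : m ≤ (fullp z ys).length) :
    att b (fullp z ys) m ∈ Tr c := by
  induction ys with
  | nil => exact absurd rfl hys
  | cons y ys ih =>
    obtain ⟨h1, w, hw, hne⟩ := h
    have hsub := hst_ne_zero N (show hst N (q (ys.length + 1)) (B (ys.length + 1))
      ((chn N b q B).endp z ys) y w ≠ 0 from hne)
    rw [fullp_cons] at hm2 ⊢
    rw [List.length_append] at hm2
    rcases Nat.lt_or_ge m (fullp z ys).length with hlt | hge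
    · have hys' : ys ≠ [] := by
        rintro rfl
        rw [fullp_nil, List.length_append] at hlt
        omega
      rw [att_append_left _ _ _ _ hlt.le]
      exact ih hys' h1 hlt.le
    · obtain ⟨m', rfl⟩ := Nat.exists_eq_add_of_le hge
      rw [att_append_right _ _ _ _ (by omega), ← endp_eq N b q B]
      exact ⟨w, hw, hsub _ (att_mem _ _ _)⟩

/-! ### Law of the first steps -/

/-- probability that the walk that has made the steps `p` continues along `x` -/
noncomputable def cnd (P : V → V → ℝ≥0) (b : V) (x p : List V) : ℝ≥0∞ :=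
  if p <+: x then pr P (en b p) (x.drop p.length) else if x <+: p then 1 else 0

theorem cnd_nil_right (P : V → V → ℝ≥0) (b : V) (x : List V) : cnd P b x [] = pr P b x := by
  unfold cnd
  rw [if_pos List.nil_prefix]
  rfl

theorem cnd_nil_left (P : V → V → ℝ≥0) (b : V) (p : List V) : cnd P b [] p = 1 := by
  unfold cnd
  split_ifs with h1 h2
  · rw [List.drop_nil]; rfl
  · rfl
  · exact absurd List.nil_prefix h2

theorem cnd_cons (P : V → V → ℝ≥0) (b a y : V) (x p : List V) :
    cnd P b (a :: x) (y :: p) = if y = a then cnd P a x p else 0 := by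
  unfold cnd
  by_cases h : y = a
  · subst h
    simp only [List.cons_prefix_cons, true_and, if_true, List.length_cons, List.drop_succ_cons, en]
  · have h' : ¬ a = y := fun h' => h h'.symm
    simp [List.cons_prefix_cons, h, h']

theorem cnd_append (P : V → V → ℝ≥0) (b : V) (p r y : List V) :
    cnd P b (p ++ r) (p ++ y) = cnd P (en b p) r y := by
  have h : List.drop (p ++ y).length (p ++ r) = List.drop y.length r := by
    rw [List.length_append, ← List.drop_drop, List.drop_left]
  unfold cnd
  simp only [List.prefix_append_right_inj, en_append, h]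

theorem Ex_cnd_base (P : V → V → ℝ≥0) (hP : ∀ x, ∑ y, P x y ≤ 1) (d : ℕ) :
    ∀ (v : V) (r : List V), Ex P v d (cnd P v r) ≤ pr P v r := by
  induction d with
  | zero =>
    intro v r
    show cnd P v r [] ≤ _
    rw [cnd_nil_right]
  | succ d ih =>
    intro v r
    cases r with
    | nil =>
      have h1 : cnd P v ([] : List V) = fun _ => 1 := funext fun p => cnd_nil_left P v p
      rw [h1]
      exact Ex_le_one P hP v _
    | cons a r =>
      show ∑ y, (P v y : ℝ≥0∞) * Ex P y d (fun w => cnd P v (a :: r) (y :: w)) ≤ _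
      rw [Finset.sum_eq_single a]
      · show _ ≤ (P v a : ℝ≥0∞) * pr P a r
        gcongr
        refine le_trans (le_of_eq ?_) (ih a r)
        congr 1
        funext w
        rw [cnd_cons, if_pos rfl]
      · intro y _ hy
        have h1 : (fun w => cnd P v (a :: r) (y :: w)) = fun _ => (0 : ℝ≥0∞) := by
          funext w
          rw [cnd_cons, if_neg hy]
        rw [h1]
        have h2 := Ex_mul_left P y d 0 (fun _ => 1)
        simp only [zero_mul] at h2
        rw [h2, mul_zero]
      · intro h; exact absurd (Finset.mem_univ a) h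

theorem Ex_zero (P : V → V → ℝ≥0) (v : V) (d : ℕ) : Ex P v d (fun _ => 0) = 0 := by
  have h2 := Ex_mul_left P v d 0 (fun _ => 1)
  simpa only [zero_mul] using h2

theorem Ex_cnd (P : V → V → ℝ≥0) (hP : ∀ x, ∑ y, P x y ≤ 1) (d : ℕ) (b : V) (x p : List V) :
    Ex P (en b p) d (fun y => cnd P b x (p ++ y)) ≤ cnd P b x p := by
  by_cases h1 : p <+: x
  · obtain ⟨r, rfl⟩ := h1
    have h2 : cnd P b (p ++ r) p = pr P (en b p) r := by
      have := cnd_append P b p r []
      rw [List.append_nil] at this
      rw [this, cnd_nil_right]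
    rw [h2]
    simp only [cnd_append]
    exact Ex_cnd_base P hP d _ _
  · by_cases h2 : x <+: p
    · have h3 : cnd P b x p = 1 := by unfold cnd; rw [if_neg h1, if_pos h2]
      rw [h3]
      refine le_trans (Ex_mono P _ d fun y => ?_) (Ex_le_one P hP (en b p) d)
      unfold cnd
      rw [if_neg (fun h => h1 ((List.prefix_append p y).trans h)),
        if_pos (h2.trans (List.prefix_append p y))]
    · have h3 : (fun y => cnd P b x (p ++ y)) = fun _ => (0 : ℝ≥0∞) := by
        funext y
        unfold cnd
        rw [if_neg (fun h => h1 ((List.prefix_append p y).trans h)), if_neg]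
        intro h
        rcases List.prefix_or_prefix_of_prefix h (List.prefix_append p y) with h4 | h4
        · exact h2 h4
        · exact h1 h4
      rw [h3, Ex_zero]
      exact zero_le

theorem tsum_dur_cnd (p : ℕ → ℝ≥0∞) (hp : ∑' d, p d ≤ 1) (x w : List V) :
    ∑' y : List V, p y.length * pr N.P (en b w) y * cnd N.P b x (w ++ y) ≤ cnd N.P b x w := by
  rw [tsum_dur N.P p (en b w) (fun y => cnd N.P b x (w ++ y))]
  calc ∑' d, p d * Ex N.P (en b w) d (fun y => cnd N.P b x (w ++ y))
      ≤ ∑' d, p d * cnd N.P b x w := ENNReal.tsum_le_tsum fun d => by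
        gcongr
        exact Ex_cnd N.P N.sub d b x w
    _ = (∑' d, p d) * cnd N.P b x w := ENNReal.tsum_mul_right
    _ ≤ 1 * cnd N.P b x w := by gcongr
    _ = _ := one_mul _

/-- sum over the lists of length `k + 1` -/
theorem tsum_length_succ {Y : Type} (k : ℕ) (G : List Y → ℝ≥0∞) :
    ∑' ys : List Y, (if ys.length = k + 1 then G ys else 0)
      = ∑' ys : List Y, (if ys.length = k then ∑' y, G (y :: ys) else 0) := by
  have hinj : Function.Injective (fun p : List Y × Y => p.2 :: p.1) := by
    rintro ⟨a, b⟩ ⟨c, d⟩ h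
    simp only [List.cons.injEq] at h
    rw [h.1, h.2]
  rw [← hinj.tsum_eq, ENNReal.tsum_prod']
  · refine tsum_congr fun ys => ?_
    simp only [List.length_cons, Nat.add_right_cancel_iff]
    split_ifs
    · rfl
    · exact tsum_zero
  · intro ys hys
    rw [Function.mem_support] at hys
    split_ifs at hys with h
    · cases ys with
      | nil => cases h
      | cons y ys => exact ⟨(ys, y), rfl⟩
    · exact absurd rfl hys

theorem law_cnd (hq : ∀ j, ∑' d, q j d ≤ 1) (x : List V) (z : List V × List V) (k : ℕ) :
    ∑' ys : List (List V), (if ys.length = k then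
        (chn N b q B).law z ys * cnd N.P b x (fullp z ys) else 0)
      ≤ (chn N b q B).om z * cnd N.P b x (z.1 ++ z.2) := by
  induction k with
  | zero =>
    rw [tsum_eq_single []]
    · rw [if_pos List.length_nil, fullp_nil]
      exact le_rfl
    · intro ys hys
      rw [if_neg]
      intro h
      exact hys (List.eq_nil_of_length_eq_zero h)
  | succ k ih =>
    rw [tsum_length_succ]
    refine le_trans (ENNReal.tsum_le_tsum fun ys => ?_) ih
    split_ifs with h
    · have h1 : ∀ y, (chn N b q B).law z (y :: ys) * cnd N.P b x (fullp z (y :: ys))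
          ≤ (chn N b q B).law z ys * (q (ys.length + 1) y.length
            * pr N.P (en b (fullp z ys)) y * cnd N.P b x (fullp z ys ++ y)) := by
        intro y
        rw [fullp_cons]
        show (chn N b q B).law z ys * (chn N b q B).tau ys.length ((chn N b q B).endp z ys) y * _
          ≤ _
        rw [mul_assoc, endp_eq, tau_eq]
        gcongr
        split_ifs
        · exact le_rfl
        · exact zero_le
      refine (ENNReal.tsum_le_tsum h1).trans ?_
      rw [ENNReal.tsum_mul_left]
      gcongr
      exact tsum_dur_cnd N b _ (hq _) x (fullp z ys)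
    · exact le_rfl

theorem att_eq_en_take (v : V) (x : List V) (d : ℕ) (hd : d ≤ x.length) :
    att v x d = en v (x.take d) := by
  conv_lhs => rw [← List.take_append_drop d x]
  rw [att_append_left _ _ _ _ (by rw [List.length_take]; omega)]
  have := att_length v (x.take d)
  rwa [List.length_take, min_eq_left hd] at this

/-- law of the first `n` steps -/
theorem path_bound (hq : ∀ j, ∑' d, q j d ≤ 1) (n k d d' : ℕ) (hn : d + d' ≤ n) (x : List V)
    (hx : x.length = n) :
    ∑' z : List V × List V, ∑' ys : List (List V),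
      (if z.1.length = d ∧ z.2.length = d' ∧ ys.length = k ∧ (fullp z ys).take n = x then
        (chn N b q B).law z ys else 0)
      ≤ if att b x d ∈ B 0 ∧ att b x (d + d') ∈ B 0 then q 0 d * q 0 d' * pr N.P b x else 0 := by
  have h1 : ∀ z : List V × List V, ∑' ys : List (List V),
      (if z.1.length = d ∧ z.2.length = d' ∧ ys.length = k ∧ (fullp z ys).take n = x then
        (chn N b q B).law z ys else 0)
      ≤ if z.1.length = d ∧ z.2.length = d' then
        (chn N b q B).om z * cnd N.P b x (z.1 ++ z.2) else 0 := by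
    intro z
    by_cases hz : z.1.length = d ∧ z.2.length = d'
    · rw [if_pos hz]
      refine le_trans (ENNReal.tsum_le_tsum fun ys => ?_) (law_cnd N b q B hq x z k)
      by_cases hk : ys.length = k
      · rw [if_pos hk]
        by_cases ht : (fullp z ys).take n = x
        · rw [if_pos ⟨hz.1, hz.2, hk, ht⟩]
          have h2 : cnd N.P b x (fullp z ys) = 1 := by
            have h3 : x <+: fullp z ys := by rw [← ht]; exact List.take_prefix _ _
            unfold cnd
            split_ifs with h4
            · have h5 : fullp z ys = x := h4.eq_of_length_le h3.length_le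
              rw [h5, List.drop_length]
              rfl
            · rfl
          rw [h2, mul_one]
        · rw [if_neg (fun h => ht h.2.2.2)]
          exact zero_le
      · rw [if_neg (fun h => hk h.2.2.1), if_neg hk]
    · rw [if_neg hz]
      refine le_of_eq ?_
      rw [ENNReal.tsum_eq_zero]
      intro ys
      rw [if_neg (fun h => hz ⟨h.1, h.2.1⟩)]
  refine (ENNReal.tsum_le_tsum h1).trans ?_
  set z0 : List V × List V := (x.take d, (x.drop d).take d') with hz0
  rw [tsum_eq_single z0]
  · have hl1 : z0.1.length = d := by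
      rw [hz0]; simp only [List.length_take]; omega
    have hl2 : z0.2.length = d' := by
      rw [hz0]; simp only [List.length_take, List.length_drop]; omega
    rw [if_pos ⟨hl1, hl2⟩]
    have hcat : z0.1 ++ z0.2 = x.take (d + d') := by
      rw [hz0, List.take_add]
    have hcnd : cnd N.P b x (z0.1 ++ z0.2) = pr N.P (en b (z0.1 ++ z0.2)) (x.drop (d + d')) := by
      unfold cnd
      rw [if_pos (by rw [hcat]; exact List.take_prefix _ _), List.length_append, hl1, hl2]
    rw [hcnd]
    show om0 N b (q 0) (B 0) z0 * _ ≤ _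
    unfold om0
    rw [att_eq_en_take b x d (by omega), att_eq_en_take b x (d + d') (by omega), ← hcat,
      ← en_append, hl1, hl2]
    show (if en b (x.take d) ∈ B 0 ∧ en b (z0.1 ++ z0.2) ∈ B 0 then _ else 0) * _ ≤ _
    split_ifs
    · refine le_of_eq ?_
      have h3 : pr N.P b x = pr N.P b z0.1 * pr N.P (en b z0.1) z0.2
          * pr N.P (en b (z0.1 ++ z0.2)) (x.drop (d + d')) := by
        rw [← pr_append, ← pr_append, hcat, List.take_append_drop]
      rw [h3]
      ring
    · rw [zero_mul]
  · intro z hz
    split_ifs with hlen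
    · have h3 : cnd N.P b x (z.1 ++ z.2) = 0 := by
        have h4 : ¬ (z.1 ++ z.2) <+: x := by
          intro h5
          apply hz
          obtain ⟨r, rfl⟩ := h5
          rw [hz0]
          refine Prod.ext ?_ ?_
          · simp only [List.append_assoc]
            rw [List.take_left' hlen.1]
          · simp only [List.append_assoc]
            rw [List.drop_left' hlen.1, List.take_left' hlen.2]
        unfold cnd
        rw [if_neg h4, if_neg]
        intro h5
        apply h4
        rw [h5.eq_of_length_le (by rw [List.length_append, hlen.1, hlen.2, hx]; exact hn)]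
      rw [h3, mul_zero]
    · rfl

end Pool.Agent.Lib.MP_e4a9a7_pr.D3
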