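import Mathlib
import Pool.Agent.Lib.MP_e4a9a7_pr.D3.Moments
import Pool.Agent.Lib.MP_e4a9a7_pr.D3.TauEq
import Pool.Agent.Lib.MP_e4a9a7_pr.D3.PPP

/-!
# Task H: bounds for the errors of the concrete chain
-/

namespace Pool.Agent.Lib.MP_e4a9a7_pr.D3

open scoped ENNReal NNReal BigOperators
open Classical

variable {V : Type} [Fintype V] (N : Net V) (b : V) (q : ℕ → ℕ → ℝ≥0∞) (B : ℕ → Set V)
  (g : V → V → ℝ≥0∞)

theorem eb_tie {α : Type} (a : α) (f : α → ℝ≥0∞) [∀ v, Decidable (a = v)] :
    ∑' v, (if a = v then f v else 0) = f a := by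
  rw [tsum_eq_single a]
  · simp
  · intro v hv
    rw [if_neg hv.symm]

theorem eb_tie' {α : Type} (a : α) (f : α → ℝ≥0∞) [∀ v, Decidable (v = a)] :
    ∑' v, (if v = a then f v else 0) = f a := by
  rw [tsum_eq_single a]
  · simp
  · intro v hv
    rw [if_neg hv]

theorem nu_supp (j : ℕ) (v : V) (hv : v ∉ B j) : (chn N b q B).nu j v = 0 := by
  cases j with
  | zero =>
    unfold Chain.nu
    rw [ENNReal.tsum_eq_zero]
    intro z
    split_ifs with h
    · simp only [chn, om0] at h ⊢
      rw [if_neg]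
      rintro ⟨_, h2⟩
      rw [h] at h2
      exact hv h2
    · rfl
  | succ j =>
    unfold Chain.nu
    apply Finset.sum_eq_zero
    intro v' _
    rw [ENNReal.tsum_eq_zero]
    intro y
    split_ifs with h
    · rw [tau_eq, if_neg, zero_mul]
      simp only [chn] at h
      rw [h]
      exact hv
    · rfl

theorem nu_sum_le_one (hq : ∀ j, ∑' d, q j d ≤ 1) (j : ℕ) : ∑ v, (chn N b q B).nu j v ≤ 1 := by
  induction j with
  | zero =>
    calc ∑ v, (chn N b q B).nu 0 v
        = ∑ v, ∑' z, if (chn N b q B).e0 z = v then (chn N b q B).om z else 0 := rfl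
      _ = ∑' v, ∑' z, if (chn N b q B).e0 z = v then (chn N b q B).om z else 0 := by
          rw [tsum_fintype]
      _ = ∑' z, ∑' v, if (chn N b q B).e0 z = v then (chn N b q B).om z else 0 :=
          ENNReal.tsum_comm
      _ = ∑' z, (chn N b q B).om z := by
          congr 1
          funext z
          rw [eb_tie]
      _ ≤ 1 := om_le_one N b q B (hq 0)
  | succ j ih =>
    calc ∑ v', (chn N b q B).nu (j + 1) v'
        = ∑ v', ∑ v, ∑' y, if (chn N b q B).nx v y = v' then
            (chn N b q B).tau j v y * (chn N b q B).nu j v else 0 := rfl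
      _ = ∑ v, ∑ v', ∑' y, if (chn N b q B).nx v y = v' then
            (chn N b q B).tau j v y * (chn N b q B).nu j v else 0 := Finset.sum_comm
      _ = ∑ v, ∑' y, (chn N b q B).tau j v y * (chn N b q B).nu j v := by
          apply Finset.sum_congr rfl
          intro v _
          rw [← tsum_fintype (L := SummationFilter.unconditional _), ENNReal.tsum_comm]
          congr 1
          funext y
          rw [eb_tie]
      _ = ∑ v, (∑' y, (chn N b q B).tau j v y) * (chn N b q B).nu j v := by
          apply Finset.sum_congr rfl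
          intro v _
          rw [ENNReal.tsum_mul_right]
      _ ≤ ∑ v, 1 * (chn N b q B).nu j v := by
          apply Finset.sum_le_sum
          intro v _
          gcongr
          exact tau_le_one N b q B hq j v
      _ = ∑ v, (chn N b q B).nu j v := by simp
      _ ≤ 1 := ih

theorem eb_nu_le_one (hq : ∀ j, ∑' d, q j d ≤ 1) (j : ℕ) (v : V) : (chn N b q B).nu j v ≤ 1 :=
  (Finset.single_le_sum (f := fun v => (chn N b q B).nu j v) (fun _ _ => bot_le)
    (Finset.mem_univ v)).trans (nu_sum_le_one N b q B hq j)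

/-- sum over the segments from `v` to `y` -/
theorem eb_seg_le (hg : Grn N.P g) (K : ℝ≥0∞) (c : List V → ℝ≥0∞) (hc : ∀ s, c s ≤ K) (v y : V) :
    ∑' s : List V, (if en v s = y then c s * pr N.P v s else 0) ≤ K * g v y := by
  calc ∑' s : List V, (if en v s = y then c s * pr N.P v s else 0)
      ≤ ∑' s : List V, K * (if en v s = y then pr N.P v s else 0) := by
        apply ENNReal.tsum_le_tsum
        intro s
        split_ifs
        · gcongr
          exact hc s
        · simp
    _ = K * ∑' s : List V, (if en v s = y then pr N.P v s else 0) := ENNReal.tsum_mul_left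
    _ ≤ K * g v y := by
        gcongr
        exact visits N g hg v y

theorem eb_amgm (x y : ℝ≥0∞) : x * y ≤ (x ^ 2 + y ^ 2) / 2 := by
  rw [ENNReal.le_div_iff_mul_le (Or.inl (by norm_num)) (Or.inl (by norm_num))]
  rcases eq_or_ne x ∞ with hx | hx
  · simp [hx]
  rcases eq_or_ne y ∞ with hy | hy
  · simp [hy]
  lift x to ℝ≥0 using hx
  lift y to ℝ≥0 using hy
  norm_cast
  rw [← NNReal.coe_le_coe]
  push_cast
  nlinarith [sq_nonneg ((x : ℝ) - y)]

theorem eb_gg_le (hg : Grn N.P g) (S2 : ℝ≥0∞) (Bf : Finset V)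
    (hS2 : ∀ z ∈ Bf, ∑ u ∈ Bf, g u z ^ 2 ≤ S2) (x y : V) (hx : x ∈ Bf) (hy : y ∈ Bf) :
    ∑ u ∈ Bf, g x u * g u y ≤ S2 := by
  calc ∑ u ∈ Bf, g x u * g u y ≤ ∑ u ∈ Bf, (g u x ^ 2 + g u y ^ 2) / 2 := by
        apply Finset.sum_le_sum
        intro u _
        rw [hg.symm x u]
        exact eb_amgm _ _
    _ = ((∑ u ∈ Bf, g u x ^ 2) + (∑ u ∈ Bf, g u y ^ 2)) / 2 := by
        rw [← Finset.sum_add_distrib]
        simp only [div_eq_mul_inv]
        rw [Finset.sum_mul]
    _ ≤ (S2 + S2) / 2 := by
        gcongr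
        · exact hS2 x hx
        · exact hS2 y hy
    _ = S2 := by
        rw [← two_mul, mul_comm]
        exact ENNReal.mul_div_cancel_right (by norm_num) (by norm_num)

/-- law of the end of the first segment -/
noncomputable def eb_m0 (u : V) : ℝ≥0∞ :=
  ∑' z1 : List V, if en b z1 = u then (if u ∈ B 0 then q 0 z1.length * pr N.P b z1 else 0) else 0

theorem eb_m0_supp (u : V) (hu : u ∉ B 0) : eb_m0 N b q B u = 0 := by
  unfold eb_m0
  rw [ENNReal.tsum_eq_zero]
  intro z
  simp [hu]

theorem eb_tsum_q_pr (c : ℕ → ℝ≥0∞) (hc : ∑' d, c d ≤ 1) (x : V) :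
    ∑' s : List V, c s.length * pr N.P x s ≤ 1 := by
  calc ∑' s : List V, c s.length * pr N.P x s
      = ∑' s : List V, ∑' n : ℕ, if s.length = n then c n * pr N.P x s else 0 := by
        congr 1
        funext s
        rw [eb_tie s.length (fun n => c n * pr N.P x s)]
    _ = ∑' n : ℕ, ∑' s : List V, if s.length = n then c n * pr N.P x s else 0 := ENNReal.tsum_comm
    _ = ∑' n : ℕ, c n * Ex N.P x n (fun _ => 1) := by
        congr 1
        funext n
        rw [← tsum_len, ← ENNReal.tsum_mul_left]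
        congr 1
        funext s
        split_ifs <;> simp
    _ ≤ ∑' n : ℕ, c n * 1 := by
        apply ENNReal.tsum_le_tsum
        intro n
        gcongr
        exact Ex_le_one N.P N.sub x n
    _ ≤ 1 := by simpa using hc

theorem eb_m0_sum (hq : ∑' d, q 0 d ≤ 1) : ∑ u, eb_m0 N b q B u ≤ 1 := by
  calc ∑ u, eb_m0 N b q B u = ∑' u, ∑' z1 : List V, if en b z1 = u then
          (if u ∈ B 0 then q 0 z1.length * pr N.P b z1 else 0) else 0 := by
        rw [tsum_fintype]; rfl
    _ = ∑' z1 : List V, ∑' u, if en b z1 = u then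
          (if u ∈ B 0 then q 0 z1.length * pr N.P b z1 else 0) else 0 := ENNReal.tsum_comm
    _ ≤ ∑' z1 : List V, q 0 z1.length * pr N.P b z1 := by
        apply ENNReal.tsum_le_tsum
        intro z
        rw [eb_tie]
        split_ifs
        · exact le_rfl
        · simp
    _ ≤ 1 := eb_tsum_q_pr N (q 0) hq b

theorem eb_nu_zero_decomp (hg : Grn N.P g) (kap : ℝ≥0∞) (hq : ∀ d, q 0 d ≤ kap) (v : V) :
    (chn N b q B).nu 0 v ≤ ∑ u, eb_m0 N b q B u * (kap * g u v) := by
  calc (chn N b q B).nu 0 v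
      = ∑' z : List V × List V, if en (en b z.1) z.2 = v then om0 N b (q 0) (B 0) z else 0 := rfl
    _ = ∑' z1 : List V, ∑' z2 : List V,
          if en (en b z1) z2 = v then om0 N b (q 0) (B 0) (z1, z2) else 0 := by
        rw [ENNReal.tsum_prod']
    _ ≤ ∑' z1 : List V, ∑' z2 : List V, (if en b z1 ∈ B 0 then q 0 z1.length * pr N.P b z1 else 0)
          * (if en (en b z1) z2 = v then q 0 z2.length * pr N.P (en b z1) z2 else 0) := by
        apply ENNReal.tsum_le_tsum
        intro z1
        apply ENNReal.tsum_le_tsum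
        intro z2
        unfold om0
        by_cases h1 : en (en b z1) z2 = v
        · by_cases h2 : en b z1 ∈ B 0
          · simp only [h1, h2, if_true, true_and]
            split_ifs
            · exact le_rfl
            · simp
          · simp [h2]
        · simp [h1]
    _ = ∑' z1 : List V, (if en b z1 ∈ B 0 then q 0 z1.length * pr N.P b z1 else 0)
          * ∑' z2 : List V, (if en (en b z1) z2 = v then q 0 z2.length * pr N.P (en b z1) z2
            else 0) := by
        congr 1
        funext z1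
        rw [ENNReal.tsum_mul_left]
    _ ≤ ∑' z1 : List V, (if en b z1 ∈ B 0 then q 0 z1.length * pr N.P b z1 else 0)
          * (kap * g (en b z1) v) := by
        apply ENNReal.tsum_le_tsum
        intro z1
        gcongr
        exact eb_seg_le N g hg kap (fun s => q 0 s.length) (fun s => hq _) _ _
    _ = ∑' z1 : List V, ∑' u, (if en b z1 = u then
          (if u ∈ B 0 then q 0 z1.length * pr N.P b z1 else 0) * (kap * g u v) else 0) := by
        congr 1
        funext z1
        rw [eb_tie (en b z1)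
          (fun u => (if u ∈ B 0 then q 0 z1.length * pr N.P b z1 else 0) * (kap * g u v))]
    _ = ∑' u, ∑' z1 : List V, (if en b z1 = u then
          (if u ∈ B 0 then q 0 z1.length * pr N.P b z1 else 0) * (kap * g u v) else 0) :=
        ENNReal.tsum_comm
    _ = ∑ u, eb_m0 N b q B u * (kap * g u v) := by
        rw [tsum_fintype]
        apply Finset.sum_congr rfl
        intro u _
        unfold eb_m0
        rw [← ENNReal.tsum_mul_right]
        congr 1
        funext z
        split_ifs <;> simp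

theorem nu_zero_le (hg : Grn N.P g) (kap S2 : ℝ≥0∞) (Bf : Finset V) (hBf : B 0 ⊆ Bf) (hb : b ∈ Bf)
    (hq : ∀ d, q 0 d ≤ kap) (hS2 : ∀ z ∈ Bf, ∑ u ∈ Bf, g u z ^ 2 ≤ S2) (v : V) :
    (chn N b q B).nu 0 v ≤ kap ^ 2 * S2 := by
  by_cases hv : v ∈ B 0
  · have hm : ∀ u, eb_m0 N b q B u ≤ kap * g b u := by
      intro u
      unfold eb_m0
      refine le_trans (ENNReal.tsum_le_tsum fun z => ?_)
        (eb_seg_le N g hg kap (fun s => q 0 s.length) (fun s => hq _) b u)
      by_cases h : en b z = u
      · simp only [h, if_true]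
        split_ifs
        · exact le_rfl
        · simp
      · simp [h]
    calc (chn N b q B).nu 0 v ≤ ∑ u, eb_m0 N b q B u * (kap * g u v) :=
          eb_nu_zero_decomp N b q B g hg kap hq v
      _ = ∑ u ∈ Bf, eb_m0 N b q B u * (kap * g u v) := by
          symm
          apply Finset.sum_subset (Finset.subset_univ _)
          intro u _ hu
          rw [eb_m0_supp, zero_mul]
          exact fun h => hu (hBf h)
      _ ≤ ∑ u ∈ Bf, (kap * g b u) * (kap * g u v) := by
          apply Finset.sum_le_sum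
          intro u _
          gcongr
          exact hm u
      _ = kap ^ 2 * ∑ u ∈ Bf, g b u * g u v := by
          rw [Finset.mul_sum]
          apply Finset.sum_congr rfl
          intro u _
          ring
      _ ≤ kap ^ 2 * S2 := by
          gcongr
          exact eb_gg_le N g hg S2 Bf hS2 b v hb (hBf hv)
  · rw [nu_supp N b q B 0 v hv]
    exact bot_le

/-- `nu j v` is dominated by `kap * ∑ m(u) g(u, v)` for a subprobability `m` -/
theorem eb_nu_decomp (hg : Grn N.P g) (kap : ℝ≥0∞) (j : ℕ) (Bf : Finset V)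
    (hBf : ∀ i ≤ j, B i ⊆ Bf)
    (hq : ∀ d, q j d ≤ kap) (hq1 : ∀ j, ∑' d, q j d ≤ 1) :
    ∃ m : V → ℝ≥0∞, (∀ u, u ∉ Bf → m u = 0) ∧ ∑ u, m u ≤ 1 ∧
      ∀ v, (chn N b q B).nu j v ≤ ∑ u, m u * (kap * g u v) := by
  cases j with
  | zero =>
    refine ⟨eb_m0 N b q B, ?_, eb_m0_sum N b q B (hq1 0), eb_nu_zero_decomp N b q B g hg kap hq⟩
    intro u hu
    exact eb_m0_supp N b q B u (fun h => hu (hBf 0 le_rfl h))
  | succ j =>
    refine ⟨(chn N b q B).nu j, ?_, nu_sum_le_one N b q B hq1 j, ?_⟩
    · intro u hu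
      exact nu_supp N b q B j u (fun h => hu (hBf j (Nat.le_succ j) h))
    · intro v
      change ∑ u, ∑' y, (if (chn N b q B).nx u y = v then
            (chn N b q B).tau j u y * (chn N b q B).nu j u else 0) ≤ _
      apply Finset.sum_le_sum
      intro u _
      calc ∑' y, (if (chn N b q B).nx u y = v then
            (chn N b q B).tau j u y * (chn N b q B).nu j u else 0)
          ≤ ∑' y : List V, (chn N b q B).nu j u *
              (if en u y = v then q (j + 1) y.length * pr N.P u y else 0) := by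
            apply ENNReal.tsum_le_tsum
            intro y
            simp only [tau_eq]
            by_cases h : en u y = v
            · simp only [chn, h, if_true]
              rw [mul_comm]
              gcongr
              split_ifs
              · exact le_rfl
              · simp
            · simp [chn, h]
        _ = (chn N b q B).nu j u *
              ∑' y : List V, (if en u y = v then q (j + 1) y.length * pr N.P u y else 0) :=
            ENNReal.tsum_mul_left
        _ ≤ (chn N b q B).nu j u * (kap * g u v) := by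
            gcongr
            exact eb_seg_le N g hg kap (fun s => q (j + 1) s.length) (fun s => hq _) _ _

theorem nu_succ_le (hg : Grn N.P g) (kap kap' S2 : ℝ≥0∞) (j : ℕ) (Bf : Finset V)
    (hb : b ∈ Bf) (hBf : ∀ i ≤ j + 1, B i ⊆ Bf)
    (hq : ∀ d, q j d ≤ kap) (hq' : ∀ d, q (j + 1) d ≤ kap') (hq1 : ∀ j, ∑' d, q j d ≤ 1)
    (hS2 : ∀ z ∈ Bf, ∑ u ∈ Bf, g u z ^ 2 ≤ S2) (v : V) :
    (chn N b q B).nu (j + 1) v ≤ kap * kap' * S2 := by
  by_cases hv : v ∈ B (j + 1)
  · obtain ⟨m, hm0, hm1, hm2⟩ := eb_nu_decomp N b q B g hg kap j Bf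
      (fun i hi => hBf i (hi.trans (Nat.le_succ j))) hq hq1
    have h1 : (chn N b q B).nu (j + 1) v ≤ ∑ u, (chn N b q B).nu j u * (kap' * g u v) := by
      change ∑ u, ∑' y, (if (chn N b q B).nx u y = v then
            (chn N b q B).tau j u y * (chn N b q B).nu j u else 0) ≤ _
      apply Finset.sum_le_sum
      intro u _
      calc ∑' y, (if (chn N b q B).nx u y = v then
            (chn N b q B).tau j u y * (chn N b q B).nu j u else 0)
          ≤ ∑' y : List V, (chn N b q B).nu j u *
              (if en u y = v then q (j + 1) y.length * pr N.P u y else 0) := by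
            apply ENNReal.tsum_le_tsum
            intro y
            simp only [tau_eq]
            by_cases h : en u y = v
            · simp only [chn, h, if_true]
              rw [mul_comm]
              gcongr
              split_ifs <;> simp
            · simp [chn, h]
        _ = (chn N b q B).nu j u *
              ∑' y : List V, (if en u y = v then q (j + 1) y.length * pr N.P u y else 0) :=
            ENNReal.tsum_mul_left
        _ ≤ (chn N b q B).nu j u * (kap' * g u v) := by
            gcongr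
            exact eb_seg_le N g hg kap' (fun s => q (j + 1) s.length) (fun s => hq' _) _ _
    calc (chn N b q B).nu (j + 1) v ≤ ∑ u, (chn N b q B).nu j u * (kap' * g u v) := h1
      _ = ∑ u ∈ Bf, (chn N b q B).nu j u * (kap' * g u v) := by
          symm
          apply Finset.sum_subset (Finset.subset_univ _)
          intro u _ hu
          rw [nu_supp N b q B j u (fun h => hu (hBf j (Nat.le_succ j) h)), zero_mul]
      _ ≤ ∑ u ∈ Bf, (∑ x, m x * (kap * g x u)) * (kap' * g u v) := by
          apply Finset.sum_le_sum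
          intro u _
          gcongr
          exact hm2 u
      _ = ∑ x, ∑ u ∈ Bf, m x * (kap * g x u) * (kap' * g u v) := by
          rw [Finset.sum_comm]
          apply Finset.sum_congr rfl
          intro u _
          rw [Finset.sum_mul]
      _ ≤ ∑ x, m x * (kap * kap' * S2) := by
          apply Finset.sum_le_sum
          intro x _
          by_cases hx : x ∈ Bf
          · calc ∑ u ∈ Bf, m x * (kap * g x u) * (kap' * g u v)
                = m x * (kap * kap' * ∑ u ∈ Bf, g x u * g u v) := by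
                  rw [Finset.mul_sum, Finset.mul_sum]
                  apply Finset.sum_congr rfl
                  intro u _
                  ring
              _ ≤ m x * (kap * kap' * S2) := by
                  gcongr
                  exact eb_gg_le N g hg S2 Bf hS2 x v hx (hBf _ le_rfl hv)
          · simp [hm0 x hx]
      _ = (∑ x, m x) * (kap * kap' * S2) := by rw [Finset.sum_mul]
      _ ≤ 1 * (kap * kap' * S2) := by gcongr
      _ = kap * kap' * S2 := one_mul _
  · rw [nu_supp N b q B (j + 1) v hv]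
    exact bot_le

/-- the first error vanishes -/
theorem err_zero : (chn N b q B).err 0 = 0 := by
  unfold Chain.err
  rw [ENNReal.tsum_eq_zero]
  intro w
  rw [mul_eq_zero]
  right
  rw [ENNReal.tsum_eq_zero]
  intro c
  rw [mul_eq_zero]
  right
  apply Finset.sum_eq_zero
  intro v _
  exact tsub_self _

/-- `v` is the last vertex of the nonempty path -/
def eb_la : List V → V → Prop
  | [], _ => False
  | x :: t, v => en x t = v

omit [Fintype V] in
theorem eb_la_append (p : List V) (v : V) (s : List V) (y : V) :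
    eb_la (p ++ v :: s) y ↔ en v s = y := by
  cases p with
  | nil => rfl
  | cons a p =>
    simp only [List.cons_append, eb_la]
    rw [en_append]
    rfl

omit [Fintype V] in
theorem eb_tsum_rev (F : List V → ℝ≥0∞) : ∑' α : List V, F α.reverse = ∑' α : List V, F α :=
  (Equiv.tsum_eq (List.reverse_involutive.toPerm (f := (List.reverse : List V → List V))) F)

omit [Fintype V] in
theorem eb_occ_nil (f : V → ℝ≥0∞) : occ f [] = 0 := rfl

omit [Fintype V] in
theorem eb_occ_cons (f : V → ℝ≥0∞) (x : V) (w : List V) : occ f (x :: w) = f x + occ f w := by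
  simp [occ]

omit [Fintype V] in
theorem eb_occ_append (f : V → ℝ≥0∞) (w w' : List V) : occ f (w ++ w') = occ f w + occ f w' := by
  simp [occ]

omit [Fintype V] in
theorem eb_occ_reverse (f : V → ℝ≥0∞) (w : List V) : occ f w.reverse = occ f w := by
  simp [occ, List.sum_reverse]

theorem eb_occ_eq1 (f : V → ℝ≥0∞) (w : List V) :
    ∑' π : List V, ∑ v, ∑' r : List V, (if w = π ++ v :: r then f v else 0) = occ f w := by
  induction w with
  | nil => simp [occ]
  | cons y w ih =>
    rw [tsum_list, eb_occ_cons, ← ih]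
    congr 1
    · simp only [List.nil_append, List.cons.injEq]
      rw [Finset.sum_eq_single y]
      · simp only [true_and]
        rw [eb_tie w (fun _ => f y)]
      · intro v _ hv
        simp [hv.symm]
      · simp
    · simp only [List.cons_append, List.cons.injEq]
      rw [Finset.sum_eq_single y]
      · simp only [true_and]
      · intro v _ hv
        simp [hv.symm]
      · simp

theorem eb_occ_eq2 (c : ℝ≥0∞) (z : V) (r : List V) (v : V) :
    ∑' s : List V, ∑' β : List V, (if r = s ++ β ∧ en v s = z then c else 0)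
      = occ (fun x => if x = z then c else 0) (v :: r) := by
  induction r generalizing v with
  | nil =>
    rw [tsum_list, eb_occ_cons, eb_occ_nil]
    congr 1
    · simp only [List.nil_append, en]
      by_cases h : v = z
      · simp only [h, and_true, if_true]
        rw [eb_tie [] (fun _ => c)]
      · simp [h]
    · simp
  | cons y r ih =>
    rw [tsum_list, eb_occ_cons, ← ih]
    congr 1
    · simp only [List.nil_append, en]
      by_cases h : v = z
      · simp only [h, and_true, if_true]
        rw [eb_tie (y :: r) (fun _ => c)]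
      · simp [h]
    · simp only [List.cons_append, List.cons.injEq, en]
      rw [Finset.sum_eq_single y]
      · simp only [true_and]
      · intro v _ hv
        simp [hv.symm]
      · simp

/-- occupation functional and decomposition at one point -/
theorem eb_occ_eq1' (f : V → ℝ≥0∞) (w : List V) :
    ∑ v, ∑' α : List V, ∑' r : List V, (if w = α.reverse ++ v :: r then f v else 0) = occ f w := by
  rw [← eb_occ_eq1, ← tsum_fintype (L := SummationFilter.unconditional _), ENNReal.tsum_comm]
  rw [← eb_tsum_rev (fun π => ∑ v, ∑' r : List V, (if w = π ++ v :: r then f v else 0))]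
  congr 1
  funext α
  rw [tsum_fintype]

/-- the same with another order of summation -/
theorem eb_occ_eq1'' (f : V → ℝ≥0∞) (w : List V) :
    ∑ v, ∑' r : List V, ∑' α : List V, (if w = α.reverse ++ v :: r then f v else 0) = occ f w := by
  rw [← eb_occ_eq1']
  apply Finset.sum_congr rfl
  intro v _
  exact ENNReal.tsum_comm

theorem eb_gg_supp (j : ℕ) (w : List V) (z : V) (hz : z ∉ B (j + 1)) :
    (chn N b q B).gg j w z = 0 := by
  unfold Chain.gg
  apply Finset.sum_eq_zero
  intro v _
  rw [ENNReal.tsum_eq_zero]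
  intro y
  split_ifs with h
  · simp only [chn] at h ⊢
    rw [mul_eq_zero]
    left
    unfold hst
    rw [ENNReal.tsum_eq_zero]
    intro α
    rw [ENNReal.tsum_eq_zero]
    intro β
    rw [if_neg]
    rintro ⟨_, h2⟩
    rw [h] at h2
    exact hz h2
  · rfl

/-- two marks on one host -/
theorem eb_two_marks (a : V → ℝ≥0∞) (c : ℝ≥0∞) (z : V) (w : List V) :
    ∑ v, ∑' s : List V, ∑' α : List V, ∑' β : List V,
      (if w = α.reverse ++ (v :: s) ++ β ∧ en v s = z then a v * c else 0)
      ≤ occ a w * occ (fun x => if x = z then c else 0) w := by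
  calc ∑ v, ∑' s : List V, ∑' α : List V, ∑' β : List V,
      (if w = α.reverse ++ (v :: s) ++ β ∧ en v s = z then a v * c else 0)
      = ∑ v, ∑' s : List V, ∑' α : List V, ∑' β : List V, ∑' r : List V,
        (if s ++ β = r then
          (if w = α.reverse ++ v :: r ∧ en v s = z then a v * c else 0) else 0) := by
        apply Finset.sum_congr rfl
        intro v _
        congr 1; funext s; congr 1; funext α; congr 1; funext β
        rw [eb_tie (s ++ β) (fun r => (if w = α.reverse ++ v :: r ∧ en v s = z then a v * c else 0))]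
        simp
    _ = ∑ v, ∑' α : List V, ∑' s : List V, ∑' β : List V, ∑' r : List V,
        (if s ++ β = r then
          (if w = α.reverse ++ v :: r ∧ en v s = z then a v * c else 0) else 0) := by
        apply Finset.sum_congr rfl
        intro v _
        exact ENNReal.tsum_comm
    _ = ∑ v, ∑' α : List V, ∑' r : List V, ∑' s : List V, ∑' β : List V,
        (if s ++ β = r then
          (if w = α.reverse ++ v :: r ∧ en v s = z then a v * c else 0) else 0) := by
        apply Finset.sum_congr rfl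
        intro v _
        congr 1; funext α
        calc _ = ∑' s : List V, ∑' r : List V, ∑' β : List V,
              (if s ++ β = r then
                (if w = α.reverse ++ v :: r ∧ en v s = z then a v * c else 0) else 0) := by
              congr 1; funext s
              exact ENNReal.tsum_comm
          _ = _ := ENNReal.tsum_comm
    _ = ∑ v, ∑' α : List V, ∑' r : List V, (if w = α.reverse ++ v :: r then a v *
          ∑' s : List V, ∑' β : List V, (if r = s ++ β ∧ en v s = z then c else 0) else 0) := by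
        apply Finset.sum_congr rfl
        intro v _
        congr 1; funext α; congr 1; funext r
        by_cases h : w = α.reverse ++ v :: r
        · simp only [h, true_and, if_true]
          rw [← ENNReal.tsum_mul_left]
          congr 1; funext s
          rw [← ENNReal.tsum_mul_left]
          congr 1; funext β
          by_cases h1 : s ++ β = r
          · by_cases h2 : en v s = z
            · simp [h1, h2]
            · simp [h1, h2]
          · have h1' : ¬ (r = s ++ β) := fun h => h1 h.symm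
            simp [h1, h1']
        · simp [h]
    _ ≤ ∑ v, ∑' α : List V, ∑' r : List V, (if w = α.reverse ++ v :: r then a v *
          occ (fun x => if x = z then c else 0) w else 0) := by
        apply Finset.sum_le_sum
        intro v _
        apply ENNReal.tsum_le_tsum
        intro α
        apply ENNReal.tsum_le_tsum
        intro r
        split_ifs with h
        · gcongr
          rw [eb_occ_eq2, h, eb_occ_append]
          exact le_add_self
        · exact le_rfl
    _ = occ (fun v => a v * occ (fun x => if x = z then c else 0) w) w := eb_occ_eq1' _ _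
    _ = occ a w * occ (fun x => if x = z then c else 0) w := by
        generalize occ (fun x => if x = z then c else 0) w = d
        unfold occ
        rw [List.sum_map_mul_right]

theorem eb_gg_bound (j : ℕ) (k1 : ℝ≥0∞) (hq1 : ∀ d, q (j + 1) d ≤ k1) (w : List V) (z : V) :
    (chn N b q B).gg j w z ≤ 2 * k1 * (occ (fun v => (chn N b q B).nu j v * (N.H v : ℝ≥0∞)⁻¹) w
      * occ (fun x => if x = z then (N.H z : ℝ≥0∞)⁻¹ else 0) w) := by
  calc (chn N b q B).gg j w z
      = ∑ v, ∑' s : List V, if en v s = z then hst N (q (j + 1)) (B (j + 1)) v s w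
          * (chn N b q B).nu j v else 0 := rfl
    _ ≤ ∑ v, ∑' s : List V, ∑' α : List V, ∑' β : List V, (2 * k1) *
      (if w = α.reverse ++ (v :: s) ++ β ∧ en v s = z then
        ((chn N b q B).nu j v * (N.H v : ℝ≥0∞)⁻¹) * (N.H z : ℝ≥0∞)⁻¹ else 0) := by
        apply Finset.sum_le_sum
        intro v _
        apply ENNReal.tsum_le_tsum
        intro s
        split_ifs with h
        · unfold hst
          rw [← ENNReal.tsum_mul_right]
          apply ENNReal.tsum_le_tsum
          intro α
          rw [← ENNReal.tsum_mul_right]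
          apply ENNReal.tsum_le_tsum
          intro β
          by_cases h1 : w = α.reverse ++ (v :: s) ++ β
          · by_cases h2 : en v s ∈ B (j + 1)
            · rw [if_pos ⟨h1, h2⟩, if_pos ⟨h1, h⟩, h, div_eq_mul_inv,
                ENNReal.mul_inv (Or.inr ENNReal.coe_ne_top) (Or.inl ENNReal.coe_ne_top)]
              calc 2 * q (j + 1) s.length * ((N.H v : ℝ≥0∞)⁻¹ * (N.H z : ℝ≥0∞)⁻¹)
                    * (chn N b q B).nu j v
                  = 2 * q (j + 1) s.length * ((chn N b q B).nu j v * (N.H v : ℝ≥0∞)⁻¹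
                    * (N.H z : ℝ≥0∞)⁻¹) := by ring
                _ ≤ _ := by
                  gcongr
                  exact hq1 _
            · rw [if_neg (fun h' => h2 h'.2)]
              simp
          · rw [if_neg (fun h' => h1 h'.1)]
            simp
        · exact bot_le
    _ = (2 * k1) * ∑ v, ∑' s : List V, ∑' α : List V, ∑' β : List V,
      (if w = α.reverse ++ (v :: s) ++ β ∧ en v s = z then
        ((chn N b q B).nu j v * (N.H v : ℝ≥0∞)⁻¹) * (N.H z : ℝ≥0∞)⁻¹ else 0) := by
        simp only [ENNReal.tsum_mul_left, Finset.mul_sum]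
    _ ≤ _ := by
        gcongr
        exact eb_two_marks (fun v => (chn N b q B).nu j v * (N.H v : ℝ≥0∞)⁻¹) _ z w

/-- weight of the mark `v` in the path `γ` -/
noncomputable def eb_kq (c : ℕ → ℝ≥0∞) (γ : List V) (v : V) : ℝ≥0∞ :=
  ∑' s : List V, ∑' α : List V, if γ = α.reverse ++ v :: s then c s.length * (N.H v : ℝ≥0∞)⁻¹ else 0

/-- the functional `X ↦ ∑ eb_kq(v) X(v)` -/
noncomputable def eb_Qg (c : ℕ → ℝ≥0∞) (X : V → ℝ≥0∞) (γ : List V) : ℝ≥0∞ :=
  ∑ v, eb_kq N c γ v * X v

theorem eb_Qg_le (c : ℕ → ℝ≥0∞) (k : ℝ≥0∞) (hc : ∀ d, c d ≤ k) (X : V → ℝ≥0∞) (γ : List V) :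
    eb_Qg N c X γ ≤ k * occ (fun v => X v * (N.H v : ℝ≥0∞)⁻¹) γ := by
  unfold eb_Qg eb_kq
  calc ∑ v, (∑' s : List V, ∑' α : List V,
        if γ = α.reverse ++ v :: s then c s.length * (N.H v : ℝ≥0∞)⁻¹ else 0) * X v
      = ∑ v, ∑' s : List V, ∑' α : List V,
        (if γ = α.reverse ++ v :: s then c s.length * (N.H v : ℝ≥0∞)⁻¹ else 0) * X v := by
        simp only [ENNReal.tsum_mul_right]
    _ ≤ ∑ v, ∑' s : List V, ∑' α : List V,
        k * (if γ = α.reverse ++ v :: s then X v * (N.H v : ℝ≥0∞)⁻¹ else 0) := by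
        apply Finset.sum_le_sum
        intro v _
        apply ENNReal.tsum_le_tsum
        intro s
        apply ENNReal.tsum_le_tsum
        intro α
        split_ifs
        · rw [mul_assoc, mul_comm (X v)]
          gcongr
          exact hc _
        · simp
    _ = k * ∑ v, ∑' s : List V, ∑' α : List V,
        (if γ = α.reverse ++ v :: s then X v * (N.H v : ℝ≥0∞)⁻¹ else 0) := by
        simp only [ENNReal.tsum_mul_left, Finset.mul_sum]
    _ = _ := by rw [eb_occ_eq1'']

/-- reordering of the sums -/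
theorem eb_comm5 (F : V → List V → List V → List V → List V → ℝ≥0∞) :
    ∑ v, ∑' s : List V, ∑' α : List V, ∑' β : List V, ∑' γ : List V, F v s α β γ
      = ∑' γ : List V, ∑' β : List V, ∑ v, ∑' s : List V, ∑' α : List V, F v s α β γ := by
  have h1 : ∀ G : V → List V → List V → List V × List V → ℝ≥0∞,
      ∑ v, ∑' s : List V, ∑' α : List V, ∑' p : List V × List V, G v s α p
      = ∑' p : List V × List V, ∑ v, ∑' s : List V, ∑' α : List V, G v s α p := by
    intro G
    calc ∑ v, ∑' s : List V, ∑' α : List V, ∑' p : List V × List V, G v s α p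
        = ∑ v, ∑' s : List V, ∑' p : List V × List V, ∑' α : List V, G v s α p := by
          apply Finset.sum_congr rfl
          intro v _
          congr 1; funext s
          exact ENNReal.tsum_comm
      _ = ∑ v, ∑' p : List V × List V, ∑' s : List V, ∑' α : List V, G v s α p := by
          apply Finset.sum_congr rfl
          intro v _
          exact ENNReal.tsum_comm
      _ = ∑' v, ∑' p : List V × List V, ∑' s : List V, ∑' α : List V, G v s α p := by
          rw [tsum_fintype]
      _ = ∑' p : List V × List V, ∑' v, ∑' s : List V, ∑' α : List V, G v s α p :=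
          ENNReal.tsum_comm
      _ = _ := by
          congr 1; funext p
          rw [tsum_fintype]
  have h2 := h1 (fun v s α p => F v s α p.2 p.1)
  rw [ENNReal.tsum_prod'] at h2
  rw [← h2]
  apply Finset.sum_congr rfl
  intro v _
  congr 1; funext s; congr 1; funext α
  rw [ENNReal.tsum_comm, ENNReal.tsum_prod']

theorem eb_Phi_eq (c : ℕ → ℝ≥0∞) (D : Set V) (X : V → ℝ≥0∞) (w : List V) (y : V) :
    (∑ v, ∑' s : List V, if en v s = y then hst N c D v s w * X v else 0)
      = ∑' γ : List V, ∑' β : List V, if w = γ ++ β ∧ eb_la γ y ∧ y ∈ D then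
          (2 * (N.H y : ℝ≥0∞)⁻¹) * eb_Qg N c X γ else 0 := by
  calc (∑ v, ∑' s : List V, if en v s = y then hst N c D v s w * X v else 0)
      = ∑ v, ∑' s : List V, ∑' α : List V, ∑' β : List V, ∑' γ : List V,
          if α.reverse ++ v :: s = γ then (if w = γ ++ β ∧ eb_la γ y ∧ y ∈ D then
            (2 * (N.H y : ℝ≥0∞)⁻¹) * (c s.length * (N.H v : ℝ≥0∞)⁻¹ * X v) else 0) else 0 := by
        apply Finset.sum_congr rfl
        intro v _
        congr 1; funext s
        by_cases h : en v s = y
        · rw [if_pos h]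
          unfold hst
          rw [← ENNReal.tsum_mul_right]
          congr 1; funext α
          rw [← ENNReal.tsum_mul_right]
          congr 1; funext β
          rw [eb_tie (α.reverse ++ v :: s) (fun γ => (if w = γ ++ β ∧ eb_la γ y ∧ y ∈ D then
            (2 * (N.H y : ℝ≥0∞)⁻¹) * (c s.length * (N.H v : ℝ≥0∞)⁻¹ * X v) else 0))]
          simp only [eb_la_append, h, true_and]
          by_cases h1 : w = α.reverse ++ (v :: s) ++ β
          · by_cases h2 : y ∈ D
            · rw [if_pos ⟨h1, h2⟩, if_pos ⟨h1, h2⟩, div_eq_mul_inv,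
                ENNReal.mul_inv (Or.inr ENNReal.coe_ne_top) (Or.inl ENNReal.coe_ne_top)]
              ring
            · rw [if_neg (fun h' => h2 h'.2), if_neg (fun h' => h2 h'.2)]
              simp
          · rw [if_neg (fun h' => h1 h'.1), if_neg (fun h' => h1 h'.1)]
            simp
        · rw [if_neg h]
          symm
          rw [ENNReal.tsum_eq_zero]
          intro α
          rw [ENNReal.tsum_eq_zero]
          intro β
          rw [eb_tie (α.reverse ++ v :: s) (fun γ => (if w = γ ++ β ∧ eb_la γ y ∧ y ∈ D then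
            (2 * (N.H y : ℝ≥0∞)⁻¹) * (c s.length * (N.H v : ℝ≥0∞)⁻¹ * X v) else 0))]
          simp only [eb_la_append, h, false_and, and_false, if_false]
    _ = ∑' γ : List V, ∑' β : List V, ∑ v, ∑' s : List V, ∑' α : List V,
          if α.reverse ++ v :: s = γ then (if w = γ ++ β ∧ eb_la γ y ∧ y ∈ D then
            (2 * (N.H y : ℝ≥0∞)⁻¹) * (c s.length * (N.H v : ℝ≥0∞)⁻¹ * X v) else 0) else 0 :=
        eb_comm5 _
    _ = _ := by
        congr 1; funext γ; congr 1; funext β
        split_ifs with h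
        · unfold eb_Qg eb_kq
          simp only [← ENNReal.tsum_mul_left, ← ENNReal.tsum_mul_right, Finset.mul_sum]
          apply Finset.sum_congr rfl
          intro v _
          congr 1; funext s; congr 1; funext α
          by_cases h1 : γ = α.reverse ++ v :: s
          · rw [if_pos h1.symm, if_pos h1]
          · rw [if_neg (fun h' => h1 h'.symm), if_neg h1]
            simp
        · simp

/-- the mark law at level `j + 1` in terms of the host densities -/
theorem eb_nu_succ_eq (j : ℕ) (v : V) :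
    (chn N b q B).nu (j + 1) v = ∑' w, iota N w * (chn N b q B).gg j w v := by
  calc (chn N b q B).nu (j + 1) v
      = ∑ u, ∑' y : List V, (if en u y = v then
            (∑' w, iota N w * (chn N b q B).h j u y w) * (chn N b q B).nu j u else 0) := rfl
    _ = ∑ u, ∑' y : List V, ∑' w, iota N w * (if en u y = v then
            (chn N b q B).h j u y w * (chn N b q B).nu j u else 0) := by
        apply Finset.sum_congr rfl
        intro u _
        congr 1; funext y
        split_ifs
        · rw [← ENNReal.tsum_mul_right]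
          congr 1; funext w
          ring
        · simp
    _ = ∑ u, ∑' w, ∑' y : List V, iota N w * (if en u y = v then
            (chn N b q B).h j u y w * (chn N b q B).nu j u else 0) := by
        apply Finset.sum_congr rfl
        intro u _
        exact ENNReal.tsum_comm
    _ = ∑' w, ∑ u, ∑' y : List V, iota N w * (if en u y = v then
            (chn N b q B).h j u y w * (chn N b q B).nu j u else 0) := by
        rw [← tsum_fintype (L := SummationFilter.unconditional _), ENNReal.tsum_comm]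
        congr 1; funext w
        rw [tsum_fintype]
    _ = _ := by
        congr 1; funext w
        simp only [ENNReal.tsum_mul_left, ← Finset.mul_sum]
        rfl

/-- splitting of the positive part -/
theorem eb_Phi_sub_le (c : ℕ → ℝ≥0∞) (D : Set V) (X Y : V → ℝ≥0∞) (w : List V) (y : V) :
    (∑ v, ∑' s : List V, if en v s = y then hst N c D v s w * X v else 0)
      - (∑ v, ∑' s : List V, if en v s = y then hst N c D v s w * Y v else 0)
      ≤ ∑' γ : List V, ∑' β : List V, if w = γ ++ β ∧ eb_la γ y ∧ y ∈ D then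
          (2 * (N.H y : ℝ≥0∞)⁻¹) * (eb_Qg N c X γ - eb_Qg N c Y γ) else 0 := by
  rw [tsub_le_iff_right, eb_Phi_eq, eb_Phi_eq, ← ENNReal.tsum_add]
  apply ENNReal.tsum_le_tsum
  intro γ
  rw [← ENNReal.tsum_add]
  apply ENNReal.tsum_le_tsum
  intro β
  split_ifs
  · rw [← mul_add]
    gcongr
    exact le_tsub_add
  · simp

/-- the sum over hosts and over the part of the host after the new mark -/
theorem eb_host_sum (D : Set V) (T : List V → ℝ≥0∞) :
    ∑' w, iota N w * ∑ y, ∑' γ : List V, ∑' β : List V, (if w = γ ++ β ∧ eb_la γ y ∧ y ∈ D then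
          (2 * (N.H y : ℝ≥0∞)⁻¹) * T γ else 0)
      = ∑ x, ∑' t : List V, (N.η x : ℝ≥0∞) * pr N.P x t *
          (if en x t ∈ D then T (x :: t) else 0) := by
  calc ∑' w, iota N w * ∑ y, ∑' γ : List V, ∑' β : List V, (if w = γ ++ β ∧ eb_la γ y ∧ y ∈ D then
          (2 * (N.H y : ℝ≥0∞)⁻¹) * T γ else 0)
      = ∑' w, ∑' y, ∑' γ : List V, ∑' β : List V, iota N w * (if w = γ ++ β ∧ eb_la γ y ∧ y ∈ D then
          (2 * (N.H y : ℝ≥0∞)⁻¹) * T γ else 0) := by
        simp only [← tsum_fintype (L := SummationFilter.unconditional _), ENNReal.tsum_mul_left]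
    _ = ∑' y, ∑' w, ∑' γ : List V, ∑' β : List V, iota N w * (if w = γ ++ β ∧ eb_la γ y ∧ y ∈ D then
          (2 * (N.H y : ℝ≥0∞)⁻¹) * T γ else 0) := ENNReal.tsum_comm
    _ = ∑' y, ∑' γ : List V, ∑' w, ∑' β : List V, iota N w * (if w = γ ++ β ∧ eb_la γ y ∧ y ∈ D then
          (2 * (N.H y : ℝ≥0∞)⁻¹) * T γ else 0) := by
        congr 1; funext y
        exact ENNReal.tsum_comm
    _ = ∑' y, ∑' γ : List V, ∑' β : List V, ∑' w, iota N w * (if w = γ ++ β ∧ eb_la γ y ∧ y ∈ D then
          (2 * (N.H y : ℝ≥0∞)⁻¹) * T γ else 0) := by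
        congr 1; funext y; congr 1; funext γ
        exact ENNReal.tsum_comm
    _ = ∑' y, ∑' γ : List V, ∑' β : List V, (if eb_la γ y ∧ y ∈ D then iota N (γ ++ β) *
          ((2 * (N.H y : ℝ≥0∞)⁻¹) * T γ) else 0) := by
        congr 1; funext y; congr 1; funext γ; congr 1; funext β
        rw [← eb_tie' (γ ++ β) (fun w => (if eb_la γ y ∧ y ∈ D then iota N w *
          ((2 * (N.H y : ℝ≥0∞)⁻¹) * T γ) else 0))]
        congr 1; funext w
        by_cases h : w = γ ++ β
        · simp only [h, true_and, if_true]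
          split_ifs <;> simp
        · simp [h]
    _ = ∑' γ : List V, ∑' y, ∑' β : List V, (if eb_la γ y ∧ y ∈ D then iota N (γ ++ β) *
          ((2 * (N.H y : ℝ≥0∞)⁻¹) * T γ) else 0) := ENNReal.tsum_comm
    _ = ∑ x, ∑' t : List V, ∑' y, ∑' β : List V, (if eb_la (x :: t) y ∧ y ∈ D then
          iota N ((x :: t) ++ β) * ((2 * (N.H y : ℝ≥0∞)⁻¹) * T (x :: t)) else 0) := by
        rw [tsum_list]
        simp [eb_la]
    _ = _ := by
        apply Finset.sum_congr rfl
        intro x _
        congr 1; funext t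
        rw [tsum_eq_single (en x t)]
        · by_cases h : en x t ∈ D
          · simp only [eb_la, h, and_self, if_true]
            calc ∑' β : List V, iota N (x :: t ++ β) *
                    ((2 * (N.H (en x t) : ℝ≥0∞)⁻¹) * T (x :: t))
                = ∑' β : List V, bw N (en x t) β * ((N.η x : ℝ≥0∞) * pr N.P x t *
                    ((2⁻¹ * 2) * (N.H (en x t) : ℝ≥0∞)⁻¹) * T (x :: t)) := by
                  congr 1; funext β
                  simp only [List.cons_append, iota, bw, pr_append, en_append, div_eq_mul_inv]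
                  ring
              _ = (N.H (en x t) : ℝ≥0∞) * ((N.η x : ℝ≥0∞) * pr N.P x t *
                    ((2⁻¹ * 2) * (N.H (en x t) : ℝ≥0∞)⁻¹) * T (x :: t)) := by
                  rw [ENNReal.tsum_mul_right, tsum_bw]
              _ = (N.η x : ℝ≥0∞) * pr N.P x t * T (x :: t) *
                    ((2⁻¹ * 2) * ((N.H (en x t) : ℝ≥0∞) * (N.H (en x t) : ℝ≥0∞)⁻¹)) := by
                  ring
              _ = (N.η x : ℝ≥0∞) * pr N.P x t * T (x :: t) := by
                  rw [ENNReal.inv_mul_cancel (by norm_num) (by norm_num),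
                    ENNReal.mul_inv_cancel (by exact_mod_cast (H_pos N _).ne')
                      ENNReal.coe_ne_top]
                  simp
          · simp [h]
        · intro y hy
          rw [ENNReal.tsum_eq_zero]
          intro β
          rw [if_neg]
          rintro ⟨h1, _⟩
          exact hy h1.symm

theorem eb_lin_Qg (c : ℕ → ℝ≥0∞) (G : List V → V → ℝ≥0∞) (γ : List V) (cl : List V →₀ ℕ) :
    lin (fun w => eb_Qg N c (G w) γ) cl = eb_Qg N c (fun v => lin (fun w => G w v) cl) γ := by
  unfold lin eb_Qg Finsupp.sum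
  simp only [Finset.mul_sum]
  rw [Finset.sum_comm]
  apply Finset.sum_congr rfl
  intro v _
  apply Finset.sum_congr rfl
  intro w _
  ring

theorem eb_tsum_Qg (c : ℕ → ℝ≥0∞) (G : List V → V → ℝ≥0∞) (γ : List V) :
    ∑' w, iota N w * eb_Qg N c (G w) γ = eb_Qg N c (fun v => ∑' w, iota N w * G w v) γ := by
  unfold eb_Qg
  simp only [Finset.mul_sum, ← ENNReal.tsum_mul_left]
  rw [← tsum_fintype (L := SummationFilter.unconditional _), ENNReal.tsum_comm]
  congr 1; funext w
  rw [tsum_fintype]
  apply Finset.sum_congr rfl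
  intro v _
  ring

theorem eb_err_le1 (j : ℕ) :
    (chn N b q B).err (j + 1) ≤ ∑ x, ∑' t : List V, (N.η x : ℝ≥0∞) * pr N.P x t *
          (if en x t ∈ B (j + 2) then ∑' c, npw (iota N) c *
            (eb_Qg N (q (j + 2)) ((chn N b q B).xi (j + 1) c) (x :: t)
              - eb_Qg N (q (j + 2)) ((chn N b q B).nu (j + 1)) (x :: t)) else 0) := by
  rw [← eb_host_sum N (B (j + 2)) (fun γ => ∑' c, npw (iota N) c *
            (eb_Qg N (q (j + 2)) ((chn N b q B).xi (j + 1) c) γ
              - eb_Qg N (q (j + 2)) ((chn N b q B).nu (j + 1)) γ))]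
  unfold Chain.err
  apply ENNReal.tsum_le_tsum
  intro w
  change iota N w * _ ≤ _
  gcongr
  calc ∑' c, npw (chn N b q B).l c * ∑ v', ((∑ v, ∑' y, if (chn N b q B).nx v y = v' then
          (chn N b q B).h (j + 1) v y w * (chn N b q B).xi (j + 1) c v else 0)
            - (chn N b q B).gg (j + 1) w v')
      ≤ ∑' c, npw (iota N) c * ∑ y, ∑' γ : List V, ∑' β : List V,
          (if w = γ ++ β ∧ eb_la γ y ∧ y ∈ B (j + 2) then
          (2 * (N.H y : ℝ≥0∞)⁻¹) * (eb_Qg N (q (j + 2)) ((chn N b q B).xi (j + 1) c) γ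
            - eb_Qg N (q (j + 2)) ((chn N b q B).nu (j + 1)) γ) else 0) := by
        apply ENNReal.tsum_le_tsum
        intro c
        change npw (iota N) c * _ ≤ _
        gcongr with y _
        exact eb_Phi_sub_le N (q (j + 2)) (B (j + 2)) _ _ w y
    _ = ∑' c, ∑' y, ∑' γ : List V, ∑' β : List V, npw (iota N) c *
          (if w = γ ++ β ∧ eb_la γ y ∧ y ∈ B (j + 2) then
          (2 * (N.H y : ℝ≥0∞)⁻¹) * (eb_Qg N (q (j + 2)) ((chn N b q B).xi (j + 1) c) γ
            - eb_Qg N (q (j + 2)) ((chn N b q B).nu (j + 1)) γ) else 0) := by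
        simp only [← tsum_fintype (L := SummationFilter.unconditional _), ENNReal.tsum_mul_left]
    _ = ∑' y, ∑' c, ∑' γ : List V, ∑' β : List V, npw (iota N) c *
          (if w = γ ++ β ∧ eb_la γ y ∧ y ∈ B (j + 2) then
          (2 * (N.H y : ℝ≥0∞)⁻¹) * (eb_Qg N (q (j + 2)) ((chn N b q B).xi (j + 1) c) γ
            - eb_Qg N (q (j + 2)) ((chn N b q B).nu (j + 1)) γ) else 0) := ENNReal.tsum_comm
    _ = ∑' y, ∑' γ : List V, ∑' c, ∑' β : List V, npw (iota N) c *
          (if w = γ ++ β ∧ eb_la γ y ∧ y ∈ B (j + 2) then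
          (2 * (N.H y : ℝ≥0∞)⁻¹) * (eb_Qg N (q (j + 2)) ((chn N b q B).xi (j + 1) c) γ
            - eb_Qg N (q (j + 2)) ((chn N b q B).nu (j + 1)) γ) else 0) := by
        congr 1; funext y
        exact ENNReal.tsum_comm
    _ = ∑' y, ∑' γ : List V, ∑' β : List V, ∑' c, npw (iota N) c *
          (if w = γ ++ β ∧ eb_la γ y ∧ y ∈ B (j + 2) then
          (2 * (N.H y : ℝ≥0∞)⁻¹) * (eb_Qg N (q (j + 2)) ((chn N b q B).xi (j + 1) c) γ
            - eb_Qg N (q (j + 2)) ((chn N b q B).nu (j + 1)) γ) else 0) := by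
        congr 1; funext y; congr 1; funext γ
        exact ENNReal.tsum_comm
    _ = _ := by
        rw [tsum_fintype]
        apply Finset.sum_congr rfl
        intro y _
        congr 1; funext γ; congr 1; funext β
        split_ifs
        · rw [← ENNReal.tsum_mul_left]
          congr 1; funext c
          ring
        · simp
    _ ≤ _ := le_rfl

theorem eb_occ_ne_top (f : V → ℝ≥0∞) (hf : ∀ v, f v ≠ ∞) (w : List V) : occ f w ≠ ∞ := by
  induction w with
  | nil => simp [occ]
  | cons x w ih =>
    rw [eb_occ_cons]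
    exact ENNReal.add_ne_top.2 ⟨hf x, ih⟩

theorem eb_H_inv_ne_top (v : V) : (N.H v : ℝ≥0∞)⁻¹ ≠ ∞ :=
  ENNReal.inv_ne_top.2 (by exact_mod_cast (H_pos N v).ne')

theorem eb_H_inv_mul (v : V) : (N.H v : ℝ≥0∞)⁻¹ * (N.H v : ℝ≥0∞) = 1 :=
  ENNReal.inv_mul_cancel (by exact_mod_cast (H_pos N v).ne') ENNReal.coe_ne_top

theorem eb_T_le (hq : ∀ j, ∑' d, q j d ≤ 1) (j : ℕ) (lam : ℝ≥0∞) (hlam0 : lam ≠ 0)
    (hlam1 : lam ≠ ∞) (γ : List V) :
    ∑' c, npw (iota N) c * (eb_Qg N (q (j + 2)) ((chn N b q B).xi (j + 1) c) γ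
              - eb_Qg N (q (j + 2)) ((chn N b q B).nu (j + 1)) γ)
      ≤ (lam + (∑' w, iota N w * eb_Qg N (q (j + 2)) ((chn N b q B).gg j w) γ ^ 2) / lam) / 2 := by
  have h2 : eb_Qg N (q (j + 2)) ((chn N b q B).nu (j + 1)) γ
      = ∑' w, iota N w * eb_Qg N (q (j + 2)) ((chn N b q B).gg j w) γ := by
    rw [eb_tsum_Qg]
    congr 1
    funext v
    rw [eb_nu_succ_eq]
  have h3 : eb_Qg N (q (j + 2)) ((chn N b q B).nu (j + 1)) γ ≠ ∞ := by
    have hc : ∀ d, q (j + 2) d ≤ 1 := fun d => (ENNReal.le_tsum d).trans (hq (j + 2))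
    refine ne_top_of_le_ne_top ?_ (eb_Qg_le N (q (j + 2)) 1 hc _ γ)
    rw [one_mul]
    apply eb_occ_ne_top
    intro v
    exact ENNReal.mul_ne_top (ne_top_of_le_ne_top ENNReal.one_ne_top
      (eb_nu_le_one N b q B hq (j + 1) v)) (eb_H_inv_ne_top N v)
  have h4 := pospart (iota N) (tsum_iota_ne_top N)
    (fun w => eb_Qg N (q (j + 2)) ((chn N b q B).gg j w) γ) (by rw [← h2]; exact h3) lam hlam0 hlam1
  rw [← h2] at h4
  refine le_trans (le_of_eq ?_) h4
  congr 1
  funext c
  rw [eb_lin_Qg]
  rfl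

theorem eb_K_bound (hg : Grn N.P g) (j : ℕ) (Bf : Finset V) (hBf : B j ⊆ Bf)
    (k1 Nn S1 S2 hh : ℝ≥0∞)
    (hq1 : ∀ d, q (j + 1) d ≤ k1)
    (hnu : ∀ v, (chn N b q B).nu j v ≤ Nn)
    (hS1 : ∀ z ∈ Bf, ∑ u ∈ Bf, g u z ≤ S1) (hS2 : ∀ z ∈ Bf, ∑ u ∈ Bf, g u z ^ 2 ≤ S2)
    (hh0 : hh ≠ 0) (hh1 : hh ≠ ∞) (hH : ∀ v ∈ Bf, hh ≤ (N.H v : ℝ≥0∞))
    (z z' : V) (hz : z ∈ Bf) (hz' : z' ∈ Bf) :
    ∑' w, iota N w * ((chn N b q B).gg j w z * (chn N b q B).gg j w z')
      ≤ (2 * k1) ^ 2 * (6 * Nn ^ 2 / hh ^ 2 * (S1 ^ 2 * g z z' + S1 * S2)) := by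
  calc ∑' w, iota N w * ((chn N b q B).gg j w z * (chn N b q B).gg j w z')
      ≤ ∑' w, (2 * k1) ^ 2 * (iota N w *
          (occ (fun v => (chn N b q B).nu j v * (N.H v : ℝ≥0∞)⁻¹) w ^ 2
          * (occ (fun x => if x = z then (N.H z : ℝ≥0∞)⁻¹ else 0) w
            * occ (fun x => if x = z' then (N.H z' : ℝ≥0∞)⁻¹ else 0) w))) := by
        apply ENNReal.tsum_le_tsum
        intro w
        calc iota N w * ((chn N b q B).gg j w z * (chn N b q B).gg j w z')
            ≤ iota N w * ((2 * k1 * (occ (fun v => (chn N b q B).nu j v * (N.H v : ℝ≥0∞)⁻¹) w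
                * occ (fun x => if x = z then (N.H z : ℝ≥0∞)⁻¹ else 0) w))
                * (2 * k1 * (occ (fun v => (chn N b q B).nu j v * (N.H v : ℝ≥0∞)⁻¹) w
                * occ (fun x => if x = z' then (N.H z' : ℝ≥0∞)⁻¹ else 0) w))) := by
              gcongr
              · exact eb_gg_bound N b q B j k1 hq1 w z
              · exact eb_gg_bound N b q B j k1 hq1 w z'
          _ = _ := by ring
    _ = (2 * k1) ^ 2 * ∑' w, iota N w *
          (occ (fun v => (chn N b q B).nu j v * (N.H v : ℝ≥0∞)⁻¹) w ^ 2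
          * (occ (fun x => if x = z then (N.H z : ℝ≥0∞)⁻¹ else 0) w
            * occ (fun x => if x = z' then (N.H z' : ℝ≥0∞)⁻¹ else 0) w)) :=
        ENNReal.tsum_mul_left
    _ ≤ _ := by
        gcongr
        apply mom4_two N g hg Bf _ Nn S1 S2 hh ?_ ?_ hS1 hS2 hh0 hh1 hH z z' hz hz'
        · intro v hv
          rw [nu_supp N b q B j v (fun h => hv (hBf h)), zero_mul]
        · intro v
          rw [mul_assoc, eb_H_inv_mul, mul_one]
          exact hnu v

theorem eb_mom2_B (hg : Grn N.P g) (Bf : Finset V) (S1 hh : ℝ≥0∞)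
    (hS1 : ∀ z ∈ Bf, ∑ u ∈ Bf, g u z ≤ S1) (hH : ∀ v ∈ Bf, hh ≤ (N.H v : ℝ≥0∞))
    (F : V → ℝ≥0∞) (hF : ∀ z, z ∉ Bf → F z = 0) :
    ∑ u ∈ Bf, ∑' p, bw N u p * occ (fun z => F z * (N.H z : ℝ≥0∞)⁻¹) (u :: p) ^ 2
      ≤ 2 * hh⁻¹ * S1 * ∑ z ∈ Bf, ∑ z' ∈ Bf, g z z' * (F z * F z') := by
  calc ∑ u ∈ Bf, ∑' p, bw N u p * occ (fun z => F z * (N.H z : ℝ≥0∞)⁻¹) (u :: p) ^ 2
      ≤ ∑ u ∈ Bf, ∑ z ∈ Bf, ∑ z' ∈ Bf, g u z * (2 * hh⁻¹ * (g z z' * (F z * F z'))) := by
        apply Finset.sum_le_sum
        intro u _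
        calc ∑' p, bw N u p * occ (fun z => F z * (N.H z : ℝ≥0∞)⁻¹) (u :: p) ^ 2
            ≤ ∑ z, ∑ z', (F z * (N.H z : ℝ≥0∞)⁻¹ * (F z' * (N.H z' : ℝ≥0∞)⁻¹)
                + F z * (N.H z : ℝ≥0∞)⁻¹ * (F z' * (N.H z' : ℝ≥0∞)⁻¹))
                * (g u z * g z z' * (N.H z' : ℝ≥0∞)) := by
              have h := mom2 N g hg (fun z => F z * (N.H z : ℝ≥0∞)⁻¹)
                (fun z => F z * (N.H z : ℝ≥0∞)⁻¹) u
              simpa only [sq] using h
          _ = ∑ z, ∑ z', g u z * (2 * (N.H z : ℝ≥0∞)⁻¹ * (g z z' * (F z * F z'))) := by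
              apply Finset.sum_congr rfl
              intro z _
              apply Finset.sum_congr rfl
              intro z' _
              calc (F z * (N.H z : ℝ≥0∞)⁻¹ * (F z' * (N.H z' : ℝ≥0∞)⁻¹)
                + F z * (N.H z : ℝ≥0∞)⁻¹ * (F z' * (N.H z' : ℝ≥0∞)⁻¹))
                * (g u z * g z z' * (N.H z' : ℝ≥0∞))
                  = g u z * (2 * (N.H z : ℝ≥0∞)⁻¹ * (g z z' * (F z * F z')))
                    * ((N.H z' : ℝ≥0∞)⁻¹ * (N.H z' : ℝ≥0∞)) := by ring
                _ = _ := by rw [eb_H_inv_mul, mul_one]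
          _ = ∑ z ∈ Bf, ∑ z' ∈ Bf, g u z * (2 * (N.H z : ℝ≥0∞)⁻¹ * (g z z' * (F z * F z'))) := by
              symm
              rw [← Finset.sum_subset (Finset.subset_univ Bf)]
              · apply Finset.sum_congr rfl
                intro z _
                apply Finset.sum_subset (Finset.subset_univ _)
                intro z' _ hz'
                rw [hF z' hz']
                simp
              · intro z _ hz
                apply Finset.sum_eq_zero
                intro z' _
                rw [hF z hz]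
                simp
          _ ≤ _ := by
              apply Finset.sum_le_sum
              intro z hz
              apply Finset.sum_le_sum
              intro z' _
              gcongr
              exact hH z hz
    _ = ∑ z ∈ Bf, ∑ z' ∈ Bf, (∑ u ∈ Bf, g u z) * (2 * hh⁻¹ * (g z z' * (F z * F z'))) := by
        rw [Finset.sum_comm]
        apply Finset.sum_congr rfl
        intro z _
        rw [Finset.sum_comm]
        apply Finset.sum_congr rfl
        intro z' _
        rw [Finset.sum_mul]
    _ ≤ ∑ z ∈ Bf, ∑ z' ∈ Bf, S1 * (2 * hh⁻¹ * (g z z' * (F z * F z'))) := by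
        apply Finset.sum_le_sum
        intro z hz
        apply Finset.sum_le_sum
        intro z' _
        gcongr
        exact hS1 z hz
    _ = _ := by
        simp only [Finset.mul_sum]
        apply Finset.sum_congr rfl
        intro z _
        apply Finset.sum_congr rfl
        intro z' _
        ring

theorem eb_M_bound (hg : Grn N.P g) (j : ℕ) (Bf : Finset V) (hBf : ∀ i ≤ j + 2, B i ⊆ Bf)
    (k1 Nn S0 S1 S2 hh : ℝ≥0∞)
    (hq1 : ∀ d, q (j + 1) d ≤ k1)
    (hnu : ∀ v, (chn N b q B).nu j v ≤ Nn)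
    (hS0 : (Bf.card : ℝ≥0∞) ≤ S0)
    (hS1 : ∀ z ∈ Bf, ∑ u ∈ Bf, g u z ≤ S1) (hS2 : ∀ z ∈ Bf, ∑ u ∈ Bf, g u z ^ 2 ≤ S2)
    (hh0 : hh ≠ 0) (hh1 : hh ≠ ∞) (hH : ∀ v ∈ Bf, hh ≤ (N.H v : ℝ≥0∞)) :
    ∑ u ∈ Bf, ∑' p, bw N u p * ∑' w, iota N w *
        occ (fun z => (chn N b q B).gg j w z * (N.H z : ℝ≥0∞)⁻¹) (u :: p) ^ 2
      ≤ 2 * hh⁻¹ * S1 * ((2 * k1) ^ 2 * (6 * Nn ^ 2 / hh ^ 2 * (2 * (S0 * S1 ^ 2 * S2)))) := by
  calc ∑ u ∈ Bf, ∑' p, bw N u p * ∑' w, iota N w *
        occ (fun z => (chn N b q B).gg j w z * (N.H z : ℝ≥0∞)⁻¹) (u :: p) ^ 2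
      = ∑ u ∈ Bf, ∑' p, ∑' w, iota N w * (bw N u p *
        occ (fun z => (chn N b q B).gg j w z * (N.H z : ℝ≥0∞)⁻¹) (u :: p) ^ 2) := by
        apply Finset.sum_congr rfl
        intro u _
        congr 1; funext p
        rw [← ENNReal.tsum_mul_left]
        congr 1; funext w
        ring
    _ = ∑ u ∈ Bf, ∑' w, ∑' p, iota N w * (bw N u p *
        occ (fun z => (chn N b q B).gg j w z * (N.H z : ℝ≥0∞)⁻¹) (u :: p) ^ 2) := by
        apply Finset.sum_congr rfl
        intro u _
        exact ENNReal.tsum_comm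
    _ = ∑' w, ∑ u ∈ Bf, ∑' p, iota N w * (bw N u p *
        occ (fun z => (chn N b q B).gg j w z * (N.H z : ℝ≥0∞)⁻¹) (u :: p) ^ 2) := by
        rw [Summable.tsum_finsetSum]
        intro i _
        exact ENNReal.summable
    _ = ∑' w, iota N w * ∑ u ∈ Bf, ∑' p, bw N u p *
        occ (fun z => (chn N b q B).gg j w z * (N.H z : ℝ≥0∞)⁻¹) (u :: p) ^ 2 := by
        simp only [ENNReal.tsum_mul_left, Finset.mul_sum]
    _ ≤ ∑' w, iota N w * (2 * hh⁻¹ * S1 * ∑ z ∈ Bf, ∑ z' ∈ Bf,
          g z z' * ((chn N b q B).gg j w z * (chn N b q B).gg j w z')) := by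
        apply ENNReal.tsum_le_tsum
        intro w
        gcongr
        apply eb_mom2_B N g hg Bf S1 hh hS1 hH (fun z => (chn N b q B).gg j w z)
        intro z hz
        exact eb_gg_supp N b q B j w z (fun h => hz (hBf (j + 1) (by omega) h))
    _ = 2 * hh⁻¹ * S1 * ∑' w, ∑ z ∈ Bf, ∑ z' ∈ Bf,
          g z z' * (iota N w * ((chn N b q B).gg j w z * (chn N b q B).gg j w z')) := by
        rw [← ENNReal.tsum_mul_left]
        congr 1; funext w
        simp only [Finset.mul_sum]
        apply Finset.sum_congr rfl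
        intro z _
        apply Finset.sum_congr rfl
        intro z' _
        ring
    _ = 2 * hh⁻¹ * S1 * ∑ z ∈ Bf, ∑ z' ∈ Bf,
          g z z' * ∑' w, (iota N w * ((chn N b q B).gg j w z * (chn N b q B).gg j w z')) := by
        congr 1
        rw [Summable.tsum_finsetSum (fun i _ => ENNReal.summable)]
        apply Finset.sum_congr rfl
        intro z _
        rw [Summable.tsum_finsetSum (fun i _ => ENNReal.summable)]
        apply Finset.sum_congr rfl
        intro z' _
        rw [ENNReal.tsum_mul_left]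
    _ ≤ 2 * hh⁻¹ * S1 * ∑ z ∈ Bf, ∑ z' ∈ Bf,
          g z z' * ((2 * k1) ^ 2 * (6 * Nn ^ 2 / hh ^ 2 * (S1 ^ 2 * g z z' + S1 * S2))) := by
        gcongr with z hz z' hz'
        exact eb_K_bound N b q B g hg j Bf (hBf j (by omega)) k1 Nn S1 S2 hh hq1 hnu hS1 hS2
          hh0 hh1 hH z z' hz hz'
    _ = 2 * hh⁻¹ * S1 * ((2 * k1) ^ 2 * (6 * Nn ^ 2 / hh ^ 2 *
          ∑ z ∈ Bf, ∑ z' ∈ Bf, (S1 ^ 2 * g z z' ^ 2 + S1 * S2 * g z z'))) := by
        congr 1
        simp only [Finset.mul_sum]
        apply Finset.sum_congr rfl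
        intro z _
        apply Finset.sum_congr rfl
        intro z' _
        ring
    _ ≤ 2 * hh⁻¹ * S1 * ((2 * k1) ^ 2 * (6 * Nn ^ 2 / hh ^ 2 *
          (2 * (S0 * S1 ^ 2 * S2)))) := by
        gcongr
        rw [Finset.sum_comm]
        calc ∑ z' ∈ Bf, ∑ z ∈ Bf, (S1 ^ 2 * g z z' ^ 2 + S1 * S2 * g z z')
            = ∑ z' ∈ Bf, (S1 ^ 2 * ∑ z ∈ Bf, g z z' ^ 2 + S1 * S2 * ∑ z ∈ Bf, g z z') := by
              apply Finset.sum_congr rfl
              intro z' _
              rw [Finset.sum_add_distrib, Finset.mul_sum, Finset.mul_sum]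
          _ ≤ ∑ z' ∈ Bf, (S1 ^ 2 * S2 + S1 * S2 * S1) := by
              gcongr with z' hz'
              · exact hS2 z' hz'
              · exact hS1 z' hz'
          _ = (Bf.card : ℝ≥0∞) * (S1 ^ 2 * S2 + S1 * S2 * S1) := by
              rw [Finset.sum_const, nsmul_eq_mul]
          _ ≤ S0 * (S1 ^ 2 * S2 + S1 * S2 * S1) := by gcongr
          _ = _ := by ring

theorem err_bound (hg : Grn N.P g) (j : ℕ) (Bf : Finset V) (hBf : ∀ i ≤ j + 2, B i ⊆ Bf)
    (k1 k2 Nn S0 S1 S2 SH hh lam : ℝ≥0∞)
    (hq1 : ∀ d, q (j + 1) d ≤ k1) (hq2 : ∀ d, q (j + 2) d ≤ k2)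
    (hnu : ∀ v, (chn N b q B).nu j v ≤ Nn)
    (hS0 : (Bf.card : ℝ≥0∞) ≤ S0)
    (hS1 : ∀ z ∈ Bf, ∑ u ∈ Bf, g u z ≤ S1) (hS2 : ∀ z ∈ Bf, ∑ u ∈ Bf, g u z ^ 2 ≤ S2)
    (hSH : ∑ u ∈ Bf, (N.H u : ℝ≥0∞) ≤ SH)
    (hh0 : hh ≠ 0) (hh1 : hh ≠ ∞) (hH : ∀ v ∈ Bf, hh ≤ (N.H v : ℝ≥0∞))
    (hlam0 : lam ≠ 0) (hlam1 : lam ≠ ∞) (hq : ∀ j, ∑' d, q j d ≤ 1) :
    (chn N b q B).err (j + 1)
      ≤ (lam * SH + 96 * k1 ^ 2 * k2 ^ 2 * Nn ^ 2 * S0 * S1 ^ 3 * S2 / (hh ^ 3 * lam)) / 2 := by
  -- the bound for one path
  set A : List V → ℝ≥0∞ := fun γ => ∑' w, iota N w *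
        occ (fun z => (chn N b q B).gg j w z * (N.H z : ℝ≥0∞)⁻¹) γ ^ 2 with hA
  set F : List V → ℝ≥0∞ := fun γ => if ∃ y ∈ B (j + 2), eb_la γ y then
    (lam + k2 ^ 2 * A γ / lam) / 2 else 0 with hF
  have hA' : ∀ γ, A γ.reverse = A γ := by
    intro γ
    simp only [hA, eb_occ_reverse]
  calc (chn N b q B).err (j + 1) ≤ ∑ x, ∑' t : List V, (N.η x : ℝ≥0∞) * pr N.P x t *
          (if en x t ∈ B (j + 2) then ∑' c, npw (iota N) c *
            (eb_Qg N (q (j + 2)) ((chn N b q B).xi (j + 1) c) (x :: t)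
              - eb_Qg N (q (j + 2)) ((chn N b q B).nu (j + 1)) (x :: t)) else 0) :=
        eb_err_le1 N b q B j
    _ ≤ ∑ x, ∑' t : List V, (N.η x : ℝ≥0∞) * pr N.P x t * F (x :: t) := by
        apply Finset.sum_le_sum
        intro x _
        apply ENNReal.tsum_le_tsum
        intro t
        gcongr
        split_ifs with h
        · have h' : ∃ y ∈ B (j + 2), eb_la (x :: t) y := ⟨en x t, h, rfl⟩
          simp only [hF, if_pos h']
          refine (eb_T_le N b q B hq j lam hlam0 hlam1 (x :: t)).trans ?_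
          gcongr
          simp only [hA]
          rw [← ENNReal.tsum_mul_left]
          apply ENNReal.tsum_le_tsum
          intro w
          calc iota N w * eb_Qg N (q (j + 2)) ((chn N b q B).gg j w) (x :: t) ^ 2
              ≤ iota N w * (k2 * occ (fun z => (chn N b q B).gg j w z * (N.H z : ℝ≥0∞)⁻¹)
                  (x :: t)) ^ 2 := by
                gcongr
                exact eb_Qg_le N (q (j + 2)) k2 hq2 _ _
            _ = _ := by ring
        · exact bot_le
    _ = ∑ u, ∑' p, bw N u p * F ((u :: p).reverse) := tsum_reverse N F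
    _ ≤ ∑ u ∈ Bf, ∑' p, bw N u p * ((lam + k2 ^ 2 * A (u :: p) / lam) / 2) := by
        rw [← Finset.sum_subset (Finset.subset_univ Bf)]
        · apply Finset.sum_le_sum
          intro u _
          apply ENNReal.tsum_le_tsum
          intro p
          gcongr
          simp only [hF]
          split_ifs
          · rw [hA']
          · exact bot_le
        · intro u _ hu
          rw [ENNReal.tsum_eq_zero]
          intro p
          rw [mul_eq_zero]
          right
          simp only [hF]
          rw [if_neg]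
          rintro ⟨y, hy, h⟩
          rw [List.reverse_cons, eb_la_append] at h
          simp only [en] at h
          rw [h] at hu
          exact hu (hBf (j + 2) le_rfl hy)
    _ = (lam * ∑ u ∈ Bf, ∑' p, bw N u p
          + k2 ^ 2 * lam⁻¹ * ∑ u ∈ Bf, ∑' p, bw N u p * A (u :: p)) * 2⁻¹ := by
        simp only [Finset.mul_sum, ← ENNReal.tsum_mul_left, ← Finset.sum_add_distrib,
          ← ENNReal.tsum_add, Finset.sum_mul, ← ENNReal.tsum_mul_right]
        apply Finset.sum_congr rfl
        intro u _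
        congr 1; funext p
        simp only [div_eq_mul_inv]
        ring
    _ ≤ (lam * SH + k2 ^ 2 * lam⁻¹ *
          (2 * hh⁻¹ * S1 * ((2 * k1) ^ 2 * (6 * Nn ^ 2 / hh ^ 2 * (2 * (S0 * S1 ^ 2 * S2)))))) * 2⁻¹
            := by
        gcongr
        · simp only [tsum_bw]
          exact hSH
        · exact eb_M_bound N b q B g hg j Bf hBf k1 Nn S0 S1 S2 hh hq1 hnu hS0 hS1 hS2 hh0 hh1 hH
    _ = _ := by
        rw [div_eq_mul_inv _ (2 : ℝ≥0∞), div_eq_mul_inv _ (hh ^ 3 * lam),
          ENNReal.mul_inv (Or.inl (pow_ne_zero _ hh0)) (Or.inr hlam0), div_eq_mul_inv,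
          ENNReal.inv_pow, ENNReal.inv_pow]
        ring

theorem eb_occ_sum_ite (Bf : Finset V) (c : V → ℝ≥0∞) (w : List V) :
    ∑ v ∈ Bf, occ (fun x => if x = v then c v else 0) w
      = occ (fun x => if x ∈ Bf then c x else 0) w := by
  induction w with
  | nil => simp [occ]
  | cons x w ih =>
    simp only [eb_occ_cons]
    rw [Finset.sum_add_distrib, ih]
    congr 1
    simp

theorem eb_gg_sum_bound (j : ℕ) (Bf : Finset V) (hBf : B (j + 1) ⊆ Bf) (k1 : ℝ≥0∞)
    (hq1 : ∀ d, q (j + 1) d ≤ k1) (w : List V) :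
    ∑ v, (chn N b q B).gg j w v ≤ 2 * k1 *
      (occ (fun v => (chn N b q B).nu j v * (N.H v : ℝ≥0∞)⁻¹) w
      * occ (fun x => if x ∈ Bf then (N.H x : ℝ≥0∞)⁻¹ else 0) w) := by
  calc ∑ v, (chn N b q B).gg j w v = ∑ v ∈ Bf, (chn N b q B).gg j w v := by
        symm
        apply Finset.sum_subset (Finset.subset_univ _)
        intro v _ hv
        exact eb_gg_supp N b q B j w v (fun h => hv (hBf h))
    _ ≤ ∑ v ∈ Bf, 2 * k1 * (occ (fun v => (chn N b q B).nu j v * (N.H v : ℝ≥0∞)⁻¹) w
      * occ (fun x => if x = v then (N.H v : ℝ≥0∞)⁻¹ else 0) w) := by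
        apply Finset.sum_le_sum
        intro v _
        exact eb_gg_bound N b q B j k1 hq1 w v
    _ = _ := by
        rw [← Finset.mul_sum, ← Finset.mul_sum, eb_occ_sum_ite Bf (fun v => (N.H v : ℝ≥0∞)⁻¹)]

theorem berr_bound (hg : Grn N.P g) (k : ℕ) (Bf : Finset V) (hBf : ∀ i ≤ k + 1, B i ⊆ Bf)
    (k1 Nn S0 S1 hh lam : ℝ≥0∞)
    (hq1 : ∀ d, q (k + 1) d ≤ k1)
    (hnu : ∀ v, (chn N b q B).nu k v ≤ Nn)
    (hS0 : (Bf.card : ℝ≥0∞) ≤ S0)
    (hS1 : ∀ z ∈ Bf, ∑ u ∈ Bf, g u z ≤ S1)
    (hh0 : hh ≠ 0) (hh1 : hh ≠ ∞) (hH : ∀ v ∈ Bf, hh ≤ (N.H v : ℝ≥0∞))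
    (hlam0 : lam ≠ 0) (hlam1 : lam ≠ ∞) (hq : ∀ j, ∑' d, q j d ≤ 1) :
    (chn N b q B).berr (k + 1)
      ≤ (lam + 48 * k1 ^ 2 * Nn ^ 2 * S0 * S1 ^ 3 / (hh ^ 2 * lam)) / 2 := by
  have h2 : ∑' w, iota N w * ∑ v, (chn N b q B).gg k w v ≤ 1 := by
    calc ∑' w, iota N w * ∑ v, (chn N b q B).gg k w v
        = ∑ v, (chn N b q B).nu (k + 1) v := by
          simp only [Finset.mul_sum]
          rw [Summable.tsum_finsetSum (fun i _ => ENNReal.summable)]
          apply Finset.sum_congr rfl
          intro v _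
          rw [eb_nu_succ_eq]
      _ ≤ 1 := nu_sum_le_one N b q B hq (k + 1)
  have h3 := pospart (iota N) (tsum_iota_ne_top N)
    (fun w => ∑ v, (chn N b q B).gg k w v) (ne_top_of_le_ne_top ENNReal.one_ne_top h2)
    lam hlam0 hlam1
  calc (chn N b q B).berr (k + 1)
      = ∑' c, npw (iota N) c * (lin (fun w => ∑ v, (chn N b q B).gg k w v) c - 1) := by
        unfold Chain.berr
        congr 1; funext c
        change npw (iota N) c * ((∑ v, lin (fun w => (chn N b q B).gg k w v) c) - 1) = _
        congr 2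
        unfold lin Finsupp.sum
        simp only [Finset.mul_sum]
        rw [Finset.sum_comm]
    _ ≤ ∑' c, npw (iota N) c * (lin (fun w => ∑ v, (chn N b q B).gg k w v) c
          - ∑' w, iota N w * ∑ v, (chn N b q B).gg k w v) := by
        apply ENNReal.tsum_le_tsum
        intro c
        gcongr
    _ ≤ (lam + (∑' w, iota N w * (∑ v, (chn N b q B).gg k w v) ^ 2) / lam) / 2 := h3
    _ ≤ (lam + ((2 * k1) ^ 2 * (12 * Nn ^ 2 / hh ^ 2 * (S0 * S1 ^ 3))) / lam) / 2 := by
        gcongr
        calc ∑' w, iota N w * (∑ v, (chn N b q B).gg k w v) ^ 2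
            ≤ ∑' w, (2 * k1) ^ 2 * (iota N w *
              (occ (fun v => (chn N b q B).nu k v * (N.H v : ℝ≥0∞)⁻¹) w ^ 2
              * occ (fun x => if x ∈ Bf then (N.H x : ℝ≥0∞)⁻¹ else 0) w ^ 2)) := by
              apply ENNReal.tsum_le_tsum
              intro w
              calc iota N w * (∑ v, (chn N b q B).gg k w v) ^ 2
                  ≤ iota N w * (2 * k1 *
                    (occ (fun v => (chn N b q B).nu k v * (N.H v : ℝ≥0∞)⁻¹) w
                    * occ (fun x => if x ∈ Bf then (N.H x : ℝ≥0∞)⁻¹ else 0) w)) ^ 2 := by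
                    gcongr
                    exact eb_gg_sum_bound N b q B k Bf (hBf (k + 1) le_rfl) k1 hq1 w
                _ = _ := by ring
          _ = (2 * k1) ^ 2 * ∑' w, iota N w *
              (occ (fun v => (chn N b q B).nu k v * (N.H v : ℝ≥0∞)⁻¹) w ^ 2
              * occ (fun x => if x ∈ Bf then (N.H x : ℝ≥0∞)⁻¹ else 0) w ^ 2) :=
              ENNReal.tsum_mul_left
          _ ≤ _ := by
              gcongr
              apply mom4_ball N g hg Bf _ Nn S0 S1 hh ?_ ?_ hS0 hS1 hh0 hh1 hH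
              · intro v hv
                rw [nu_supp N b q B k v (fun h => hv (hBf k (Nat.le_succ k) h)), zero_mul]
              · intro v
                rw [mul_assoc, eb_H_inv_mul, mul_one]
                exact hnu v
    _ = _ := by
        rw [div_eq_mul_inv _ (2 : ℝ≥0∞), div_eq_mul_inv _ (2 : ℝ≥0∞),
          div_eq_mul_inv _ (hh ^ 2 * lam),
          ENNReal.mul_inv (Or.inl (pow_ne_zero _ hh0)) (Or.inr hlam0), div_eq_mul_inv,
          div_eq_mul_inv, ENNReal.inv_pow]
        ring

end Pool.Agent.Lib.MP_e4a9a7_pr.D3
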