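import Mathlib
import Pool.Agent.Lib.MP_e4a9a7_pr.D3.Moments

/-!
# Task M: hitting estimates for the walk with `n` steps on a network
-/

namespace Pool.Agent.Lib.MP_e4a9a7_pr.D3

open scoped ENNReal NNReal BigOperators
open Classical

section aux

variable {V : Type}

theorem att_zero (v : V) (w : List V) : att v w 0 = v := by simp [att]

theorem att_cons_succ (v y : V) (w : List V) (i : ℕ) (hi : i ≤ w.length) :
    att v (y :: w) (i + 1) = att y w i := by
  unfold att
  rw [List.getD_cons_succ]
  have h : i < (y :: w).length := by rw [List.length_cons]; omega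
  rw [List.getD_eq_getElem _ _ h, List.getD_eq_getElem _ _ h]

theorem exists_att_cons (v y : V) (w : List V) (n : ℕ) (hn : n ≤ w.length) (Q : V → Prop)
    (hv : ¬ Q v) : (∃ i ≤ n + 1, Q (att v (y :: w) i)) ↔ ∃ i ≤ n, Q (att y w i) := by
  constructor
  · rintro ⟨i, hi, hQ⟩
    cases i with
    | zero => rw [att_zero] at hQ; exact absurd hQ hv
    | succ i =>
      rw [att_cons_succ v y w i (by omega)] at hQ
      exact ⟨i, by omega, hQ⟩
  · rintro ⟨i, hi, hQ⟩
    refine ⟨i + 1, by omega, ?_⟩
    rw [att_cons_succ v y w i (by omega)]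
    exact hQ

end aux

variable {V : Type} [Fintype V] (P : V → V → ℝ≥0)

theorem Ex_hit (hP : ∀ x, ∑ y, P x y ≤ 1) (U : V → ℝ≥0∞)
    (hU : ∀ x, ∑ y, (P x y : ℝ≥0∞) * U y ≤ U x) (A : Set V) (hA : ∀ x ∈ A, 1 ≤ U x) (n : ℕ) (v : V) :
    Ex P v n (fun w => if ∃ i ≤ n, att v w i ∈ A then 1 else 0) ≤ U v := by
  induction n generalizing v with
  | zero =>
    by_cases hv : v ∈ A
    · refine le_trans ?_ (hA v hv)
      refine le_trans (Ex_mono P v 0 (G := fun _ => 1) ?_) (Ex_le_one P hP v 0)
      intro w
      split_ifs <;> simp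
    · simp only [Ex]
      rw [if_neg]
      · simp
      · rintro ⟨i, hi, h⟩
        obtain rfl : i = 0 := by omega
        rw [att_zero] at h
        exact hv h
  | succ n ih =>
    by_cases hv : v ∈ A
    · refine le_trans ?_ (hA v hv)
      refine le_trans (Ex_mono P v (n + 1) (G := fun _ => 1) ?_) (Ex_le_one P hP v (n + 1))
      intro w
      split_ifs <;> simp
    · simp only [Ex]
      refine le_trans ?_ (hU v)
      apply Finset.sum_le_sum
      intro y _
      gcongr
      rw [Ex_congr_len P y n (G := fun w => if ∃ i ≤ n, att y w i ∈ A then 1 else 0)]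
      · exact ih y
      · intro w hw
        have h := exists_att_cons v y w n hw.ge (fun z => z ∈ A) hv
        simp only [h]

theorem Ex_exit (hP : ∀ x, ∑ y, P x y ≤ 1) (sq : V → ℝ≥0∞)
    (hsub : ∀ v, ∑ y, (P v y : ℝ≥0∞) * sq y ≤ sq v + 1) (R : ℝ≥0∞) (hR0 : R ≠ 0) (hR1 : R ≠ ∞)
    (n T : ℕ) (hT : T ≤ n) (v : V) :
    Ex P v n (fun w => if ∃ i ≤ T, R < sq (att v w i) then 1 else 0) ≤ (sq v + T) / R := by
  induction T generalizing v n with
  | zero =>
    by_cases hv : R < sq v
    · have h1 : 1 ≤ sq v / R := by
        rw [ENNReal.le_div_iff_mul_le (Or.inl hR0) (Or.inl hR1), one_mul]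
        exact hv.le
      have h2 : sq v / R ≤ (sq v + (0 : ℕ)) / R := by simp
      refine le_trans ?_ (h1.trans h2)
      refine le_trans (Ex_mono P v n (G := fun _ => 1) ?_) (Ex_le_one P hP v n)
      intro w
      split_ifs <;> simp
    · refine le_of_eq_of_le (Ex_congr_len P v n (G := fun _ => 0) ?_) ?_
      · intro w _
        rw [if_neg]
        rintro ⟨i, hi, h⟩
        obtain rfl : i = 0 := by omega
        rw [att_zero] at h
        exact hv h
      · rw [Ex_zero']
        exact bot_le
  | succ T ih =>
    by_cases hv : R < sq v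
    · have h1 : 1 ≤ sq v / R := by
        rw [ENNReal.le_div_iff_mul_le (Or.inl hR0) (Or.inl hR1), one_mul]
        exact hv.le
      have h2 : sq v / R ≤ (sq v + ((T + 1 : ℕ) : ℝ≥0∞)) / R := by
        gcongr
        exact le_self_add
      refine le_trans ?_ (h1.trans h2)
      refine le_trans (Ex_mono P v n (G := fun _ => 1) ?_) (Ex_le_one P hP v n)
      intro w
      split_ifs <;> simp
    · obtain ⟨n', rfl⟩ : ∃ n', n = n' + 1 := ⟨n - 1, by omega⟩
      simp only [Ex]
      have hTn : T ≤ n' := by omega
      calc ∑ y, (P v y : ℝ≥0∞) * Ex P y n'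
            (fun w => if ∃ i ≤ T + 1, R < sq (att v (y :: w) i) then 1 else 0)
          ≤ ∑ y, (P v y : ℝ≥0∞) * ((sq y + T) / R) := by
            apply Finset.sum_le_sum
            intro y _
            gcongr
            rw [Ex_congr_len P y n' (G := fun w => if ∃ i ≤ T, R < sq (att y w i) then 1 else 0)]
            · exact ih n' hTn y
            · intro w hw
              have h := exists_att_cons v y w T (by omega) (fun z => R < sq z) hv
              simp only [h]
        _ = (∑ y, (P v y : ℝ≥0∞) * sq y + (∑ y, (P v y : ℝ≥0∞)) * T) / R := by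
            simp only [div_eq_mul_inv, mul_add, add_mul, Finset.sum_add_distrib, Finset.sum_mul,
              ← mul_assoc]
        _ ≤ (sq v + 1 + 1 * T) / R := by
            gcongr
            · exact hsub v
            · have := hP v
              exact_mod_cast this
        _ = (sq v + ((T + 1 : ℕ) : ℝ≥0∞)) / R := by
            congr 1
            push_cast
            ring

/-- hitting probability of `v` -/
theorem Ex_visit_le (hP : ∀ x, ∑ y, P x y ≤ 1) (g : V → V → ℝ≥0∞) (hg : Grn P g) (b v : V)
    (n : ℕ) :
    Ex P b n (fun w => if ∃ i ≤ n, att b w i = v then 1 else 0) ≤ g b v := by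
  have h := Ex_hit P hP (fun x => g x v) (fun x => hg.sup1 x v) {v} (by
    intro x hx
    rw [Set.mem_singleton_iff] at hx
    subst hx
    exact hg.one_le x) n b
  simpa only [Set.mem_singleton_iff] using h

theorem sum_Ex_en_le (g : V → V → ℝ≥0∞) (hg : Grn P g) (y : V) (n : ℕ) (b : V) :
    ∑ d ∈ Finset.range n, Ex P b d (fun w => if en b w = y then 1 else 0) ≤ g b y := by
  induction n generalizing b with
  | zero => simp
  | succ n ih =>
    rw [Finset.sum_range_succ']
    simp only [Ex]
    rw [Finset.sum_comm]
    have h1 : ∑ z, ∑ d ∈ Finset.range n, (P b z : ℝ≥0∞) *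
        Ex P z d (fun w => if en b (z :: w) = y then 1 else 0) ≤ ∑ z, (P b z : ℝ≥0∞) * g z y := by
      apply Finset.sum_le_sum
      intro z _
      rw [← Finset.mul_sum]
      gcongr
      exact ih z
    by_cases hb : b = y
    · subst hb
      have h2 := hg.sup2 b
      calc _ ≤ ∑ z, (P b z : ℝ≥0∞) * g z b + 1 := by
            gcongr
            simp [en]
        _ = 1 + ∑ z, (P b z : ℝ≥0∞) * g z b := add_comm _ _
        _ ≤ g b b := h2
    · have h2 := hg.sup1 b y
      calc _ ≤ ∑ z, (P b z : ℝ≥0∞) * g z y + 0 := by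
            gcongr
            simp [en, hb]
        _ = ∑ z, (P b z : ℝ≥0∞) * g z y := add_zero _
        _ ≤ g b y := h2

theorem tsum_Ex_en_le (g : V → V → ℝ≥0∞) (hg : Grn P g) (y : V) (b : V) :
    ∑' d, Ex P b d (fun w => if en b w = y then 1 else 0) ≤ g b y := by
  rw [ENNReal.tsum_eq_iSup_nat]
  exact iSup_le fun n => sum_Ex_en_le P g hg y n b

/-- one pair of times -/
theorem Ex_visit_late_one (hP : ∀ x, ∑ y, P x y ≤ 1) (g : V → V → ℝ≥0∞) (hg : Grn P g) (b v : V)
    (n : ℕ) (B : Set V) (Bf : Finset V) (hB : B ⊆ Bf) (d d' : ℕ) :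
    Ex P b n (fun w =>
      if d + d' ≤ n ∧ att b w d ∈ B ∧ att b w (d + d') ∈ B ∧ ∃ i, d + d' ≤ i ∧ i ≤ n ∧ att b w i = v
      then 1 else 0)
      ≤ ∑ y ∈ Bf, ∑ y' ∈ Bf, Ex P b d (fun w => if en b w = y then 1 else 0) *
          Ex P y d' (fun w => if en y w = y' then 1 else 0) * g y' v := by
  by_cases hn : d + d' ≤ n
  · obtain ⟨r, rfl⟩ : ∃ r, n = d + (d' + r) := ⟨n - d - d', by omega⟩
    rw [Ex_split]
    have h1 : ∀ w1 : List V, w1.length = d → Ex P (en b w1) (d' + r) (fun w' =>
        if d + d' ≤ d + (d' + r) ∧ att b (w1 ++ w') d ∈ B ∧ att b (w1 ++ w') (d + d') ∈ B ∧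
          ∃ i, d + d' ≤ i ∧ i ≤ d + (d' + r) ∧ att b (w1 ++ w') i = v then (1 : ℝ≥0∞) else 0)
        ≤ ∑ y ∈ Bf, (if en b w1 = y then 1 else 0) *
          (∑ y' ∈ Bf, Ex P y d' (fun w => if en y w = y' then 1 else 0) * g y' v) := by
      intro w1 hw1
      by_cases hy : en b w1 ∈ B
      · have hy' : en b w1 ∈ Bf := hB hy
        rw [Finset.sum_eq_single_of_mem (en b w1) hy' (by
          intro z _ hz
          rw [if_neg (fun h => hz h.symm), zero_mul])]
        rw [if_pos rfl, one_mul]
        set y := en b w1 with hyd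
        rw [Ex_split]
        have h2 : ∀ w2 : List V, w2.length = d' → Ex P (en y w2) r (fun w' =>
            if d + d' ≤ d + (d' + r) ∧ att b (w1 ++ (w2 ++ w')) d ∈ B ∧
              att b (w1 ++ (w2 ++ w')) (d + d') ∈ B ∧
              ∃ i, d + d' ≤ i ∧ i ≤ d + (d' + r) ∧ att b (w1 ++ (w2 ++ w')) i = v
              then (1 : ℝ≥0∞) else 0)
            ≤ ∑ y' ∈ Bf, g y' v * (if en y w2 = y' then 1 else 0) := by
          intro w2 hw2
          by_cases hz : en y w2 ∈ B
          · have hz' : en y w2 ∈ Bf := hB hz
            rw [Finset.sum_eq_single_of_mem (en y w2) hz' (by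
              intro z _ hz
              rw [if_neg (fun h => hz h.symm), mul_zero])]
            rw [if_pos rfl, mul_one]
            refine le_trans ?_ (Ex_visit_le P hP g hg (en y w2) v r)
            rw [Ex_congr_len P (en y w2) r (G := fun w =>
              if ∃ i ≤ r, att (en y w2) w i = v then 1 else 0)]
            intro w3 hw3
            have hiff : (d + d' ≤ d + (d' + r) ∧ att b (w1 ++ (w2 ++ w3)) d ∈ B ∧
              att b (w1 ++ (w2 ++ w3)) (d + d') ∈ B ∧
              ∃ i, d + d' ≤ i ∧ i ≤ d + (d' + r) ∧ att b (w1 ++ (w2 ++ w3)) i = v) ↔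
              ∃ i ≤ r, att (en y w2) w3 i = v := by
              have ha : ∀ i ≤ r, att b (w1 ++ (w2 ++ w3)) (d + (d' + i)) = att (en y w2) w3 i := by
                intro i hi
                have e1 := att_append_right b w1 (w2 ++ w3) (d' + i) (by
                  rw [List.length_append]; omega)
                have e2 := att_append_right y w2 w3 i (by omega)
                rw [hw1] at e1
                rw [hw2] at e2
                rw [e1, ← hyd, e2]
              constructor
              · rintro ⟨_, _, _, i, hi1, hi2, hi3⟩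
                refine ⟨i - (d + d'), by omega, ?_⟩
                rw [← ha _ (by omega)]
                have : d + (d' + (i - (d + d'))) = i := by omega
                rw [this]
                exact hi3
              · rintro ⟨i, hi, hv⟩
                refine ⟨by omega, ?_, ?_, d + (d' + i), by omega, by omega, ?_⟩
                · have e1 := att_append_right b w1 (w2 ++ w3) 0 (Nat.zero_le _)
                  rw [hw1, add_zero, ← hyd, att_zero] at e1
                  rw [e1]
                  exact hy
                · have e1 := ha 0 (Nat.zero_le _)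
                  rw [add_zero, att_zero] at e1
                  rw [e1]
                  exact hz
                · rw [ha i hi]
                  exact hv
            simp only [hiff]
          · have h3 : Ex P (en y w2) r (fun w' =>
              if d + d' ≤ d + (d' + r) ∧ att b (w1 ++ (w2 ++ w')) d ∈ B ∧
                att b (w1 ++ (w2 ++ w')) (d + d') ∈ B ∧
                ∃ i, d + d' ≤ i ∧ i ≤ d + (d' + r) ∧ att b (w1 ++ (w2 ++ w')) i = v
                then (1 : ℝ≥0∞) else 0) = Ex P (en y w2) r (fun _ => 0) := by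
              apply Ex_congr_len
              intro w3 hw3
              rw [if_neg]
              rintro ⟨_, _, h4, _⟩
              have e1 := att_append_right b w1 (w2 ++ w3) d' (by
                  rw [List.length_append]; omega)
              have e2 := att_append_right y w2 w3 0 (Nat.zero_le _)
              rw [hw1] at e1
              rw [hw2, add_zero, att_zero] at e2
              rw [e1, ← hyd, e2] at h4
              exact hz h4
            rw [h3, Ex_zero']
            exact bot_le
        calc Ex P y d' (fun w2 => Ex P (en y w2) r (fun w' =>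
              if d + d' ≤ d + (d' + r) ∧ att b (w1 ++ (w2 ++ w')) d ∈ B ∧
                att b (w1 ++ (w2 ++ w')) (d + d') ∈ B ∧
                ∃ i, d + d' ≤ i ∧ i ≤ d + (d' + r) ∧ att b (w1 ++ (w2 ++ w')) i = v
                then (1 : ℝ≥0∞) else 0))
            ≤ Ex P y d' (fun w2 => ∑ y' ∈ Bf, g y' v * (if en y w2 = y' then 1 else 0)) := by
              rw [← tsum_len, ← tsum_len]
              apply ENNReal.tsum_le_tsum
              intro w2
              split_ifs with hw
              · gcongr
                exact h2 w2 hw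
              · exact le_rfl
          _ = ∑ y' ∈ Bf, Ex P y d' (fun w => if en y w = y' then 1 else 0) * g y' v := by
              rw [Ex_sum]
              apply Finset.sum_congr rfl
              intro y' _
              rw [Ex_mul_left, mul_comm]
      · have h3 : Ex P (en b w1) (d' + r) (fun w' =>
          if d + d' ≤ d + (d' + r) ∧ att b (w1 ++ w') d ∈ B ∧ att b (w1 ++ w') (d + d') ∈ B ∧
            ∃ i, d + d' ≤ i ∧ i ≤ d + (d' + r) ∧ att b (w1 ++ w') i = v then (1 : ℝ≥0∞) else 0)
            = Ex P (en b w1) (d' + r) (fun _ => 0) := by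
          apply Ex_congr_len
          intro w3 hw3
          rw [if_neg]
          rintro ⟨_, h4, _⟩
          have e1 := att_append_right b w1 w3 0 (Nat.zero_le _)
          rw [hw1, add_zero, att_zero] at e1
          rw [e1] at h4
          exact hy h4
        rw [h3, Ex_zero']
        exact bot_le
    calc _ ≤ Ex P b d (fun w1 => ∑ y ∈ Bf, (if en b w1 = y then 1 else 0) *
          (∑ y' ∈ Bf, Ex P y d' (fun w => if en y w = y' then 1 else 0) * g y' v)) := by
          rw [← tsum_len, ← tsum_len]
          apply ENNReal.tsum_le_tsum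
          intro w1
          split_ifs with hw
          · gcongr
            exact h1 w1 hw
          · exact le_rfl
      _ = _ := by
          rw [Ex_sum]
          apply Finset.sum_congr rfl
          intro y _
          have e1 : (fun w1 : List V => (if en b w1 = y then (1 : ℝ≥0∞) else 0) *
            (∑ y' ∈ Bf, Ex P y d' (fun w => if en y w = y' then 1 else 0) * g y' v))
            = (fun w1 : List V =>
            (∑ y' ∈ Bf, Ex P y d' (fun w => if en y w = y' then 1 else 0) * g y' v) *
            (if en b w1 = y then (1 : ℝ≥0∞) else 0)) := by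
            funext w
            rw [mul_comm]
          rw [e1, Ex_mul_left, Finset.sum_mul]
          apply Finset.sum_congr rfl
          intro y' _
          ring
  · have h3 : Ex P b n (fun w =>
      if d + d' ≤ n ∧ att b w d ∈ B ∧ att b w (d + d') ∈ B ∧
        ∃ i, d + d' ≤ i ∧ i ≤ n ∧ att b w i = v then (1 : ℝ≥0∞) else 0)
        = Ex P b n (fun _ => 0) := by
      congr 1
      funext w
      rw [if_neg]
      rintro ⟨h, _⟩
      exact hn h
    rw [h3, Ex_zero']
    exact bot_le

/-- hitting probability of `v` after the two initial segments -/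
theorem Ex_visit_late (hP : ∀ x, ∑ y, P x y ≤ 1) (g : V → V → ℝ≥0∞) (hg : Grn P g) (b v : V)
    (n : ℕ) (q : ℕ → ℝ≥0∞) (kap : ℝ≥0∞) (hq : ∀ d, q d ≤ kap) (B : Set V) (Bf : Finset V)
    (hB : B ⊆ Bf) :
    ∑' d, ∑' d', q d * q d' * Ex P b n (fun w =>
      if d + d' ≤ n ∧ att b w d ∈ B ∧ att b w (d + d') ∈ B ∧ ∃ i, d + d' ≤ i ∧ i ≤ n ∧ att b w i = v
      then 1 else 0)
      ≤ kap ^ 2 * ∑ y ∈ Bf, ∑ y' ∈ Bf, g b y * g y y' * g y' v := by
  calc ∑' d, ∑' d', q d * q d' * Ex P b n (fun w =>
      if d + d' ≤ n ∧ att b w d ∈ B ∧ att b w (d + d') ∈ B ∧ ∃ i, d + d' ≤ i ∧ i ≤ n ∧ att b w i = v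
      then 1 else 0)
      ≤ ∑' d, ∑' d', kap ^ 2 * ∑ y ∈ Bf, ∑ y' ∈ Bf,
          Ex P b d (fun w => if en b w = y then 1 else 0) *
          Ex P y d' (fun w => if en y w = y' then 1 else 0) * g y' v := by
        apply ENNReal.tsum_le_tsum
        intro d
        apply ENNReal.tsum_le_tsum
        intro d'
        apply mul_le_mul'
        · rw [sq]
          exact mul_le_mul' (hq d) (hq d')
        · exact Ex_visit_late_one P hP g hg b v n B Bf hB d d'
    _ = kap ^ 2 * ∑ y ∈ Bf, ∑ y' ∈ Bf,
          (∑' d, Ex P b d (fun w => if en b w = y then 1 else 0)) *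
          (∑' d', Ex P y d' (fun w => if en y w = y' then 1 else 0)) * g y' v := by
        simp only [ENNReal.tsum_mul_left]
        congr 1
        have e1 : ∀ d : ℕ, ∑' d' : ℕ, ∑ y ∈ Bf, ∑ y' ∈ Bf,
            Ex P b d (fun w => if en b w = y then 1 else 0) *
            Ex P y d' (fun w => if en y w = y' then 1 else 0) * g y' v
            = ∑ y ∈ Bf, ∑ y' ∈ Bf, Ex P b d (fun w => if en b w = y then 1 else 0) *
            (∑' d', Ex P y d' (fun w => if en y w = y' then 1 else 0)) * g y' v := by
          intro d
          rw [Summable.tsum_finsetSum (fun _ _ => ENNReal.summable)]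
          apply Finset.sum_congr rfl
          intro y _
          rw [Summable.tsum_finsetSum (fun _ _ => ENNReal.summable)]
          apply Finset.sum_congr rfl
          intro y' _
          rw [ENNReal.tsum_mul_right, ENNReal.tsum_mul_left]
        simp only [e1]
        rw [Summable.tsum_finsetSum (fun _ _ => ENNReal.summable)]
        apply Finset.sum_congr rfl
        intro y _
        rw [Summable.tsum_finsetSum (fun _ _ => ENNReal.summable)]
        apply Finset.sum_congr rfl
        intro y' _
        rw [ENNReal.tsum_mul_right, ENNReal.tsum_mul_right]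
    _ ≤ kap ^ 2 * ∑ y ∈ Bf, ∑ y' ∈ Bf, g b y * g y y' * g y' v := by
        gcongr with y _ y' _
        · exact tsum_Ex_en_le P g hg y b
        · exact tsum_Ex_en_le P g hg y' y

end Pool.Agent.Lib.MP_e4a9a7_pr.D3
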