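import Mathlib
import Pool.Agent.Lib.MP_e4a9a7_pr.D3.Conv
import Pool.Agent.Lib.MP_e4a9a7_pr.D3.HitNet

/-!
# Hitting probabilities of lines and balls
-/

namespace Pool.Agent.Lib.MP_e4a9a7_pr.D3

open scoped ENNReal NNReal BigOperators
open Classical

/-- potential of a line segment -/
noncomputable def lineU (y e : Z3) (M : ℕ) (z : Z3) : ℝ :=
  ∑ j ∈ Finset.range (M + 1), ff (z - (y + j • e))

theorem lineU_nonneg (y e : Z3) (M : ℕ) (z : Z3) : 0 ≤ lineU y e M z :=
  Finset.sum_nonneg fun _ _ => (ff_pos _).le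

theorem lineU_super (y e : Z3) (M : ℕ) (z : Z3) :
    (∑ s : Stp, lineU y e M (z + stepVec s)) / 6 ≤ lineU y e M z := by
  unfold lineU
  rw [Finset.sum_comm, Finset.sum_div]
  apply Finset.sum_le_sum
  intro j _
  have := (ff_super (z - (y + j • e))).le
  have h : ∀ s : Stp, z + stepVec s - (y + j • e) = z - (y + j • e) + stepVec s := fun s => by abel
  simpa only [h] using this

/-- lower bound on the line -/
noncomputable def hM (M : ℕ) : ℝ := ∑ l ∈ Finset.range (M / 2 + 1), 1 / ((l : ℝ) + 2)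

theorem sqn_smul_step (l : ℤ) (s : Stp) : sqn (l • stepVec s) = (l : ℝ) ^ 2 := by
  have h : ∀ i, (((l • stepVec s) i : ℤ) : ℝ) ^ 2 = (l : ℝ) ^ 2 * ((stepVec s i : ℤ) : ℝ) ^ 2 := by
    intro i
    rw [Pi.smul_apply, smul_eq_mul]
    push_cast; ring
  unfold sqn
  simp only [h]
  rw [← Finset.mul_sum]
  have h2 : (∑ i, ((stepVec s i : ℤ) : ℝ) ^ 2) = 1 := by
    have : ∀ s : Stp, (∑ i, (stepVec s i) ^ 2) = 1 := by decide
    have h3 := this s
    exact_mod_cast h3
  rw [h2, mul_one]

theorem ff_smul_step (l : ℤ) (s : Stp) : 1 / ((|l| : ℤ) + 2 : ℝ) ≤ ff (l • stepVec s) := by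
  unfold ff
  rw [sqn_smul_step, one_div]
  have h0 : (0 : ℝ) ≤ (|l| : ℤ) := by exact_mod_cast abs_nonneg l
  apply inv_anti₀
  · apply Real.sqrt_pos.2; positivity
  · rw [show ((l : ℝ) ^ 2) = ((|l| : ℤ) : ℝ) ^ 2 by push_cast; rw [sq_abs]]
    apply Real.sqrt_le_iff.2
    constructor
    · positivity
    · nlinarith

theorem lineU_ge (y : Z3) (s : Stp) (M k : ℕ) (hk : k ≤ M) :
    hM M ≤ lineU y (stepVec s) M (y + k • stepVec s) := by
  have h1 : ∀ j : ℕ, 1 / (((|(k : ℤ) - j| : ℤ) : ℝ) + 2)
      ≤ ff (y + k • stepVec s - (y + j • stepVec s)) := by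
    intro j
    have := ff_smul_step ((k : ℤ) - j) s
    have e : y + k • stepVec s - (y + j • stepVec s) = ((k : ℤ) - j) • stepVec s := by
      rw [sub_smul]; simp
    rw [e]; exact this
  unfold lineU hM
  by_cases hk2 : M / 2 ≤ k
  · -- use j = k - l, l ≤ M/2
    calc ∑ l ∈ Finset.range (M / 2 + 1), 1 / ((l : ℝ) + 2)
        ≤ ∑ l ∈ Finset.range (M / 2 + 1), ff (y + k • stepVec s - (y + (k - l) • stepVec s)) := by
          apply Finset.sum_le_sum
          intro l hl
          rw [Finset.mem_range] at hl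
          refine le_trans (le_of_eq ?_) (h1 (k - l))
          have : (|(k : ℤ) - ((k - l : ℕ) : ℤ)| : ℤ) = l := by
            rw [Nat.cast_sub (by omega)]
            rw [show (k : ℤ) - ((k : ℤ) - l) = l by ring]
            exact abs_of_nonneg (Int.natCast_nonneg l)
          rw [this]; simp
      _ = ∑ j ∈ (Finset.range (M / 2 + 1)).image (fun l => k - l),
            ff (y + k • stepVec s - (y + j • stepVec s)) := by
          rw [Finset.sum_image]
          intro a ha b hb hab
          simp only [Finset.coe_range, Set.mem_Iio] at ha hb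
          simp only at hab
          omega
      _ ≤ _ := by
          apply Finset.sum_le_sum_of_subset_of_nonneg
          · intro j hj
            simp only [Finset.mem_image, Finset.mem_range] at hj ⊢
            obtain ⟨l, hl, rfl⟩ := hj
            omega
          · intro _ _ _; exact (ff_pos _).le
  · calc ∑ l ∈ Finset.range (M / 2 + 1), 1 / ((l : ℝ) + 2)
        ≤ ∑ l ∈ Finset.range (M / 2 + 1), ff (y + k • stepVec s - (y + (k + l) • stepVec s)) := by
          apply Finset.sum_le_sum
          intro l hl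
          refine le_trans (le_of_eq ?_) (h1 (k + l))
          have : (|(k : ℤ) - ((k + l : ℕ) : ℤ)| : ℤ) = l := by
            push_cast
            rw [show (k : ℤ) - ((k : ℤ) + l) = -l by ring, abs_neg]
            exact abs_of_nonneg (Int.natCast_nonneg l)
          rw [this]; simp
      _ = ∑ j ∈ (Finset.range (M / 2 + 1)).image (fun l => k + l),
            ff (y + k • stepVec s - (y + j • stepVec s)) := by
          rw [Finset.sum_image]
          intro a ha b hb hab
          simp only at hab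
          omega
      _ ≤ _ := by
          apply Finset.sum_le_sum_of_subset_of_nonneg
          · intro j hj
            simp only [Finset.mem_image, Finset.mem_range] at hj ⊢
            obtain ⟨l, hl, rfl⟩ := hj
            omega
          · intro _ _ _; exact (ff_pos _).le

theorem hM_pos (M : ℕ) : 0 < hM M := by
  unfold hM
  apply Finset.sum_pos
  · intro l _; positivity
  · simp

theorem hM_tendsto : Filter.Tendsto hM Filter.atTop Filter.atTop := by
  have h1 : Filter.Tendsto (fun n : ℕ => ∑ i ∈ Finset.range n, 1 / ((i : ℝ) + 1)) Filter.atTop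
      Filter.atTop := Real.tendsto_sum_range_one_div_nat_succ_atTop
  have h2 : ∀ n : ℕ, (∑ i ∈ Finset.range n, 1 / ((i : ℝ) + 1)) / 2
      ≤ ∑ l ∈ Finset.range n, 1 / ((l : ℝ) + 2) := by
    intro n
    rw [Finset.sum_div]
    apply Finset.sum_le_sum
    intro i _
    rw [div_div, div_le_div_iff₀ (by positivity) (by positivity)]
    have : (0 : ℝ) ≤ i := Nat.cast_nonneg i
    linarith
  have h3 : Filter.Tendsto (fun n : ℕ => ∑ l ∈ Finset.range n, 1 / ((l : ℝ) + 2)) Filter.atTop
      Filter.atTop := Filter.tendsto_atTop_mono h2 (h1.atTop_div_const (by norm_num))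
  have h4 : Filter.Tendsto (fun M : ℕ => M / 2 + 1) Filter.atTop Filter.atTop := by
    rw [Filter.tendsto_atTop_atTop]
    intro b
    exact ⟨2 * b, fun a ha => by omega⟩
  exact h3.comp h4

theorem ff_le_of_sqn {z : Z3} {r : ℝ} (hr : 0 < r) (h : r ^ 2 ≤ sqn z) : ff z ≤ 1 / r := by
  unfold ff
  rw [one_div]
  apply inv_anti₀ hr
  apply Real.le_sqrt_of_sq_le
  linarith

theorem sqn_ge_coord (z : Z3) (i : Fin 3) : ((z i : ℤ) : ℝ) ^ 2 ≤ sqn z := by
  unfold sqn
  exact Finset.single_le_sum (f := fun i => ((z i : ℤ) : ℝ) ^ 2) (fun _ _ => sq_nonneg _)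
    (Finset.mem_univ i)

/-- potential of a ball -/
noncomputable def ballU (y : Z3) (r : ℝ) (z : Z3) : ℝ := ff (z - y) * Real.sqrt (r ^ 2 + 3)

theorem ballU_ge (y : Z3) (r : ℝ) (z : Z3) (h : sqn (z - y) ≤ r ^ 2) : 1 ≤ ballU y r z := by
  unfold ballU ff
  have h1 : 0 < Real.sqrt (sqn (z - y) + 3) := Real.sqrt_pos.2 (by have := sqn_nonneg (z - y); linarith)
  rw [inv_mul_eq_div, one_le_div h1]
  apply Real.sqrt_le_sqrt
  linarith

theorem ballU_super (y : Z3) (r : ℝ) (z : Z3) :
    (∑ s : Stp, ballU y r (z + stepVec s)) / 6 ≤ ballU y r z := by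
  unfold ballU
  rw [← Finset.sum_mul, div_eq_mul_inv, mul_assoc, mul_comm (Real.sqrt _), ← mul_assoc,
    ← div_eq_mul_inv]
  apply mul_le_mul_of_nonneg_right _ (Real.sqrt_nonneg _)
  have := (ff_super (z - y)).le
  have h : ∀ s : Stp, z + stepVec s - y = z - y + stepVec s := fun s => by abel
  simpa only [h] using this

/-- the obstacle: a line segment and a ball -/
def obst (y : Z3) (s : Stp) (M : ℕ) (r : ℝ) : Set Z3 :=
  {z | (∃ k ≤ M, z = y + k • stepVec s) ∨ sqn (z - (y + M • stepVec s)) ≤ r ^ 2}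

theorem hit_obst (Λ : Finset Z3) (b : Λ) (y : Z3) (s : Stp) (M : ℕ) (r : ℝ) (n : ℕ)
    (U : ℝ) (hU : lineU y (stepVec s) M b / hM M + ballU (y + M • stepVec s) r b ≤ U) :
    Ex (latP Λ) b n (fun w => if ∃ i ≤ n, ((att b w i : Λ) : Z3) ∈ obst y s M r then 1 else 0)
      ≤ ENNReal.ofReal U := by
  set UU : Z3 → ℝ := fun z => lineU y (stepVec s) M z / hM M + ballU (y + M • stepVec s) r z
    with hUU
  have hUU0 : ∀ z, 0 ≤ UU z := fun z => add_nonneg (div_nonneg (lineU_nonneg _ _ _ _)
    (hM_pos M).le) (mul_nonneg (ff_pos _).le (Real.sqrt_nonneg _))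
  have hsup : ∀ z, (∑ s : Stp, UU (z + stepVec s)) / 6 ≤ UU z := by
    intro z
    simp only [hUU]
    rw [Finset.sum_add_distrib, add_div, ← Finset.sum_div]
    apply add_le_add
    · rw [div_right_comm]
      exact div_le_div_of_nonneg_right (lineU_super _ _ _ _) (hM_pos M).le
    · exact ballU_super _ _ _
  have hge : ∀ z ∈ obst y s M r, 1 ≤ UU z := by
    rintro z (⟨k, hk, rfl⟩ | hz)
    · have h1 := lineU_ge y s M k hk
      have h2 : 1 ≤ lineU y (stepVec s) M (y + k • stepVec s) / hM M := by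
        rw [one_le_div (hM_pos M)]; exact h1
      have h3 : 0 ≤ ballU (y + M • stepVec s) r (y + k • stepVec s) :=
        mul_nonneg (ff_pos _).le (Real.sqrt_nonneg _)
      simp only [hUU]; linarith
    · have h1 := ballU_ge (y + M • stepVec s) r z hz
      have h3 : 0 ≤ lineU y (stepVec s) M z / hM M := div_nonneg (lineU_nonneg _ _ _ _)
        (hM_pos M).le
      simp only [hUU]; linarith
  have hP : ∀ x, ∑ y, latP Λ x y ≤ 1 := (latNet Λ b).sub
  have key := Ex_hit (latP Λ) hP (fun x => ENNReal.ofReal (UU x)) (by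
      intro x
      have h1 := (sum_latP Λ x UU hUU0).trans (hsup x)
      have h2 : ∑ y : Λ, (latP Λ x y : ℝ≥0∞) * ENNReal.ofReal (UU y)
          = ENNReal.ofReal (∑ y : Λ, (latP Λ x y : ℝ) * UU y) := by
        rw [ENNReal.ofReal_sum_of_nonneg]
        · apply Finset.sum_congr rfl
          intro y _
          rw [ENNReal.ofReal_mul (NNReal.coe_nonneg _), ENNReal.ofReal_coe_nnreal]
        · intro y _; exact mul_nonneg (NNReal.coe_nonneg _) (hUU0 _)
      rw [h2]
      exact ENNReal.ofReal_le_ofReal h1)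
    {x : Λ | (x : Z3) ∈ obst y s M r} (by
      intro x hx
      rw [← ENNReal.ofReal_one]
      exact ENNReal.ofReal_le_ofReal (hge x hx)) n b
  refine le_trans key ?_
  exact ENNReal.ofReal_le_ofReal hU

/-- numerical bound of the potential at the far point -/
theorem far_bound (x y : Z3) (i : Fin 3) (sX sY : Stp) (M : ℕ) (r : ℝ)
    (h : (x i < y i ∧ stepVec sX i = -1 ∧ stepVec sY i = 1) ∨
      (y i < x i ∧ stepVec sX i = 1 ∧ stepVec sY i = -1)) :
    lineU y (stepVec sY) M (x + M • stepVec sX) / hM M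
      + ballU (y + M • stepVec sY) r (x + M • stepVec sX)
      ≤ 1 / hM M + Real.sqrt (r ^ 2 + 3) / (2 * M + 1) := by
  have hco : ∀ j : ℕ, ((M : ℝ) + j + 1) ^ 2
      ≤ sqn (x + M • stepVec sX - (y + j • stepVec sY)) := by
    intro j
    refine le_trans ?_ (sqn_ge_coord _ i)
    have e : ((x + M • stepVec sX - (y + j • stepVec sY)) i : ℤ)
        = x i + M * stepVec sX i - (y i + j * stepVec sY i) := by
      simp [nsmul_eq_mul]
    rw [e]
    have hj : (0 : ℝ) ≤ j := Nat.cast_nonneg j
    have hM0 : (0 : ℝ) ≤ M := Nat.cast_nonneg M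
    rcases h with ⟨h1, h2, h3⟩ | ⟨h1, h2, h3⟩
    · rw [h2, h3]
      have h4 : ((x i : ℤ) : ℝ) + 1 ≤ (y i : ℤ) := by exact_mod_cast h1
      push_cast
      nlinarith
    · rw [h2, h3]
      have h4 : ((y i : ℤ) : ℝ) + 1 ≤ (x i : ℤ) := by exact_mod_cast h1
      push_cast
      nlinarith
  apply add_le_add
  · apply div_le_div_of_nonneg_right _ (hM_pos M).le
    unfold lineU
    calc ∑ j ∈ Finset.range (M + 1), ff (x + M • stepVec sX - (y + j • stepVec sY))
        ≤ ∑ j ∈ Finset.range (M + 1), 1 / ((M : ℝ) + 1) := by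
          apply Finset.sum_le_sum
          intro j _
          apply ff_le_of_sqn (by positivity)
          refine le_trans ?_ (hco j)
          have hj : (0 : ℝ) ≤ j := Nat.cast_nonneg j
          have hM0 : (0 : ℝ) ≤ M := Nat.cast_nonneg M
          nlinarith
      _ = 1 := by
          rw [Finset.sum_const, Finset.card_range, nsmul_eq_mul]
          push_cast
          field_simp
  · unfold ballU
    have h1 : ff (x + M • stepVec sX - (y + M • stepVec sY)) ≤ 1 / (2 * M + 1) := by
      apply ff_le_of_sqn (by positivity)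
      refine le_trans ?_ (hco M)
      apply le_of_eq; ring
    calc ff (x + M • stepVec sX - (y + M • stepVec sY)) * Real.sqrt (r ^ 2 + 3)
        ≤ 1 / (2 * M + 1) * Real.sqrt (r ^ 2 + 3) :=
          mul_le_mul_of_nonneg_right h1 (Real.sqrt_nonneg _)
      _ = _ := by rw [one_div, inv_mul_eq_div]

end Pool.Agent.Lib.MP_e4a9a7_pr.D3
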