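import Mathlib
import Pool.Agent.Lib.MP_e4a9a7_pr.D3.Conv
import Pool.Agent.Lib.MP_e4a9a7_pr.D3.Gff

/-!
# The bad events of the field and the overlap sum
-/

namespace Pool.Agent.Lib.MP_e4a9a7_pr.D3

open scoped ENNReal NNReal BigOperators
open MeasureTheory
open Classical

/-- truncation level of the field -/
noncomputable def TTr (K : ℝ) (z : Z3) : ℝ := K - 4 * Real.log (ff z)

theorem TT_nonneg {K : ℝ} (hK : 0 ≤ K) (z : Z3) : 0 ≤ TTr K z := by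
  unfold TTr
  have := Real.log_nonpos (ff_pos z).le (ff_le_one z)
  linarith

theorem sum_ff_sub_le {p : ℝ} (hp : 3 < p) (Λ : Finset Z3) (b : Z3) :
    ∑ x : Λ, ff ((x : Z3) - b) ^ p ≤ ∑' z : Z3, ff z ^ p := by
  have h1 : ∑ x : Λ, ff ((x : Z3) - b) ^ p = ∑ z ∈ Λ.image (fun x => x - b), ff z ^ p := by
    rw [Finset.sum_image (fun x _ y _ h => by simpa using h)]
    exact Finset.sum_coe_sort Λ (fun x => ff (x - b) ^ p)
  rw [h1]
  exact (summable_ff hp).sum_le_tsum _ (fun z _ => Real.rpow_nonneg (ff_pos z).le p)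

theorem bad_field (ε : ℝ) (hε : 0 < ε) : ∃ K : ℝ, 0 ≤ K ∧ ∀ (Λ : Finset Z3) (b b' : Z3),
    ∫⁻ φ in {φ : Λ → ℝ | ∃ v : Λ, TTr K ((v : Z3) - b') < |φ v|}, gam (latP Λ) φ
      ≤ ENNReal.ofReal ε := by
  set A : ℝ := ∑' z : Z3, ff z ^ (4 : ℝ) with hA
  have hA0 : 0 ≤ A := tsum_nonneg fun z => Real.rpow_nonneg (ff_pos z).le _
  set B : ℝ := 2 * Real.exp (13 / 2) * A with hB
  have hB0 : 0 ≤ B := by positivity
  -- choose K
  obtain ⟨K, hK0, hK⟩ : ∃ K : ℝ, 0 ≤ K ∧ B * Real.exp (-K) ≤ ε := by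
    refine ⟨Real.log ((B + 1) / ε + 1), Real.log_nonneg (by
      have : 0 ≤ (B + 1) / ε := by positivity
      linarith), ?_⟩
    rw [Real.exp_neg, Real.exp_log (by positivity)]
    rw [← div_eq_mul_inv, div_le_iff₀ (by positivity)]
    rw [mul_add, mul_div_cancel₀ _ hε.ne']
    linarith
  refine ⟨K, hK0, ?_⟩
  intro Λ b b'
  have hg := grn_lat Λ
  have hsub : {φ : Λ → ℝ | ∃ v : Λ, TTr K ((v : Z3) - b') < |φ v|}
      = ⋃ v ∈ (Finset.univ : Finset Λ), {φ : Λ → ℝ | TTr K ((v : Z3) - b') < |φ v|} := by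
    ext φ; simp
  rw [hsub]
  have h1 : ∫⁻ φ in ⋃ v ∈ (Finset.univ : Finset Λ), {φ : Λ → ℝ | TTr K ((v : Z3) - b') < |φ v|},
      gam (latP Λ) φ
      ≤ ∑ v : Λ, ∫⁻ φ in {φ : Λ → ℝ | TTr K ((v : Z3) - b') < |φ v|}, gam (latP Λ) φ := by
    rw [← lintegral_indicator (by
      apply Finset.measurableSet_biUnion
      intro v _
      exact measurableSet_lt measurable_const (measurable_pi_apply v).abs)]
    have h2 : ∀ v : Λ, ∫⁻ φ in {φ : Λ → ℝ | TTr K ((v : Z3) - b') < |φ v|}, gam (latP Λ) φ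
        = ∫⁻ φ, {φ : Λ → ℝ | TTr K ((v : Z3) - b') < |φ v|}.indicator (gam (latP Λ)) φ := by
      intro v
      rw [lintegral_indicator (measurableSet_lt measurable_const (measurable_pi_apply v).abs)]
    simp only [h2]
    rw [← lintegral_finsetSum]
    · apply lintegral_mono
      intro φ
      simp only
      by_cases hφ : φ ∈ ⋃ v ∈ (Finset.univ : Finset Λ), {φ : Λ → ℝ | TTr K ((v : Z3) - b') < |φ v|}
      · rw [Set.indicator_of_mem hφ]
        simp only [Finset.mem_univ, Set.iUnion_true, Set.mem_iUnion] at hφ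
        obtain ⟨v, hv⟩ := hφ
        calc gam (latP Λ) φ = {φ : Λ → ℝ | TTr K ((v : Z3) - b') < |φ v|}.indicator (gam (latP Λ)) φ := by
              rw [Set.indicator_of_mem hv]
          _ ≤ _ := Finset.single_le_sum
              (f := fun v : Λ => {φ : Λ → ℝ | TTr K ((v : Z3) - b') < |φ v|}.indicator (gam (latP Λ)) φ)
              (fun _ _ => zero_le) (Finset.mem_univ v)
      · rw [Set.indicator_of_notMem hφ]; exact zero_le
    · intro v _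
      exact (measurable_gam _).indicator
        (measurableSet_lt measurable_const (measurable_pi_apply v).abs)
  refine h1.trans ?_
  have h3 : ∀ v : Λ, ∫⁻ φ in {φ : Λ → ℝ | TTr K ((v : Z3) - b') < |φ v|}, gam (latP Λ) φ
      ≤ ENNReal.ofReal (2 * Real.exp (13 / 2) * Real.exp (-K) * ff ((v : Z3) - b') ^ (4 : ℝ)) := by
    intro v
    have hgv : glat Λ v v ≠ ∞ := ENNReal.ofReal_ne_top
    refine (gam_tail (latNet Λ b) (glat Λ) hg v (TTr K ((v : Z3) - b')) hgv).trans ?_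
    apply ENNReal.ofReal_le_ofReal
    rw [mul_assoc, mul_assoc]
    apply mul_le_mul_of_nonneg_left _ (by norm_num)
    have hff : (glat Λ v v).toReal ≤ 13 := by
      unfold glat
      rw [ENNReal.toReal_ofReal (by have := (ff_pos ((v : Z3) - v)).le; linarith)]
      have := ff_le_one ((v : Z3) - v)
      linarith
    have e1 : Real.exp (-K) * ff ((v : Z3) - b') ^ (4 : ℝ)
        = Real.exp (-TTr K ((v : Z3) - b')) := by
      unfold TTr
      rw [Real.rpow_def_of_pos (ff_pos _), ← Real.exp_add]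
      congr 1; ring
    rw [e1, ← Real.exp_add]
    apply Real.exp_le_exp.2
    linarith
  refine (Finset.sum_le_sum fun v _ => h3 v).trans ?_
  rw [← ENNReal.ofReal_sum_of_nonneg (fun v _ => by
    have := Real.rpow_nonneg (ff_pos ((v : Z3) - b')).le 4
    positivity)]
  apply ENNReal.ofReal_le_ofReal
  rw [← Finset.mul_sum]
  have h4 := sum_ff_sub_le (p := 4) (by norm_num) Λ b'
  calc 2 * Real.exp (13 / 2) * Real.exp (-K) * ∑ v : Λ, ff ((v : Z3) - b') ^ (4 : ℝ)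
      ≤ 2 * Real.exp (13 / 2) * Real.exp (-K) * A := by
        apply mul_le_mul_of_nonneg_left h4 (by positivity)
    _ = B * Real.exp (-K) := by rw [hB]; ring
    _ ≤ ε := hK

theorem rpow_mix {a c p q : ℝ} (ha : 0 ≤ a) (hc : 0 ≤ c) (hp : 0 ≤ p) (hq : 0 ≤ q) :
    c ^ p * a ^ q ≤ a ^ (p + q) + c ^ (p + q) := by
  by_cases hpq : p + q = 0
  · have h1 : p = 0 := by linarith
    have h2 : q = 0 := by linarith
    subst h1 h2
    simp
  · rcases le_total a c with h | h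
    · calc c ^ p * a ^ q ≤ c ^ p * c ^ q := by
            apply mul_le_mul_of_nonneg_left _ (Real.rpow_nonneg hc p)
            exact Real.rpow_le_rpow ha h hq
        _ = c ^ (p + q) := by
            rw [Real.rpow_add' hc hpq]
        _ ≤ _ := by linarith [Real.rpow_nonneg ha (p + q)]
    · calc c ^ p * a ^ q ≤ a ^ p * a ^ q := by
            apply mul_le_mul_of_nonneg_right _ (Real.rpow_nonneg ha q)
            exact Real.rpow_le_rpow hc h hp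
        _ = a ^ (p + q) := by
            rw [Real.rpow_add' ha hpq]
        _ ≤ _ := by linarith [Real.rpow_nonneg hc (p + q)]

theorem real_term {a c C1 p0 : ℝ} (ha : 0 < a) (hc : 0 < c) (hC1 : 0 ≤ C1)
    (hp0 : 0 ≤ p0) :
    2 * ((a ^ ((3 : ℝ) / 7) + c ^ ((3 : ℝ) / 7)) * (C1 * a ^ (-(1 : ℝ) / 100))) ^ 2
      * (a ^ ((3 : ℝ) / 7) + c ^ ((3 : ℝ) / 7)) ^ 3 * (p0 ^ ((1 : ℝ) / 10) * (13 * a) ^ ((9 : ℝ) / 10))
      ≤ 832 * C1 ^ 2 * p0 ^ ((1 : ℝ) / 10)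
        * (a ^ ((529 : ℝ) / 175) + c ^ ((529 : ℝ) / 175)) := by
  set s := a ^ ((3 : ℝ) / 7) + c ^ ((3 : ℝ) / 7) with hs
  have hA : 0 ≤ a ^ ((3 : ℝ) / 7) := Real.rpow_nonneg ha.le _
  have hB : 0 ≤ c ^ ((3 : ℝ) / 7) := Real.rpow_nonneg hc.le _
  have h5 : s ^ 5 ≤ 16 * (a ^ ((15 : ℝ) / 7) + c ^ ((15 : ℝ) / 7)) := by
    have := add_pow_le hA hB 5
    have e1 : (a ^ ((3 : ℝ) / 7)) ^ 5 = a ^ ((15 : ℝ) / 7) := by
      rw [← Real.rpow_natCast, ← Real.rpow_mul ha.le]; norm_num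
    have e2 : (c ^ ((3 : ℝ) / 7)) ^ 5 = c ^ ((15 : ℝ) / 7) := by
      rw [← Real.rpow_natCast, ← Real.rpow_mul hc.le]; norm_num
    rw [e1, e2] at this
    norm_num at this
    exact this
  have h13 : (13 * a) ^ ((9 : ℝ) / 10) ≤ 13 * a ^ ((9 : ℝ) / 10) := by
    rw [Real.mul_rpow (by norm_num) ha.le]
    apply mul_le_mul_of_nonneg_right _ (Real.rpow_nonneg ha.le _)
    calc (13 : ℝ) ^ ((9 : ℝ) / 10) ≤ 13 ^ (1 : ℝ) :=
          Real.rpow_le_rpow_of_exponent_le (by norm_num) (by norm_num)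
      _ = 13 := Real.rpow_one 13
  have hp : 0 ≤ p0 ^ ((1 : ℝ) / 10) := Real.rpow_nonneg hp0 _
  have e3 : (a ^ (-(1 : ℝ) / 100)) ^ 2 * a ^ ((9 : ℝ) / 10) = a ^ ((22 : ℝ) / 25) := by
    rw [← Real.rpow_natCast, ← Real.rpow_mul ha.le, ← Real.rpow_add ha]; norm_num
  have hmix : (a ^ ((15 : ℝ) / 7) + c ^ ((15 : ℝ) / 7)) * a ^ ((22 : ℝ) / 25)
      ≤ 2 * (a ^ ((529 : ℝ) / 175) + c ^ ((529 : ℝ) / 175)) := by
    have h1 := rpow_mix (p := 15 / 7) (q := 22 / 25) ha.le hc.le (by norm_num) (by norm_num)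
    have h2 : a ^ ((15 : ℝ) / 7) * a ^ ((22 : ℝ) / 25) = a ^ ((529 : ℝ) / 175) := by
      rw [← Real.rpow_add ha]; norm_num
    have e : (15 : ℝ) / 7 + 22 / 25 = 529 / 175 := by norm_num
    rw [e] at h1
    have h3 : 0 ≤ c ^ ((529 : ℝ) / 175) := Real.rpow_nonneg hc.le _
    rw [add_mul, h2]
    linarith
  calc 2 * (s * (C1 * a ^ (-(1 : ℝ) / 100))) ^ 2 * s ^ 3
        * (p0 ^ ((1 : ℝ) / 10) * (13 * a) ^ ((9 : ℝ) / 10))
      ≤ 2 * (s * (C1 * a ^ (-(1 : ℝ) / 100))) ^ 2 * s ^ 3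
        * (p0 ^ ((1 : ℝ) / 10) * (13 * a ^ ((9 : ℝ) / 10))) := by
        have hs0 : 0 ≤ s := add_nonneg hA hB
        apply mul_le_mul_of_nonneg_left _ (by positivity)
        exact mul_le_mul_of_nonneg_left h13 hp
    _ = 26 * C1 ^ 2 * p0 ^ ((1 : ℝ) / 10) * (s ^ 5 * ((a ^ (-(1 : ℝ) / 100)) ^ 2 * a ^ ((9 : ℝ) / 10))) := by
        ring
    _ = 26 * C1 ^ 2 * p0 ^ ((1 : ℝ) / 10) * (s ^ 5 * a ^ ((22 : ℝ) / 25)) := by rw [e3]
    _ ≤ 26 * C1 ^ 2 * p0 ^ ((1 : ℝ) / 10)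
        * ((16 * (a ^ ((15 : ℝ) / 7) + c ^ ((15 : ℝ) / 7))) * a ^ ((22 : ℝ) / 25)) := by
        apply mul_le_mul_of_nonneg_left _ (by positivity)
        exact mul_le_mul_of_nonneg_right h5 (Real.rpow_nonneg ha.le _)
    _ = 416 * C1 ^ 2 * p0 ^ ((1 : ℝ) / 10)
        * ((a ^ ((15 : ℝ) / 7) + c ^ ((15 : ℝ) / 7)) * a ^ ((22 : ℝ) / 25)) := by ring
    _ ≤ 416 * C1 ^ 2 * p0 ^ ((1 : ℝ) / 10)
        * (2 * (a ^ ((529 : ℝ) / 175) + c ^ ((529 : ℝ) / 175))) := by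
        apply mul_le_mul_of_nonneg_left hmix (by positivity)
    _ = _ := by ring

theorem min_term {P : ℝ≥0∞} {a p0 : ℝ} (ha : 0 < a) (hp0 : 0 ≤ p0) (h1 : P ≤ ENNReal.ofReal (13 * a))
    (h2 : P ≤ ENNReal.ofReal p0) :
    P ≤ ENNReal.ofReal (p0 ^ ((1 : ℝ) / 10) * (13 * a) ^ ((9 : ℝ) / 10)) := by
  have hfin : P ≠ ∞ := ne_top_of_le_ne_top ENNReal.ofReal_ne_top h1
  obtain ⟨x, rfl⟩ : ∃ x : ℝ≥0, P = x := ⟨P.toNNReal, (ENNReal.coe_toNNReal hfin).symm⟩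
  have h1' : (x : ℝ) ≤ 13 * a := by
    have := ENNReal.toReal_mono ENNReal.ofReal_ne_top h1
    rwa [ENNReal.coe_toReal, ENNReal.toReal_ofReal (by positivity)] at this
  have h2' : (x : ℝ) ≤ p0 := by
    have := ENNReal.toReal_mono ENNReal.ofReal_ne_top h2
    rwa [ENNReal.coe_toReal, ENNReal.toReal_ofReal hp0] at this
  rw [← ENNReal.ofReal_coe_nnreal]
  apply ENNReal.ofReal_le_ofReal
  have hx : (0 : ℝ) ≤ x := x.2
  calc (x : ℝ) = (x : ℝ) ^ ((1 : ℝ) / 10) * (x : ℝ) ^ ((9 : ℝ) / 10) := by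
        rw [← Real.rpow_add' hx (by norm_num)]; norm_num
    _ ≤ _ := by
        apply mul_le_mul (Real.rpow_le_rpow hx h2' (by norm_num))
          (Real.rpow_le_rpow hx h1' (by norm_num)) (Real.rpow_nonneg hx _)
          (Real.rpow_nonneg hp0 _)

/-- neighbouring values of `ff` -/
theorem ff_neighbour (z : Z3) (s : Stp) : ff z ≤ 2 * ff (z + stepVec s) := by
  have hstep : sqn (z + stepVec s) ≤ 2 * sqn z + 2 := by
    have h2 : (∑ i, ((stepVec s i : ℤ) : ℝ) ^ 2) = 1 := by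
      have : ∀ s : Stp, (∑ i, (stepVec s i) ^ 2) = 1 := by decide
      have h3 := this s
      exact_mod_cast h3
    unfold sqn
    calc ∑ i, (((z + stepVec s) i : ℤ) : ℝ) ^ 2
        ≤ ∑ i, (2 * ((z i : ℤ) : ℝ) ^ 2 + 2 * ((stepVec s i : ℤ) : ℝ) ^ 2) := by
          apply Finset.sum_le_sum
          intro i _
          rw [Pi.add_apply]
          push_cast
          nlinarith [sq_nonneg (((z i : ℤ) : ℝ) - ((stepVec s i : ℤ) : ℝ))]
      _ = 2 * ∑ i, ((z i : ℤ) : ℝ) ^ 2 + 2 := by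
          rw [Finset.sum_add_distrib, ← Finset.mul_sum, ← Finset.mul_sum, h2, mul_one]
  unfold ff
  have h0 := sqn_nonneg z
  have h1 := sqn_nonneg (z + stepVec s)
  rw [← div_eq_mul_inv, inv_eq_one_div, div_le_div_iff₀ (Real.sqrt_pos.2 (by linarith))
    (Real.sqrt_pos.2 (by linarith)), one_mul]
  rw [show (2 : ℝ) = Real.sqrt (2 ^ 2) by rw [Real.sqrt_sq (by norm_num)], ← Real.sqrt_mul (by norm_num)]
  apply Real.sqrt_le_sqrt
  linarith

theorem TT_le (K : ℝ) (hK : 0 ≤ K) (z : Z3) :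
    TTr K z ≤ (K + 400) * ff z ^ (-(1 : ℝ) / 100) := by
  have hf := ff_pos z
  have h1 : Real.log (ff z)⁻¹ ≤ ((ff z)⁻¹) ^ ((1 : ℝ) / 100) / (1 / 100) :=
    Real.log_le_rpow_div (by positivity) (by norm_num)
  have e : ((ff z)⁻¹) ^ ((1 : ℝ) / 100) = ff z ^ (-(1 : ℝ) / 100) := by
    rw [Real.inv_rpow hf.le, ← Real.rpow_neg hf.le]; norm_num
  rw [e, Real.log_inv] at h1
  have h2 : 1 ≤ ff z ^ (-(1 : ℝ) / 100) :=
    Real.one_le_rpow_of_pos_of_le_one_of_nonpos hf (ff_le_one z) (by norm_num)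
  unfold TTr
  nlinarith

theorem neighbour_rpow (z : Z3) (s : Stp) :
    ff (z + stepVec s) ^ (-(1 : ℝ) / 100) ≤ 2 * ff z ^ (-(1 : ℝ) / 100) := by
  have h1 := ff_neighbour z s
  have hz := ff_pos z
  have hy := ff_pos (z + stepVec s)
  have h2 : ff z / 2 ≤ ff (z + stepVec s) := by linarith
  calc ff (z + stepVec s) ^ (-(1 : ℝ) / 100) ≤ (ff z / 2) ^ (-(1 : ℝ) / 100) :=
        Real.rpow_le_rpow_of_nonpos (by positivity) h2 (by norm_num)
    _ = ff z ^ (-(1 : ℝ) / 100) * 2 ^ ((1 : ℝ) / 100) := by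
        rw [Real.div_rpow hz.le (by norm_num), div_eq_mul_inv, ← Real.rpow_neg (by norm_num)]
        norm_num
    _ ≤ ff z ^ (-(1 : ℝ) / 100) * 2 := by
        apply mul_le_mul_of_nonneg_left _ (Real.rpow_nonneg hz.le _)
        calc (2 : ℝ) ^ ((1 : ℝ) / 100) ≤ 2 ^ (1 : ℝ) :=
              Real.rpow_le_rpow_of_exponent_le (by norm_num) (by norm_num)
          _ = 2 := Real.rpow_one 2
    _ = _ := mul_comm _ _

theorem L_bound (K : ℝ) (hK : 0 ≤ K) (Λ : Finset Z3) (b b' : Z3) (v : Λ) :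
    (∑ y, (latP Λ v y : ℝ≥0∞) * (((TTr K ((y : Z3) - b)).toNNReal : ℝ≥0∞)
        + ((latNet Λ b').H y : ℝ≥0∞))) + ((latNet Λ b').η v : ℝ≥0∞)
      ≤ ENNReal.ofReal ((2 * K + 803) * ff ((v : Z3) - b) ^ (-(1 : ℝ) / 100)) := by
  set F := ff ((v : Z3) - b) ^ (-(1 : ℝ) / 100) with hF
  have hF1 : 1 ≤ F :=
    Real.one_le_rpow_of_pos_of_le_one_of_nonpos (ff_pos _) (ff_le_one _) (by norm_num)
  have hH : ∀ y : Λ, ((latNet Λ b').H y : ℝ≥0∞) ≤ 1 := by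
    intro y
    have : (latNet Λ b').H y ≤ 1 := HH_le_one ((y : Z3) - b')
    exact_mod_cast this
  have hη : ((latNet Λ b').η v : ℝ≥0∞) ≤ 1 := by
    refine le_trans ?_ (hH v)
    have h := (latNet Λ b').eq v
    have h2 : (latNet Λ b').η v ≤ (latNet Λ b').H v := by
      rw [h]; exact le_self_add
    exact_mod_cast h2
  have h1 : ∀ y : Λ, (latP Λ v y : ℝ≥0∞) * (((TTr K ((y : Z3) - b)).toNNReal : ℝ≥0∞)
        + ((latNet Λ b').H y : ℝ≥0∞))
      ≤ (latP Λ v y : ℝ≥0∞) * ENNReal.ofReal ((2 * K + 802) * F) := by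
    intro y
    by_cases hy : ∃ s : Stp, (y : Z3) = v + stepVec s
    · obtain ⟨s, hs⟩ := hy
      gcongr
      have h2 : TTr K ((y : Z3) - b) ≤ (K + 400) * (2 * F) := by
        refine (TT_le K hK _).trans ?_
        apply mul_le_mul_of_nonneg_left _ (by linarith)
        have e : (y : Z3) - b = (v : Z3) - b + stepVec s := by rw [hs]; abel
        rw [e]; exact neighbour_rpow _ s
      calc ((TTr K ((y : Z3) - b)).toNNReal : ℝ≥0∞) + ((latNet Λ b').H y : ℝ≥0∞)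
          ≤ ENNReal.ofReal ((K + 400) * (2 * F)) + ENNReal.ofReal 1 := by
            gcongr
            · change ENNReal.ofReal (TTr K ((y : Z3) - b)) ≤ _
              exact ENNReal.ofReal_le_ofReal h2
            · rw [ENNReal.ofReal_one]; exact hH y
        _ = ENNReal.ofReal ((K + 400) * (2 * F) + 1) := by
            rw [ENNReal.ofReal_add (by positivity) (by norm_num)]
        _ ≤ _ := by
            apply ENNReal.ofReal_le_ofReal
            nlinarith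
    · have hz : latP Λ v y = 0 := by
        unfold latP
        rw [if_neg hy]
      rw [hz]; simp
  calc (∑ y, (latP Λ v y : ℝ≥0∞) * (((TTr K ((y : Z3) - b)).toNNReal : ℝ≥0∞)
        + ((latNet Λ b').H y : ℝ≥0∞))) + ((latNet Λ b').η v : ℝ≥0∞)
      ≤ (∑ y, (latP Λ v y : ℝ≥0∞) * ENNReal.ofReal ((2 * K + 802) * F)) + ENNReal.ofReal F := by
        refine add_le_add (Finset.sum_le_sum fun y _ => h1 y) (hη.trans ?_)
        rw [← ENNReal.ofReal_one]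
        exact ENNReal.ofReal_le_ofReal hF1
    _ ≤ ENNReal.ofReal ((2 * K + 802) * F) + ENNReal.ofReal F := by
        gcongr
        rw [← Finset.sum_mul]
        have hs : ∑ y, (latP Λ v y : ℝ≥0∞) ≤ 1 := by
          have := (latNet Λ b').sub v
          have h2 : ((∑ y, latP Λ v y : ℝ≥0) : ℝ≥0∞) ≤ 1 := by exact_mod_cast this
          rwa [ENNReal.ofNNReal_finsetSum] at h2
        exact mul_le_of_le_one_left zero_le hs
    _ = _ := by
        rw [← ENNReal.ofReal_add (by positivity) (by positivity)]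
        congr 1; ring

theorem ofReal_combo {s L p : ℝ} (hs : 0 ≤ s) (hL : 0 ≤ L) :
    ENNReal.ofReal 2 * (ENNReal.ofReal s * ENNReal.ofReal L) ^ 2 * ENNReal.ofReal s ^ 3
      * ENNReal.ofReal p = ENNReal.ofReal (2 * (s * L) ^ 2 * s ^ 3 * p) := by
  rw [ENNReal.ofReal_mul (by positivity), ENNReal.ofReal_mul (by positivity),
    ENNReal.ofReal_mul (by positivity), ENNReal.ofReal_pow (by positivity),
    ENNReal.ofReal_pow (by positivity), ENNReal.ofReal_mul hs]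

theorem overlap_sum (K : ℝ) (hK : 0 ≤ K) : ∃ C : ℝ, 0 ≤ C ∧ ∀ (Λ : Finset Z3) (b b' : Z3)
    (p : Λ → ℝ≥0∞) (p0 : ℝ) (_ : 0 ≤ p0)
    (_ : ∀ v : Λ, p v ≤ ENNReal.ofReal (13 * ff ((v : Z3) - b)))
    (_ : ∀ v, p v ≤ ENNReal.ofReal p0),
    ∑ v, 2 * ((((latNet Λ b).H v : ℝ≥0∞) + (latNet Λ b').H v) *
        ((∑ y, ((latNet Λ b).P v y : ℝ≥0∞) * (((TTr K ((y : Z3) - b)).toNNReal : ℝ≥0∞)
          + (latNet Λ b').H y)) + (latNet Λ b').η v)) ^ 2
        * (((latNet Λ b).H v : ℝ≥0∞) + (latNet Λ b').H v) ^ 3 * p v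
      ≤ ENNReal.ofReal (C * p0 ^ ((1 : ℝ) / 10)) := by
  set A : ℝ := ∑' z : Z3, ff z ^ ((529 : ℝ) / 175) with hA
  have hA0 : 0 ≤ A := tsum_nonneg fun z => Real.rpow_nonneg (ff_pos z).le _
  set C1 : ℝ := 2 * K + 803 with hC1
  refine ⟨1664 * C1 ^ 2 * A, by positivity, ?_⟩
  intro Λ b b' p p0 hp0 hp1 hp2
  have hterm : ∀ v : Λ, 2 * ((((latNet Λ b).H v : ℝ≥0∞) + (latNet Λ b').H v) *
        ((∑ y, ((latNet Λ b).P v y : ℝ≥0∞) * (((TTr K ((y : Z3) - b)).toNNReal : ℝ≥0∞)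
          + (latNet Λ b').H y)) + (latNet Λ b').η v)) ^ 2
        * (((latNet Λ b).H v : ℝ≥0∞) + (latNet Λ b').H v) ^ 3 * p v
      ≤ ENNReal.ofReal (832 * C1 ^ 2 * p0 ^ ((1 : ℝ) / 10)
        * (ff ((v : Z3) - b) ^ ((529 : ℝ) / 175) + ff ((v : Z3) - b') ^ ((529 : ℝ) / 175))) := by
    intro v
    have hHX : ((latNet Λ b).H v : ℝ≥0∞) = ENNReal.ofReal (ff ((v : Z3) - b) ^ ((3 : ℝ) / 7)) :=
      (ENNReal.ofReal_eq_coe_nnreal (HH_pos ((v : Z3) - b)).le).symm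
    have hHY : ((latNet Λ b').H v : ℝ≥0∞) = ENNReal.ofReal (ff ((v : Z3) - b') ^ ((3 : ℝ) / 7)) :=
      (ENNReal.ofReal_eq_coe_nnreal (HH_pos ((v : Z3) - b')).le).symm
    have hLb := L_bound K hK Λ b b' v
    have ha := ff_pos ((v : Z3) - b)
    have hc := ff_pos ((v : Z3) - b')
    have hA1 : 0 ≤ ff ((v : Z3) - b) ^ ((3 : ℝ) / 7) := Real.rpow_nonneg ha.le _
    have hA2 : 0 ≤ ff ((v : Z3) - b') ^ ((3 : ℝ) / 7) := Real.rpow_nonneg hc.le _
    have hA3 : 0 ≤ ff ((v : Z3) - b) ^ (-(1 : ℝ) / 100) := Real.rpow_nonneg ha.le _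
    have hs : ((latNet Λ b).H v : ℝ≥0∞) + (latNet Λ b').H v
        = ENNReal.ofReal (ff ((v : Z3) - b) ^ ((3 : ℝ) / 7) + ff ((v : Z3) - b') ^ ((3 : ℝ) / 7)) := by
      rw [ENNReal.ofReal_add hA1 hA2, ← hHX, ← hHY]
    rw [hs]
    calc 2 * (ENNReal.ofReal (ff ((v : Z3) - b) ^ ((3 : ℝ) / 7) + ff ((v : Z3) - b') ^ ((3 : ℝ) / 7)) *
        ((∑ y, ((latNet Λ b).P v y : ℝ≥0∞) * (((TTr K ((y : Z3) - b)).toNNReal : ℝ≥0∞)
          + (latNet Λ b').H y)) + (latNet Λ b').η v)) ^ 2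
        * ENNReal.ofReal (ff ((v : Z3) - b) ^ ((3 : ℝ) / 7) + ff ((v : Z3) - b') ^ ((3 : ℝ) / 7)) ^ 3
        * p v
        ≤ ENNReal.ofReal 2 * (ENNReal.ofReal (ff ((v : Z3) - b) ^ ((3 : ℝ) / 7)
            + ff ((v : Z3) - b') ^ ((3 : ℝ) / 7)) *
          ENNReal.ofReal (C1 * ff ((v : Z3) - b) ^ (-(1 : ℝ) / 100))) ^ 2
        * ENNReal.ofReal (ff ((v : Z3) - b) ^ ((3 : ℝ) / 7) + ff ((v : Z3) - b') ^ ((3 : ℝ) / 7)) ^ 3
        * ENNReal.ofReal (p0 ^ ((1 : ℝ) / 10) * (13 * ff ((v : Z3) - b)) ^ ((9 : ℝ) / 10)) := by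
          gcongr
          · norm_num
          · exact hLb
          · exact min_term ha hp0 (hp1 v) (hp2 v)
      _ = ENNReal.ofReal (2 * ((ff ((v : Z3) - b) ^ ((3 : ℝ) / 7)
            + ff ((v : Z3) - b') ^ ((3 : ℝ) / 7)) *
          (C1 * ff ((v : Z3) - b) ^ (-(1 : ℝ) / 100))) ^ 2
        * (ff ((v : Z3) - b) ^ ((3 : ℝ) / 7) + ff ((v : Z3) - b') ^ ((3 : ℝ) / 7)) ^ 3
        * (p0 ^ ((1 : ℝ) / 10) * (13 * ff ((v : Z3) - b)) ^ ((9 : ℝ) / 10))) := by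
          have q1 : 0 ≤ ff ((v : Z3) - b) ^ ((3 : ℝ) / 7) + ff ((v : Z3) - b') ^ ((3 : ℝ) / 7) := by
            positivity
          have q2 : 0 ≤ C1 * ff ((v : Z3) - b) ^ (-(1 : ℝ) / 100) := by positivity
          exact ofReal_combo q1 q2
      _ ≤ _ := ENNReal.ofReal_le_ofReal (real_term ha hc (by positivity) hp0)
  refine (Finset.sum_le_sum fun v _ => hterm v).trans ?_
  rw [← ENNReal.ofReal_sum_of_nonneg (fun v _ => by
    have h1 := Real.rpow_nonneg (ff_pos ((v : Z3) - b)).le ((529 : ℝ) / 175)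
    have h2 := Real.rpow_nonneg (ff_pos ((v : Z3) - b')).le ((529 : ℝ) / 175)
    have h3 := Real.rpow_nonneg hp0 ((1 : ℝ) / 10)
    positivity)]
  apply ENNReal.ofReal_le_ofReal
  rw [← Finset.mul_sum, Finset.sum_add_distrib]
  have h1 := sum_ff_sub_le (p := 529 / 175) (by norm_num) Λ b
  have h2 := sum_ff_sub_le (p := 529 / 175) (by norm_num) Λ b'
  have h3 := Real.rpow_nonneg hp0 ((1 : ℝ) / 10)
  calc 832 * C1 ^ 2 * p0 ^ ((1 : ℝ) / 10) * (∑ v : Λ, ff ((v : Z3) - b) ^ ((529 : ℝ) / 175)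
        + ∑ v : Λ, ff ((v : Z3) - b') ^ ((529 : ℝ) / 175))
      ≤ 832 * C1 ^ 2 * p0 ^ ((1 : ℝ) / 10) * (A + A) := by
        apply mul_le_mul_of_nonneg_left (add_le_add h1 h2) (by positivity)
    _ = _ := by ring

end Pool.Agent.Lib.MP_e4a9a7_pr.D3
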