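import Mathlib
import Pool.Agent.Lib.MP_e4a9a7_pr.D3.TauEq

/-!
# Task J: total mass of the concrete chain
-/

namespace Pool.Agent.Lib.MP_e4a9a7_pr.D3

open scoped ENNReal NNReal BigOperators
open Classical

variable {V : Type} [Fintype V] (N : Net V) (b : V) (q : ℕ → ℕ → ℝ≥0∞) (B : ℕ → Set V)

theorem Ex_mass (sq : V → ℝ≥0∞) (R : ℝ≥0∞) (hR0 : R ≠ 0) (hR1 : R ≠ ∞) (A : Set V)
    (hA : ∀ v, v ∉ A → R ≤ sq v)
    (hint : ∀ v, sq v < R → ∑ y, N.P v y = 1 ∧ ∑ y, (N.P v y : ℝ≥0∞) * sq y = sq v + 1) (d : ℕ) :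
    ∀ v, 1 ≤ Ex N.P v d (fun s => if en v s ∈ A then 1 else 0) + (sq v + d) / R := by
  induction d with
  | zero =>
    intro v
    by_cases hv : v ∈ A
    · show 1 ≤ (if v ∈ A then (1 : ℝ≥0∞) else 0) + _
      rw [if_pos hv]
      exact le_self_add
    · refine le_trans ?_ le_add_self
      rw [ENNReal.le_div_iff_mul_le (Or.inl hR0) (Or.inl hR1), one_mul]
      exact (hA v hv).trans le_self_add
  | succ d ih =>
    intro v
    rcases le_or_gt R (sq v) with hv | hv
    · refine le_trans ?_ le_add_self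
      rw [ENNReal.le_div_iff_mul_le (Or.inl hR0) (Or.inl hR1), one_mul]
      exact hv.trans le_self_add
    · obtain ⟨h1, h2⟩ := hint v hv
      have h3 : ∑ y, (N.P v y : ℝ≥0∞) = 1 := by
        rw [← ENNReal.ofNNReal_finsetSum, h1, ENNReal.coe_one]
      have h4 : ∑ y, (N.P v y : ℝ≥0∞) * ((sq y + d) / R) = (sq v + (d + 1 : ℕ)) / R := by
        have h5 : ∀ y, (N.P v y : ℝ≥0∞) * ((sq y + d) / R)
            = ((N.P v y : ℝ≥0∞) * sq y + (N.P v y : ℝ≥0∞) * d) * R⁻¹ := by
          intro y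
          rw [div_eq_mul_inv, ← mul_assoc, mul_add]
        rw [Finset.sum_congr rfl fun y _ => h5 y, ← Finset.sum_mul, Finset.sum_add_distrib, h2,
          ← Finset.sum_mul, h3, one_mul, div_eq_mul_inv]
        congr 1
        push_cast
        ring
      calc (1 : ℝ≥0∞) = ∑ y, (N.P v y : ℝ≥0∞) := h3.symm
        _ ≤ ∑ y, (N.P v y : ℝ≥0∞) *
            (Ex N.P y d (fun s => if en y s ∈ A then 1 else 0) + (sq y + d) / R) := by
          refine Finset.sum_le_sum fun y _ => ?_
          calc (N.P v y : ℝ≥0∞) = (N.P v y : ℝ≥0∞) * 1 := (mul_one _).symm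
            _ ≤ _ := by gcongr; exact ih y
        _ = ∑ y, (N.P v y : ℝ≥0∞) * Ex N.P y d (fun s => if en y s ∈ A then 1 else 0)
            + ∑ y, (N.P v y : ℝ≥0∞) * ((sq y + d) / R) := by
          rw [← Finset.sum_add_distrib]
          exact Finset.sum_congr rfl fun y _ => mul_add _ _ _
        _ = _ := by
          rw [h4]
          rfl

theorem Ex_sq (sq : V → ℝ≥0∞)
    (hsub : ∀ v, ∑ y, (N.P v y : ℝ≥0∞) * sq y ≤ sq v + 1) (d : ℕ) :
    ∀ v, Ex N.P v d (fun s => sq (en v s)) ≤ sq v + d := by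
  induction d with
  | zero => intro v; exact le_self_add
  | succ d ih =>
    intro v
    have h3 : ∑ y, (N.P v y : ℝ≥0∞) ≤ 1 := by
      rw [← ENNReal.ofNNReal_finsetSum]
      exact_mod_cast N.sub v
    calc Ex N.P v (d + 1) (fun s => sq (en v s))
        = ∑ y, (N.P v y : ℝ≥0∞) * Ex N.P y d (fun s => sq (en y s)) := rfl
      _ ≤ ∑ y, (N.P v y : ℝ≥0∞) * (sq y + d) := by
          refine Finset.sum_le_sum fun y _ => ?_
          gcongr
          exact ih y
      _ = ∑ y, (N.P v y : ℝ≥0∞) * sq y + (∑ y, (N.P v y : ℝ≥0∞)) * d := by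
          rw [Finset.sum_mul, ← Finset.sum_add_distrib]
          exact Finset.sum_congr rfl fun y _ => mul_add _ _ _
      _ ≤ (sq v + 1) + 1 * d := by
          gcongr
          exact hsub v
      _ = sq v + (d + 1 : ℕ) := by
          push_cast
          ring

/-- one segment of the walk ending in `A` -/
noncomputable def seg (N : Net V) (p : ℕ → ℝ≥0∞) (A : Set V) (v : V) (F : V → ℝ≥0∞) : ℝ≥0∞ :=
  ∑' s : List V, (if en v s ∈ A then p s.length * pr N.P v s else 0) * F (en v s)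

theorem seg_eq (p : ℕ → ℝ≥0∞) (A : Set V) (v : V) (F : V → ℝ≥0∞) :
    seg N p A v F = ∑' d, p d * Ex N.P v d (fun s => if en v s ∈ A then F (en v s) else 0) := by
  rw [← tsum_dur]
  unfold seg
  refine tsum_congr fun s => ?_
  split_ifs
  · rfl
  · simp

theorem seg_mass (sq : V → ℝ≥0∞) (R : ℝ≥0∞) (hR0 : R ≠ 0) (hR1 : R ≠ ∞) (A : Set V)
    (hA : ∀ v, v ∉ A → R ≤ sq v)
    (hint : ∀ v, sq v < R → ∑ y, N.P v y = 1 ∧ ∑ y, (N.P v y : ℝ≥0∞) * sq y = sq v + 1)
    (p : ℕ → ℝ≥0∞) (hp : ∑' d, p d = 1) (m : ℝ≥0∞) (hm : ∑' d, p d * (d : ℝ≥0∞) ≤ m) (v : V) :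
    1 ≤ seg N p A v (fun _ => 1) + (sq v + m) / R := by
  rw [seg_eq]
  calc (1 : ℝ≥0∞) = ∑' d, p d := hp.symm
    _ ≤ ∑' d, (p d * Ex N.P v d (fun s => if en v s ∈ A then 1 else 0)
        + (p d * sq v + p d * d) * R⁻¹) := by
      refine ENNReal.tsum_le_tsum fun d => ?_
      calc p d = p d * 1 := (mul_one _).symm
        _ ≤ p d * (Ex N.P v d (fun s => if en v s ∈ A then 1 else 0) + (sq v + d) / R) := by
          gcongr
          exact Ex_mass N sq R hR0 hR1 A hA hint d v
        _ = _ := by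
          rw [div_eq_mul_inv]
          ring
    _ = ∑' d, p d * Ex N.P v d (fun s => if en v s ∈ A then 1 else 0)
        + (sq v + ∑' d, p d * (d : ℝ≥0∞)) / R := by
      rw [ENNReal.tsum_add, ENNReal.tsum_mul_right, ENNReal.tsum_add, ENNReal.tsum_mul_right, hp,
        one_mul, div_eq_mul_inv]
    _ ≤ _ := by gcongr

theorem seg_sq (sq : V → ℝ≥0∞)
    (hsub : ∀ v, ∑ y, (N.P v y : ℝ≥0∞) * sq y ≤ sq v + 1) (A : Set V)
    (p : ℕ → ℝ≥0∞) (hp : ∑' d, p d = 1) (m : ℝ≥0∞) (hm : ∑' d, p d * (d : ℝ≥0∞) ≤ m) (v : V) :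
    seg N p A v sq ≤ sq v + m := by
  rw [seg_eq]
  calc ∑' d, p d * Ex N.P v d (fun s => if en v s ∈ A then sq (en v s) else 0)
      ≤ ∑' d, (p d * sq v + p d * d) := by
        refine ENNReal.tsum_le_tsum fun d => ?_
        rw [← mul_add]
        gcongr
        refine le_trans (Ex_mono N.P v d fun s => ?_) (Ex_sq N sq hsub d v)
        split_ifs
        · exact le_rfl
        · exact zero_le
    _ = sq v + ∑' d, p d * (d : ℝ≥0∞) := by
        rw [ENNReal.tsum_add, ENNReal.tsum_mul_right, hp, one_mul]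
    _ ≤ _ := by gcongr

/-- expectation of `F` (last mark) at level `k` -/
noncomputable def lv (N : Net V) (b : V) (q : ℕ → ℕ → ℝ≥0∞) (B : ℕ → Set V) (k : ℕ)
    (F : V → ℝ≥0∞) : ℝ≥0∞ :=
  ∑' z, ∑' ys : List (List V), (if ys.length = k then
    (chn N b q B).law z ys * F (en b (fullp z ys)) else 0)

theorem lv_zero (F : V → ℝ≥0∞) :
    lv N b q B 0 F = seg N (q 0) (B 0) b (fun v => seg N (q 0) (B 0) v F) := by
  unfold lv
  have h1 : ∀ z : List V × List V, ∑' ys : List (List V), (if ys.length = 0 then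
      (chn N b q B).law z ys * F (en b (fullp z ys)) else 0)
      = om0 N b (q 0) (B 0) z * F (en b (z.1 ++ z.2)) := by
    intro z
    rw [tsum_eq_single []]
    · rw [if_pos List.length_nil, fullp_nil]
      rfl
    · intro ys hys
      rw [if_neg]
      intro h
      exact hys (List.eq_nil_of_length_eq_zero h)
  rw [tsum_congr h1, ENNReal.tsum_prod']
  unfold seg
  refine tsum_congr fun z1 => ?_
  rw [← ENNReal.tsum_mul_left]
  refine tsum_congr fun z2 => ?_
  unfold om0
  simp only [en_append]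
  by_cases hz1 : en b z1 ∈ B 0
  · by_cases hz2 : en (en b z1) z2 ∈ B 0
    · simp only [hz1, hz2, and_self, if_true]
      ring
    · simp [hz1, hz2]
  · simp [hz1]

theorem lv_succ (k : ℕ) (F : V → ℝ≥0∞) :
    lv N b q B (k + 1) F = lv N b q B k (fun v => seg N (q (k + 1)) (B (k + 1)) v F) := by
  unfold lv
  refine tsum_congr fun z => ?_
  rw [tsum_length_succ]
  refine tsum_congr fun ys => ?_
  split_ifs with h
  · unfold seg
    rw [← ENNReal.tsum_mul_left]
    refine tsum_congr fun y => ?_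
    rw [fullp_cons, en_append]
    show (chn N b q B).law z ys * (chn N b q B).tau ys.length ((chn N b q B).endp z ys) y * _ = _
    rw [endp_eq, tau_eq, h, mul_assoc]
  · rfl

theorem lv_mono (k : ℕ) {F G : V → ℝ≥0∞} (h : ∀ v, F v ≤ G v) :
    lv N b q B k F ≤ lv N b q B k G := by
  unfold lv
  refine ENNReal.tsum_le_tsum fun z => ENNReal.tsum_le_tsum fun ys => ?_
  split_ifs
  · gcongr
    exact h _
  · exact le_rfl

theorem lv_add (k : ℕ) (F G : V → ℝ≥0∞) :
    lv N b q B k (fun v => F v + G v) = lv N b q B k F + lv N b q B k G := by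
  unfold lv
  rw [← ENNReal.tsum_add]
  refine tsum_congr fun z => ?_
  rw [← ENNReal.tsum_add]
  refine tsum_congr fun ys => ?_
  split_ifs
  · rw [mul_add]
  · rw [add_zero]

theorem lv_mul (k : ℕ) (F : V → ℝ≥0∞) (a : ℝ≥0∞) :
    lv N b q B k (fun v => F v * a) = lv N b q B k F * a := by
  unfold lv
  rw [← ENNReal.tsum_mul_right]
  refine tsum_congr fun z => ?_
  rw [← ENNReal.tsum_mul_right]
  refine tsum_congr fun ys => ?_
  split_ifs
  · rw [mul_assoc]
  · rw [zero_mul]

theorem seg_le_one (p : ℕ → ℝ≥0∞) (hp : ∑' d, p d ≤ 1) (A : Set V) (v : V) :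
    seg N p A v (fun _ => 1) ≤ 1 := by
  unfold seg
  refine le_trans (ENNReal.tsum_le_tsum fun s => ?_) (tsum_dur_le_one N p hp v)
  split_ifs
  · rw [mul_one]
  · simp

theorem seg_mono (p : ℕ → ℝ≥0∞) (A : Set V) (v : V) {F G : V → ℝ≥0∞} (h : ∀ v, F v ≤ G v) :
    seg N p A v F ≤ seg N p A v G := by
  unfold seg
  refine ENNReal.tsum_le_tsum fun s => ?_
  gcongr
  exact h _

theorem seg_add (p : ℕ → ℝ≥0∞) (A : Set V) (v : V) (F G : V → ℝ≥0∞) :
    seg N p A v (fun v => F v + G v) = seg N p A v F + seg N p A v G := by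
  unfold seg
  rw [← ENNReal.tsum_add]
  exact tsum_congr fun s => mul_add _ _ _

theorem seg_mul (p : ℕ → ℝ≥0∞) (A : Set V) (v : V) (F : V → ℝ≥0∞) (a : ℝ≥0∞) :
    seg N p A v (fun v => F v * a) = seg N p A v F * a := by
  unfold seg
  rw [← ENNReal.tsum_mul_right]
  exact tsum_congr fun s => (mul_assoc _ _ _).symm

theorem lv_le_one (hq : ∀ j, ∑' d, q j d ≤ 1) (k : ℕ) : lv N b q B k (fun _ => 1) ≤ 1 := by
  induction k with
  | zero =>
    rw [lv_zero]
    exact (seg_mono N _ _ _ fun v => seg_le_one N _ (hq 0) _ v).trans (seg_le_one N _ (hq 0) _ b)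
  | succ k ih =>
    rw [lv_succ]
    exact (lv_mono N b q B k fun v => seg_le_one N _ (hq _) _ v).trans ih

/-- `sq` is the squared distance to `b`, `R j` the squared radius of `B j`, `m j` the mean
duration at level `j`. -/
theorem law_mass (sq : V → ℝ≥0∞) (hb : sq b = 0) (hsq : ∀ v, sq v ≠ ∞)
    (hsub : ∀ v, ∑ y, (N.P v y : ℝ≥0∞) * sq y ≤ sq v + 1)
    (R : ℕ → ℝ≥0∞) (hR0 : ∀ j, R j ≠ 0) (hR1 : ∀ j, R j ≠ ∞) (k : ℕ)
    (hB : ∀ j v, v ∉ B j → R j ≤ sq v)
    (hint : ∀ j ≤ k, ∀ v, sq v < R j →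
      ∑ y, N.P v y = 1 ∧ ∑ y, (N.P v y : ℝ≥0∞) * sq y = sq v + 1)
    (hq : ∀ j, ∑' d, q j d = 1) (m : ℕ → ℝ≥0∞) (hm : ∀ j, ∑' d, q j d * (d : ℝ≥0∞) ≤ m j) :
    1 ≤ (∑' z, ∑' ys : List (List V), (if ys.length = k then (chn N b q B).law z ys else 0))
      + 2 * ∑ j ∈ Finset.range (k + 1), (m 0 + ∑ i ∈ Finset.range (j + 1), m i) / R j := by
  have hA : ∀ k, lv N b q B k (fun _ => 1)
      = ∑' z, ∑' ys : List (List V), (if ys.length = k then (chn N b q B).law z ys else 0) := by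
    intro k
    unfold lv
    simp only [mul_one]
  rw [← hA]
  have hS : ∀ k, lv N b q B k sq ≤ m 0 + ∑ i ∈ Finset.range (k + 1), m i := by
    intro k
    induction k with
    | zero =>
      rw [lv_zero]
      calc seg N (q 0) (B 0) b (fun v => seg N (q 0) (B 0) v sq)
          ≤ seg N (q 0) (B 0) b (fun v => sq v + 1 * m 0) :=
            seg_mono N _ _ _ fun v => by
              rw [one_mul]; exact seg_sq N sq hsub _ _ (hq 0) _ (hm 0) v
        _ = seg N (q 0) (B 0) b sq + seg N (q 0) (B 0) b (fun _ => 1) * m 0 := by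
            rw [← seg_mul, ← seg_add]
        _ ≤ (sq b + m 0) + 1 * m 0 := by
            gcongr
            · exact seg_sq N sq hsub _ _ (hq 0) _ (hm 0) b
            · exact seg_le_one N _ (hq 0).le _ b
        _ = _ := by
            rw [hb, zero_add, one_mul, zero_add, Finset.sum_range_one]
    | succ k ih =>
      rw [lv_succ]
      calc lv N b q B k (fun v => seg N (q (k + 1)) (B (k + 1)) v sq)
          ≤ lv N b q B k (fun v => sq v + 1 * m (k + 1)) :=
            lv_mono N b q B k fun v => by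
              rw [one_mul]; exact seg_sq N sq hsub _ _ (hq _) _ (hm _) v
        _ = lv N b q B k sq + lv N b q B k (fun _ => 1) * m (k + 1) := by
            rw [← lv_mul, ← lv_add]
        _ ≤ (m 0 + ∑ i ∈ Finset.range (k + 1), m i) + 1 * m (k + 1) := by
            gcongr
            exact lv_le_one N b q B (fun j => (hq j).le) k
        _ = _ := by
            rw [Finset.sum_range_succ _ (k + 1), one_mul, add_assoc]
  induction k with
  | zero =>
    have h1 : ∀ v, 1 ≤ seg N (q 0) (B 0) v (fun _ => 1) + (sq v + m 0) / R 0 := fun v =>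
      seg_mass N sq (R 0) (hR0 0) (hR1 0) (B 0) (hB 0) (hint 0 le_rfl) (q 0) (hq 0) (m 0) (hm 0) v
    have h2 : seg N (q 0) (B 0) b (fun _ => 1) ≤ lv N b q B 0 (fun _ => 1)
        + (m 0 + m 0) / R 0 := by
      rw [lv_zero]
      calc seg N (q 0) (B 0) b (fun _ => 1)
          ≤ seg N (q 0) (B 0) b (fun v => seg N (q 0) (B 0) v (fun _ => 1)
              + (sq v + 1 * m 0) * (R 0)⁻¹) := seg_mono N _ _ _ fun v => by
                rw [one_mul, ← div_eq_mul_inv]; exact h1 v
        _ = seg N (q 0) (B 0) b (fun v => seg N (q 0) (B 0) v (fun _ => 1))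
              + (seg N (q 0) (B 0) b sq + seg N (q 0) (B 0) b (fun _ => 1) * m 0) * (R 0)⁻¹ := by
            rw [seg_add, seg_mul, seg_add, seg_mul]
        _ ≤ seg N (q 0) (B 0) b (fun v => seg N (q 0) (B 0) v (fun _ => 1))
              + ((sq b + m 0) + 1 * m 0) * (R 0)⁻¹ := by
            gcongr
            · exact seg_sq N sq hsub _ _ (hq 0) _ (hm 0) b
            · exact seg_le_one N _ (hq 0).le _ b
        _ = _ := by rw [hb, zero_add, one_mul, div_eq_mul_inv]
    have h3 := h1 b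
    rw [hb, zero_add] at h3
    calc (1 : ℝ≥0∞) ≤ seg N (q 0) (B 0) b (fun _ => 1) + m 0 / R 0 := h3
      _ ≤ (lv N b q B 0 (fun _ => 1) + (m 0 + m 0) / R 0) + (m 0 + m 0) / R 0 := by
        gcongr
        exact le_self_add
      _ = _ := by
        rw [zero_add, Finset.sum_range_one, zero_add, Finset.sum_range_one, add_assoc, two_mul]
  | succ k ih =>
    have ih' := ih fun j hj => hint j (hj.trans (Nat.le_succ k))
    have h1 : ∀ v, 1 ≤ seg N (q (k + 1)) (B (k + 1)) v (fun _ => 1)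
        + (sq v + m (k + 1)) / R (k + 1) := fun v =>
      seg_mass N sq (R (k + 1)) (hR0 _) (hR1 _) (B (k + 1)) (hB _) (hint _ le_rfl) (q (k + 1))
        (hq _) (m (k + 1)) (hm _) v
    have h2 : lv N b q B k (fun _ => 1) ≤ lv N b q B (k + 1) (fun _ => 1)
        + (m 0 + ∑ i ∈ Finset.range (k + 1 + 1), m i) / R (k + 1) := by
      rw [lv_succ]
      calc lv N b q B k (fun _ => 1)
          ≤ lv N b q B k (fun v => seg N (q (k + 1)) (B (k + 1)) v (fun _ => 1)
              + (sq v + 1 * m (k + 1)) * (R (k + 1))⁻¹) := lv_mono N b q B k fun v => by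
                rw [one_mul, ← div_eq_mul_inv]; exact h1 v
        _ = lv N b q B k (fun v => seg N (q (k + 1)) (B (k + 1)) v (fun _ => 1))
              + (lv N b q B k sq + lv N b q B k (fun _ => 1) * m (k + 1)) * (R (k + 1))⁻¹ := by
            rw [lv_add, lv_mul, lv_add, lv_mul]
        _ ≤ lv N b q B k (fun v => seg N (q (k + 1)) (B (k + 1)) v (fun _ => 1))
              + ((m 0 + ∑ i ∈ Finset.range (k + 1), m i) + 1 * m (k + 1)) * (R (k + 1))⁻¹ := by
            gcongr
            · exact hS k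
            · exact lv_le_one N b q B (fun j => (hq j).le) k
        _ = _ := by
            rw [Finset.sum_range_succ _ (k + 1), one_mul, ← add_assoc, div_eq_mul_inv]
    calc (1 : ℝ≥0∞) ≤ lv N b q B k (fun _ => 1)
          + 2 * ∑ j ∈ Finset.range (k + 1), (m 0 + ∑ i ∈ Finset.range (j + 1), m i) / R j := ih'
      _ ≤ (lv N b q B (k + 1) (fun _ => 1)
          + (m 0 + ∑ i ∈ Finset.range (k + 1 + 1), m i) / R (k + 1))
          + 2 * ∑ j ∈ Finset.range (k + 1), (m 0 + ∑ i ∈ Finset.range (j + 1), m i) / R j := by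
        gcongr
      _ ≤ _ := by
        rw [Finset.sum_range_succ (fun j => (m 0 + ∑ i ∈ Finset.range (j + 1), m i) / R j) (k + 1)]
        set X := (m 0 + ∑ i ∈ Finset.range (k + 1 + 1), m i) / R (k + 1)
        set T := ∑ j ∈ Finset.range (k + 1), (m 0 + ∑ i ∈ Finset.range (j + 1), m i) / R j
        have h3 : X ≤ 2 * X := by rw [two_mul]; exact le_self_add
        calc lv N b q B (k + 1) (fun _ => 1) + X + 2 * T
            = (lv N b q B (k + 1) (fun _ => 1) + 2 * T) + X := by ring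
          _ ≤ (lv N b q B (k + 1) (fun _ => 1) + 2 * T) + 2 * X := add_le_add_right h3 _
          _ = lv N b q B (k + 1) (fun _ => 1) + 2 * (T + X) := by ring

end Pool.Agent.Lib.MP_e4a9a7_pr.D3
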