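import Mathlib
import Pool.Agent.Lib.MP_e4a9a7_pr.D3.AbsHide
import Pool.Agent.Lib.MP_e4a9a7_pr.D3.TauEq
import Pool.Agent.Lib.MP_e4a9a7_pr.D3.LawMass

/-!
# Task K2: hiding theorem on a network
-/

namespace Pool.Agent.Lib.MP_e4a9a7_pr.D3

open scoped ENNReal NNReal BigOperators
open Classical

variable {V : Type} [Fintype V]

theorem tsum_swap3 {P : Type} (G : P → List V → ℕ → ℕ → ℝ≥0∞) :
    ∑' x, ∑' d, ∑' d', ∑' p, G p x d d' = ∑' p, ∑' x, ∑' d, ∑' d', G p x d d' := by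
  calc ∑' x, ∑' d, ∑' d', ∑' p, G p x d d'
      = ∑' x, ∑' d, ∑' p, ∑' d', G p x d d' := by
        refine tsum_congr fun x => tsum_congr fun d => ?_
        exact ENNReal.tsum_comm
    _ = ∑' x, ∑' p, ∑' d, ∑' d', G p x d d' := by
        refine tsum_congr fun x => ?_
        exact ENNReal.tsum_comm
    _ = _ := ENNReal.tsum_comm

theorem tsum_pick3 (x0 : List V) (d0 d0' : ℕ) (a : ℝ≥0∞) :
    ∑' x : List V, ∑' d, ∑' d', (if x = x0 ∧ d = d0 ∧ d' = d0' then a else 0) = a := by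
  rw [tsum_eq_single x0, tsum_eq_single d0, tsum_eq_single d0']
  · simp
  · intro d' hd'; simp [hd']
  · intro d hd; simp [hd]
  · intro x hx; simp [hx]

/-- hiding on a network, with the errors of the chain still explicit.  `t x d d' c` is the
sub-probability of: first `n` steps `x`, initial durations `d, d'`, cloud `c`. -/
theorem hide_net (N : Net V) (b : V) (q : ℕ → ℕ → ℝ≥0∞) (B : ℕ → Set V)
    (sq : V → ℝ≥0∞) (hb : sq b = 0) (hsq : ∀ v, sq v ≠ ∞)
    (hsub : ∀ v, ∑ y, (N.P v y : ℝ≥0∞) * sq y ≤ sq v + 1)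
    (R : ℕ → ℝ≥0∞) (hR0 : ∀ j, R j ≠ 0) (hR1 : ∀ j, R j ≠ ∞) (k : ℕ)
    (hB : ∀ j v, v ∉ B j → R j ≤ sq v)
    (hint : ∀ j ≤ k + 1, ∀ v, sq v < R j →
      ∑ y, N.P v y = 1 ∧ ∑ y, (N.P v y : ℝ≥0∞) * sq y = sq v + 1)
    (hq : ∀ j, ∑' d, q j d = 1) (m : ℕ → ℝ≥0∞) (hm : ∀ j, ∑' d, q j d * (d : ℝ≥0∞) ≤ m j)
    (tt : ℕ → ℕ) (htt : ∀ j d, q j d ≠ 0 → tt j ≤ d) (n : ℕ)
    (hn0 : ∀ d, q 0 d ≠ 0 → 2 * d ≤ n)
    (hn : n ≤ ∑ j ∈ Finset.range (k + 1), tt (j + 1)) :
    ∃ t : List V → ℕ → ℕ → Cloud V → ℝ≥0∞,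
      (∀ x d d' c, t x d d' c ≠ 0 → x.length = n ∧ d + d' ≤ n) ∧
      (∀ c, ∑' x, ∑' d, ∑' d', t x d d' c ≤ ppp N c) ∧
      (∀ x d d', ∑' c, t x d d' c ≤
        if att b x d ∈ B 0 ∧ att b x (d + d') ∈ B 0 then q 0 d * q 0 d' * pr N.P b x else 0) ∧
      (1 ≤ (∑' x, ∑' d, ∑' d', ∑' c, t x d d' c)
        + 2 * ∑ j ∈ Finset.range (k + 2), (m 0 + ∑ i ∈ Finset.range (j + 1), m i) / R j
        + ∑ j ∈ Finset.range (k + 1), (chn N b q B).err j + (chn N b q B).berr (k + 1)) ∧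
      (∀ x d d' c, t x d d' c ≠ 0 → ∀ i, d + d' ≤ i → i ≤ n → att b x i ∈ Tr c) := by
  have hq1 : ∀ j, ∑' d, q j d ≤ 1 := fun j => (hq j).le
  obtain ⟨t0, h1, h2, h3, h4, h5⟩ := abs_hiding (chn N b q B) (tsum_iota_ne_top N)
    (om_le_one N b q B (hq1 0)) (tau_le_one N b q B hq1) (k + 1)
  -- properties of the support
  have hsupp : ∀ z ys c, t0 z ys c ≠ 0 → ys.length = k + 1 ∧ n ≤ (fullp z ys).length ∧
      z.1.length + z.2.length ≤ n := by
    intro z ys c hne
    have hlaw : (chn N b q B).law z ys ≠ 0 := by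
      intro h0
      have h6 := h3 z ys
      rw [h0, le_zero_iff, ENNReal.tsum_eq_zero] at h6
      exact hne (h6 c)
    have hlen := h1 z ys c hne
    have h7 := length_of_law N b q B tt htt z ys hlaw
    rw [hlen] at h7
    refine ⟨hlen, by omega, ?_⟩
    -- the initial durations
    have hom : om0 N b (q 0) (B 0) z ≠ 0 := by
      have : ∀ ys, (chn N b q B).law z ys ≠ 0 → (chn N b q B).law z [] ≠ 0 := by
        intro ys
        induction ys with
        | nil => exact id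
        | cons y ys ih => exact fun h => ih (left_ne_zero_of_mul h)
      exact this ys hlaw
    unfold om0 at hom
    split_ifs at hom with hz
    · have h8 : q 0 z.1.length ≠ 0 := fun h0 => hom (by rw [h0]; simp)
      have h9 : q 0 z.2.length ≠ 0 := fun h0 => hom (by rw [h0]; simp)
      have h10 := hn0 _ h8
      have h11 := hn0 _ h9
      omega
    · exact absurd rfl hom
  let G : ((List V × List V) × List (List V)) → Cloud V → List V → ℕ → ℕ → ℝ≥0∞ :=
    fun p c x d d' => if x = (fullp p.1 p.2).take n ∧ d = p.1.1.length ∧ d' = p.1.2.length then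
      t0 p.1 p.2 c else 0
  have hG : ∀ p c x d d', G p c x d d' ≠ 0 → t0 p.1 p.2 c ≠ 0 ∧
      x = (fullp p.1 p.2).take n ∧ d = p.1.1.length ∧ d' = p.1.2.length := by
    intro p c x d d' h
    simp only [G] at h
    split_ifs at h with h6
    · exact ⟨h, h6⟩
    · exact absurd rfl h
  have hGex : ∀ c x d d', ∑' p, G p c x d d' ≠ 0 → ∃ p, G p c x d d' ≠ 0 := by
    intro c x d d' h
    by_contra hcon
    push Not at hcon
    exact h (ENNReal.tsum_eq_zero.2 hcon)
  have hsum : ∀ c, ∑' x, ∑' d, ∑' d', ∑' p, G p c x d d' = ∑' z, ∑' ys, t0 z ys c := by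
    intro c
    have hp : ∑' z, ∑' ys, t0 z ys c
        = ∑' p : (List V × List V) × List (List V), t0 p.1 p.2 c := ENNReal.tsum_prod.symm
    rw [tsum_swap3 (fun p x d d' => G p c x d d'), hp]
    exact tsum_congr fun p => tsum_pick3 _ _ _ _
  refine ⟨fun x d d' c => ∑' p, G p c x d d', ?_, ?_, ?_, ?_, ?_⟩
  · intro x d d' c h
    obtain ⟨p, hp⟩ := hGex c x d d' h
    obtain ⟨h6, rfl, rfl, rfl⟩ := hG p c _ _ _ hp
    obtain ⟨_, h7, h8⟩ := hsupp _ _ _ h6
    exact ⟨by rw [List.length_take]; omega, h8⟩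
  · intro c
    rw [hsum]
    exact h2 c
  · intro x d d'
    by_cases hx : x.length = n ∧ d + d' ≤ n
    · refine le_trans ?_ (path_bound N b q B hq1 n (k + 1) d d' hx.2 x hx.1)
      rw [ENNReal.tsum_comm, ENNReal.tsum_prod']
      refine ENNReal.tsum_le_tsum fun z => ENNReal.tsum_le_tsum fun ys => ?_
      by_cases hc : z.1.length = d ∧ z.2.length = d' ∧ ys.length = k + 1 ∧
          (fullp z ys).take n = x
      · rw [if_pos hc]
        refine le_trans (ENNReal.tsum_le_tsum fun c => ?_) (h3 z ys)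
        simp only [G]
        split_ifs
        · exact le_rfl
        · exact zero_le
      · rw [if_neg hc, le_zero_iff, ENNReal.tsum_eq_zero]
        intro c
        by_contra hne
        obtain ⟨h6, h7, h8, h9⟩ := hG (z, ys) c x d d' hne
        exact hc ⟨h8.symm, h9.symm, h1 z ys c h6, h7.symm⟩
    · refine le_trans (le_of_eq ?_) (zero_le)
      rw [ENNReal.tsum_eq_zero]
      intro c
      by_contra hne
      obtain ⟨p, hp⟩ := hGex c x d d' hne
      obtain ⟨h6, rfl, rfl, rfl⟩ := hG p c _ _ _ hp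
      obtain ⟨_, h7, h8⟩ := hsupp _ _ _ h6
      exact hx ⟨by rw [List.length_take]; omega, h8⟩
  · have hmass := law_mass N b q B sq hb hsq hsub R hR0 hR1 (k + 1) hB hint hq m hm
    have htot : ∑' x, ∑' d, ∑' d', ∑' c, ∑' p, G p c x d d'
        = ∑' z, ∑' ys, ∑' c, t0 z ys c := by
      rw [tsum_swap3 (fun c x d d' => ∑' p, G p c x d d'), tsum_congr hsum, ENNReal.tsum_comm]
      refine tsum_congr fun z => ?_
      exact ENNReal.tsum_comm
    rw [htot]
    refine hmass.trans ?_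
    calc (∑' z, ∑' ys : List (List V), (if ys.length = k + 1 then (chn N b q B).law z ys else 0))
          + 2 * ∑ j ∈ Finset.range (k + 1 + 1), (m 0 + ∑ i ∈ Finset.range (j + 1), m i) / R j
        ≤ ((∑' z, ∑' ys, ∑' c, t0 z ys c) + ∑ j ∈ Finset.range (k + 1), (chn N b q B).err j
          + (chn N b q B).berr (k + 1))
          + 2 * ∑ j ∈ Finset.range (k + 1 + 1), (m 0 + ∑ i ∈ Finset.range (j + 1), m i) / R j := by
          gcongr
      _ = _ := by ring
  · intro x d d' c h i hi1 hi2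
    obtain ⟨p, hp⟩ := hGex c x d d' h
    obtain ⟨h6, rfl, rfl, rfl⟩ := hG p c _ _ _ hp
    obtain ⟨h7, h8, h9⟩ := hsupp _ _ _ h6
    have hys : p.2 ≠ [] := by
      intro h0
      rw [h0] at h7
      cases h7
    have h10 := att_mem_of_Hid N b q B p.1 p.2 hys c (h5 _ _ _ h6) i hi1 (hi2.trans h8)
    have h11 : att b (fullp p.1 p.2) i = att b ((fullp p.1 p.2).take n) i := by
      conv_lhs => rw [← List.take_append_drop n (fullp p.1 p.2)]
      exact att_append_left _ _ _ _ (by rw [List.length_take]; omega)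
    rwa [← h11]

end Pool.Agent.Lib.MP_e4a9a7_pr.D3
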