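import Mathlib
import Pool.Agent.Lib.MP_e4a9a7_pr.D3.Lattice
import Pool.Agent.Lib.MP_e4a9a7_pr.D3.HideNet
import Pool.Agent.Lib.MP_e4a9a7_pr.D3.ErrBound

/-!
# Task N: the hiding theorem on `ℤ^3`
-/

namespace Pool.Agent.Lib.MP_e4a9a7_pr.D3

open scoped ENNReal NNReal BigOperators
open Classical

/-- uniform law on `{t, ..., 2 t - 1}` -/
noncomputable def uq (t : ℕ) (d : ℕ) : ℝ≥0∞ := if t ≤ d ∧ d < 2 * t then (t : ℝ≥0∞)⁻¹ else 0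

/-- radius of the ball at scale `t` (`t` = time) -/
noncomputable def rad (t : ℕ) : ℝ := (t : ℝ) ^ ((1 + 1 / 1000 : ℝ) / 2)

/-- ball of radius `r` in `Λ` -/
def bal (Λ : Finset Z3) (b : Z3) (r : ℝ) : Set Λ := {x | sqn ((x : Z3) - b) ≤ r ^ 2}

/-! ### Durations -/

theorem hN_uq_le (t d : ℕ) : uq t d ≤ (t : ℝ≥0∞)⁻¹ := by
  unfold uq; split_ifs <;> simp

theorem hN_uq_sum {t : ℕ} (ht : 1 ≤ t) : ∑' d, uq t d = 1 := by
  rw [tsum_eq_sum (s := Finset.Ico t (2 * t))]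
  · rw [Finset.sum_congr rfl (g := fun _ => (t : ℝ≥0∞)⁻¹)]
    · rw [Finset.sum_const, Nat.card_Ico, two_mul, Nat.add_sub_cancel, nsmul_eq_mul]
      exact ENNReal.mul_inv_cancel (by simp; omega) (by simp)
    · intro d hd
      rw [Finset.mem_Ico] at hd
      simp [uq, hd]
  · intro d hd
    rw [Finset.mem_Ico] at hd
    simp [uq, hd]

theorem hN_uq_mean {t : ℕ} (ht : 1 ≤ t) : ∑' d, uq t d * (d : ℝ≥0∞) ≤ 2 * (t : ℝ≥0∞) := by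
  calc ∑' d, uq t d * (d : ℝ≥0∞) ≤ ∑' d, uq t d * (2 * (t : ℝ≥0∞)) := by
        refine ENNReal.tsum_le_tsum fun d => ?_
        unfold uq
        split_ifs with h
        · gcongr
          have : d ≤ 2 * t := h.2.le
          exact_mod_cast this
        · simp
    _ = 2 * (t : ℝ≥0∞) := by rw [ENNReal.tsum_mul_right, hN_uq_sum ht, one_mul]

theorem hN_uq_ne {t d : ℕ} (h : uq t d ≠ 0) : t ≤ d ∧ d < 2 * t := by
  unfold uq at h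
  by_contra h'
  exact h (if_neg h')

theorem hN_rad_one_le {t : ℕ} (ht : 1 ≤ t) : 1 ≤ rad t := by
  unfold rad
  exact Real.one_le_rpow (by exact_mod_cast ht) (by norm_num)

theorem hN_rad_mono {t t' : ℕ} (h : t ≤ t') : rad t ≤ rad t' := by
  unfold rad
  exact Real.rpow_le_rpow (by positivity) (by exact_mod_cast h) (by norm_num)

theorem hN_bal_mono (Λ : Finset Z3) (b : Z3) {r r' : ℝ} (h0 : 0 ≤ r) (h : r ≤ r') :
    bal Λ b r ⊆ bal Λ b r' := by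
  intro x hx
  have h1 : sqn ((x : Z3) - b) ≤ r ^ 2 := hx
  have h2 : r ^ 2 ≤ r' ^ 2 := by gcongr
  exact h1.trans h2

theorem hN_rad_sq (t : ℕ) : rad t ^ 2 = (t : ℝ) ^ (1 + 1 / 1000 : ℝ) := by
  unfold rad
  rw [← Real.rpow_natCast, ← Real.rpow_mul (by positivity)]
  norm_num

/-! ### Geometric sums -/

theorem hN_geo_bound {K a : ℝ} (hK : 0 ≤ K) (ha : 0 < a) {t0 : ℕ} (ht0 : 1 ≤ t0) (N : ℕ) :
    ∑ j ∈ Finset.range N, ENNReal.ofReal (K * ((4 ^ j * t0 : ℕ) : ℝ) ^ (-a))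
      ≤ ENNReal.ofReal (K * (1 - (4 : ℝ) ^ (-a))⁻¹ * (t0 : ℝ) ^ (-a)) := by
  have hr0 : 0 ≤ (4 : ℝ) ^ (-a) := by positivity
  have hr1 : (4 : ℝ) ^ (-a) < 1 := Real.rpow_lt_one_of_one_lt_of_neg (by norm_num) (by linarith)
  rw [← ENNReal.ofReal_sum_of_nonneg (fun j _ => by positivity)]
  apply ENNReal.ofReal_le_ofReal
  have h1 : ∀ j : ℕ, K * ((4 ^ j * t0 : ℕ) : ℝ) ^ (-a)
      = K * (t0 : ℝ) ^ (-a) * ((4 : ℝ) ^ (-a)) ^ j := by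
    intro j
    push_cast
    rw [Real.mul_rpow (by positivity) (by positivity)]
    rw [← Real.rpow_natCast ((4 : ℝ) ^ (-a)) j, ← Real.rpow_mul (by norm_num),
      mul_comm (-a) (j : ℝ), Real.rpow_mul (by norm_num), Real.rpow_natCast]
    ring
  simp_rw [h1]
  rw [← Finset.mul_sum]
  have h2 : ∑ j ∈ Finset.range N, ((4 : ℝ) ^ (-a)) ^ j ≤ (1 - (4 : ℝ) ^ (-a))⁻¹ := by
    rw [← tsum_geometric_of_lt_one hr0 hr1]
    exact (summable_geometric_of_lt_one hr0 hr1).sum_le_tsum _ (fun j _ => by positivity)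
  calc K * (t0 : ℝ) ^ (-a) * ∑ j ∈ Finset.range N, ((4 : ℝ) ^ (-a)) ^ j
      ≤ K * (t0 : ℝ) ^ (-a) * (1 - (4 : ℝ) ^ (-a))⁻¹ := by gcongr
    _ = _ := by ring

/-! ### The mass term -/

theorem hN_dur_sum (t0 j : ℕ) :
    2 * t0 + ∑ i ∈ Finset.range (j + 1), 2 * (4 ^ i * t0) ≤ 5 * (4 ^ j * t0) := by
  induction j with
  | zero => simp; omega
  | succ j ih =>
    rw [Finset.sum_range_succ]
    have : 4 ^ (j + 1) * t0 = 4 * (4 ^ j * t0) := by ring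
    rw [this]
    omega

theorem hN_mass_term {t0 : ℕ} (ht0 : 1 ≤ t0) (j : ℕ) :
    (2 * ((4 ^ 0 * t0 : ℕ) : ℝ≥0∞)
      + ∑ i ∈ Finset.range (j + 1), 2 * ((4 ^ i * t0 : ℕ) : ℝ≥0∞))
        / ENNReal.ofReal (rad (4 ^ j * t0) ^ 2)
      ≤ ENNReal.ofReal (5 * ((4 ^ j * t0 : ℕ) : ℝ) ^ (-(1 / 1000 : ℝ))) := by
  have hT : 0 < 4 ^ j * t0 := by positivity
  set T := 4 ^ j * t0 with hTd
  have hT' : (0 : ℝ) < (T : ℝ) := by exact_mod_cast hT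
  have h1 : (2 * ((4 ^ 0 * t0 : ℕ) : ℝ≥0∞)
      + ∑ i ∈ Finset.range (j + 1), 2 * ((4 ^ i * t0 : ℕ) : ℝ≥0∞)) ≤ ENNReal.ofReal (5 * T) := by
    have := hN_dur_sum t0 j
    rw [← hTd] at this
    have h2 : ((2 * t0 + ∑ i ∈ Finset.range (j + 1), 2 * (4 ^ i * t0) : ℕ) : ℝ≥0∞)
      ≤ ((5 * T : ℕ) : ℝ≥0∞) := by exact_mod_cast this
    calc _ = ((2 * t0 + ∑ i ∈ Finset.range (j + 1), 2 * (4 ^ i * t0) : ℕ) : ℝ≥0∞) := by
          push_cast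
          simp
      _ ≤ _ := h2
      _ = ENNReal.ofReal (5 * T) := by
          rw [← ENNReal.ofReal_natCast]
          push_cast
          rfl
  calc _ ≤ ENNReal.ofReal (5 * T) / ENNReal.ofReal (rad T ^ 2) := by gcongr
    _ = ENNReal.ofReal (5 * T / rad T ^ 2) := by
        rw [ENNReal.ofReal_div_of_pos]
        rw [hN_rad_sq]; positivity
    _ = _ := by
        congr 1
        rw [hN_rad_sq, Real.rpow_add hT', Real.rpow_one, Real.rpow_neg hT'.le]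
        field_simp

/-! ### Numerical bounds -/

theorem hN_conv_err (lam SH k1 k2 Nn S0 S1 S2 hh : ℝ) (hlam : 0 < lam) (hSH : 0 ≤ SH) (hk1 : 0 ≤ k1)
    (hk2 : 0 ≤ k2) (hNn : 0 ≤ Nn) (hS0 : 0 ≤ S0) (hS1 : 0 ≤ S1) (hS2 : 0 ≤ S2) (hhh : 0 < hh) :
    (ENNReal.ofReal lam * ENNReal.ofReal SH + 96 * ENNReal.ofReal k1 ^ 2 * ENNReal.ofReal k2 ^ 2
      * ENNReal.ofReal Nn ^ 2 * ENNReal.ofReal S0 * ENNReal.ofReal S1 ^ 3 * ENNReal.ofReal S2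
      / (ENNReal.ofReal hh ^ 3 * ENNReal.ofReal lam)) / 2
    = ENNReal.ofReal ((lam * SH + 96 * k1 ^ 2 * k2 ^ 2 * Nn ^ 2 * S0 * S1 ^ 3 * S2
      / (hh ^ 3 * lam)) / 2) := by
  have h96 : (96 : ℝ≥0∞) = ENNReal.ofReal 96 := by norm_num
  have h2 : (2 : ℝ≥0∞) = ENNReal.ofReal 2 := by norm_num
  rw [h96]
  rw [ENNReal.ofReal_div_of_pos (by norm_num), ENNReal.ofReal_add (by positivity) (by positivity),
    ENNReal.ofReal_div_of_pos (by positivity), ENNReal.ofReal_mul (by positivity),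
    ENNReal.ofReal_mul (by positivity), ENNReal.ofReal_mul (by positivity),
    ENNReal.ofReal_mul (by positivity), ENNReal.ofReal_mul (by positivity),
    ENNReal.ofReal_mul (by positivity), ENNReal.ofReal_mul (by positivity),
    ENNReal.ofReal_mul (by positivity),
    ENNReal.ofReal_pow hk1, ENNReal.ofReal_pow hk2, ENNReal.ofReal_pow hNn,
    ENNReal.ofReal_pow hS1, ENNReal.ofReal_pow hhh.le, ← h2]

theorem hN_conv_berr (lam k1 Nn S0 S1 hh : ℝ) (hlam : 0 < lam) (hk1 : 0 ≤ k1)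
    (hNn : 0 ≤ Nn) (hS0 : 0 ≤ S0) (hS1 : 0 ≤ S1) (hhh : 0 < hh) :
    (ENNReal.ofReal lam + 48 * ENNReal.ofReal k1 ^ 2
      * ENNReal.ofReal Nn ^ 2 * ENNReal.ofReal S0 * ENNReal.ofReal S1 ^ 3
      / (ENNReal.ofReal hh ^ 2 * ENNReal.ofReal lam)) / 2
    = ENNReal.ofReal ((lam + 48 * k1 ^ 2 * Nn ^ 2 * S0 * S1 ^ 3
      / (hh ^ 2 * lam)) / 2) := by
  have h48 : (48 : ℝ≥0∞) = ENNReal.ofReal 48 := by norm_num
  have h2 : (2 : ℝ≥0∞) = ENNReal.ofReal 2 := by norm_num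
  rw [h48]
  rw [ENNReal.ofReal_div_of_pos (by norm_num), ENNReal.ofReal_add (by positivity) (by positivity),
    ENNReal.ofReal_div_of_pos (by positivity), ENNReal.ofReal_mul (by positivity),
    ENNReal.ofReal_mul (by positivity), ENNReal.ofReal_mul (by positivity),
    ENNReal.ofReal_mul (by positivity), ENNReal.ofReal_mul (by positivity),
    ENNReal.ofReal_pow hk1, ENNReal.ofReal_pow hNn,
    ENNReal.ofReal_pow hS1, ENNReal.ofReal_pow hhh.le, ← h2]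

/-- radius as a function of the real time `s` -/
noncomputable def hNrr (s : ℝ) : ℝ := s ^ ((1 + 1 / 1000 : ℝ) / 2)

theorem hN_rr_rpow {s : ℝ} (hs : 0 < s) (a : ℝ) :
    hNrr s ^ a = s ^ ((1 + 1 / 1000 : ℝ) / 2 * a) := by
  unfold hNrr
  rw [← Real.rpow_mul hs.le]

theorem hN_num_err (C : ℝ) (hC : 0 < C) : ∃ K : ℝ, 0 < K ∧ ∀ s : ℝ, 1 ≤ s →
    (s ^ (-(37 / 28) : ℝ) * (C * hNrr s ^ (3 + 1 / 1000 - 3 / 7 : ℝ)) + 96 * (4 / s) ^ 2 * (1 / s) ^ 2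
      * (1024 / s ^ 2 * (169 * C * hNrr s ^ (3 + 1 / 1000 - 2 : ℝ))) ^ 2
      * (C * hNrr s ^ (3 + 1 / 1000 - 0 : ℝ))
      * (13 * C * hNrr s ^ (3 + 1 / 1000 - 1 : ℝ)) ^ 3 * (169 * C * hNrr s ^ (3 + 1 / 1000 - 2 : ℝ))
      / (((3 * hNrr s) ^ (-(3 : ℝ) / 7)) ^ 3 * s ^ (-(37 / 28) : ℝ))) / 2
      ≤ K * s ^ (-(1 / 50) : ℝ) := by
  set K2 : ℝ := 96 * 16 * (1024 * (169 * C)) ^ 2 * C * (13 * C) ^ 3 * (169 * C)
    * ((3 : ℝ) ^ ((3 : ℝ) / 7)) ^ 3 with hK2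
  refine ⟨C + K2, by positivity, fun s hs => ?_⟩
  have hs0 : 0 < s := by linarith
  have hr0 : 0 < hNrr s := by unfold hNrr; positivity
  have e1 : s ^ (-(37 / 28) : ℝ) * (C * hNrr s ^ (3 + 1 / 1000 - 3 / 7 : ℝ))
      ≤ C * s ^ (-(1 / 50) : ℝ) := by
    rw [hN_rr_rpow hs0]
    calc s ^ (-(37 / 28) : ℝ) * (C * s ^ ((1 + 1 / 1000 : ℝ) / 2 * (3 + 1 / 1000 - 3 / 7)))
        = C * s ^ (-(37 / 28) + (1 + 1 / 1000 : ℝ) / 2 * (3 + 1 / 1000 - 3 / 7) : ℝ) := by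
          rw [Real.rpow_add hs0]; ring
      _ ≤ _ := by
          gcongr
          norm_num
  have e2 : 96 * (4 / s) ^ 2 * (1 / s) ^ 2
      * (1024 / s ^ 2 * (169 * C * hNrr s ^ (3 + 1 / 1000 - 2 : ℝ))) ^ 2
      * (C * hNrr s ^ (3 + 1 / 1000 - 0 : ℝ))
      * (13 * C * hNrr s ^ (3 + 1 / 1000 - 1 : ℝ)) ^ 3 * (169 * C * hNrr s ^ (3 + 1 / 1000 - 2 : ℝ))
      / (((3 * hNrr s) ^ (-(3 : ℝ) / 7)) ^ 3 * s ^ (-(37 / 28) : ℝ)) ≤ K2 * s ^ (-(1 / 50) : ℝ) := by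
    have a1 : ((3 * hNrr s) ^ (-(3 : ℝ) / 7)) ^ 3 * s ^ (-(37 / 28) : ℝ)
        = (((3 : ℝ) ^ ((3 : ℝ) / 7)) ^ 3)⁻¹
          * (s ^ ((1 + 1 / 1000 : ℝ) / 2 * (-(9 : ℝ) / 7)) * s ^ (-(37 / 28) : ℝ)) := by
      rw [Real.mul_rpow (by norm_num) hr0.le, mul_pow, ← Real.rpow_natCast (hNrr s ^ (-(3 : ℝ) / 7)),
        ← Real.rpow_mul hr0.le, hN_rr_rpow hs0]
      rw [neg_div, Real.rpow_neg (by norm_num : (0 : ℝ) ≤ 3), inv_pow, mul_assoc]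
      norm_num
    have a2 : (1024 / s ^ 2 * (169 * C * hNrr s ^ (3 + 1 / 1000 - 2 : ℝ))) ^ 2
        = (1024 * (169 * C)) ^ 2 * (s ^ (-4 : ℝ) *
            s ^ ((1 + 1 / 1000 : ℝ) / 2 * (3 + 1 / 1000 - 2) * 2)) := by
      rw [Real.rpow_mul hs0.le (((1 + 1 / 1000 : ℝ) / 2 * (3 + 1 / 1000 - 2))) 2, ← hN_rr_rpow hs0]
      rw [Real.rpow_neg hs0.le]
      rw [show (4 : ℝ) = ((4 : ℕ) : ℝ) by norm_num, Real.rpow_natCast,
        show (2 : ℝ) = ((2 : ℕ) : ℝ) by norm_num, Real.rpow_natCast]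
      field_simp
    have a3 : (13 * C * hNrr s ^ (3 + 1 / 1000 - 1 : ℝ)) ^ 3
        = (13 * C) ^ 3 * s ^ ((1 + 1 / 1000 : ℝ) / 2 * (3 + 1 / 1000 - 1) * 3) := by
      rw [Real.rpow_mul hs0.le (((1 + 1 / 1000 : ℝ) / 2 * (3 + 1 / 1000 - 1))) 3, ← hN_rr_rpow hs0]
      rw [mul_pow]
      congr 1
      exact_mod_cast (Real.rpow_natCast _ 3).symm
    have a4 : (4 / s) ^ 2 = 16 * s ^ (-2 : ℝ) := by
      rw [Real.rpow_neg hs0.le, show (2 : ℝ) = ((2 : ℕ) : ℝ) by norm_num, Real.rpow_natCast]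
      field_simp
      norm_num
    have a5 : (1 / s) ^ 2 = s ^ (-2 : ℝ) := by
      rw [Real.rpow_neg hs0.le, show (2 : ℝ) = ((2 : ℕ) : ℝ) by norm_num, Real.rpow_natCast]
      field_simp
    rw [a1, a2, a3, a4, a5, hN_rr_rpow hs0, hN_rr_rpow hs0]
    have a6 : 96 * (16 * s ^ (-2 : ℝ)) * s ^ (-2 : ℝ) * ((1024 * (169 * C)) ^ 2 * (s ^ (-4 : ℝ) *
            s ^ ((1 + 1 / 1000 : ℝ) / 2 * (3 + 1 / 1000 - 2) * 2)))
            * (C * s ^ ((1 + 1 / 1000 : ℝ) / 2 * (3 + 1 / 1000 - 0)))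
            * ((13 * C) ^ 3 * s ^ ((1 + 1 / 1000 : ℝ) / 2 * (3 + 1 / 1000 - 1) * 3))
            * (169 * C * s ^ ((1 + 1 / 1000 : ℝ) / 2 * (3 + 1 / 1000 - 2)))
            / ((((3 : ℝ) ^ ((3 : ℝ) / 7)) ^ 3)⁻¹
          * (s ^ ((1 + 1 / 1000 : ℝ) / 2 * (-(9 : ℝ) / 7)) * s ^ (-(37 / 28) : ℝ)))
        = K2 * s ^ ((-2) + (-2) + (-4) + ((1 + 1 / 1000 : ℝ) / 2 * (3 + 1 / 1000 - 2) * 2)
            + ((1 + 1 / 1000 : ℝ) / 2 * (3 + 1 / 1000 - 0))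
            + ((1 + 1 / 1000 : ℝ) / 2 * (3 + 1 / 1000 - 1) * 3)
            + ((1 + 1 / 1000 : ℝ) / 2 * (3 + 1 / 1000 - 2))
            - ((1 + 1 / 1000 : ℝ) / 2 * (-(9 : ℝ) / 7) + (-(37 / 28))) : ℝ) := by
      rw [Real.rpow_sub hs0, Real.rpow_add hs0, Real.rpow_add hs0, Real.rpow_add hs0,
        Real.rpow_add hs0, Real.rpow_add hs0, Real.rpow_add hs0, Real.rpow_add hs0, hK2]
      have hp1 : 0 < s ^ ((1 + 1 / 1000 : ℝ) / 2 * (-(9 : ℝ) / 7)) := by positivity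
      have hp2 : 0 < s ^ (-(37 / 28) : ℝ) := by positivity
      have hp3 : 0 < ((3 : ℝ) ^ ((3 : ℝ) / 7)) ^ 3 := by positivity
      rw [div_eq_iff (by positivity)]
      generalize s ^ ((1 + 1 / 1000 : ℝ) / 2 * (-(9 : ℝ) / 7)) = x1 at *
      generalize s ^ (-(37 / 28) : ℝ) = x2 at *
      generalize ((3 : ℝ) ^ ((3 : ℝ) / 7)) ^ 3 = x3 at *
      have hx : x3 * x3⁻¹ = 1 := mul_inv_cancel₀ hp3.ne'
      have hy : x1 * x2 / (x1 * x2) = 1 := div_self (by positivity)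
      field_simp
    rw [a6]
    gcongr
    norm_num
  have : K2 * s ^ (-(1 / 50) : ℝ) ≥ 0 := by positivity
  have : C * s ^ (-(1 / 50) : ℝ) ≥ 0 := by positivity
  rw [add_mul]
  linarith

theorem hN_num_berr (C : ℝ) (hC : 0 < C) : ∃ K : ℝ, 0 < K ∧ ∀ s : ℝ, 1 ≤ s →
    (s ^ (-(1 / 28) : ℝ) + 48 * (1 / s) ^ 2
      * (1024 / s ^ 2 * (169 * C * hNrr s ^ (3 + 1 / 1000 - 2 : ℝ))) ^ 2
      * (C * hNrr s ^ (3 + 1 / 1000 - 0 : ℝ))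
      * (13 * C * hNrr s ^ (3 + 1 / 1000 - 1 : ℝ)) ^ 3
      / (((3 * hNrr s) ^ (-(3 : ℝ) / 7)) ^ 2 * s ^ (-(1 / 28) : ℝ))) / 2
      ≤ K * s ^ (-(1 / 50) : ℝ) := by
  set K2 : ℝ := 48 * (1024 * (169 * C)) ^ 2 * C * (13 * C) ^ 3
    * ((3 : ℝ) ^ ((3 : ℝ) / 7)) ^ 2 with hK2
  refine ⟨1 + K2, by positivity, fun s hs => ?_⟩
  have hs0 : 0 < s := by linarith
  have hr0 : 0 < hNrr s := by unfold hNrr; positivity
  have e1 : s ^ (-(1 / 28) : ℝ) ≤ s ^ (-(1 / 50) : ℝ) := by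
    gcongr
    norm_num
  have e2 : 48 * (1 / s) ^ 2
      * (1024 / s ^ 2 * (169 * C * hNrr s ^ (3 + 1 / 1000 - 2 : ℝ))) ^ 2
      * (C * hNrr s ^ (3 + 1 / 1000 - 0 : ℝ))
      * (13 * C * hNrr s ^ (3 + 1 / 1000 - 1 : ℝ)) ^ 3
      / (((3 * hNrr s) ^ (-(3 : ℝ) / 7)) ^ 2 * s ^ (-(1 / 28) : ℝ)) ≤ K2 * s ^ (-(1 / 50) : ℝ) := by
    have a1 : ((3 * hNrr s) ^ (-(3 : ℝ) / 7)) ^ 2 * s ^ (-(1 / 28) : ℝ)
        = (((3 : ℝ) ^ ((3 : ℝ) / 7)) ^ 2)⁻¹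
          * (s ^ ((1 + 1 / 1000 : ℝ) / 2 * (-(6 : ℝ) / 7)) * s ^ (-(1 / 28) : ℝ)) := by
      rw [Real.mul_rpow (by norm_num) hr0.le, mul_pow, ← Real.rpow_natCast (hNrr s ^ (-(3 : ℝ) / 7)),
        ← Real.rpow_mul hr0.le, hN_rr_rpow hs0]
      rw [neg_div, Real.rpow_neg (by norm_num : (0 : ℝ) ≤ 3), inv_pow, mul_assoc]
      norm_num
    have a2 : (1024 / s ^ 2 * (169 * C * hNrr s ^ (3 + 1 / 1000 - 2 : ℝ))) ^ 2
        = (1024 * (169 * C)) ^ 2 * (s ^ (-4 : ℝ) *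
            s ^ ((1 + 1 / 1000 : ℝ) / 2 * (3 + 1 / 1000 - 2) * 2)) := by
      rw [Real.rpow_mul hs0.le (((1 + 1 / 1000 : ℝ) / 2 * (3 + 1 / 1000 - 2))) 2, ← hN_rr_rpow hs0]
      rw [Real.rpow_neg hs0.le]
      rw [show (4 : ℝ) = ((4 : ℕ) : ℝ) by norm_num, Real.rpow_natCast,
        show (2 : ℝ) = ((2 : ℕ) : ℝ) by norm_num, Real.rpow_natCast]
      field_simp
    have a3 : (13 * C * hNrr s ^ (3 + 1 / 1000 - 1 : ℝ)) ^ 3
        = (13 * C) ^ 3 * s ^ ((1 + 1 / 1000 : ℝ) / 2 * (3 + 1 / 1000 - 1) * 3) := by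
      rw [Real.rpow_mul hs0.le (((1 + 1 / 1000 : ℝ) / 2 * (3 + 1 / 1000 - 1))) 3, ← hN_rr_rpow hs0]
      rw [mul_pow]
      congr 1
      exact_mod_cast (Real.rpow_natCast _ 3).symm
    have a5 : (1 / s) ^ 2 = s ^ (-2 : ℝ) := by
      rw [Real.rpow_neg hs0.le, show (2 : ℝ) = ((2 : ℕ) : ℝ) by norm_num, Real.rpow_natCast]
      field_simp
    rw [a1, a2, a3, a5, hN_rr_rpow hs0]
    have a6 : 48 * s ^ (-2 : ℝ) * ((1024 * (169 * C)) ^ 2 * (s ^ (-4 : ℝ) *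
            s ^ ((1 + 1 / 1000 : ℝ) / 2 * (3 + 1 / 1000 - 2) * 2)))
            * (C * s ^ ((1 + 1 / 1000 : ℝ) / 2 * (3 + 1 / 1000 - 0)))
            * ((13 * C) ^ 3 * s ^ ((1 + 1 / 1000 : ℝ) / 2 * (3 + 1 / 1000 - 1) * 3))
            / ((((3 : ℝ) ^ ((3 : ℝ) / 7)) ^ 2)⁻¹
          * (s ^ ((1 + 1 / 1000 : ℝ) / 2 * (-(6 : ℝ) / 7)) * s ^ (-(1 / 28) : ℝ)))
        = K2 * s ^ ((-2) + (-4) + ((1 + 1 / 1000 : ℝ) / 2 * (3 + 1 / 1000 - 2) * 2)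
            + ((1 + 1 / 1000 : ℝ) / 2 * (3 + 1 / 1000 - 0))
            + ((1 + 1 / 1000 : ℝ) / 2 * (3 + 1 / 1000 - 1) * 3)
            - ((1 + 1 / 1000 : ℝ) / 2 * (-(6 : ℝ) / 7) + (-(1 / 28))) : ℝ) := by
      rw [Real.rpow_sub hs0, Real.rpow_add hs0, Real.rpow_add hs0, Real.rpow_add hs0,
        Real.rpow_add hs0, Real.rpow_add hs0, hK2]
      have hp1 : 0 < s ^ ((1 + 1 / 1000 : ℝ) / 2 * (-(6 : ℝ) / 7)) := by positivity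
      have hp2 : 0 < s ^ (-(1 / 28) : ℝ) := by positivity
      have hp3 : 0 < ((3 : ℝ) ^ ((3 : ℝ) / 7)) ^ 2 := by positivity
      rw [div_eq_iff (by positivity)]
      generalize s ^ ((1 + 1 / 1000 : ℝ) / 2 * (-(6 : ℝ) / 7)) = x1 at *
      generalize s ^ (-(1 / 28) : ℝ) = x2 at *
      generalize ((3 : ℝ) ^ ((3 : ℝ) / 7)) ^ 2 = x3 at *
      have hx : x3 * x3⁻¹ = 1 := mul_inv_cancel₀ hp3.ne'
      have hy : x1 * x2 / (x1 * x2) = 1 := div_self (by positivity)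
      field_simp
    rw [a6]
    gcongr
    norm_num
  have : K2 * s ^ (-(1 / 50) : ℝ) ≥ 0 := by positivity
  have : s ^ (-(1 / 50) : ℝ) ≥ 0 := by positivity
  rw [add_mul, one_mul]
  linarith


/-! ### Sums over balls -/

/-- the conclusion of `sum_ff_le` with `ε = 1/1000` -/
def hNFFC (C : ℝ) : Prop := ∀ (p : ℝ), 0 ≤ p → p ≤ 3 →
    ∀ (Λ : Finset Z3) (b : Z3) (R : ℝ), 1 ≤ R → (∀ u ∈ Λ, sqn (u - b) ≤ R ^ 2) →
    ∀ z : Z3, sqn (z - b) ≤ R ^ 2 → ∑ u ∈ Λ, ff (u - z) ^ p ≤ C * R ^ (3 + 1 / 1000 - p)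

/-- the ball as a finset -/
noncomputable def hNBfin (Λ : Finset Z3) (b : Z3) (R : ℝ) : Finset Λ :=
  Finset.univ.filter (· ∈ bal Λ b R)

theorem hN_mem_Bfin {Λ : Finset Z3} {b : Z3} {R : ℝ} {u : Λ} :
    u ∈ hNBfin Λ b R ↔ sqn ((u : Z3) - b) ≤ R ^ 2 := by
  unfold hNBfin
  simp [bal]

theorem hN_ball_S {C : ℝ} (hC : hNFFC C) (Λ : Finset Z3) (b : Z3) {R : ℝ} (hR : 1 ≤ R) {p : ℝ}
    (hp0 : 0 ≤ p) (hp3 : p ≤ 3) (z : Z3) (hz : sqn (z - b) ≤ R ^ 2) :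
    ∑ u ∈ hNBfin Λ b R, ff ((u : Z3) - z) ^ p ≤ C * R ^ (3 + 1 / 1000 - p) := by
  have h := hC p hp0 hp3 ((hNBfin Λ b R).map (Function.Embedding.subtype _)) b R hR ?_ z hz
  · rw [Finset.sum_map] at h
    exact h
  · intro u hu
    rw [Finset.mem_map] at hu
    obtain ⟨v, hv, rfl⟩ := hu
    exact hN_mem_Bfin.1 hv

theorem hN_ball_S0 {C : ℝ} (hC : hNFFC C) (Λ : Finset Z3) (b : Z3) {R : ℝ} (hR : 1 ≤ R) :
    ((hNBfin Λ b R).card : ℝ≥0∞) ≤ ENNReal.ofReal (C * R ^ (3 + 1 / 1000 - 0 : ℝ)) := by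
  have h := hN_ball_S hC Λ b hR le_rfl (by norm_num) b (by
    rw [sub_self]
    have : sqn 0 = 0 := by simp [sqn]
    rw [this]; positivity)
  rw [← ENNReal.ofReal_natCast]
  apply ENNReal.ofReal_le_ofReal
  refine le_trans (le_of_eq ?_) h
  simp

theorem hN_ball_S1 {C : ℝ} (hC : hNFFC C) (Λ : Finset Z3) (b : Z3) {R : ℝ} (hR : 1 ≤ R) :
    ∀ z ∈ hNBfin Λ b R, ∑ u ∈ hNBfin Λ b R, glat Λ u z
      ≤ ENNReal.ofReal (13 * C * R ^ (3 + 1 / 1000 - 1 : ℝ)) := by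
  intro z hz
  have h := hN_ball_S hC Λ b hR (p := 1) (by norm_num) (by norm_num) z (hN_mem_Bfin.1 hz)
  unfold glat
  rw [← ENNReal.ofReal_sum_of_nonneg (fun j _ => by have := ff_pos ((j : Z3) - z); positivity)]
  apply ENNReal.ofReal_le_ofReal
  rw [← Finset.mul_sum, mul_assoc]
  gcongr
  refine le_trans (le_of_eq ?_) h
  simp

theorem hN_ball_S2 {C : ℝ} (hC : hNFFC C) (Λ : Finset Z3) (b : Z3) {R : ℝ} (hR : 1 ≤ R) :
    ∀ z ∈ hNBfin Λ b R, ∑ u ∈ hNBfin Λ b R, glat Λ u z ^ 2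
      ≤ ENNReal.ofReal (169 * C * R ^ (3 + 1 / 1000 - 2 : ℝ)) := by
  intro z hz
  have h := hN_ball_S hC Λ b hR (p := 2) (by norm_num) (by norm_num) z (hN_mem_Bfin.1 hz)
  unfold glat
  have h1 : ∀ u : Λ, ENNReal.ofReal (13 * ff ((u : Z3) - z)) ^ 2
      = ENNReal.ofReal (169 * ff ((u : Z3) - z) ^ (2 : ℝ)) := by
    intro u
    have := ff_pos ((u : Z3) - z)
    rw [← ENNReal.ofReal_pow (by positivity)]
    congr 1
    rw [mul_pow, Real.rpow_two]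
    norm_num
  simp_rw [h1]
  rw [← ENNReal.ofReal_sum_of_nonneg (fun j _ => by have := ff_pos ((j : Z3) - z); positivity)]
  apply ENNReal.ofReal_le_ofReal
  rw [← Finset.mul_sum, mul_assoc]
  gcongr

theorem hN_latH (Λ : Finset Z3) (b : Z3) (u : Λ) :
    ((latNet Λ b).H u : ℝ≥0∞) = ENNReal.ofReal (HH ((u : Z3) - b)) := by
  have h : (latNet Λ b).H u = Real.toNNReal (HH ((u : Z3) - b)) := by
    rw [Real.toNNReal_of_nonneg (HH_pos _).le]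
    rfl
  rw [h]
  rfl

theorem hN_ball_SH {C : ℝ} (hC : hNFFC C) (Λ : Finset Z3) (b : Z3) {R : ℝ} (hR : 1 ≤ R) :
    ∑ u ∈ hNBfin Λ b R, ((latNet Λ b).H u : ℝ≥0∞)
      ≤ ENNReal.ofReal (C * R ^ (3 + 1 / 1000 - 3 / 7 : ℝ)) := by
  have h := hN_ball_S hC Λ b hR (p := 3 / 7) (by norm_num) (by norm_num) b (by
    rw [sub_self]
    have : sqn 0 = 0 := by simp [sqn]
    rw [this]; positivity)
  simp_rw [hN_latH]
  rw [← ENNReal.ofReal_sum_of_nonneg (fun j _ => (HH_pos _).le)]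
  apply ENNReal.ofReal_le_ofReal
  exact h

theorem hN_ball_hh (Λ : Finset Z3) (b : Z3) {R : ℝ} (hR : 1 ≤ R) :
    ∀ v ∈ hNBfin Λ b R, ENNReal.ofReal ((3 * R) ^ (-(3 : ℝ) / 7)) ≤ ((latNet Λ b).H v : ℝ≥0∞) := by
  intro v hv
  rw [hN_latH]
  exact ENNReal.ofReal_le_ofReal (HH_ge hR _ (hN_mem_Bfin.1 hv))

/-! ### The chain on the lattice -/

section lattice

variable (Λ : Finset Z3) (b : Λ) (t0 : ℕ)

/-- law of the durations -/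
noncomputable def hNqlat (j : ℕ) : ℕ → ℝ≥0∞ := uq (4 ^ j * t0)

/-- allowed marks -/
def hNBlat (j : ℕ) : Set Λ := bal Λ b (rad (4 ^ j * t0))

variable {t0}

theorem hN_scale_pos (ht0 : 1 ≤ t0) (j : ℕ) : 1 ≤ 4 ^ j * t0 := Nat.one_le_iff_ne_zero.2 (by positivity)

theorem hN_Blat_sub (ht0 : 1 ≤ t0) {i j : ℕ} (h : i ≤ j) :
    hNBlat Λ b t0 i ⊆ (hNBfin Λ b (rad (4 ^ j * t0)) : Set Λ) := by
  have h1 : 4 ^ i * t0 ≤ 4 ^ j * t0 := by gcongr; norm_num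
  have h2 := hN_bal_mono Λ b (zero_le_one.trans (hN_rad_one_le (hN_scale_pos ht0 i))) (hN_rad_mono h1)
  refine h2.trans ?_
  intro x hx
  exact hN_mem_Bfin.2 hx

theorem hN_b_mem (R : ℝ) : b ∈ hNBfin Λ b R := by
  rw [hN_mem_Bfin, sub_self]
  have : sqn 0 = 0 := by simp [sqn]
  rw [this]; positivity

theorem hN_nu_bound (ht0 : 1 ≤ t0) (j : ℕ) (Bf : Finset Λ) (hb : b ∈ Bf)
    (hBf : ∀ i ≤ j, hNBlat Λ b t0 i ⊆ (Bf : Set Λ)) (S2 : ℝ≥0∞)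
    (hS2 : ∀ z ∈ Bf, ∑ u ∈ Bf, glat Λ u z ^ 2 ≤ S2) (v : Λ) :
    (chn (latNet Λ b) b (hNqlat t0) (hNBlat Λ b t0)).nu j v
      ≤ 4 * (((4 ^ j * t0 : ℕ) : ℝ≥0∞)⁻¹) ^ 2 * S2 := by
  have hg : Grn (latNet Λ b).P (glat Λ) := grn_lat Λ
  rcases j with _ | j
  · have h := nu_zero_le (latNet Λ b) b (hNqlat t0) (hNBlat Λ b t0) (glat Λ) hg
      (((4 ^ 0 * t0 : ℕ) : ℝ≥0∞)⁻¹) S2 Bf (hBf 0 le_rfl) hb (fun d => hN_uq_le _ d) hS2 v
    refine h.trans ?_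
    gcongr
    calc (((4 ^ 0 * t0 : ℕ) : ℝ≥0∞)⁻¹) ^ 2 = 1 * (((4 ^ 0 * t0 : ℕ) : ℝ≥0∞)⁻¹) ^ 2 := (one_mul _).symm
      _ ≤ _ := by gcongr; norm_num
  · have h := nu_succ_le (latNet Λ b) b (hNqlat t0) (hNBlat Λ b t0) (glat Λ) hg
      (((4 ^ j * t0 : ℕ) : ℝ≥0∞)⁻¹) (((4 ^ (j + 1) * t0 : ℕ) : ℝ≥0∞)⁻¹) S2 j Bf hb hBf
      (fun d => hN_uq_le _ d) (fun d => hN_uq_le _ d) (fun j => (hN_uq_sum (hN_scale_pos ht0 j)).le) hS2 v
    refine h.trans ?_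
    gcongr ?_ * _
    have h4 : (((4 ^ j * t0 : ℕ) : ℝ≥0∞)⁻¹) = 4 * (((4 ^ (j + 1) * t0 : ℕ) : ℝ≥0∞)⁻¹) := by
      have : ((4 ^ (j + 1) * t0 : ℕ) : ℝ≥0∞) = 4 * ((4 ^ j * t0 : ℕ) : ℝ≥0∞) := by
        push_cast; ring
      rw [this, ENNReal.mul_inv (by simp) (by simp), ← mul_assoc,
        ENNReal.mul_inv_cancel (by norm_num) (by norm_num), one_mul]
    rw [h4]
    apply le_of_eq
    ring

theorem hN_err_level {C : ℝ} (hC0 : 0 < C) (hC : hNFFC C) {K : ℝ} (hK0 : 0 < K)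
    (hK : ∀ s : ℝ, 1 ≤ s →
    (s ^ (-(37 / 28) : ℝ) * (C * hNrr s ^ (3 + 1 / 1000 - 3 / 7 : ℝ)) + 96 * (4 / s) ^ 2 * (1 / s) ^ 2
      * (1024 / s ^ 2 * (169 * C * hNrr s ^ (3 + 1 / 1000 - 2 : ℝ))) ^ 2
      * (C * hNrr s ^ (3 + 1 / 1000 - 0 : ℝ))
      * (13 * C * hNrr s ^ (3 + 1 / 1000 - 1 : ℝ)) ^ 3 * (169 * C * hNrr s ^ (3 + 1 / 1000 - 2 : ℝ))
      / (((3 * hNrr s) ^ (-(3 : ℝ) / 7)) ^ 3 * s ^ (-(37 / 28) : ℝ))) / 2
      ≤ K * s ^ (-(1 / 50) : ℝ)) (ht0 : 1 ≤ t0) (j : ℕ) :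
    (chn (latNet Λ b) b (hNqlat t0) (hNBlat Λ b t0)).err (j + 1)
      ≤ ENNReal.ofReal (K * ((4 ^ j * t0 : ℕ) : ℝ) ^ (-(1 / 50 : ℝ))) := by
  have hg : Grn (latNet Λ b).P (glat Λ) := grn_lat Λ
  set s : ℝ := ((4 ^ (j + 2) * t0 : ℕ) : ℝ) with hs
  have hs1 : 1 ≤ s := by
    rw [hs]; exact_mod_cast hN_scale_pos ht0 (j + 2)
  have hs0 : 0 < s := by linarith
  have hR : rad (4 ^ (j + 2) * t0) = hNrr s := rfl
  have hR1 : 1 ≤ hNrr s := hN_rad_one_le (hN_scale_pos ht0 (j + 2))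
  have hR0 : 0 < hNrr s := by linarith
  set Bf := hNBfin Λ b (hNrr s) with hBf
  have hsub : ∀ i ≤ j + 2, hNBlat Λ b t0 i ⊆ (Bf : Set Λ) := fun i hi => hN_Blat_sub Λ b ht0 hi
  have hT : ((4 ^ j * t0 : ℕ) : ℝ) = s / 16 := by
    rw [hs]; push_cast; ring
  have hnu : ∀ v, (chn (latNet Λ b) b (hNqlat t0) (hNBlat Λ b t0)).nu j v
      ≤ ENNReal.ofReal (1024 / s ^ 2 * (169 * C * hNrr s ^ (3 + 1 / 1000 - 2 : ℝ))) := by
    intro v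
    refine (hN_nu_bound Λ b ht0 j Bf (hN_b_mem Λ b _) (fun i hi => hsub i (by omega)) _
      (hN_ball_S2 hC Λ b hR1) v).trans (le_of_eq ?_)
    have h4 : (4 : ℝ≥0∞) = ENNReal.ofReal 4 := by norm_num
    rw [h4, ← ENNReal.ofReal_natCast, hT, ← ENNReal.ofReal_inv_of_pos (by positivity),
      ← ENNReal.ofReal_pow (by positivity), ← ENNReal.ofReal_mul (by norm_num),
      ← ENNReal.ofReal_mul (by positivity)]
    congr 1
    field_simp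
    norm_num
  have hk1 : ∀ d, hNqlat t0 (j + 1) d ≤ ENNReal.ofReal (4 / s) := by
    intro d
    refine (hN_uq_le _ d).trans (le_of_eq ?_)
    have : ((4 ^ (j + 1) * t0 : ℕ) : ℝ) = s / 4 := by rw [hs]; push_cast; ring
    rw [← ENNReal.ofReal_natCast, this, ← ENNReal.ofReal_inv_of_pos (by positivity)]
    congr 1
    field_simp
  have hk2 : ∀ d, hNqlat t0 (j + 2) d ≤ ENNReal.ofReal (1 / s) := by
    intro d
    refine (hN_uq_le _ d).trans (le_of_eq ?_)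
    rw [← ENNReal.ofReal_natCast, ← hs, ← ENNReal.ofReal_inv_of_pos (by positivity), one_div]
  have hh0 : 0 < (3 * hNrr s) ^ (-(3 : ℝ) / 7) := by positivity
  have hl0 : 0 < s ^ (-(37 / 28) : ℝ) := by positivity
  have h := err_bound (latNet Λ b) b (hNqlat t0) (hNBlat Λ b t0) (glat Λ) hg j Bf hsub
    (ENNReal.ofReal (4 / s)) (ENNReal.ofReal (1 / s))
    (ENNReal.ofReal (1024 / s ^ 2 * (169 * C * hNrr s ^ (3 + 1 / 1000 - 2 : ℝ))))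
    (ENNReal.ofReal (C * hNrr s ^ (3 + 1 / 1000 - 0 : ℝ)))
    (ENNReal.ofReal (13 * C * hNrr s ^ (3 + 1 / 1000 - 1 : ℝ)))
    (ENNReal.ofReal (169 * C * hNrr s ^ (3 + 1 / 1000 - 2 : ℝ)))
    (ENNReal.ofReal (C * hNrr s ^ (3 + 1 / 1000 - 3 / 7 : ℝ)))
    (ENNReal.ofReal ((3 * hNrr s) ^ (-(3 : ℝ) / 7)))
    (ENNReal.ofReal (s ^ (-(37 / 28) : ℝ))) hk1 hk2 hnu (hN_ball_S0 hC Λ b hR1) (hN_ball_S1 hC Λ b hR1)
    (hN_ball_S2 hC Λ b hR1) (hN_ball_SH hC Λ b hR1) (by simpa using hh0) ENNReal.ofReal_ne_top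
    (hN_ball_hh Λ b hR1) (by simpa using hl0) ENNReal.ofReal_ne_top
    (fun j => (hN_uq_sum (hN_scale_pos ht0 j)).le)
  refine h.trans ?_
  rw [hN_conv_err _ _ _ _ _ _ _ _ _ hl0 (by positivity) (by positivity) (by positivity)
    (by positivity) (by positivity) (by positivity) (by positivity) hh0]
  apply ENNReal.ofReal_le_ofReal
  refine (hK s hs1).trans ?_
  rw [hT]
  gcongr 1
  rw [Real.rpow_le_rpow_iff_of_neg hs0 (by positivity) (by norm_num)]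
  linarith

theorem hN_berr_level {C : ℝ} (hC0 : 0 < C) (hC : hNFFC C) {K : ℝ} (hK0 : 0 < K)
    (hK : ∀ s : ℝ, 1 ≤ s →
    (s ^ (-(1 / 28) : ℝ) + 48 * (1 / s) ^ 2
      * (1024 / s ^ 2 * (169 * C * hNrr s ^ (3 + 1 / 1000 - 2 : ℝ))) ^ 2
      * (C * hNrr s ^ (3 + 1 / 1000 - 0 : ℝ))
      * (13 * C * hNrr s ^ (3 + 1 / 1000 - 1 : ℝ)) ^ 3
      / (((3 * hNrr s) ^ (-(3 : ℝ) / 7)) ^ 2 * s ^ (-(1 / 28) : ℝ))) / 2
      ≤ K * s ^ (-(1 / 50) : ℝ)) (ht0 : 1 ≤ t0) (j : ℕ) :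
    (chn (latNet Λ b) b (hNqlat t0) (hNBlat Λ b t0)).berr (j + 1)
      ≤ ENNReal.ofReal (K * (t0 : ℝ) ^ (-(1 / 50 : ℝ))) := by
  have hg : Grn (latNet Λ b).P (glat Λ) := grn_lat Λ
  set s : ℝ := ((4 ^ (j + 1) * t0 : ℕ) : ℝ) with hs
  have hs1 : 1 ≤ s := by
    rw [hs]; exact_mod_cast hN_scale_pos ht0 (j + 1)
  have hs0 : 0 < s := by linarith
  have hR : rad (4 ^ (j + 1) * t0) = hNrr s := rfl
  have hR1 : 1 ≤ hNrr s := hN_rad_one_le (hN_scale_pos ht0 (j + 1))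
  have hR0 : 0 < hNrr s := by linarith
  set Bf := hNBfin Λ b (hNrr s) with hBf
  have hsub : ∀ i ≤ j + 1, hNBlat Λ b t0 i ⊆ (Bf : Set Λ) := fun i hi => hN_Blat_sub Λ b ht0 hi
  have hT : ((4 ^ j * t0 : ℕ) : ℝ) = s / 4 := by
    rw [hs]; push_cast; ring
  have hnu : ∀ v, (chn (latNet Λ b) b (hNqlat t0) (hNBlat Λ b t0)).nu j v
      ≤ ENNReal.ofReal (1024 / s ^ 2 * (169 * C * hNrr s ^ (3 + 1 / 1000 - 2 : ℝ))) := by
    intro v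
    refine (hN_nu_bound Λ b ht0 j Bf (hN_b_mem Λ b _) (fun i hi => hsub i (by omega)) _
      (hN_ball_S2 hC Λ b hR1) v).trans ?_
    have h4 : (4 : ℝ≥0∞) = ENNReal.ofReal 4 := by norm_num
    rw [h4, ← ENNReal.ofReal_natCast, hT, ← ENNReal.ofReal_inv_of_pos (by positivity),
      ← ENNReal.ofReal_pow (by positivity), ← ENNReal.ofReal_mul (by norm_num),
      ← ENNReal.ofReal_mul (by positivity)]
    apply ENNReal.ofReal_le_ofReal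
    gcongr ?_ * _
    rw [inv_div, div_pow, ← mul_div_assoc]
    gcongr
    norm_num
  have hk1 : ∀ d, hNqlat t0 (j + 1) d ≤ ENNReal.ofReal (1 / s) := by
    intro d
    refine (hN_uq_le _ d).trans (le_of_eq ?_)
    rw [← ENNReal.ofReal_natCast, ← hs, ← ENNReal.ofReal_inv_of_pos (by positivity), one_div]
  have hh0 : 0 < (3 * hNrr s) ^ (-(3 : ℝ) / 7) := by positivity
  have hl0 : 0 < s ^ (-(1 / 28) : ℝ) := by positivity
  have h := berr_bound (latNet Λ b) b (hNqlat t0) (hNBlat Λ b t0) (glat Λ) hg j Bf hsub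
    (ENNReal.ofReal (1 / s))
    (ENNReal.ofReal (1024 / s ^ 2 * (169 * C * hNrr s ^ (3 + 1 / 1000 - 2 : ℝ))))
    (ENNReal.ofReal (C * hNrr s ^ (3 + 1 / 1000 - 0 : ℝ)))
    (ENNReal.ofReal (13 * C * hNrr s ^ (3 + 1 / 1000 - 1 : ℝ)))
    (ENNReal.ofReal ((3 * hNrr s) ^ (-(3 : ℝ) / 7)))
    (ENNReal.ofReal (s ^ (-(1 / 28) : ℝ))) hk1 hnu (hN_ball_S0 hC Λ b hR1) (hN_ball_S1 hC Λ b hR1)
    (by simpa using hh0) ENNReal.ofReal_ne_top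
    (hN_ball_hh Λ b hR1) (by simpa using hl0) ENNReal.ofReal_ne_top
    (fun j => (hN_uq_sum (hN_scale_pos ht0 j)).le)
  refine h.trans ?_
  rw [hN_conv_berr _ _ _ _ _ _ hl0 (by positivity) (by positivity) (by positivity)
    (by positivity) hh0]
  apply ENNReal.ofReal_le_ofReal
  refine (hK s hs1).trans ?_
  gcongr 1
  rw [Real.rpow_le_rpow_iff_of_neg hs0 (by positivity) (by norm_num)]
  rw [hs]
  have : t0 ≤ 4 ^ (j + 1) * t0 := Nat.le_mul_of_pos_left _ (by positivity)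
  exact_mod_cast this

end lattice

/-- the total error -/
noncomputable def hNEtot (K1 K2 : ℝ) (t : ℝ) : ℝ :=
  2 * (5 * (1 - (4 : ℝ) ^ (-(1 / 1000 : ℝ)))⁻¹ * t ^ (-(1 / 1000 : ℝ)))
    + K1 * (1 - (4 : ℝ) ^ (-(1 / 50 : ℝ)))⁻¹ * t ^ (-(1 / 50 : ℝ)) + K2 * t ^ (-(1 / 50 : ℝ))

theorem hN_Etot_tendsto (K1 K2 : ℝ) : Filter.Tendsto (hNEtot K1 K2) Filter.atTop (nhds 0) := by
  have h1 := tendsto_rpow_neg_atTop (y := 1 / 1000) (by norm_num)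
  have h2 := tendsto_rpow_neg_atTop (y := 1 / 50) (by norm_num)
  have h := (((h1.const_mul (5 * (1 - (4 : ℝ) ^ (-(1 / 1000 : ℝ)))⁻¹)).const_mul 2).add
    (h2.const_mul (K1 * (1 - (4 : ℝ) ^ (-(1 / 50 : ℝ)))⁻¹))).add (h2.const_mul K2)
  simp only [mul_zero, add_zero] at h
  exact h

theorem hN_sqn_stepVec (s : Stp) : sqn (stepVec s) = 1 := by
  obtain ⟨i, c⟩ := s
  fin_cases i <;> cases c <;> simp [sqn, stepVec, Pi.single_apply]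


/-- **Hiding theorem**. -/
theorem hide3 (ε : ℝ) (hε : 0 < ε) : ∃ t00 : ℕ, 1 ≤ t00 ∧ ∀ t0 : ℕ, t00 ≤ t0 → ∀ n : ℕ, 4 * t0 ≤ n →
    ∃ ρ : ℝ, ∀ (Λ : Finset Z3) (b : Λ), (∀ z : Z3, sqn (z - b) ≤ ρ ^ 2 → z ∈ Λ) →
    ∃ t : List Λ → ℕ → ℕ → Cloud Λ → ℝ≥0∞,
      (∀ x d d' c, t x d d' c ≠ 0 → x.length = n ∧ d + d' ≤ n) ∧
      (∀ c, ∑' x, ∑' d, ∑' d', t x d d' c ≤ ppp (latNet Λ b) c) ∧
      (∀ x d d', ∑' c, t x d d' c ≤
        if att b x d ∈ bal Λ b (rad t0) ∧ att b x (d + d') ∈ bal Λ b (rad t0) then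
          uq t0 d * uq t0 d' * pr (latP Λ) b x else 0) ∧
      (1 ≤ (∑' x, ∑' d, ∑' d', ∑' c, t x d d' c) + ENNReal.ofReal ε) ∧
      (∀ x d d' c, t x d d' c ≠ 0 → ∀ i, d + d' ≤ i → i ≤ n → att b x i ∈ Tr c) := by
  obtain ⟨C0, hC0, hC⟩ := sum_ff_le (ε := 1 / 1000) (by norm_num)
  have hFFC : hNFFC C0 := hC
  obtain ⟨K1, hK1, hnum1⟩ := hN_num_err C0 hC0
  obtain ⟨K2, hK2, hnum2⟩ := hN_num_berr C0 hC0
  have hE : ∀ᶠ t0 : ℕ in Filter.atTop, hNEtot K1 K2 (t0 : ℝ) ≤ ε := by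
    have h := (hN_Etot_tendsto K1 K2).comp (tendsto_natCast_atTop_atTop (R := ℝ))
    exact (h.eventually (eventually_le_nhds hε))
  obtain ⟨t00, ht00⟩ := Filter.eventually_atTop.1 hE
  refine ⟨max t00 1, le_max_right _ _, fun t0 ht0 n hn => ?_⟩
  have ht1 : 1 ≤ t0 := (le_max_right _ _).trans ht0
  have hEt : hNEtot K1 K2 (t0 : ℝ) ≤ ε := ht00 t0 ((le_max_left _ _).trans ht0)
  refine ⟨rad (4 ^ (n + 1) * t0) + 1, fun Λ b hΛ => ?_⟩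
  have hsc := fun j => hN_scale_pos ht1 j
  obtain ⟨t, h1, h2, h3, h4, h5⟩ := hide_net (latNet Λ b) b (hNqlat t0) (hNBlat Λ b t0)
    (sqd Λ b) (by
      unfold sqd
      rw [sub_self]
      have : sqn 0 = 0 := by simp [sqn]
      rw [this, ENNReal.ofReal_zero]) (fun v => ENNReal.ofReal_ne_top)
    (fun v => sqd_sub Λ b v)
    (fun j => ENNReal.ofReal (rad (4 ^ j * t0) ^ 2))
    (fun j => by
      have := hN_rad_one_le (hsc j)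
      have : 0 < rad (4 ^ j * t0) ^ 2 := by positivity
      exact (ENNReal.ofReal_pos.2 this).ne')
    (fun j => ENNReal.ofReal_ne_top) n
    (fun j v hv => by
      apply ENNReal.ofReal_le_ofReal
      by_contra h
      exact hv (not_le.1 h).le)
    (fun j hj v hv => by
      apply sqd_int
      intro s
      apply hΛ
      have e1 : sqn ((v : Z3) - b) < rad (4 ^ j * t0) ^ 2 := by
        unfold sqd at hv
        exact (ENNReal.ofReal_lt_ofReal_iff_of_nonneg (sqn_nonneg _)).1 hv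
      have e2 : rad (4 ^ j * t0) ≤ rad (4 ^ (n + 1) * t0) := by
        apply hN_rad_mono
        gcongr
        norm_num
      have e3 : Real.sqrt (sqn ((v : Z3) - b)) ≤ rad (4 ^ (n + 1) * t0) := by
        refine le_trans ?_ e2
        rw [Real.sqrt_le_left (zero_le_one.trans (hN_rad_one_le (hsc j)))]
        exact e1.le
      have e4 := sqrt_sqn_sub_le ((v : Z3) + stepVec s) v b
      rw [add_sub_cancel_left, hN_sqn_stepVec, Real.sqrt_one] at e4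
      have e5 : Real.sqrt (sqn ((v : Z3) + stepVec s - b)) ≤ rad (4 ^ (n + 1) * t0) + 1 := by
        linarith
      rw [Real.sqrt_le_left (by have := hN_rad_one_le (hsc (n + 1)); linarith)] at e5
      exact e5)
    (fun j => hN_uq_sum (hsc j))
    (fun j => 2 * ((4 ^ j * t0 : ℕ) : ℝ≥0∞))
    (fun j => hN_uq_mean (hsc j))
    (fun j => 4 ^ j * t0)
    (fun j d hd => (hN_uq_ne hd).1) n
    (fun d hd => by
      have := hN_uq_ne hd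
      simp only [pow_zero, one_mul] at this
      omega)
    (by
      calc n ≤ ∑ j ∈ Finset.range (n + 1), 1 := by simp
        _ ≤ _ := Finset.sum_le_sum fun j _ => hsc (j + 1))
  refine ⟨t, h1, h2, fun x d d' => ?_, ?_, h5⟩
  · have h := h3 x d d'
    unfold hNBlat hNqlat at h
    rw [pow_zero, one_mul] at h
    exact h
  · refine h4.trans ?_
    rw [add_assoc, add_assoc]
    gcongr
    have m1 : 2 * ∑ j ∈ Finset.range (n + 2), (2 * ((4 ^ 0 * t0 : ℕ) : ℝ≥0∞)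
      + ∑ i ∈ Finset.range (j + 1), 2 * ((4 ^ i * t0 : ℕ) : ℝ≥0∞))
        / ENNReal.ofReal (rad (4 ^ j * t0) ^ 2)
        ≤ ENNReal.ofReal (2 * (5 * (1 - (4 : ℝ) ^ (-(1 / 1000 : ℝ)))⁻¹
          * (t0 : ℝ) ^ (-(1 / 1000 : ℝ)))) := by
      rw [ENNReal.ofReal_mul (by norm_num), show (2 : ℝ≥0∞) = ENNReal.ofReal 2 by norm_num]
      gcongr
      rw [show ENNReal.ofReal 2 = (2 : ℝ≥0∞) by norm_num]
      exact (Finset.sum_le_sum fun j _ => hN_mass_term ht1 j).trans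
        (hN_geo_bound (by norm_num) (by norm_num) ht1 (n + 2))
    have m2 : ∑ j ∈ Finset.range (n + 1), (chn (latNet Λ b) b (hNqlat t0) (hNBlat Λ b t0)).err j
        ≤ ENNReal.ofReal (K1 * (1 - (4 : ℝ) ^ (-(1 / 50 : ℝ)))⁻¹ * (t0 : ℝ) ^ (-(1 / 50 : ℝ))) := by
      rw [Finset.sum_range_succ', err_zero, add_zero]
      exact (Finset.sum_le_sum fun j _ => hN_err_level Λ b hC0 hFFC hK1 hnum1 ht1 j).trans
        (hN_geo_bound hK1.le (by norm_num) ht1 n)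
    have m3 := hN_berr_level Λ b hC0 hFFC hK2 hnum2 ht1 n
    have hg1 : 0 ≤ (1 - (4 : ℝ) ^ (-(1 / 1000 : ℝ)))⁻¹ := by
      rw [inv_nonneg, sub_nonneg]
      exact (Real.rpow_lt_one_of_one_lt_of_neg (by norm_num) (by norm_num)).le
    have hg2 : 0 ≤ (1 - (4 : ℝ) ^ (-(1 / 50 : ℝ)))⁻¹ := by
      rw [inv_nonneg, sub_nonneg]
      exact (Real.rpow_lt_one_of_one_lt_of_neg (by norm_num) (by norm_num)).le
    calc _ ≤ ENNReal.ofReal (2 * (5 * (1 - (4 : ℝ) ^ (-(1 / 1000 : ℝ)))⁻¹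
          * (t0 : ℝ) ^ (-(1 / 1000 : ℝ))))
          + (ENNReal.ofReal (K1 * (1 - (4 : ℝ) ^ (-(1 / 50 : ℝ)))⁻¹ * (t0 : ℝ) ^ (-(1 / 50 : ℝ)))
          + ENNReal.ofReal (K2 * (t0 : ℝ) ^ (-(1 / 50 : ℝ)))) := by
          gcongr
      _ = ENNReal.ofReal (hNEtot K1 K2 (t0 : ℝ)) := by
          unfold hNEtot
          rw [ENNReal.ofReal_add (by positivity) (by positivity),
            ENNReal.ofReal_add (by positivity) (by positivity), add_assoc]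
      _ ≤ _ := ENNReal.ofReal_le_ofReal hEt

end Pool.Agent.Lib.MP_e4a9a7_pr.D3
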