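import Mathlib
import Pool.Agent.Lib.MP_e4a9a7_pr.D3.Conv
import Pool.Agent.Lib.MP_e4a9a7_pr.D3.FinHit
import Pool.Agent.Lib.MP_e4a9a7_pr.D3.Hide3

/-!
# The visits of the hidden walk
-/

namespace Pool.Agent.Lib.MP_e4a9a7_pr.D3

open scoped ENNReal NNReal BigOperators
open Classical

/-- labels of the final data: path, initial durations -/
abbrev Lab (Λ : Finset Z3) := List Λ × ℕ × ℕ

/-- vertices visited after the two initial segments -/
def UU (Λ : Finset Z3) (b : Λ) (n : ℕ) (a : Lab Λ) : Set Λ :=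
  {v | ∃ i, a.2.1 + a.2.2 ≤ i ∧ i ≤ n ∧ att b a.1 i = v}

theorem tsum_lab (Λ : Finset Z3) (F : Lab Λ → ℝ≥0∞) :
    ∑' a, F a = ∑' d, ∑' d', ∑' x, F (x, d, d') := by
  rw [ENNReal.tsum_prod']
  rw [ENNReal.tsum_comm]
  rw [ENNReal.tsum_prod']

theorem tsum_lab' (Λ : Finset Z3) (F : Lab Λ → ℝ≥0∞) :
    ∑' a, F a = ∑' x, ∑' d, ∑' d', F (x, d, d') := by
  rw [ENNReal.tsum_prod']
  apply tsum_congr
  intro x
  rw [ENNReal.tsum_prod']

theorem tsum_uq (t : ℕ) (ht : 1 ≤ t) : ∑' d, uq t d = 1 := by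
  have h1 : ∀ d, d ∉ Finset.Ico t (2 * t) → uq t d = 0 := by
    intro d hd
    unfold uq
    rw [if_neg]
    intro h; apply hd
    rw [Finset.mem_Ico]; exact h
  rw [tsum_eq_sum h1]
  have h2 : ∀ d ∈ Finset.Ico t (2 * t), uq t d = (t : ℝ≥0∞)⁻¹ := by
    intro d hd
    rw [Finset.mem_Ico] at hd
    unfold uq
    rw [if_pos hd]
  rw [Finset.sum_congr rfl h2, Finset.sum_const, Nat.card_Ico, nsmul_eq_mul]
  have : 2 * t - t = t := by omega
  rw [this]
  exact ENNReal.mul_inv_cancel (by exact_mod_cast (by omega : t ≠ 0)) (ENNReal.natCast_ne_top t)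

theorem uq_le (t d : ℕ) : uq t d ≤ (t : ℝ≥0∞)⁻¹ := by
  unfold uq
  split_ifs
  · exact le_rfl
  · exact zero_le

/-- expected value of a functional of the path under a law bounded by the walk -/
theorem lab_bound (Λ : Finset Z3) (b : Λ) (n t0 : ℕ) (B : Set Λ)
    (t : List Λ → ℕ → ℕ → Cloud Λ → ℝ≥0∞)
    (h1 : ∀ x d d' c, t x d d' c ≠ 0 → x.length = n ∧ d + d' ≤ n)
    (h2 : ∀ x d d', ∑' c, t x d d' c ≤ if att b x d ∈ B ∧ att b x (d + d') ∈ B then
      uq t0 d * uq t0 d' * pr (latP Λ) b x else 0)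
    (E : Lab Λ → Prop) :
    ∑' a : Lab Λ, (if E a then ∑' c, t a.1 a.2.1 a.2.2 c else 0)
      ≤ ∑' d, ∑' d', uq t0 d * uq t0 d' * Ex (latP Λ) b n (fun w =>
        if d + d' ≤ n ∧ att b w d ∈ B ∧ att b w (d + d') ∈ B ∧ E (w, d, d') then 1 else 0) := by
  rw [tsum_lab]
  apply ENNReal.tsum_le_tsum
  intro d
  apply ENNReal.tsum_le_tsum
  intro d'
  rw [← tsum_len, ← ENNReal.tsum_mul_left]
  apply ENNReal.tsum_le_tsum
  intro x
  simp only
  by_cases hE : E (x, d, d')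
  · rw [if_pos hE]
    by_cases h0 : ∑' c, t x d d' c = 0
    · rw [h0]; exact zero_le
    · have h3 : ∃ c, t x d d' c ≠ 0 := by
        by_contra h
        push Not at h
        exact h0 (by simp [h])
      obtain ⟨c, hc⟩ := h3
      obtain ⟨hlen, hdn⟩ := h1 x d d' c hc
      rw [if_pos hlen]
      refine (h2 x d d').trans ?_
      by_cases hm : att b x d ∈ B ∧ att b x (d + d') ∈ B
      · rw [if_pos hm, if_pos ⟨hdn, hm.1, hm.2, hE⟩, mul_one]
      · rw [if_neg hm]; exact zero_le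
  · rw [if_neg hE]; exact zero_le

/-- the bound for the late visits -/
noncomputable def p0f (C : ℝ) (t0 : ℕ) : ℝ :=
  (t0 : ℝ) ^ (-(2 : ℝ)) * (13 ^ 3 * C ^ 2 * rad t0 ^ ((3 : ℝ) + 2 / 1000)) + 13 / rad t0

theorem rad_pos {t0 : ℕ} (h : 1 ≤ t0) : 0 < rad t0 := by
  unfold rad
  apply Real.rpow_pos_of_pos
  exact_mod_cast (by omega : 0 < t0)

theorem one_le_rad {t0 : ℕ} (h : 1 ≤ t0) : 1 ≤ rad t0 := by
  unfold rad
  apply Real.one_le_rpow
  · exact_mod_cast h
  · norm_num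

theorem p0f_tendsto (C : ℝ) : Filter.Tendsto (p0f C) Filter.atTop (nhds 0) := by
  have h1 : ∀ᶠ t0 : ℕ in Filter.atTop, p0f C t0
      = 13 ^ 3 * C ^ 2 * (t0 : ℝ) ^ (-(0.497499 : ℝ)) + 13 * (t0 : ℝ) ^ (-(0.5005 : ℝ)) := by
    filter_upwards [Filter.eventually_ge_atTop 1] with t0 ht
    have h0 : (0 : ℝ) < t0 := by exact_mod_cast (by omega : 0 < t0)
    unfold p0f rad
    rw [← Real.rpow_mul h0.le, div_eq_mul_inv (13 : ℝ), ← Real.rpow_neg h0.le]
    have e1 : (t0 : ℝ) ^ (-(2 : ℝ)) * (13 ^ 3 * C ^ 2 * (t0 : ℝ) ^ ((1 + 1 / 1000 : ℝ) / 2 * ((3 : ℝ) + 2 / 1000)))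
        = 13 ^ 3 * C ^ 2 * (t0 : ℝ) ^ (-(0.497499 : ℝ)) := by
      rw [mul_left_comm, ← Real.rpow_add h0]
      norm_num
    rw [e1]
    norm_num
  rw [Filter.tendsto_congr' h1]
  have h2 : ∀ a : ℝ, 0 < a → Filter.Tendsto (fun t0 : ℕ => (t0 : ℝ) ^ (-a)) Filter.atTop (nhds 0) := by
    intro a ha
    exact (tendsto_rpow_neg_atTop ha).comp tendsto_natCast_atTop_atTop
  have h3 := ((h2 0.497499 (by norm_num)).const_mul (13 ^ 3 * C ^ 2)).add
    ((h2 0.5005 (by norm_num)).const_mul 13)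
  simpa using h3

theorem sum_bal (Λ : Finset Z3) (b : Λ) (r : ℝ) (F : Z3 → ℝ) :
    ∑ x ∈ Finset.univ.filter (fun x : Λ => x ∈ bal Λ b r), F x
      = ∑ z ∈ Λ.filter (fun z => sqn (z - b) ≤ r ^ 2), F z := by
  unfold bal
  simp only [Set.mem_ofPred_eq]
  rw [Finset.sum_filter, Finset.sum_filter]
  exact Finset.sum_coe_sort Λ (fun z => if sqn (z - b) ≤ r ^ 2 then F z else 0)

theorem late_bound : ∃ C : ℝ, 0 < C ∧ ∀ (Λ : Finset Z3) (b : Λ) (t0 : ℕ), 1 ≤ t0 → ∀ n : ℕ,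
    ∀ (t : List Λ → ℕ → ℕ → Cloud Λ → ℝ≥0∞),
    (∀ x d d' c, t x d d' c ≠ 0 → x.length = n ∧ d + d' ≤ n) →
    (∀ x d d', ∑' c, t x d d' c ≤
      if att b x d ∈ bal Λ b (rad t0) ∧ att b x (d + d') ∈ bal Λ b (rad t0) then
        uq t0 d * uq t0 d' * pr (latP Λ) b x else 0) →
    ∀ v : Λ,
      (∑' a : Lab Λ, (if v ∈ UU Λ b n a then ∑' c, t a.1 a.2.1 a.2.2 c else 0)
        ≤ ENNReal.ofReal (13 * ff ((v : Z3) - b))) ∧
      (∑' a : Lab Λ, (if v ∈ UU Λ b n a then ∑' c, t a.1 a.2.1 a.2.2 c else 0)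
        ≤ ENNReal.ofReal (p0f C t0)) := by
  obtain ⟨C, hC, hsum⟩ := sum_ff_le (ε := 1 / 1000) (by norm_num)
  refine ⟨C, hC, ?_⟩
  intro Λ b t0 ht0 n t h1 h2 v
  have hP : ∀ x, ∑ y, latP Λ x y ≤ 1 := (latNet Λ b).sub
  have hg := grn_lat Λ
  have key := lab_bound Λ b n t0 (bal Λ b (rad t0)) t h1 h2 (fun a => v ∈ UU Λ b n a)
  have hfirst : ∑' a : Lab Λ, (if v ∈ UU Λ b n a then ∑' c, t a.1 a.2.1 a.2.2 c else 0)
        ≤ ENNReal.ofReal (13 * ff ((v : Z3) - b)) := by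
    refine key.trans ?_
    have h3 : ∀ d d', Ex (latP Λ) b n (fun w =>
        if d + d' ≤ n ∧ att b w d ∈ bal Λ b (rad t0) ∧ att b w (d + d') ∈ bal Λ b (rad t0)
          ∧ v ∈ UU Λ b n (w, d, d') then 1 else 0) ≤ glat Λ b v := by
      intro d d'
      refine le_trans (Ex_mono _ _ _ ?_) (Ex_visit_le (latP Λ) hP (glat Λ) hg b v n)
      intro w
      split_ifs with h4 h5
      · exact le_rfl
      · exfalso
        obtain ⟨-, -, -, i, hi1, hi2, hi3⟩ := h4
        exact h5 ⟨i, hi2, hi3⟩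
      · exact zero_le
      · exact le_rfl
    calc ∑' d, ∑' d', uq t0 d * uq t0 d' * Ex (latP Λ) b n (fun w =>
        if d + d' ≤ n ∧ att b w d ∈ bal Λ b (rad t0) ∧ att b w (d + d') ∈ bal Λ b (rad t0)
          ∧ v ∈ UU Λ b n (w, d, d') then 1 else 0)
        ≤ ∑' d, ∑' d', uq t0 d * uq t0 d' * glat Λ b v := by
          apply ENNReal.tsum_le_tsum; intro d
          apply ENNReal.tsum_le_tsum; intro d'
          exact mul_le_mul_right (h3 d d') _
      _ = glat Λ b v := by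
          simp only [ENNReal.tsum_mul_right, ENNReal.tsum_mul_left]
          rw [tsum_uq t0 ht0]; simp
      _ = _ := by
          unfold glat
          rw [← ff_neg]
          congr 3; abel
  refine ⟨hfirst, ?_⟩
  by_cases hv : v ∈ bal Λ b (rad t0)
  · refine key.trans ?_
    have hlate := Ex_visit_late (latP Λ) hP (glat Λ) hg b v n (uq t0) ((t0 : ℝ≥0∞)⁻¹) (uq_le t0)
      (bal Λ b (rad t0)) (Finset.univ.filter (fun x : Λ => x ∈ bal Λ b (rad t0)))
      (by intro x hx; simpa using hx)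
    refine hlate.trans ?_
    set Bf := Finset.univ.filter (fun x : Λ => x ∈ bal Λ b (rad t0)) with hBf
    have hR := one_le_rad ht0
    set R := rad t0 with hRdef
    -- the two sums
    have hball : ∀ u ∈ Λ.filter (fun z => sqn (z - b) ≤ R ^ 2), sqn (u - b) ≤ R ^ 2 := by
      intro u hu; exact (Finset.mem_filter.1 hu).2
    have hS1 : ∀ z : Z3, sqn (z - b) ≤ R ^ 2 →
        ∑ u ∈ Bf, ENNReal.ofReal (13 * ff ((u : Z3) - z)) ≤ ENNReal.ofReal (13 * C * R ^ ((2 : ℝ) + 1 / 1000)) := by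
      intro z hz
      rw [← ENNReal.ofReal_sum_of_nonneg (fun u _ => by have := (ff_pos ((u : Z3) - z)).le; positivity)]
      apply ENNReal.ofReal_le_ofReal
      rw [← Finset.mul_sum, sum_bal Λ b R (fun u => ff (u - z)), mul_assoc]
      apply mul_le_mul_of_nonneg_left _ (by norm_num)
      have := hsum 1 (by norm_num) (by norm_num) _ b R hR hball z hz
      simp only [Real.rpow_one] at this
      refine this.trans (le_of_eq ?_)
      norm_num
    have hS2 : ∀ z : Z3, sqn (z - b) ≤ R ^ 2 →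
        ∑ u ∈ Bf, ENNReal.ofReal (13 * ff ((u : Z3) - z)) ^ 2
          ≤ ENNReal.ofReal (13 ^ 2 * C * R ^ ((1 : ℝ) + 1 / 1000)) := by
      intro z hz
      have e : ∀ u : Λ, ENNReal.ofReal (13 * ff ((u : Z3) - z)) ^ 2
          = ENNReal.ofReal (13 ^ 2 * ff ((u : Z3) - z) ^ (2 : ℝ)) := by
        intro u
        rw [← ENNReal.ofReal_pow (by have := (ff_pos ((u : Z3) - z)).le; positivity), mul_pow]
        norm_num
      simp only [e]
      rw [← ENNReal.ofReal_sum_of_nonneg (fun u _ => by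
        have := Real.rpow_nonneg (ff_pos ((u : Z3) - z)).le 2; positivity)]
      apply ENNReal.ofReal_le_ofReal
      rw [← Finset.mul_sum, sum_bal Λ b R (fun u => ff (u - z) ^ (2 : ℝ)), mul_assoc]
      apply mul_le_mul_of_nonneg_left _ (by norm_num)
      have := hsum 2 (by norm_num) (by norm_num) _ b R hR hball z hz
      refine this.trans (le_of_eq ?_)
      norm_num
    have hamgm : ∀ x y : ℝ≥0∞, x * y ≤ (x ^ 2 + y ^ 2) / 2 := by
      intro x y
      rw [ENNReal.le_div_iff_mul_le (by norm_num) (by norm_num)]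
      rcases eq_or_ne x ∞ with hx | hx
      · subst hx; simp
      rcases eq_or_ne y ∞ with hy | hy
      · subst hy; simp
      lift x to ℝ≥0 using hx
      lift y to ℝ≥0 using hy
      norm_cast
      have : (x : ℝ) * y * 2 ≤ (x : ℝ) ^ 2 + (y : ℝ) ^ 2 := by nlinarith [sq_nonneg ((x : ℝ) - y)]
      exact_mod_cast this
    have hb0 : sqn ((b : Z3) - b) ≤ R ^ 2 := by
      rw [sub_self]
      have : sqn (0 : Z3) = 0 := by simp [sqn]
      rw [this]; positivity
    have hinner : ∀ y ∈ Bf, ∑ y' ∈ Bf, glat Λ b y * glat Λ y y' * glat Λ y' v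
        ≤ glat Λ b y * ENNReal.ofReal (13 ^ 2 * C * R ^ ((1 : ℝ) + 1 / 1000)) := by
      intro y hy
      simp only [mul_assoc]
      rw [← Finset.mul_sum]
      apply mul_le_mul_right
      have hy' : sqn ((y : Z3) - b) ≤ R ^ 2 := by
        have := (Finset.mem_filter.1 hy).2
        exact this
      calc ∑ y' ∈ Bf, glat Λ y y' * glat Λ y' v
          ≤ ∑ y' ∈ Bf, (glat Λ y' y ^ 2 + glat Λ y' v ^ 2) / 2 := by
            apply Finset.sum_le_sum
            intro y' _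
            rw [hg.symm y y']
            exact hamgm _ _
        _ = (∑ y' ∈ Bf, glat Λ y' y ^ 2 + ∑ y' ∈ Bf, glat Λ y' v ^ 2) / 2 := by
            rw [← Finset.sum_add_distrib]
            simp only [ENNReal.div_eq_inv_mul]
            rw [Finset.mul_sum]
        _ ≤ (ENNReal.ofReal (13 ^ 2 * C * R ^ ((1 : ℝ) + 1 / 1000))
              + ENNReal.ofReal (13 ^ 2 * C * R ^ ((1 : ℝ) + 1 / 1000))) / 2 := by
            gcongr
            · exact hS2 y hy'
            · exact hS2 v hv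
        _ = _ := by rw [ENNReal.add_div, ENNReal.add_halves, mul_assoc]
    calc ((t0 : ℝ≥0∞)⁻¹) ^ 2 * ∑ y ∈ Bf, ∑ y' ∈ Bf, glat Λ b y * glat Λ y y' * glat Λ y' v
        ≤ ((t0 : ℝ≥0∞)⁻¹) ^ 2 * ∑ y ∈ Bf, glat Λ b y
            * ENNReal.ofReal (13 ^ 2 * C * R ^ ((1 : ℝ) + 1 / 1000)) := by
          apply mul_le_mul_right
          exact Finset.sum_le_sum hinner
      _ ≤ ((t0 : ℝ≥0∞)⁻¹) ^ 2 * (ENNReal.ofReal (13 * C * R ^ ((2 : ℝ) + 1 / 1000))
            * ENNReal.ofReal (13 ^ 2 * C * R ^ ((1 : ℝ) + 1 / 1000))) := by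
          rw [← Finset.sum_mul]
          gcongr
          calc ∑ y ∈ Bf, glat Λ b y = ∑ y ∈ Bf, ENNReal.ofReal (13 * ff ((y : Z3) - b)) := by
                apply Finset.sum_congr rfl
                intro y _
                rw [hg.symm b y]; rfl
            _ ≤ _ := hS1 b hb0
      _ = ENNReal.ofReal ((t0 : ℝ) ^ (-(2 : ℝ)) * (13 ^ 3 * C ^ 2 * R ^ ((3 : ℝ) + 2 / 1000))) := by
          have ht : ((t0 : ℝ≥0∞)⁻¹) ^ 2 = ENNReal.ofReal ((t0 : ℝ) ^ (-(2 : ℝ))) := by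
            have h0 : (0 : ℝ) < t0 := by exact_mod_cast (by omega : 0 < t0)
            rw [Real.rpow_neg h0.le, ENNReal.ofReal_inv_of_pos (by positivity), ← ENNReal.inv_pow]
            congr 1
            have : (t0 : ℝ) ^ (2 : ℝ) = (t0 : ℝ) ^ 2 := by norm_num
            rw [this, ENNReal.ofReal_pow h0.le, ENNReal.ofReal_natCast]
          rw [ht, ← ENNReal.ofReal_mul (by positivity), ← ENNReal.ofReal_mul (by positivity)]
          congr 1
          have hR0 : 0 < R := by linarith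
          have : R ^ ((3 : ℝ) + 2 / 1000) = R ^ ((2 : ℝ) + 1 / 1000) * R ^ ((1 : ℝ) + 1 / 1000) := by
            rw [← Real.rpow_add hR0]; norm_num
          rw [this]; ring
      _ ≤ _ := by
          apply ENNReal.ofReal_le_ofReal
          unfold p0f
          have : 0 < 13 / rad t0 := by
            have := rad_pos ht0
            positivity
          linarith
  · refine hfirst.trans ?_
    apply ENNReal.ofReal_le_ofReal
    have hR := rad_pos ht0
    have h3 : ff ((v : Z3) - b) ≤ 1 / rad t0 := by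
      apply ff_le_of_sqn hR
      by_contra h
      apply hv
      show sqn ((v : Z3) - b) ≤ rad t0 ^ 2
      linarith
    unfold p0f
    have h4 : 0 ≤ (t0 : ℝ) ^ (-(2 : ℝ)) * (13 ^ 3 * C ^ 2 * rad t0 ^ ((3 : ℝ) + 2 / 1000)) := by
      positivity
    calc 13 * ff ((v : Z3) - b) ≤ 13 * (1 / rad t0) := by linarith
      _ = 13 / rad t0 := by ring
      _ ≤ _ := by linarith

end Pool.Agent.Lib.MP_e4a9a7_pr.D3
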