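import Mathlib
import Pool.Agent.Lib.MP_e4a9a7_pr.D3.FinVisit
import Pool.Agent.Lib.MP_e4a9a7_pr.D3.FinSum
import Pool.Agent.Lib.MP_e4a9a7_pr.D3.FinHit
import Pool.Agent.Lib.MP_e4a9a7_pr.D3.Combine

/-!
# The core of the finite-horizon coupling
-/

namespace Pool.Agent.Lib.MP_e4a9a7_pr.D3

open scoped ENNReal NNReal BigOperators
open MeasureTheory
open Classical

/-- box of side `2 L + 1` -/
noncomputable def box (L : ℕ) : Finset Z3 := Fintype.piFinset (fun _ => Finset.Icc (-(L : ℤ)) L)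

theorem mem_box (L : ℕ) (z : Z3) : z ∈ box L ↔ ∀ i, |z i| ≤ L := by
  unfold box
  rw [Fintype.mem_piFinset]
  simp only [Finset.mem_Icc, abs_le]

theorem abs_le_of_sqn {z : Z3} {r : ℝ} (hr : 0 ≤ r) (h : sqn z ≤ r ^ 2) (i : Fin 3) :
    ((|z i| : ℤ) : ℝ) ≤ r := by
  have h1 := (sqn_ge_coord z i).trans h
  have h2 := abs_le_of_sq_le_sq h1 hr
  rw [Int.cast_abs]
  exact h2

theorem exists_box (x y : Z3) (r : ℝ) (n : ℕ) : ∃ Λ : Finset Z3,
    (∀ z : Z3, sqn (z - x) ≤ r ^ 2 → z ∈ Λ) ∧ (∀ z : Z3, sqn (z - y) ≤ r ^ 2 → z ∈ Λ) ∧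
    Big Λ x n ∧ Big Λ y n := by
  obtain ⟨L, hL⟩ : ∃ L : ℕ, |r| + n + (∑ i, |x i| : ℤ) + (∑ i, |y i| : ℤ) ≤ L := exists_nat_ge _
  have hx0 : ∀ i, ((|x i| : ℤ) : ℝ) ≤ ((∑ i, |x i| : ℤ) : ℝ) := by
    intro i
    exact_mod_cast Finset.single_le_sum (f := fun i => |x i|) (fun _ _ => abs_nonneg _) (Finset.mem_univ i)
  have hy0 : ∀ i, ((|y i| : ℤ) : ℝ) ≤ ((∑ i, |y i| : ℤ) : ℝ) := by
    intro i
    exact_mod_cast Finset.single_le_sum (f := fun i => |y i|) (fun _ _ => abs_nonneg _) (Finset.mem_univ i)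
  have hx1 : (0 : ℝ) ≤ ((∑ i, |x i| : ℤ) : ℝ) := by
    exact_mod_cast Finset.sum_nonneg fun i _ => abs_nonneg (x i)
  have hy1 : (0 : ℝ) ≤ ((∑ i, |y i| : ℤ) : ℝ) := by
    exact_mod_cast Finset.sum_nonneg fun i _ => abs_nonneg (y i)
  have hr0 := abs_nonneg r
  have hn0 : (0 : ℝ) ≤ n := Nat.cast_nonneg n
  have hball : ∀ (b z : Z3), (∀ i, ((|b i| : ℤ) : ℝ) + |r| ≤ L) → sqn (z - b) ≤ r ^ 2 → z ∈ box L := by
    intro b z hb hz
    rw [mem_box]
    intro i
    rw [← sq_abs r] at hz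
    have h1 := abs_le_of_sqn (abs_nonneg r) hz i
    have h2 : |z i| ≤ |(z - b) i| + |b i| := by
      have : z i = (z - b) i + b i := by simp
      calc |z i| = |(z - b) i + b i| := by rw [← this]
        _ ≤ _ := abs_add_le _ _
    have h3 : ((|z i| : ℤ) : ℝ) ≤ L := by
      have : ((|z i| : ℤ) : ℝ) ≤ ((|(z - b) i| : ℤ) : ℝ) + ((|b i| : ℤ) : ℝ) := by exact_mod_cast h2
      linarith [hb i]
    exact_mod_cast h3
  have hbig : ∀ b : Z3, (∀ i, ((|b i| : ℤ) : ℝ) + n ≤ L) → Big (box L) b n := by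
    intro b hb u i hi
    rw [mem_box]
    intro j
    have h1 := abs_S_le u i j
    have h2 : |(b + S u i) j| ≤ |b j| + |S u i j| := by
      rw [Pi.add_apply]; exact abs_add_le _ _
    have h3 : ((|(b + S u i) j| : ℤ) : ℝ) ≤ L := by
      have h4 : ((|(b + S u i) j| : ℤ) : ℝ) ≤ ((|b j| : ℤ) : ℝ) + ((|S u i j| : ℤ) : ℝ) := by exact_mod_cast h2
      have h5 : ((|S u i j| : ℤ) : ℝ) ≤ (i : ℝ) := by exact_mod_cast h1
      have h6 : (i : ℝ) ≤ n := by exact_mod_cast hi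
      linarith [hb j]
    exact_mod_cast h3
  exact ⟨box L, fun z hz => hball x z (fun i => by linarith [hx0 i]) hz,
    fun z hz => hball y z (fun i => by linarith [hy0 i]) hz,
    hbig x (fun i => by linarith [hx0 i]), hbig y (fun i => by linarith [hy0 i])⟩

/-- bad event for one path -/
def BadP (Λ : Finset Z3) (b : Λ) (n : ℕ) (t0 : ℕ) (y : Z3) (s : Stp) (M : ℕ) (a : Lab Λ) : Prop :=
  (∃ i ≤ a.2.1 + a.2.2, 400 * (t0 : ℝ) < sqn (((att b a.1 i : Λ) : Z3) - b)) ∨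
  (∃ i ≤ n, ((att b a.1 i : Λ) : Z3) ∈ obst y s M (20 * Real.sqrt t0))

theorem bad_path (Λ : Finset Z3) (b : Λ) (n t0 : ℕ) (ht0 : 1 ≤ t0) (hn : 4 * t0 ≤ n)
    (t : List Λ → ℕ → ℕ → Cloud Λ → ℝ≥0∞) (B : Set Λ)
    (h1 : ∀ x d d' c, t x d d' c ≠ 0 → x.length = n ∧ d + d' ≤ n)
    (h2 : ∀ x d d', ∑' c, t x d d' c ≤ if att b x d ∈ B ∧ att b x (d + d') ∈ B then
      uq t0 d * uq t0 d' * pr (latP Λ) b x else 0)
    (y : Z3) (s : Stp) (M : ℕ)
    (hU : lineU y (stepVec s) M b / hM M + ballU (y + M • stepVec s) (20 * Real.sqrt t0) b ≤ 1 / 20) :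
    ∑' a : Lab Λ, (if BadP Λ b n t0 y s M a then ∑' c, t a.1 a.2.1 a.2.2 c else 0)
      ≤ ENNReal.ofReal (1 / 100 + 1 / 20) := by
  refine (lab_bound Λ b n t0 B t h1 h2 (BadP Λ b n t0 y s M)).trans ?_
  have hP : ∀ x, ∑ y, latP Λ x y ≤ 1 := (latNet Λ b).sub
  have ht0' : (0 : ℝ) < t0 := by exact_mod_cast (by omega : 0 < t0)
  have h3 : ∀ d d', uq t0 d * uq t0 d' * Ex (latP Λ) b n (fun w =>
        if d + d' ≤ n ∧ att b w d ∈ B ∧ att b w (d + d') ∈ B ∧ BadP Λ b n t0 y s M (w, d, d')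
        then 1 else 0) ≤ uq t0 d * uq t0 d' * ENNReal.ofReal (1 / 100 + 1 / 20) := by
    intro d d'
    by_cases hd : uq t0 d = 0
    · rw [hd]; simp
    by_cases hd' : uq t0 d' = 0
    · rw [hd']; simp
    apply mul_le_mul_right
    have hd1 : d < 2 * t0 := by
      by_contra h; apply hd; unfold uq; rw [if_neg]; intro h'; exact h h'.2
    have hd2 : d' < 2 * t0 := by
      by_contra h; apply hd'; unfold uq; rw [if_neg]; intro h'; exact h h'.2
    have hexit := Ex_exit (latP Λ) hP (sqd Λ b) (sqd_sub Λ b) (ENNReal.ofReal (400 * t0))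
      (by
        rw [ne_eq, ENNReal.ofReal_eq_zero, not_le]
        positivity) ENNReal.ofReal_ne_top n (4 * t0) hn b
    have hhit := hit_obst Λ b y s M (20 * Real.sqrt t0) n (1 / 20) hU
    have hsum : Ex (latP Λ) b n (fun w =>
        if d + d' ≤ n ∧ att b w d ∈ B ∧ att b w (d + d') ∈ B ∧ BadP Λ b n t0 y s M (w, d, d')
        then 1 else 0) ≤ Ex (latP Λ) b n (fun w =>
          (if ∃ i ≤ 4 * t0, ENNReal.ofReal (400 * t0) < sqd Λ b (att b w i) then 1 else 0)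
          + (if ∃ i ≤ n, ((att b w i : Λ) : Z3) ∈ obst y s M (20 * Real.sqrt t0) then 1 else 0)) := by
      apply Ex_mono
      intro w
      by_cases hb : BadP Λ b n t0 y s M (w, d, d')
      · rcases hb with ⟨i, hi, hi2⟩ | hb2
        · have hex : ∃ i ≤ 4 * t0, ENNReal.ofReal (400 * t0) < sqd Λ b (att b w i) := by
            refine ⟨i, by simp only at hi; omega, ?_⟩
            unfold sqd
            rw [ENNReal.ofReal_lt_ofReal_iff_of_nonneg (by positivity)]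
            exact hi2
          rw [if_pos hex]
          refine le_trans ?_ le_self_add
          split_ifs <;> simp
        · rw [if_pos hb2]
          refine le_trans ?_ le_add_self
          split_ifs <;> simp
      · rw [if_neg (fun h => hb h.2.2.2)]
        exact zero_le
    refine hsum.trans ?_
    rw [Ex_add, ENNReal.ofReal_add (by norm_num) (by norm_num)]
    refine add_le_add (hexit.trans ?_) hhit
    have hb0 : sqd Λ b b = 0 := by
      unfold sqd
      rw [sub_self]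
      have : sqn (0 : Z3) = 0 := by simp [sqn]
      rw [this]; simp
    rw [hb0, zero_add]
    have e : ((4 * t0 : ℕ) : ℝ≥0∞) = ENNReal.ofReal (4 * t0) := by
      rw [← ENNReal.ofReal_natCast]; push_cast; rfl
    rw [e, ← ENNReal.ofReal_div_of_pos (by positivity)]
    apply ENNReal.ofReal_le_ofReal
    rw [div_le_div_iff₀ (by positivity) (by norm_num)]
    linarith
  calc ∑' d, ∑' d', uq t0 d * uq t0 d' * Ex (latP Λ) b n (fun w =>
        if d + d' ≤ n ∧ att b w d ∈ B ∧ att b w (d + d') ∈ B ∧ BadP Λ b n t0 y s M (w, d, d')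
        then 1 else 0)
      ≤ ∑' d, ∑' d', uq t0 d * uq t0 d' * ENNReal.ofReal (1 / 100 + 1 / 20) := by
        apply ENNReal.tsum_le_tsum; intro d
        apply ENNReal.tsum_le_tsum; intro d'
        exact h3 d d'
    _ = _ := by
        simp only [ENNReal.tsum_mul_right, ENNReal.tsum_mul_left]
        rw [tsum_uq t0 ht0]; simp

theorem latP_eq (Λ : Finset Z3) (x y : Λ) (h : latP Λ x y ≠ 0) : (latP Λ x y : ℝ≥0∞) = 6⁻¹ := by
  unfold latP at h ⊢
  split_ifs at h ⊢ with h1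
  · rw [one_div, ENNReal.coe_inv (by norm_num)]; norm_num
  · exact absurd rfl h

theorem pr_lat (Λ : Finset Z3) (b : Λ) (x : List Λ) :
    pr (latP Λ) b x = 0 ∨ pr (latP Λ) b x = (6⁻¹) ^ x.length := by
  induction x generalizing b with
  | nil => right; simp [pr]
  | cons y x ih =>
    simp only [pr]
    by_cases h : latP Λ b y = 0
    · left; rw [h]; simp
    · rcases ih y with h2 | h2
      · left; rw [h2, mul_zero]
      · right; rw [latP_eq Λ b y h, h2, List.length_cons, pow_succ, mul_comm]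

end Pool.Agent.Lib.MP_e4a9a7_pr.D3
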