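import Mathlib
import Pool.Agent.Lib.MP_e4a9a7_pr.D3.FinCore

/-!
# The core of the finite-horizon coupling, II
-/

namespace Pool.Agent.Lib.MP_e4a9a7_pr.D3

open scoped ENNReal NNReal BigOperators
open MeasureTheory
open Classical

/-- choice of the initial time -/
theorem choose_t0 (Co Cl : ℝ) (hCl : 0 < Cl) (t00 : ℕ) (ht00 : 1 ≤ t00) :
    ∃ t0 : ℕ, t00 ≤ t0 ∧ 0 ≤ p0f Cl t0 ∧ Co * p0f Cl t0 ^ ((1 : ℝ) / 10) ≤ 1 / 20 := by
  have h1 : Filter.Tendsto (fun t0 : ℕ => Co * p0f Cl t0 ^ ((1 : ℝ) / 10)) Filter.atTop (nhds 0) := by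
    have h2 := (p0f_tendsto Cl).rpow_const (p := (1 : ℝ) / 10) (Or.inr (by norm_num))
    rw [Real.zero_rpow (by norm_num)] at h2
    have h3 := h2.const_mul Co
    simpa using h3
  have h4 : ∀ᶠ t0 : ℕ in Filter.atTop, Co * p0f Cl t0 ^ ((1 : ℝ) / 10) ≤ 1 / 20 := by
    filter_upwards [h1.eventually (gt_mem_nhds (show (0 : ℝ) < 1 / 20 by norm_num))] with t ht
    exact ht.le
  obtain ⟨t0, h5, h6⟩ := (h4.and (Filter.eventually_ge_atTop t00)).exists
  refine ⟨t0, h6, ?_, h5⟩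
  have ht0 : 1 ≤ t0 := ht00.trans h6
  have hR := rad_pos ht0
  unfold p0f
  positivity

/-- choice of the length of the prefixes -/
theorem choose_M (r : ℝ) : ∃ M : ℕ, 1 / hM M + Real.sqrt (r ^ 2 + 3) / (2 * M + 1) ≤ 1 / 20 := by
  have h1 : Filter.Tendsto (fun M : ℕ => 1 / hM M) Filter.atTop (nhds 0) := by
    refine hM_tendsto.inv_tendsto_atTop.congr (fun M => ?_)
    rw [one_div]; rfl
  have h2 : Filter.Tendsto (fun M : ℕ => Real.sqrt (r ^ 2 + 3) / (2 * (M : ℝ) + 1)) Filter.atTop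
      (nhds 0) := by
    apply Filter.Tendsto.div_atTop tendsto_const_nhds
    apply Filter.tendsto_atTop_add_const_right
    exact tendsto_natCast_atTop_atTop.const_mul_atTop (by norm_num)
  have h3 := h1.add h2
  rw [add_zero] at h3
  obtain ⟨M, hM⟩ := (h3.eventually (gt_mem_nhds (show (0 : ℝ) < 1 / 20 by norm_num))).exists
  exact ⟨M, hM.le⟩

/-- arithmetic of the masses -/
theorem mass_arith {SX SY m g : ℝ≥0∞} (a1 : 1 ≤ SX + ENNReal.ofReal (1 / 20))
    (a2 : 1 ≤ SY + ENNReal.ofReal (1 / 20)) (a3 : SX + SY ≤ 1 + m + ENNReal.ofReal (1 / 20))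
    (a4 : m ≤ g + ENNReal.ofReal (1 / 20) + ENNReal.ofReal (1 / 100 + 1 / 20)
      + ENNReal.ofReal (1 / 100 + 1 / 20)) : ENNReal.ofReal (1 / 2) ≤ g := by
  by_contra hcon
  rw [not_le] at hcon
  have hg : g ≠ ∞ := ne_top_of_lt hcon
  have hm : m ≠ ∞ := ne_top_of_le_ne_top (by simp [hg]) a4
  have hs : SX + SY ≠ ∞ := ne_top_of_le_ne_top (by simp [hm]) a3
  have hSX : SX ≠ ∞ := fun h => hs (by simp [h])
  have hSY : SY ≠ ∞ := fun h => hs (by simp [h])
  lift g to ℝ≥0 using hg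
  lift m to ℝ≥0 using hm
  lift SX to ℝ≥0 using hSX
  lift SY to ℝ≥0 using hSY
  have b1 := ENNReal.toReal_mono (by simp) a1
  have b2 := ENNReal.toReal_mono (by simp) a2
  have b3 := ENNReal.toReal_mono (by simp) a3
  have b4 := ENNReal.toReal_mono (by simp) a4
  have b5 := ENNReal.toReal_mono (by simp) hcon.le
  rw [ENNReal.toReal_add (by simp) (by simp), ENNReal.toReal_ofReal (by norm_num)] at b1 b2
  rw [ENNReal.toReal_add (by simp) (by simp), ENNReal.toReal_add (by simp) (by simp),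
    ENNReal.toReal_add (by simp) (by simp), ENNReal.toReal_ofReal (by norm_num)] at b3
  rw [ENNReal.toReal_add (by simp) (by simp), ENNReal.toReal_add (by simp) (by simp),
    ENNReal.toReal_add (by simp) (by simp), ENNReal.toReal_ofReal (by norm_num),
    ENNReal.toReal_ofReal (by norm_num)] at b4
  rw [ENNReal.toReal_ofReal (by norm_num)] at b5
  simp only [ENNReal.coe_toReal, ENNReal.toReal_one] at b1 b2 b3 b4 b5
  have b6 : (g : ℝ) < 1 / 2 := by
    have := (ENNReal.toReal_lt_toReal (by simp) (by simp)).2 hcon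
    rwa [ENNReal.coe_toReal, ENNReal.toReal_ofReal (by norm_num)] at this
  linarith

/-- marginal over the durations -/
noncomputable def Phi (Λ : Finset Z3) (G : Lab Λ → Lab Λ → Prop) (F : Lab Λ → Lab Λ → ℝ≥0∞)
    (xl yl : List Λ) : ℝ≥0∞ :=
  ∑' dd : ℕ × ℕ, ∑' ee : ℕ × ℕ, if G (xl, dd) (yl, ee) then F (xl, dd) (yl, ee) else 0

theorem Phi_sum (Λ : Finset Z3) (G : Lab Λ → Lab Λ → Prop) (F : Lab Λ → Lab Λ → ℝ≥0∞) :
    ∑' xl, ∑' yl, Phi Λ G F xl yl = ∑' a, ∑' a', if G a a' then F a a' else 0 := by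
  unfold Phi
  rw [ENNReal.tsum_prod' (f := fun a : List Λ × (ℕ × ℕ) => ∑' a', if G a a' then F a a' else 0)]
  apply tsum_congr; intro xl
  rw [ENNReal.tsum_comm]
  apply tsum_congr; intro dd
  rw [ENNReal.tsum_prod' (f := fun a' : List Λ × (ℕ × ℕ) => if G (xl, dd) a' then F (xl, dd) a' else 0)]

theorem Phi_row (Λ : Finset Z3) (G : Lab Λ → Lab Λ → Prop) (F : Lab Λ → Lab Λ → ℝ≥0∞)
    (xl : List Λ) : ∑' yl, Phi Λ G F xl yl ≤ ∑' dd : ℕ × ℕ, ∑' a', F (xl, dd) a' := by
  unfold Phi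
  rw [ENNReal.tsum_comm]
  apply ENNReal.tsum_le_tsum; intro dd
  rw [ENNReal.tsum_prod' (f := fun a' : List Λ × (ℕ × ℕ) => F (xl, dd) a')]
  apply ENNReal.tsum_le_tsum; intro yl
  apply ENNReal.tsum_le_tsum; intro ee
  split_ifs
  · exact le_rfl
  · exact zero_le

theorem Phi_col (Λ : Finset Z3) (G : Lab Λ → Lab Λ → Prop) (F : Lab Λ → Lab Λ → ℝ≥0∞)
    (yl : List Λ) : ∑' xl, Phi Λ G F xl yl ≤ ∑' ee : ℕ × ℕ, ∑' a, F a (yl, ee) := by
  unfold Phi
  have e : ∀ xl : List Λ, ∑' dd : ℕ × ℕ, ∑' ee : ℕ × ℕ,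
      (if G (xl, dd) (yl, ee) then F (xl, dd) (yl, ee) else 0)
      = ∑' ee : ℕ × ℕ, ∑' dd : ℕ × ℕ,
      (if G (xl, dd) (yl, ee) then F (xl, dd) (yl, ee) else 0) := fun xl => ENNReal.tsum_comm
  simp only [e]
  rw [ENNReal.tsum_comm]
  apply ENNReal.tsum_le_tsum; intro ee
  rw [ENNReal.tsum_prod' (f := fun a : List Λ × (ℕ × ℕ) => F a (yl, ee))]
  apply ENNReal.tsum_le_tsum; intro xl
  apply ENNReal.tsum_le_tsum; intro dd
  split_ifs
  · exact le_rfl
  · exact zero_le

/-- total mass of a path for a law bounded by the walk -/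
theorem row_bound (Λ : Finset Z3) (b : Λ) (n t0 : ℕ) (ht0 : 1 ≤ t0) (B : Set Λ)
    (t : List Λ → ℕ → ℕ → Cloud Λ → ℝ≥0∞)
    (h1 : ∀ x d d' c, t x d d' c ≠ 0 → x.length = n ∧ d + d' ≤ n)
    (h2 : ∀ x d d', ∑' c, t x d d' c ≤ if att b x d ∈ B ∧ att b x (d + d') ∈ B then
      uq t0 d * uq t0 d' * pr (latP Λ) b x else 0) (x : List Λ) :
    (∑' dd : ℕ × ℕ, ∑' c, t x dd.1 dd.2 c ≤ pr (latP Λ) b x) ∧
    (x.length ≠ n → ∑' dd : ℕ × ℕ, ∑' c, t x dd.1 dd.2 c = 0) := by
  constructor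
  · rw [ENNReal.tsum_prod']
    calc ∑' d, ∑' d', ∑' c, t x d d' c ≤ ∑' d, ∑' d', uq t0 d * uq t0 d' * pr (latP Λ) b x := by
          apply ENNReal.tsum_le_tsum; intro d
          apply ENNReal.tsum_le_tsum; intro d'
          refine (h2 x d d').trans ?_
          split_ifs
          · exact le_rfl
          · exact zero_le
      _ = _ := by
          simp only [ENNReal.tsum_mul_right, ENNReal.tsum_mul_left]
          rw [tsum_uq t0 ht0]; simp
  · intro hx
    rw [ENNReal.tsum_eq_zero]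
    intro dd
    rw [ENNReal.tsum_eq_zero]
    intro c
    by_contra h
    exact hx (h1 _ _ _ _ h).1

/-- from the coupling of the labels to a kernel on step sequences -/
theorem kernel_of_F (Λ : Finset Z3) (bX bY : Λ) (n : ℕ) (hbX : Big Λ bX n) (hbY : Big Λ bY n)
    (Ph : List Λ → List Λ → ℝ≥0∞)
    (hrow : ∀ xl, ∑' yl, Ph xl yl ≤ pr (latP Λ) bX xl)
    (hcol : ∀ yl, ∑' xl, Ph xl yl ≤ pr (latP Λ) bY yl)
    (hlenX : ∀ xl yl, Ph xl yl ≠ 0 → xl.length = n)
    (hlenY : ∀ xl yl, Ph xl yl ≠ 0 → yl.length = n)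
    (g : ℝ) (hg : ENNReal.ofReal g ≤ ∑' xl, ∑' yl, Ph xl yl) :
    ∃ κ : Pth → Pth → ℝ, (∀ u v, 0 ≤ κ u v) ∧ (∀ u, av n (fun v => κ u v) ≤ 1) ∧
      (∀ v, av n (fun u => κ u v) ≤ 1) ∧ g ≤ av n (fun u => av n (fun v => κ u v)) ∧
      (∀ u v, κ u v ≠ 0 → Ph (lst Λ bX u n) (lst Λ bY v n) ≠ 0) := by
  have h66 : ((6 : ℝ≥0∞)⁻¹) ^ n * 6 ^ n = 1 := by
    rw [← mul_pow, ENNReal.inv_mul_cancel (by norm_num) (by norm_num), one_pow]
  have hprle : ∀ (b : Λ) (x : List Λ), x.length = n → pr (latP Λ) b x * 6 ^ n ≤ 1 := by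
    intro b x hx
    rcases pr_lat Λ b x with h | h
    · rw [h, zero_mul]; exact zero_le
    · rw [h, hx, h66]
  have hpreq : ∀ (b : Λ) (x : List Λ), x.length = n → pr (latP Λ) b x ≠ 0 →
      pr (latP Λ) b x * 6 ^ n = 1 := by
    intro b x hx h0
    rcases pr_lat Λ b x with h | h
    · exact absurd h h0
    · rw [h, hx, h66]
  have hleX : ∀ xl yl, Ph xl yl ≤ pr (latP Λ) bX xl := fun xl yl =>
    (ENNReal.le_tsum yl).trans (hrow xl)
  have hleY : ∀ xl yl, Ph xl yl ≤ pr (latP Λ) bY yl := fun xl yl =>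
    (ENNReal.le_tsum (f := fun xl => Ph xl yl) xl).trans (hcol yl)
  have hpr1 : ∀ (b : Λ) (x : List Λ), pr (latP Λ) b x ≤ 1 := by
    intro b x
    rcases pr_lat Λ b x with h | h
    · rw [h]; exact zero_le
    · rw [h]
      apply pow_le_one₀ zero_le
      rw [ENNReal.inv_le_one]
      norm_num
  have hfin : ∀ xl yl, Ph xl yl ≠ ∞ := fun xl yl =>
    ne_top_of_le_ne_top (by simp) ((hleX xl yl).trans (hpr1 _ _))
  set Q : List Λ → List Λ → ℝ≥0∞ := fun xl yl => 6 ^ n * 6 ^ n * Ph xl yl with hQ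
  have hQfin : ∀ xl yl, Q xl yl ≠ ∞ := by
    intro xl yl
    exact ENNReal.mul_ne_top (ENNReal.mul_ne_top (ENNReal.pow_ne_top (by norm_num))
      (ENNReal.pow_ne_top (by norm_num))) (hfin xl yl)
  have hExX : ∀ xl : List Λ, xl.length = n → Ex (latP Λ) bY n (fun yl => Q xl yl) ≤ 1 := by
    intro xl hxl
    rw [← tsum_len]
    calc ∑' yl : List Λ, (if yl.length = n then pr (latP Λ) bY yl * Q xl yl else 0)
        ≤ ∑' yl : List Λ, 6 ^ n * Ph xl yl := by
          apply ENNReal.tsum_le_tsum; intro yl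
          split_ifs with hyl
          · calc pr (latP Λ) bY yl * Q xl yl
                = (pr (latP Λ) bY yl * 6 ^ n) * (6 ^ n * Ph xl yl) := by
                  simp only [hQ]; ring
              _ ≤ 1 * (6 ^ n * Ph xl yl) := mul_le_mul_left (hprle bY yl hyl) _
              _ = _ := one_mul _
          · exact zero_le
      _ = 6 ^ n * ∑' yl, Ph xl yl := ENNReal.tsum_mul_left
      _ ≤ 6 ^ n * pr (latP Λ) bX xl := mul_le_mul_right (hrow xl) _
      _ ≤ 1 := by rw [mul_comm]; exact hprle bX xl hxl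
  have hExY : ∀ yl : List Λ, yl.length = n → Ex (latP Λ) bX n (fun xl => Q xl yl) ≤ 1 := by
    intro yl hyl
    rw [← tsum_len]
    calc ∑' xl : List Λ, (if xl.length = n then pr (latP Λ) bX xl * Q xl yl else 0)
        ≤ ∑' xl : List Λ, 6 ^ n * Ph xl yl := by
          apply ENNReal.tsum_le_tsum; intro xl
          split_ifs with hxl
          · calc pr (latP Λ) bX xl * Q xl yl
                = (pr (latP Λ) bX xl * 6 ^ n) * (6 ^ n * Ph xl yl) := by
                  simp only [hQ]; ring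
              _ ≤ 1 * (6 ^ n * Ph xl yl) := mul_le_mul_left (hprle bX xl hxl) _
              _ = _ := one_mul _
          · exact zero_le
      _ = 6 ^ n * ∑' xl, Ph xl yl := ENNReal.tsum_mul_left
      _ ≤ 6 ^ n * pr (latP Λ) bY yl := mul_le_mul_right (hcol yl) _
      _ ≤ 1 := by rw [mul_comm]; exact hprle bY yl hyl
  refine ⟨fun u v => (Q (lst Λ bX u n) (lst Λ bY v n)).toReal, fun u v => ENNReal.toReal_nonneg,
    ?_, ?_, ?_, ?_⟩
  · intro u
    have h1 := hExX (lst Λ bX u n) (lst_length Λ bX u n)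
    rw [Ex_eq_av Λ bY n hbY (fun yl => Q (lst Λ bX u n) yl) (fun w => hQfin _ _),
      ← ENNReal.ofReal_one] at h1
    exact (ENNReal.ofReal_le_ofReal_iff (by norm_num)).1 h1
  · intro v
    have h1 := hExY (lst Λ bY v n) (lst_length Λ bY v n)
    rw [Ex_eq_av Λ bX n hbX (fun xl => Q xl (lst Λ bY v n)) (fun w => hQfin _ _),
      ← ENNReal.ofReal_one] at h1
    exact (ENNReal.ofReal_le_ofReal_iff (by norm_num)).1 h1
  · -- total mass
    have hExfin : ∀ xl : List Λ, (if xl.length = n then Ex (latP Λ) bY n (fun yl => Q xl yl) else 0) ≠ ∞ := by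
      intro xl
      split_ifs with h
      · exact ne_top_of_le_ne_top (by simp) (hExX xl h)
      · simp
    have h1 : Ex (latP Λ) bX n (fun xl => if xl.length = n then
        Ex (latP Λ) bY n (fun yl => Q xl yl) else 0)
        = ENNReal.ofReal (av n (fun u => av n (fun v => (Q (lst Λ bX u n) (lst Λ bY v n)).toReal))) := by
      rw [Ex_eq_av Λ bX n hbX _ hExfin]
      congr 1
      apply av_congr
      intro u
      rw [if_pos (lst_length Λ bX u n),
        Ex_eq_av Λ bY n hbY (fun yl => Q (lst Λ bX u n) yl) (fun w => hQfin _ _)]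
      rw [ENNReal.toReal_ofReal (av_nonneg n fun v => ENNReal.toReal_nonneg)]
    have h2 : Ex (latP Λ) bX n (fun xl => if xl.length = n then
        Ex (latP Λ) bY n (fun yl => Q xl yl) else 0) = ∑' xl, ∑' yl, Ph xl yl := by
      rw [← tsum_len]
      apply tsum_congr; intro xl
      by_cases hxl : xl.length = n
      · rw [if_pos hxl, if_pos hxl, ← tsum_len, ← ENNReal.tsum_mul_left]
        apply tsum_congr; intro yl
        by_cases hyl : yl.length = n
        · rw [if_pos hyl]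
          by_cases h0 : Ph xl yl = 0
          · simp only [hQ, h0, mul_zero]
          · have hX0 : pr (latP Λ) bX xl ≠ 0 := by
              intro h; apply h0
              have := hleX xl yl
              rw [h] at this
              exact le_antisymm this zero_le
            have hY0 : pr (latP Λ) bY yl ≠ 0 := by
              intro h; apply h0
              have := hleY xl yl
              rw [h] at this
              exact le_antisymm this zero_le
            calc pr (latP Λ) bX xl * (pr (latP Λ) bY yl * Q xl yl)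
                = (pr (latP Λ) bX xl * 6 ^ n) * ((pr (latP Λ) bY yl * 6 ^ n) * Ph xl yl) := by
                  simp only [hQ]; ring
              _ = Ph xl yl := by rw [hpreq bX xl hxl hX0, hpreq bY yl hyl hY0, one_mul, one_mul]
        · rw [if_neg hyl, mul_zero]
          by_contra h
          exact hyl (hlenY xl yl (Ne.symm h))
      · rw [if_neg hxl]
        symm
        rw [ENNReal.tsum_eq_zero]
        intro yl
        by_contra h
        exact hxl (hlenX xl yl h)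
    have h3 : ENNReal.ofReal g ≤ ENNReal.ofReal
        (av n (fun u => av n (fun v => (Q (lst Λ bX u n) (lst Λ bY v n)).toReal))) := by
      rw [← h1, h2]; exact hg
    exact (ENNReal.ofReal_le_ofReal_iff
      (av_nonneg n fun u => av_nonneg n fun v => ENNReal.toReal_nonneg)).1 h3
  · intro u v h h0
    apply h
    simp only [hQ, h0, mul_zero, ENNReal.toReal_zero]

end Pool.Agent.Lib.MP_e4a9a7_pr.D3
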