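import Mathlib
import Pool.Agent.Lib.MP_e4a9a7_pr.D3.FinCore2

/-!
# The finite-horizon coupling
-/

namespace Pool.Agent.Lib.MP_e4a9a7_pr.D3

open scoped ENNReal NNReal BigOperators
open MeasureTheory
open Classical

theorem core3 (x y : Z3) (i : Fin 3) (sX sY : Stp)
    (h : (x i < y i ∧ stepVec sX i = -1 ∧ stepVec sY i = 1) ∨
      (y i < x i ∧ stepVec sX i = 1 ∧ stepVec sY i = -1)) :
    ∃ M t0 : ℕ, ∀ n, 4 * t0 ≤ n → ∃ κ : Pth → Pth → ℝ,
      (∀ u v, 0 ≤ κ u v) ∧ (∀ u, av n (fun v => κ u v) ≤ 1) ∧ (∀ v, av n (fun u => κ u v) ≤ 1) ∧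
      1 / 2 ≤ av n (fun u => av n (fun v => κ u v)) ∧
      (∀ u v, κ u v ≠ 0 →
        (∀ a ≤ n, ∀ c ≤ n, x + M • stepVec sX + S u a ≠ y + M • stepVec sY + S v c) ∧
        (∀ a ≤ n, ∀ k ≤ M, x + M • stepVec sX + S u a ≠ y + k • stepVec sY) ∧
        (∀ c ≤ n, ∀ k ≤ M, y + M • stepVec sY + S v c ≠ x + k • stepVec sX)) := by
  have h' : (y i < x i ∧ stepVec sY i = -1 ∧ stepVec sX i = 1) ∨
      (x i < y i ∧ stepVec sY i = 1 ∧ stepVec sX i = -1) := by
    rcases h with ⟨h1, h2, h3⟩ | ⟨h1, h2, h3⟩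
    · exact Or.inr ⟨h1, h3, h2⟩
    · exact Or.inl ⟨h1, h3, h2⟩
  obtain ⟨K, hK0, hbad⟩ := bad_field (1 / 20) (by norm_num)
  obtain ⟨Co, hCo0, hCo⟩ := overlap_sum K hK0
  obtain ⟨Cl, hCl, hlate⟩ := late_bound
  obtain ⟨t00, ht00, hhide⟩ := hide3 (1 / 20) (by norm_num)
  obtain ⟨t0, ht0a, hp0, hov⟩ := choose_t0 Co Cl hCl t00 ht00
  have ht0 : 1 ≤ t0 := ht00.trans ht0a
  obtain ⟨M, hM⟩ := choose_M (20 * Real.sqrt t0)
  refine ⟨M, t0, ?_⟩
  intro n hn
  obtain ⟨ρ, hρ⟩ := hhide t0 ht0a n hn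
  set x' : Z3 := x + M • stepVec sX with hx'
  set y' : Z3 := y + M • stepVec sY with hy'
  obtain ⟨Λ, hΛx, hΛy, hBx, hBy⟩ := exists_box x' y' ρ n
  have hxm : x' ∈ Λ := by simpa using hBx dflt 0 (Nat.zero_le n)
  have hym : y' ∈ Λ := by simpa using hBy dflt 0 (Nat.zero_le n)
  set bX : Λ := ⟨x', hxm⟩ with hbX
  set bY : Λ := ⟨y', hym⟩ with hbY
  obtain ⟨tX, hX1, hX2, hX3, hX4, hX5⟩ := hρ Λ bX hΛx
  obtain ⟨tY, hY1, hY2, hY3, hY4, hY5⟩ := hρ Λ bY hΛy
  have hUX := far_bound x y i sX sY M (20 * Real.sqrt t0) h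
  have hUY := far_bound y x i sY sX M (20 * Real.sqrt t0) h'
  -- combination
  obtain ⟨F, hF1, hF2, hF3, hF4⟩ := combine (latNet Λ bX) (latNet Λ bY) rfl
    (fun a : Lab Λ => tX a.1 a.2.1 a.2.2) (fun a : Lab Λ => tY a.1 a.2.1 a.2.2)
    (by intro c; rw [tsum_lab']; exact hX2 c) (by intro c; rw [tsum_lab']; exact hY2 c)
    (UU Λ bX n) (UU Λ bY n)
    (by
      rintro a c hac v ⟨j, hj1, hj2, rfl⟩
      exact hX5 _ _ _ _ hac j hj1 hj2)
    (by
      rintro a c hac v ⟨j, hj1, hj2, rfl⟩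
      exact hY5 _ _ _ _ hac j hj1 hj2)
    (fun v : Λ => (TTr K ((v : Z3) - bX)).toNNReal)
  -- masses
  have a1 : 1 ≤ (∑' a : Lab Λ, ∑' c, tX a.1 a.2.1 a.2.2 c) + ENNReal.ofReal (1 / 20) := by
    rw [tsum_lab']; exact hX4
  have a2 : 1 ≤ (∑' a : Lab Λ, ∑' c, tY a.1 a.2.1 a.2.2 c) + ENNReal.ofReal (1 / 20) := by
    rw [tsum_lab']; exact hY4
  have a3 : (∑' a : Lab Λ, ∑' c, tX a.1 a.2.1 a.2.2 c) + (∑' a : Lab Λ, ∑' c, tY a.1 a.2.1 a.2.2 c)
      ≤ 1 + (∑' a, ∑' a', F a a') + ENNReal.ofReal (1 / 20) := by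
    refine hF3.trans ?_
    apply add_le_add le_rfl
    refine le_trans (le_of_eq ?_) (hbad Λ bX bX)
    congr 2
    ext φ
    simp only [Set.mem_ofPred_eq, Real.coe_toNNReal _ (TT_nonneg hK0 _)]
  -- overlap
  have hovl : ∑' a, ∑' a', (if (UU Λ bX n a ∩ UU Λ bY n a').Nonempty then F a a' else 0)
      ≤ ENNReal.ofReal (1 / 20) := by
    refine hF4.trans ?_
    refine (hCo Λ bX bY (fun v => ∑' a : Lab Λ, if v ∈ UU Λ bX n a then
      ∑' c, tX a.1 a.2.1 a.2.2 c else 0) (p0f Cl t0) hp0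
      (fun v => (hlate Λ bX t0 ht0 n tX hX1 hX3 v).1)
      (fun v => (hlate Λ bX t0 ht0 n tX hX1 hX3 v).2)).trans ?_
    exact ENNReal.ofReal_le_ofReal hov
  -- bad paths
  have hbX := bad_path Λ bX n t0 ht0 hn tX _ hX1 hX3 y sY M (hUX.trans hM)
  have hbY := bad_path Λ bY n t0 ht0 hn tY _ hY1 hY3 x sX M (hUY.trans hM)
  set BX : Lab Λ → Prop := BadP Λ bX n t0 y sY M with hBX
  set BY : Lab Λ → Prop := BadP Λ bY n t0 x sX M with hBY
  set G : Lab Λ → Lab Λ → Prop := fun a a' =>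
    ¬ (UU Λ bX n a ∩ UU Λ bY n a').Nonempty ∧ ¬ BX a ∧ ¬ BY a' with hG
  have a4 : (∑' a, ∑' a', F a a') ≤ (∑' a, ∑' a', if G a a' then F a a' else 0)
      + ENNReal.ofReal (1 / 20) + ENNReal.ofReal (1 / 100 + 1 / 20)
      + ENNReal.ofReal (1 / 100 + 1 / 20) := by
    have hpt : ∀ a a', F a a' ≤ (if G a a' then F a a' else 0)
        + (if (UU Λ bX n a ∩ UU Λ bY n a').Nonempty then F a a' else 0)
        + (if BX a then F a a' else 0) + (if BY a' then F a a' else 0) := by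
      intro a a'
      by_cases q1 : (UU Λ bX n a ∩ UU Λ bY n a').Nonempty
      · rw [if_pos q1]
        calc F a a' ≤ (if G a a' then F a a' else 0) + F a a' := le_add_self
          _ ≤ _ := by rw [add_assoc (_ + F a a')]; exact le_self_add
      · by_cases q2 : BX a
        · rw [if_pos q2]
          calc F a a' ≤ ((if G a a' then F a a' else 0)
                + (if (UU Λ bX n a ∩ UU Λ bY n a').Nonempty then F a a' else 0)) + F a a' := le_add_self
            _ ≤ _ := le_self_add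
        · by_cases q3 : BY a'
          · rw [if_pos q3]; exact le_add_self
          · rw [if_pos (show G a a' from ⟨q1, q2, q3⟩), add_assoc, add_assoc]
            exact le_self_add
    have hs : (∑' a, ∑' a', F a a') ≤ (∑' a, ∑' a', if G a a' then F a a' else 0)
        + (∑' a, ∑' a', (if (UU Λ bX n a ∩ UU Λ bY n a').Nonempty then F a a' else 0))
        + (∑' a, ∑' a', if BX a then F a a' else 0) + (∑' a, ∑' a', if BY a' then F a a' else 0) := by
      rw [← ENNReal.tsum_add, ← ENNReal.tsum_add, ← ENNReal.tsum_add]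
      apply ENNReal.tsum_le_tsum; intro a
      rw [← ENNReal.tsum_add, ← ENNReal.tsum_add, ← ENNReal.tsum_add]
      apply ENNReal.tsum_le_tsum; intro a'
      exact hpt a a'
    refine hs.trans ?_
    gcongr
    · calc (∑' a, ∑' a', if BX a then F a a' else 0)
          ≤ ∑' a : Lab Λ, (if BX a then ∑' c, tX a.1 a.2.1 a.2.2 c else 0) := by
            apply ENNReal.tsum_le_tsum; intro a
            by_cases q : BX a
            · simp only [if_pos q]; exact hF1 a
            · simp only [if_neg q]; simp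
        _ ≤ _ := hbX
    · calc (∑' a, ∑' a', if BY a' then F a a' else 0)
          = ∑' a', ∑' a, (if BY a' then F a a' else 0) := ENNReal.tsum_comm
        _ ≤ ∑' a' : Lab Λ, (if BY a' then ∑' c, tY a'.1 a'.2.1 a'.2.2 c else 0) := by
            apply ENNReal.tsum_le_tsum; intro a'
            by_cases q : BY a'
            · simp only [if_pos q]; exact hF2 a'
            · simp only [if_neg q]; simp
        _ ≤ _ := hbY
  have hmass := mass_arith a1 a2 a3 a4
  -- kernel on step sequences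
  have hrowX := row_bound Λ bX n t0 ht0 _ tX hX1 hX3
  have hrowY := row_bound Λ bY n t0 ht0 _ tY hY1 hY3
  have hr : ∀ xl, ∑' yl, Phi Λ G F xl yl ≤ ∑' dd : ℕ × ℕ, ∑' c, tX xl dd.1 dd.2 c := by
    intro xl
    refine (Phi_row Λ G F xl).trans ?_
    apply ENNReal.tsum_le_tsum; intro dd
    exact hF1 (xl, dd)
  have hc : ∀ yl, ∑' xl, Phi Λ G F xl yl ≤ ∑' ee : ℕ × ℕ, ∑' c, tY yl ee.1 ee.2 c := by
    intro yl
    refine (Phi_col Λ G F yl).trans ?_
    apply ENNReal.tsum_le_tsum; intro ee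
    exact hF2 (yl, ee)
  obtain ⟨κ, k1, k2, k3, k4, k5⟩ := kernel_of_F Λ bX bY n hBx hBy (Phi Λ G F)
    (fun xl => (hr xl).trans (hrowX xl).1) (fun yl => (hc yl).trans (hrowY yl).1)
    (by
      intro xl yl h0
      by_contra hl
      apply h0
      have h1 := (ENNReal.le_tsum yl).trans (hr xl)
      rw [(hrowX xl).2 hl] at h1
      exact le_antisymm h1 zero_le)
    (by
      intro xl yl h0
      by_contra hl
      apply h0
      have h1 := (ENNReal.le_tsum (f := fun xl => Phi Λ G F xl yl) xl).trans (hc yl)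
      rw [(hrowY yl).2 hl] at h1
      exact le_antisymm h1 zero_le)
    (1 / 2) (by rw [Phi_sum]; convert hmass)
  refine ⟨κ, k1, k2, k3, k4, ?_⟩
  intro u v huv
  have h0 := k5 u v huv
  obtain ⟨dd, ee, hGd⟩ : ∃ dd ee : ℕ × ℕ, G (lst Λ bX u n, dd) (lst Λ bY v n, ee) := by
    by_contra hcon
    push Not at hcon
    apply h0
    unfold Phi
    simp only [if_neg (hcon _ _)]
    simp
  obtain ⟨g1, g2, g3⟩ := hGd
  have eX : ∀ a ≤ n, ((att bX (lst Λ bX u n) a : Λ) : Z3) = x' + S u a := fun a ha =>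
    att_lst Λ bX u n hBx a ha
  have eY : ∀ a ≤ n, ((att bY (lst Λ bY v n) a : Λ) : Z3) = y' + S v a := fun a ha =>
    att_lst Λ bY v n hBy a ha
  have hr2 : (20 * Real.sqrt t0) ^ 2 = 400 * (t0 : ℝ) := by
    rw [mul_pow, Real.sq_sqrt (Nat.cast_nonneg t0)]; norm_num
  -- X avoids the obstacle of Y and conversely
  have oX : ∀ a ≤ n, x' + S u a ∉ obst y sY M (20 * Real.sqrt t0) := by
    intro a ha hin
    apply g2
    refine Or.inr ⟨a, ha, ?_⟩
    change ((att bX (lst Λ bX u n) a : Λ) : Z3) ∈ _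
    rw [eX a ha]; exact hin
  have oY : ∀ a ≤ n, y' + S v a ∉ obst x sX M (20 * Real.sqrt t0) := by
    intro a ha hin
    apply g3
    refine Or.inr ⟨a, ha, ?_⟩
    change ((att bY (lst Λ bY v n) a : Λ) : Z3) ∈ _
    rw [eY a ha]; exact hin
  refine ⟨?_, ?_, ?_⟩
  · intro a ha c hc' hac
    by_cases q1 : dd.1 + dd.2 ≤ a
    · by_cases q2 : ee.1 + ee.2 ≤ c
      · apply g1
        refine ⟨att bX (lst Λ bX u n) a, ⟨a, q1, ha, rfl⟩, ⟨c, q2, hc', ?_⟩⟩
        apply Subtype.ext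
        change ((att bY (lst Λ bY v n) c : Λ) : Z3) = ((att bX (lst Λ bX u n) a : Λ) : Z3)
        rw [eX a ha, eY c hc']
        exact hac.symm
      · -- the initial part of `Y` is near `y'`
        have h3 : ¬ (400 * (t0 : ℝ) < sqn (y' + S v c - y')) := by
          intro hlt
          apply g3
          refine Or.inl ⟨c, by simp only; omega, ?_⟩
          change 400 * (t0 : ℝ) < sqn (((att bY (lst Λ bY v n) c : Λ) : Z3) - y')
          rw [eY c hc']; exact hlt
        apply oX a ha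
        right
        rw [hac, hr2]
        exact not_lt.1 h3
    · have h3 : ¬ (400 * (t0 : ℝ) < sqn (x' + S u a - x')) := by
        intro hlt
        apply g2
        refine Or.inl ⟨a, by simp only; omega, ?_⟩
        change 400 * (t0 : ℝ) < sqn (((att bX (lst Λ bX u n) a : Λ) : Z3) - x')
        rw [eX a ha]; exact hlt
      apply oY c hc'
      right
      rw [← hac, hr2]
      exact not_lt.1 h3
  · intro a ha k hk hak
    apply oX a ha
    left
    exact ⟨k, hk, hak⟩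
  · intro c hc' k hk hck
    apply oY c hc'
    left
    exact ⟨k, hk, hck⟩

theorem finite3 (x y : Z3) (hxy : x ≠ y) :
    ∃ c : ℝ, 0 < c ∧ ∀ n : ℕ, ∃ N, n ≤ N ∧ ∃ κ : Pth → Pth → ℝ, (∀ u v, 0 ≤ κ u v) ∧
     (∀ u, av N (fun v => κ u v) = 1) ∧ (∀ v, av N (fun u => κ u v) = 1) ∧
     c ≤ av N (fun u => av N (fun v =>
       if (∀ i ≤ N, ∀ j ≤ N, x + S u i ≠ y + S v j) then κ u v else 0)) := by
  obtain ⟨i, hi⟩ : ∃ i, x i ≠ y i := by
    by_contra h; push Not at h; exact hxy (funext h)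
  obtain ⟨sX, sY, hs⟩ : ∃ sX sY : Stp, (x i < y i ∧ stepVec sX i = -1 ∧ stepVec sY i = 1) ∨
      (y i < x i ∧ stepVec sX i = 1 ∧ stepVec sY i = -1) := by
    rcases lt_or_gt_of_ne hi with h | h
    · exact ⟨(i, false), (i, true), Or.inl ⟨h, by simp [stepVec], by simp [stepVec]⟩⟩
    · exact ⟨(i, true), (i, false), Or.inr ⟨h, by simp [stepVec], by simp [stepVec]⟩⟩
  obtain ⟨M, t0, hcore⟩ := core3 x y i sX sY hs
  refine ⟨(1 / 6) ^ M / 8, by positivity, ?_⟩
  intro n0
  set n := max n0 (4 * t0) with hn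
  obtain ⟨κ, k1, k2, k3, k4, k5⟩ := hcore n (le_max_right _ _)
  set N := M + n with hN
  set A : Pth → Prop := fun u => ∀ j < M, u j = sX with hA
  set B : Pth → Prop := fun u => ∀ j < M, u j = sY with hB
  set σ : Pth → Pth → ℝ := fun u v => ind (A u) * (ind (B v) * (6 ^ M / 4 *
    κ (sh M u) (sh M v))) with hσ
  have h66 : ((1 : ℝ) / 6) ^ M * 6 ^ M = 1 := by rw [← mul_pow]; norm_num
  have hσ0 : ∀ u v, 0 ≤ σ u v := fun u v => mul_nonneg (ind_nonneg _) (mul_nonneg (ind_nonneg _)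
    (mul_nonneg (by positivity) (k1 _ _)))
  have hr : ∀ u, av N (fun v => σ u v) ≤ 1 / 4 := by
    intro u
    have h1 : av N (fun v => σ u v) = ind (A u) * ((1 / 6) ^ M * av n (fun y => 6 ^ M / 4 *
        κ (sh M u) y)) := by
      rw [hσ, av_mul_left]
      congr 1
      exact av_init sY M n (fun y => 6 ^ M / 4 * κ (sh M u) y)
    rw [h1, av_mul_left]
    have h3 : 0 ≤ av n (fun y => κ (sh M u) y) := av_nonneg _ fun y => k1 _ _
    calc ind (A u) * ((1 / 6) ^ M * (6 ^ M / 4 * av n (fun y => κ (sh M u) y)))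
        = ind (A u) * (((1 / 6) ^ M * 6 ^ M) / 4 * av n (fun y => κ (sh M u) y)) := by ring
      _ = ind (A u) * (1 / 4 * av n (fun y => κ (sh M u) y)) := by rw [h66]
      _ ≤ 1 * (1 / 4 * 1) := by
          gcongr
          · exact ind_le_one _
          · exact k2 _
      _ = 1 / 4 := by ring
  have hc : ∀ v, av N (fun u => σ u v) ≤ 1 := by
    intro v
    have h1 : av N (fun u => σ u v) = (1 / 6) ^ M * av n (fun x => ind (B v) * (6 ^ M / 4 *
        κ x (sh M v))) :=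
      av_init sX M n (fun x => ind (B v) * (6 ^ M / 4 * κ x (sh M v)))
    rw [h1, av_mul_left, av_mul_left]
    have h3 : 0 ≤ av n (fun x => κ x (sh M v)) := av_nonneg _ fun y => k1 _ _
    calc (1 / 6) ^ M * (ind (B v) * (6 ^ M / 4 * av n (fun x => κ x (sh M v))))
        = ind (B v) * (((1 / 6) ^ M * 6 ^ M) / 4 * av n (fun x => κ x (sh M v))) := by ring
      _ = ind (B v) * (1 / 4 * av n (fun x => κ x (sh M v))) := by rw [h66]
      _ ≤ 1 * (1 / 4 * 1) := by
          gcongr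
          · exact ind_le_one _
          · exact k3 _
      _ ≤ 1 := by norm_num
  obtain ⟨τ, hτσ, hτ1, hτ2⟩ := completion N σ hr hc
  refine ⟨N, by omega, τ, fun u v => (hσ0 u v).trans (hτσ u v), hτ1, hτ2, ?_⟩
  -- disjointness
  have hdisj : ∀ u v : Pth, A u → B v → κ (sh M u) (sh M v) ≠ 0 →
      ∀ a ≤ N, ∀ b ≤ N, x + S u a ≠ y + S v b := by
    intro u v hAu hBv hκ a ha b hb hab
    obtain ⟨d1, d2, d3⟩ := k5 _ _ hκ
    by_cases h1 : a ≤ M
    · by_cases h2 : b ≤ M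
      · rw [S_init hAu h1, S_init hBv h2] at hab
        have h3 := congrFun hab i
        simp only [Pi.add_apply, nsm] at h3
        have ha0 : (0 : ℤ) ≤ a := Int.natCast_nonneg a
        have hb0 : (0 : ℤ) ≤ b := Int.natCast_nonneg b
        rcases hs with ⟨g1, g2, g3⟩ | ⟨g1, g2, g3⟩
        · rw [g2, g3] at h3; linarith
        · rw [g2, g3] at h3; linarith
      · obtain ⟨b', rfl⟩ := Nat.exists_eq_add_of_le (show M ≤ b by omega)
        rw [S_init hAu h1, S_add v, S_init hBv le_rfl, ← add_assoc] at hab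
        exact d3 b' (by omega) a h1 hab.symm
    · obtain ⟨a', rfl⟩ := Nat.exists_eq_add_of_le (show M ≤ a by omega)
      by_cases h2 : b ≤ M
      · rw [S_add u, S_init hAu le_rfl, S_init hBv h2, ← add_assoc] at hab
        exact d2 a' (by omega) b h2 hab
      · obtain ⟨b', rfl⟩ := Nat.exists_eq_add_of_le (show M ≤ b by omega)
        rw [S_add u, S_add v, S_init hAu le_rfl, S_init hBv le_rfl, ← add_assoc, ← add_assoc] at hab
        exact d1 a' (by omega) b' (by omega) hab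
  have hlow : ∀ u v : Pth, σ u v
      ≤ if (∀ i ≤ N, ∀ j ≤ N, x + S u i ≠ y + S v j) then τ u v else 0 := by
    intro u v
    have hτ0 : 0 ≤ τ u v := (hσ0 u v).trans (hτσ u v)
    by_cases hAu : A u
    · by_cases hBv : B v
      · by_cases hκ : κ (sh M u) (sh M v) = 0
        · have : σ u v = 0 := by simp only [hσ, hκ, mul_zero]
          rw [this]
          split_ifs
          · exact hτ0
          · exact le_rfl
        · rw [if_pos (hdisj u v hAu hBv hκ)]
          exact hτσ u v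
      · have : σ u v = 0 := by simp only [hσ, ind_not hBv, zero_mul, mul_zero]
        rw [this]
        split_ifs
        · exact hτ0
        · exact le_rfl
    · have : σ u v = 0 := by simp only [hσ, ind_not hAu, zero_mul]
      rw [this]
      split_ifs
      · exact hτ0
      · exact le_rfl
  refine le_trans ?_ (av_mono N fun u => av_mono N fun v => hlow u v)
  have h1 : ∀ u : Pth, av N (fun v => σ u v) = ind (A u) * ((1 / 6) ^ M * av n (fun y => 6 ^ M / 4 *
        κ (sh M u) y)) := by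
    intro u
    rw [hσ, av_mul_left]
    congr 1
    exact av_init sY M n (fun y => 6 ^ M / 4 * κ (sh M u) y)
  simp only [h1]
  have h2 : av N (fun u => ind (A u) * ((1 / 6) ^ M * av n (fun y => 6 ^ M / 4 *
        κ (sh M u) y)))
      = (1 / 6) ^ M * av n (fun x => (1 / 6) ^ M * av n (fun y => 6 ^ M / 4 * κ x y)) :=
    av_init sX M n (fun x => (1 / 6) ^ M * av n (fun y => 6 ^ M / 4 * κ x y))
  rw [h2]
  simp only [av_mul_left]
  calc ((1 : ℝ) / 6) ^ M / 8 = (1 / 6) ^ M * (1 / 4) * (1 / 2) := by ring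
    _ ≤ (1 / 6) ^ M * (1 / 4) * av n (fun u => av n (fun v => κ u v)) := by
        apply mul_le_mul_of_nonneg_left k4 (by positivity)
    _ = (1 / 6) ^ M * (((1 / 6) ^ M * 6 ^ M) / 4 * av n (fun u => av n (fun v => κ u v))) := by
        rw [h66]; ring
    _ = _ := by ring

/-- **Main theorem, `d = 3`.** -/
theorem main3 (x y : Fin 3 → ℤ) (hxy : x ≠ y) :
    ∃ (Ω : Type) (_ : MeasurableSpace Ω) (P : Measure Ω) (_ : IsProbabilityMeasure P)
      (X Y : ℕ → Ω → (Fin 3 → ℤ)),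
      IsSRW P x X ∧ IsSRW P y Y ∧ 0 < P {ω | ∀ n m, X n ω ≠ Y m ω} := by
  obtain ⟨c, hc, hfin⟩ := finite3 x y hxy
  refine limit_coupling x y c hc ?_
  intro n
  obtain ⟨N, hN, κ, h1, h2, h3, h4⟩ := hfin n
  refine ⟨N, hN, κ, h1, h2, h3, ?_⟩
  convert h4 using 6

end Pool.Agent.Lib.MP_e4a9a7_pr.D3
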